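import Mathlib

/-!
Zones of copies around a polygon in the Euclidean plane, modelled as the complex plane.
-/

namespace Pool.Agent.Lib.MP_270077_co

open Set

/-- A convex polygon: the convex hull of finitely many points, with nonempty interior. -/
def IsConvexPolygon (P : Set ℂ) : Prop :=
  ∃ V : Finset ℂ, P = convexHull ℝ (V : Set ℂ) ∧ (interior P).Nonempty

/-- `Q` is the image of `P` under an isometry of the plane (reflections allowed). -/
def IsCopy (P Q : Set ℂ) : Prop :=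
  ∃ g : ℂ ≃ᵢ ℂ, Q = g '' P

/-- The union of all copies in the zones `Z 0, ..., Z k`. -/
def patch (Z : ℕ → Set (Set ℂ)) (k : ℕ) : Set ℂ :=
  ⋃ j ≤ k, ⋃₀ Z j

/-- `P` can be surrounded by `r` successive zones. -/
def Surroundable (P : Set ℂ) (r : ℕ) : Prop :=
  ∃ Z : ℕ → Set (Set ℂ), Z 0 = {P} ∧ ∀ k, k < r →
    (Z (k + 1)).Finite ∧
    (∀ Q ∈ Z (k + 1), IsCopy P Q) ∧
    (∀ Q ∈ Z (k + 1), ∀ Q' ∈ Z (k + 1), Q ≠ Q' → Disjoint (interior Q) (interior Q')) ∧
    (∀ Q ∈ Z (k + 1), ∀ j ≤ k, ∀ Q' ∈ Z j, Disjoint (interior Q) (interior Q')) ∧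
    (∀ Q ∈ Z (k + 1), (Q ∩ patch Z k).Nonempty) ∧
    Nonempty (patch Z (k + 1) ≃ₜ Metric.closedBall (0 : ℂ) 1) ∧
    patch Z k ⊆ interior (patch Z (k + 1))

end Pool.Agent.Lib.MP_270077_co
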