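import Pool.Agent.Lib.MP_270077_co.Local

/-!
Exact arithmetic in the ring generated by the square root of three, and affine forms.
-/

namespace Pool.Agent.Lib.MP_270077_co

open Set Filter Topology Complex
open scoped ComplexConjugate

/-- The number `a + b * sqrt 3`. -/
structure Q3 where
  a : Int
  b : Int

namespace Q3

/-- Real value. -/
noncomputable def ev (x : Q3) : ℝ := x.a + x.b * √3

def add (x y : Q3) : Q3 := ⟨Int.add x.a y.a, Int.add x.b y.b⟩
def neg (x : Q3) : Q3 := ⟨Int.neg x.a, Int.neg x.b⟩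
def sub (x y : Q3) : Q3 := ⟨Int.sub x.a y.a, Int.sub x.b y.b⟩
def mul (x y : Q3) : Q3 :=
  ⟨Int.add (Int.mul x.a y.a) (Int.mul 3 (Int.mul x.b y.b)), Int.add (Int.mul x.a y.b) (Int.mul x.b y.a)⟩
def smul (k : Int) (x : Q3) : Q3 := ⟨Int.mul k x.a, Int.mul k x.b⟩

def posI (a b : Int) : Bool :=
  match a, b with
  | .ofNat m, .ofNat n => !(Nat.beq (Nat.add m n) 0)
  | .ofNat m, .negSucc n => Nat.blt (Nat.mul 3 (Nat.mul n.succ n.succ)) (Nat.mul m m)
  | .negSucc m, .ofNat n => Nat.blt (Nat.mul m.succ m.succ) (Nat.mul 3 (Nat.mul n n))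
  | .negSucc _, .negSucc _ => false

def zeroI (a : Int) : Bool :=
  match a with
  | .ofNat m => Nat.beq m 0
  | .negSucc _ => false

def pos (x : Q3) : Bool := posI x.a x.b
def isZero (x : Q3) : Bool := zeroI x.a && zeroI x.b
def nonneg (x : Q3) : Bool := x.pos || x.isZero

@[simp] theorem ev_add (x y : Q3) : (x.add y).ev = x.ev + y.ev := by
  simp only [ev, add, Int.add_def]; push_cast; ring
@[simp] theorem ev_neg (x : Q3) : x.neg.ev = -x.ev := by
  have : ∀ a : Int, Int.neg a = -a := fun _ => rfl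
  simp only [ev, neg, this]; push_cast; ring
@[simp] theorem ev_sub (x y : Q3) : (x.sub y).ev = x.ev - y.ev := by
  have : ∀ a b : Int, Int.sub a b = a - b := fun _ _ => rfl
  simp only [ev, sub, this]; push_cast; ring
@[simp] theorem ev_mul (x y : Q3) : (x.mul y).ev = x.ev * y.ev := by
  simp only [ev, mul, Int.add_def, Int.mul_def]; push_cast
  linear_combination (-(x.b : ℝ) * y.b) * r3_sq
@[simp] theorem ev_smul (k : Int) (x : Q3) : (smul k x).ev = k * x.ev := by
  simp only [ev, smul, Int.mul_def]; push_cast; ring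

theorem pos_sound {x : Q3} (hx : x.pos = true) : 0 < x.ev := by
  obtain ⟨a, b⟩ := x
  have h3 := r3_sq
  have hp := r3_pos
  rcases a with m | m <;> rcases b with n | n <;> simp only [pos, posI] at hx
  · simp only [ev, Int.ofNat_eq_natCast, Int.cast_natCast]
    have : m + n ≠ 0 := by
      intro h
      simp [h] at hx
    rcases Nat.eq_zero_or_pos m with rfl | hm
    · have : 0 < n := by omega
      positivity
    · positivity
  · simp only [ev, Int.ofNat_eq_natCast, Int.cast_natCast, Int.cast_negSucc]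
    have h1 : 3 * ((n + 1) * (n + 1)) < m * m := by simpa [Nat.blt_eq] using hx
    have h2 : 3 * (((n : ℝ) + 1) * (n + 1)) < m * m := by exact_mod_cast h1
    push_cast
    by_contra hcon
    have h4 : (m : ℝ) ≤ (n + 1) * √3 := by linarith
    have h5 : (0 : ℝ) ≤ m := by positivity
    nlinarith
  · simp only [ev, Int.ofNat_eq_natCast, Int.cast_natCast, Int.cast_negSucc]
    have h1 : (m + 1) * (m + 1) < 3 * (n * n) := by simpa [Nat.blt_eq] using hx
    have h2 : ((m : ℝ) + 1) * (m + 1) < 3 * (n * n) := by exact_mod_cast h1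
    push_cast
    by_contra hcon
    have h4 : (n : ℝ) * √3 ≤ m + 1 := by linarith
    have h5 : (0 : ℝ) ≤ n * √3 := by positivity
    nlinarith
  · simp at hx

theorem zeroI_sound {a : Int} (h : zeroI a = true) : a = 0 := by
  rcases a with m | m
  · simp only [zeroI] at h
    have : m = 0 := Nat.eq_of_beq_eq_true h
    simp [this]
  · simp [zeroI] at h

theorem isZero_sound {x : Q3} (hx : x.isZero = true) : x.ev = 0 := by
  simp only [isZero, Bool.and_eq_true] at hx
  simp [ev, zeroI_sound hx.1, zeroI_sound hx.2]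

theorem nonneg_sound {x : Q3} (hx : x.nonneg = true) : 0 ≤ x.ev := by
  simp only [nonneg, Bool.or_eq_true] at hx
  rcases hx with hx | hx
  · exact (pos_sound hx).le
  · exact (isZero_sound hx).ge

end Q3

/-- A point with coordinates in the ring. -/
structure Pt where
  x : Q3
  y : Q3

namespace Pt

/-- Complex value. -/
noncomputable def ev (p : Pt) : ℂ := ⟨p.x.ev, p.y.ev⟩

def sub (p q : Pt) : Pt := ⟨p.x.sub q.x, p.y.sub q.y⟩
def neg (p : Pt) : Pt := ⟨p.x.neg, p.y.neg⟩
def cj (p : Pt) : Pt := ⟨p.x, p.y.neg⟩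
def mul (p q : Pt) : Pt := ⟨(p.x.mul q.x).sub (p.y.mul q.y), (p.x.mul q.y).add (p.y.mul q.x)⟩
/-- Check that the modulus is two. -/
def isTwo (p : Pt) : Bool := (((p.x.mul p.x).add (p.y.mul p.y)).sub ⟨4, 0⟩).isZero

@[simp] theorem ev_re (p : Pt) : p.ev.re = p.x.ev := rfl
@[simp] theorem ev_im (p : Pt) : p.ev.im = p.y.ev := rfl
@[simp] theorem ev_sub (p q : Pt) : (p.sub q).ev = p.ev - q.ev := by
  apply Complex.ext <;> simp [sub]
@[simp] theorem ev_neg (p : Pt) : p.neg.ev = -p.ev := by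
  apply Complex.ext <;> simp [neg]
@[simp] theorem ev_cj (p : Pt) : p.cj.ev = conj p.ev := by
  apply Complex.ext <;> simp [cj]
@[simp] theorem ev_mul (p q : Pt) : (p.mul q).ev = p.ev * q.ev := by
  apply Complex.ext <;> simp [mul]

theorem isTwo_sound {p : Pt} (hp : p.isTwo = true) : (p.ev / 2) * conj (p.ev / 2) = 1 := by
  have h1 := Q3.isZero_sound hp
  simp only [Q3.ev_sub, Q3.ev_add, Q3.ev_mul] at h1
  have h2 : (Q3.mk 4 0).ev = 4 := by simp [Q3.ev]
  rw [h2] at h1
  have h3 : p.ev * conj p.ev = 4 := by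
    apply Complex.ext
    · simp; linarith
    · simp; ring
  rw [map_div₀, show conj (2 : ℂ) = 2 from by simp [map_ofNat]]
  linear_combination h3 / 4

end Pt

/-- The affine form `A x + B y + C`. -/
structure Form where
  A : Q3
  B : Q3
  C : Q3

namespace Form

/-- Real value at a point. -/
noncomputable def ev (f : Form) (z : ℂ) : ℝ := f.A.ev * z.re + f.B.ev * z.im + f.C.ev
/-- Linear part. -/
noncomputable def evl (f : Form) (w : ℂ) : ℝ := f.A.ev * w.re + f.B.ev * w.im

def lin (f : Form) (w : Pt) : Q3 := (f.A.mul w.x).add (f.B.mul w.y)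
def val (f : Form) (p : Pt) : Q3 := (f.lin p).add f.C
def neg (f : Form) : Form := ⟨f.A.neg, f.B.neg, f.C.neg⟩

@[simp] theorem ev_lin (f : Form) (w : Pt) : (f.lin w).ev = f.evl w.ev := by simp [lin, evl]
@[simp] theorem ev_val (f : Form) (p : Pt) : (f.val p).ev = f.ev p.ev := by simp [val, ev, evl]
@[simp] theorem ev_neg (f : Form) (z : ℂ) : f.neg.ev z = -f.ev z := by simp [neg, ev]; ring

theorem ev_ray (f : Form) (p w : ℂ) (s : ℝ) : f.ev (p + s * w) = f.ev p + s * f.evl w := by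
  simp [ev, evl]; ring

theorem cont (f : Form) : Continuous f.ev := by unfold ev; fun_prop

end Form

/-- The closed region cut out by a list of forms. -/
def sem (T : List Form) : Set ℂ := {z | ∀ f ∈ T, 0 ≤ f.ev z}

theorem mem_interior_sem {T : List Form} {z : ℂ} (hz : ∀ f ∈ T, 0 < f.ev z) :
    z ∈ interior (sem T) := by
  apply interior_maximal (t := {z | ∀ f ∈ T, 0 < f.ev z}) (fun w hw f hf => (hw f hf).le) _ hz
  have : {z | ∀ f ∈ T, 0 < f.ev z} = ⋂ f ∈ {f | f ∈ T}, {z | 0 < f.ev z} := by ext; simp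
  rw [this]
  exact (List.finite_toSet T).isOpen_biInter fun f _ => isOpen_lt continuous_const f.cont

theorem germ_of_mem_interior {S : Set ℂ} {z : ℂ} (hz : z ∈ interior S) (w : ℂ) : Germ S z w := by
  apply Filter.Eventually.filter_mono nhdsWithin_le_nhds
  have : Continuous fun s : ℝ => z + s * w := by fun_prop
  apply this.continuousAt.eventually
  simpa using mem_interior_iff_mem_nhds.1 hz

theorem not_germ {T : List Form} {f : Form} (hf : f ∈ T) {p w : ℂ}
    (h0 : f.ev p < 0 ∨ (f.ev p = 0 ∧ f.evl w < 0)) : ¬ Germ (sem T) p w := by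
  intro hg
  have h1 := ev_pos (a := -f.ev p) (b := -f.evl w) (by
    rcases h0 with h0 | ⟨h0, h1⟩
    · left; linarith
    · right; constructor <;> linarith)
  obtain ⟨s, hs1, hs2⟩ := (h1.and hg).exists
  have := hs2 f hf
  rw [f.ev_ray] at this
  linarith

theorem Germ.smul {S : Set ℂ} {p w : ℂ} (hg : Germ S p w) {c : ℝ} (hc : 0 < c) :
    Germ S p (c * w) := by
  have h1 : Tendsto (fun s : ℝ => s * c) (𝓝[>] 0) (𝓝[>] 0) := by
    apply tendsto_nhdsWithin_of_tendsto_nhds_of_eventually_within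
    · apply Tendsto.mono_left _ nhdsWithin_le_nhds
      have : Continuous fun s : ℝ => s * c := by fun_prop
      simpa using this.tendsto 0
    · filter_upwards [self_mem_nhdsWithin] with s hs
      exact mul_pos hs hc
  filter_upwards [h1.eventually hg] with s hs
  convert hs using 2
  push_cast; ring

def memB (T : List Form) (p : Pt) : Bool := T.all fun f => (f.val p).nonneg

def sgerm (T : List Form) (p w : Pt) : Bool :=
  T.all fun f => (f.val p).pos || ((f.val p).isZero && (f.lin w).pos)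

def ngerm (T : List Form) (p w : Pt) : Bool :=
  T.any fun f => (f.val p).neg.pos || ((f.val p).isZero && (f.lin w).neg.pos)

/-- The ray from `p` along `w` starts inside the boundary; `n` points out of the region. -/
def bgerm (T : List Form) (p w n : Pt) : Bool :=
  (T.all fun f => (f.val p).pos || ((f.val p).isZero && (f.lin w).nonneg)) &&
    T.any fun f => (f.val p).isZero && (f.lin w).isZero && (f.lin n).neg.pos

theorem memB_sound {T : List Form} {p : Pt} (h : memB T p = true) : p.ev ∈ sem T := by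
  intro f hf
  have := Q3.nonneg_sound (List.all_eq_true.1 h f hf)
  simpa using this

theorem sgerm_sound {T : List Form} {p w : Pt} (h : sgerm T p w = true) :
    Germ (interior (sem T)) p.ev w.ev := by
  have h1 : ∀ f ∈ {f | f ∈ T}, ∀ᶠ s : ℝ in 𝓝[>] 0, 0 < f.ev p.ev + s * f.evl w.ev := by
    intro f hf
    apply ev_pos
    have := List.all_eq_true.1 h f hf
    simp only [Bool.or_eq_true, Bool.and_eq_true] at this
    rcases this with h1 | ⟨h1, h2⟩
    · left; simpa using Q3.pos_sound h1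
    · right
      exact ⟨by simpa using Q3.isZero_sound h1, by simpa using Q3.pos_sound h2⟩
  filter_upwards [(eventually_all_finite (List.finite_toSet T)).2 h1] with s hs
  apply mem_interior_sem
  intro f hf
  rw [f.ev_ray]
  exact hs f hf

theorem ngerm_sound {T : List Form} {p w : Pt} (h : ngerm T p w = true) :
    ¬ Germ (sem T) p.ev w.ev := by
  obtain ⟨f, hf, h1⟩ := List.any_eq_true.1 h
  apply not_germ hf
  simp only [Bool.or_eq_true, Bool.and_eq_true] at h1
  rcases h1 with h1 | ⟨h1, h2⟩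
  · left; simpa using Q3.pos_sound h1
  · right
    exact ⟨by simpa using Q3.isZero_sound h1, by simpa using Q3.pos_sound h2⟩

theorem bgerm_sound {T : List Form} {p w n : Pt} (h : bgerm T p w n = true) :
    Germ (sem T \ interior (sem T)) p.ev w.ev := by
  simp only [bgerm, Bool.and_eq_true] at h
  obtain ⟨ha, hb⟩ := h
  obtain ⟨g, hg, hb⟩ := List.any_eq_true.1 hb
  simp only [Bool.and_eq_true] at hb
  have g1 : g.ev p.ev = 0 := by simpa using Q3.isZero_sound hb.1.1
  have g2 : g.evl w.ev = 0 := by simpa using Q3.isZero_sound hb.1.2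
  have g3 : g.evl n.ev < 0 := by simpa using Q3.pos_sound hb.2
  have h1 : ∀ f ∈ {f | f ∈ T}, ∀ᶠ s : ℝ in 𝓝[>] 0, 0 ≤ f.ev p.ev + s * f.evl w.ev := by
    intro f hf
    have := List.all_eq_true.1 ha f hf
    simp only [Bool.or_eq_true, Bool.and_eq_true] at this
    rcases this with h1 | ⟨h1, h2⟩
    · exact (ev_pos (Or.inl (by simpa using Q3.pos_sound h1))).mono fun s hs => hs.le
    · filter_upwards [self_mem_nhdsWithin] with s hs
      have e1 : f.ev p.ev = 0 := by simpa using Q3.isZero_sound h1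
      have e2 : 0 ≤ f.evl w.ev := by simpa using Q3.nonneg_sound h2
      rw [e1, zero_add]
      exact mul_nonneg (le_of_lt hs) e2
  filter_upwards [(eventually_all_finite (List.finite_toSet T)).2 h1] with s hs
  refine ⟨fun f hf => ?_, fun hint => ?_⟩
  · rw [f.ev_ray]
    exact hs f hf
  · refine not_germ hg (Or.inr ⟨?_, g3⟩) (germ_of_mem_interior hint n.ev)
    rw [g.ev_ray, g1, g2]; simp

/-- Vertices. -/
def Vq : Fin 5 → Pt
  | 0 => ⟨⟨0, 0⟩, ⟨0, 0⟩⟩
  | 1 => ⟨⟨0, 8⟩, ⟨0, 0⟩⟩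
  | 2 => ⟨⟨0, 11⟩, ⟨9, 0⟩⟩
  | 3 => ⟨⟨0, 6⟩, ⟨14, 0⟩⟩
  | 4 => ⟨⟨0, -2⟩, ⟨6, 0⟩⟩

/-- Doubled edge directions. -/
def Eq2 : Fin 5 → Pt
  | 0 => ⟨⟨2, 0⟩, ⟨0, 0⟩⟩
  | 1 => ⟨⟨1, 0⟩, ⟨0, 1⟩⟩
  | 2 => ⟨⟨0, -1⟩, ⟨1, 0⟩⟩
  | 3 => ⟨⟨0, -1⟩, ⟨-1, 0⟩⟩
  | 4 => ⟨⟨1, 0⟩, ⟨0, -1⟩⟩

theorem Vq_ev (i : Fin 5) : (Vq i).ev = V i := by
  fin_cases i <;> apply Complex.ext <;> simp [Vq, V, Q3.ev]

theorem Eq2_ev (i : Fin 5) : (Eq2 i).ev = 2 * e i := by
  fin_cases i <;> apply Complex.ext <;> simp [Eq2, e, Q3.ev] <;> ring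

/-- Eight times the height above edge `j` of a placed copy. -/
def formOf (W K : Pt) (b : Bool) (p : Pt) (j : Fin 5) : Form :=
  let k := K.mul (Eq2 j).cj
  let B := bif b then k.x.neg else k.x
  ⟨k.y, B, ((Q3.smul 4 ((W.sub (Vq j)).mul (Eq2 j).cj).y).sub (k.y.mul p.x)).sub (B.mul p.y)⟩

/-- The copy with a corner at `p`, an edge along `U`, lying to the right of `U`. -/
def cand (p U : Pt) (i : Fin 5) (b : Bool) : List Form :=
  let W := bif b then Vq i else Vq (i + 1)
  let K := bif b then (Eq2 i).mul U else (Eq2 i).neg.mul U.cj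
  [formOf W K b p 0, formOf W K b p 1, formOf W K b p 2, formOf W K b p 3, formOf W K b p 4]

theorem formOf_true (W U' U p : Pt) (j : Fin 5) (z : ℂ) :
    (formOf W (U'.mul U) true p j).ev z =
      8 * h j (W.ev + U'.ev / 2 * cf true ((z - p.ev) * conj (U.ev / 2))) := by
  have h1 : e j = (Eq2 j).ev / 2 := by rw [Eq2_ev]; ring
  rw [h, h1, ← Vq_ev]
  simp [formOf, Form.ev, cf, Pt.mul, Pt.cj, Pt.sub, map_ofNat]
  ring

theorem formOf_false (W U' U p : Pt) (j : Fin 5) (z : ℂ) :
    (formOf W (U'.mul U.cj) false p j).ev z =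
      8 * h j (W.ev + U'.ev / 2 * cf false ((z - p.ev) * conj (U.ev / 2))) := by
  have h1 : e j = (Eq2 j).ev / 2 := by rw [Eq2_ev]; ring
  rw [h, h1, ← Vq_ev]
  simp [formOf, Form.ev, cf, Pt.mul, Pt.cj, Pt.sub, map_ofNat]
  ring

theorem sem_cand_true (p U : Pt) (i : Fin 5) :
    sem (cand p U i true) = placeSet (V i) (e i) true p.ev (U.ev / 2) := by
  ext z
  have h1 : e i = (Eq2 i).ev / 2 := by rw [Eq2_ev]; ring
  simp only [sem, cand, cond_true, List.forall_mem_cons, formOf_true, placeSet, P0,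
    mem_ofPred_eq, Fin.forall_fin_succ, h1, Vq_ev]
  simp

theorem sem_cand_false (p U : Pt) (i : Fin 5) :
    sem (cand p U i false) = placeSet (V (i + 1)) (-e i) false p.ev (U.ev / 2) := by
  ext z
  have h1 : -e i = (Eq2 i).neg.ev / 2 := by rw [Pt.ev_neg, Eq2_ev]; ring
  simp only [sem, cand, cond_false, List.forall_mem_cons, formOf_false, placeSet, P0,
    mem_ofPred_eq, Fin.forall_fin_succ, h1, Vq_ev]
  simp

theorem isCopy_cand (p : Pt) {U : Pt} (hU : U.isTwo = true) (i : Fin 5) (b : Bool) :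
    IsCopy P0 (sem (cand p U i b)) := by
  cases b
  · rw [sem_cand_false]
    apply isCopy_placeSet _ _ (Pt.isTwo_sound hU)
    simpa using e_norm i
  · rw [sem_cand_true]
    exact isCopy_placeSet _ (e_norm i) (Pt.isTwo_sound hU)

/-- The pentagon itself. -/
def tP : List Form := cand ⟨⟨0, 0⟩, ⟨0, 0⟩⟩ ⟨⟨-1, 0⟩, ⟨0, 1⟩⟩ 4 false

theorem sem_tP : sem tP = P0 := by
  rw [tP, sem_cand_false]
  ext z
  have h1 : (Pt.mk ⟨-1, 0⟩ ⟨0, 1⟩).ev / 2 = -e 4 := by
    apply Complex.ext <;> simp [e, Q3.ev] <;> ring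
  have h2 : (Pt.mk ⟨0, 0⟩ ⟨0, 0⟩).ev = 0 := by apply Complex.ext <;> simp [Q3.ev]
  have h3 : V (4 + 1) = 0 := rfl
  have h4 : V (4 + 1) + -e 4 * cf false ((z - 0) * conj (-e 4)) = z := by
    rw [h3]
    simp only [cf, Bool.false_eq_true, if_false, map_neg]
    linear_combination z * e_norm 4
  rw [h1, h2, placeSet, mem_ofPred_eq, h4]

end Pool.Agent.Lib.MP_270077_co
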