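import Pool.Agent.Lib.MP_270077_co.Defs

/-!
The pentagon and the local structure of its copies along a boundary ray.
-/

namespace Pool.Agent.Lib.MP_270077_co

open Set Filter Topology Complex
open scoped ComplexConjugate

noncomputable section

/-- The vertices. -/
def V : Fin 5 → ℂ := ![0, ⟨8 * √3, 0⟩, ⟨11 * √3, 9⟩, ⟨6 * √3, 14⟩, ⟨-2 * √3, 6⟩]

/-- Unit edge directions. -/
def e : Fin 5 → ℂ := ![1, ⟨1 / 2, √3 / 2⟩, ⟨-√3 / 2, 1 / 2⟩, ⟨-√3 / 2, -1 / 2⟩, ⟨1 / 2, -√3 / 2⟩]

/-- Edge lengths. -/
def len : Fin 5 → ℝ := ![8 * √3, 6 * √3, 10, 16, 4 * √3]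

/-- Height above edge `j`. -/
def h (j : Fin 5) (z : ℂ) : ℝ := ((z - V j) * conj (e j)).im

/-- The pentagon as an intersection of half planes. -/
def P0 : Set ℂ := {z | ∀ j, 0 ≤ h j z}

theorem r3_sq : √3 * √3 = (3 : ℝ) := Real.mul_self_sqrt (by norm_num)

theorem r3_pos : 0 < √(3 : ℝ) := Real.sqrt_pos.2 (by norm_num)

theorem r3_gt : 1.7 < √(3 : ℝ) := by
  apply Real.lt_sqrt_of_sq_lt; norm_num

theorem r3_lt : √(3 : ℝ) < 1.8 := by
  rw [Real.sqrt_lt' (by norm_num)]; norm_num

theorem e_norm (i : Fin 5) : e i * conj (e i) = 1 := by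
  have := r3_sq
  fin_cases i <;> simp [e, Complex.ext_iff] <;> constructor <;> nlinarith

theorem len_pos (i : Fin 5) : 0 < len i := by
  have := r3_pos
  fin_cases i <;> simp [len]

theorem V_succ (i : Fin 5) : V (i + 1) = V i + len i * e i := by
  have := r3_sq
  fin_cases i <;> simp [V, e, len, Complex.ext_iff] <;> constructor <;> nlinarith

theorem turn_re (i : Fin 5) : 0 ≤ (e (i + 1) * conj (e i)).re := by
  have := r3_sq
  fin_cases i <;> simp [e] <;> nlinarith

theorem turn_im (i : Fin 5) : 0 < (e (i + 1) * conj (e i)).im := by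
  have := r3_sq
  have := r3_pos
  fin_cases i <;> simp [e] <;> nlinarith

theorem h_V_pos (i j : Fin 5) (h1 : j ≠ i) (h2 : j + 1 ≠ i) : 0 < h j (V i) := by
  have := r3_sq
  have := r3_gt
  have := r3_lt
  fin_cases i <;> fin_cases j <;> simp at h1 h2 <;> simp [h, V, e] <;> nlinarith

theorem h_add (j : Fin 5) (p w : ℂ) (s : ℝ) :
    h j (p + s * w) = h j p + s * (w * conj (e j)).im := by
  simp only [h]
  have : (p + s * w - V j) * conj (e j) = (p - V j) * conj (e j) + s * (w * conj (e j)) := by ring
  rw [this, add_im, im_ofReal_mul]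

theorem h_V_self (i : Fin 5) : h i (V i) = 0 := by simp [h]

theorem h_V_succ (i : Fin 5) : h i (V (i + 1)) = 0 := by
  rw [V_succ, h_add, h_V_self, e_norm]; simp

theorem h_V_nonneg (i j : Fin 5) : 0 ≤ h j (V i) := by
  by_cases h1 : j = i
  · rw [h1, h_V_self]
  by_cases h2 : j + 1 = i
  · rw [← h2, h_V_succ]
  exact (h_V_pos i j h1 h2).le

theorem h_cont (j : Fin 5) : Continuous (h j) := by
  unfold h; fun_prop

theorem isClosed_P0 : IsClosed P0 := by
  have : P0 = ⋂ j, {z | 0 ≤ h j z} := by ext; simp [P0]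
  rw [this]
  exact isClosed_iInter fun j => isClosed_le continuous_const (h_cont j)

theorem mem_interior_P0 {z : ℂ} (hz : ∀ j, 0 < h j z) : z ∈ interior P0 := by
  apply interior_maximal (t := {z | ∀ j, 0 < h j z}) (fun w hw j => (hw j).le) _ hz
  have : {z | ∀ j, 0 < h j z} = ⋂ j, {z | 0 < h j z} := by ext; simp
  rw [this]
  exact isOpen_iInter_of_finite fun j => isOpen_lt continuous_const (h_cont j)

/-- The points `p + s w` lie in `S` for all small `s > 0`. -/
def Germ (S : Set ℂ) (p w : ℂ) : Prop := ∀ᶠ s : ℝ in 𝓝[>] 0, p + s * w ∈ S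

theorem Germ.mem {S : Set ℂ} {p w : ℂ} (hS : IsClosed S) (hg : Germ S p w) : p ∈ S := by
  apply hS.mem_of_tendsto _ hg
  apply Tendsto.mono_left _ nhdsWithin_le_nhds
  have : Continuous fun s : ℝ => p + s * w := by fun_prop
  simpa using this.tendsto 0

theorem Germ.mono {S T : Set ℂ} {p w : ℂ} (hg : Germ S p w) (hST : S ⊆ T) : Germ T p w :=
  Filter.Eventually.mono hg fun _ hs => hST hs

theorem Germ.not_disjoint {S T : Set ℂ} {p w : ℂ} (h1 : Germ S p w) (h2 : Germ T p w) :
    ¬ Disjoint S T := by
  obtain ⟨s, hs1, hs2⟩ := (Filter.Eventually.and h1 h2).exists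
  exact fun hd => Set.disjoint_left.1 hd hs1 hs2

theorem ev_pos {a b : ℝ} (hab : 0 < a ∨ (a = 0 ∧ 0 < b)) : ∀ᶠ s : ℝ in 𝓝[>] 0, 0 < a + s * b := by
  rcases hab with ha | ⟨rfl, hb⟩
  · apply Filter.Eventually.filter_mono nhdsWithin_le_nhds
    have : Continuous fun s : ℝ => a + s * b := by fun_prop
    apply this.continuousAt.eventually (lt_mem_nhds _)
    simpa using ha
  · filter_upwards [self_mem_nhdsWithin] with s hs
    have : 0 < s := hs
    positivity

theorem germ_P0 {p w : ℂ} (hw : ∀ j, 0 < h j p ∨ (h j p = 0 ∧ 0 < (w * conj (e j)).im)) :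
    Germ (interior P0) p w := by
  have : ∀ᶠ s : ℝ in 𝓝[>] 0, ∀ j, 0 < h j p + s * (w * conj (e j)).im :=
    eventually_all.2 fun j => ev_pos (hw j)
  filter_upwards [this] with s hs
  apply mem_interior_P0
  intro j
  rw [h_add]
  exact hs j

theorem classify0 {p u : ℂ} (hu : u * conj u = 1) (hg : Germ (P0 \ interior P0) p u) :
    ∃ (i : Fin 5) (ε : ℝ), (ε = 1 ∨ ε = -1) ∧ u = ε * e i ∧
      (∀ z ∈ P0, 0 ≤ ε * ((z - p) * conj u).im) ∧
      (∀ ω : ℂ, 0 < ω.re → 0 < ε * ω.im → Germ (interior P0) p (u * ω)) ∧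
      ((p = V i ∧ ε = 1) ∨ (p = V (i + 1) ∧ ε = -1) ∨
        ∀ ω : ℂ, 0 < ε * ω.im → Germ (interior P0) p (u * ω)) := by
  have hp : p ∈ P0 := (hg.mono sdiff_subset).mem isClosed_P0
  obtain ⟨i, hi0, hi1⟩ : ∃ i, h i p = 0 ∧ (u * conj (e i)).im = 0 := by
    by_contra hcon
    push Not at hcon
    have h1 : ∀ j, ∀ᶠ s : ℝ in 𝓝[>] 0, h j p + s * (u * conj (e j)).im ≠ 0 := by
      intro j
      rcases (hp j).lt_or_eq with h0 | h0
      · exact (ev_pos (Or.inl h0)).mono fun s hs => hs.ne'
      · filter_upwards [self_mem_nhdsWithin] with s hs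
        rw [← h0, zero_add]
        exact mul_ne_zero (ne_of_gt hs) (hcon j h0.symm)
    obtain ⟨s, hs1, hs2⟩ := ((eventually_all.2 h1).and hg).exists
    apply hs2.2
    apply mem_interior_P0
    intro j
    refine lt_of_le_of_ne (hs2.1 j) ?_
    rw [h_add]
    exact (hs1 j).symm
  have he := e_norm i
  obtain ⟨ε, hε, huε⟩ : ∃ ε : ℝ, (ε = 1 ∨ ε = -1) ∧ u = ε * e i := by
    have h1 : u * conj (e i) = ((u * conj (e i)).re : ℂ) := by
      apply Complex.ext <;> simp [hi1]
    refine ⟨(u * conj (e i)).re, ?_, ?_⟩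
    · have h2 : (u * conj (e i)) * conj (u * conj (e i)) = 1 := by
        rw [map_mul, conj_conj]
        linear_combination (e i * conj (e i)) * hu + he
      rw [h1, conj_ofReal] at h2
      have h3 : (u * conj (e i)).re * (u * conj (e i)).re = 1 := by exact_mod_cast h2
      exact mul_self_eq_one_iff.1 h3
    · rw [← h1]
      linear_combination (-u) * he
  have hε2 : ε * ε = 1 := by rcases hε with rfl | rfl <;> norm_num
  obtain ⟨s, hs⟩ : ∃ s : ℝ, p = V i + s * e i := by
    have h1 : (p - V i) * conj (e i) = (((p - V i) * conj (e i)).re : ℂ) := by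
      apply Complex.ext
      · simp
      · rw [ofReal_im]; exact hi0
    refine ⟨((p - V i) * conj (e i)).re, ?_⟩
    rw [← h1]
    linear_combination (V i - p) * he
  have hprev : ∀ t : ℝ, h (i - 1) (V i + t * e i) = t * (e i * conj (e (i - 1))).im := by
    intro t
    rw [h_add]
    have := h_V_succ (i - 1)
    rw [sub_add_cancel] at this
    rw [this, zero_add]
  have hprev_im : 0 < (e i * conj (e (i - 1))).im := by
    have := turn_im (i - 1)
    rwa [sub_add_cancel] at this
  have hprev_re : 0 ≤ (e i * conj (e (i - 1))).re := by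
    have := turn_re (i - 1)
    rwa [sub_add_cancel] at this
  have hnext_im : (e i * conj (e (i + 1))).im = -(e (i + 1) * conj (e i)).im := by
    simp only [mul_im, conj_re, conj_im]; ring
  have hnext_re : (e i * conj (e (i + 1))).re = (e (i + 1) * conj (e i)).re := by
    simp only [mul_re, conj_re, conj_im]; ring
  have hnext : ∀ t : ℝ, h (i + 1) (V i + t * e i) = (len i - t) * (e (i + 1) * conj (e i)).im := by
    intro t
    have : V i + t * e i = V (i + 1) + ((t - len i : ℝ) : ℂ) * e i := by
      rw [V_succ]; push_cast; ring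
    rw [this, h_add, h_V_self, hnext_im]; ring
  have hrange : ∀ t : ℝ, V i + t * e i ∈ P0 → 0 ≤ t ∧ t ≤ len i := by
    intro t ht
    have h1 := ht (i - 1)
    have h2 := ht (i + 1)
    rw [hprev] at h1
    rw [hnext] at h2
    exact ⟨nonneg_of_mul_nonneg_left h1 hprev_im,
      sub_nonneg.1 (nonneg_of_mul_nonneg_left h2 (turn_im i))⟩
  obtain ⟨t, ht0, ht⟩ : ∃ t : ℝ, 0 < t ∧ 0 ≤ s + t * ε ∧ s + t * ε ≤ len i := by
    obtain ⟨t, ht1, ht2⟩ := (hg.and self_mem_nhdsWithin).exists
    refine ⟨t, ht2, hrange _ ?_⟩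
    have : V i + ((s + t * ε : ℝ) : ℂ) * e i = p + t * u := by
      rw [hs, huε]; push_cast; ring
    rw [this]
    exact ht1.1
  have hs0 := hrange s (hs ▸ hp)
  have hlin : ∀ ω : ℂ, (u * ω * conj (e i)).im = ε * ω.im := by
    intro ω
    have : u * ω * conj (e i) = ε * ω := by
      rw [huε]; linear_combination (ε * ω) * he
    rw [this, im_ofReal_mul]
  have hflat : 0 < s → s < len i → ∀ ω : ℂ, 0 < ε * ω.im → Germ (interior P0) p (u * ω) := by
    intro h1 h2 ω hω
    apply germ_P0
    intro j
    by_cases hj : j = i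
    · right
      rw [hj, hlin]
      exact ⟨hi0, hω⟩
    · left
      have hl := len_pos i
      have e1 : h j (V (i + 1)) = h j (V i) + len i * (e i * conj (e j)).im := by
        rw [V_succ, h_add]
      have e2 : len i * h j p = (len i - s) * h j (V i) + s * h j (V (i + 1)) := by
        rw [hs, h_add, e1]; ring
      have e3 : 0 < len i * h j p := by
        rw [e2]
        have n1 := h_V_nonneg i j
        have n2 := h_V_nonneg (i + 1) j
        by_cases hj2 : j + 1 = i
        · have : 0 < h j (V (i + 1)) := by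
            apply h_V_pos
            · rw [← hj2]
              clear * -
              revert j; decide
            · exact fun hh => hj (add_right_cancel hh)
          have := mul_pos h1 this
          have := mul_nonneg (sub_pos.2 h2).le n1
          linarith
        · have := mul_pos (sub_pos.2 h2) (h_V_pos i j hj hj2)
          have := mul_nonneg h1.le n2
          linarith
      exact (mul_pos_iff_of_pos_left hl).1 e3
  refine ⟨i, ε, hε, huε, ?_, ?_, ?_⟩
  · intro z hz
    have h1 := hz i
    have h2 : (z - p) * conj u = ε * ((z - V i) * conj (e i) - s) := by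
      rw [huε, hs, map_mul, conj_ofReal]
      linear_combination (-ε * s) * he
    rw [h2, im_ofReal_mul, ← mul_assoc, hε2, one_mul, sub_im, ofReal_im, sub_zero]
    exact h1
  · intro ω hre him
    rcases hε with rfl | rfl
    · rcases hs0.1.lt_or_eq with h1 | h1
      · exact hflat h1 (by linarith [ht.2]) ω him
      · apply germ_P0
        intro j
        have hpV : p = V i := by rw [hs, ← h1]; simp
        by_cases hj : j = i
        · right
          rw [hj, hlin]
          exact ⟨hi0, him⟩
        by_cases hj2 : j + 1 = i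
        · right
          have hj3 : j = i - 1 := by rw [← hj2, add_sub_cancel_right]
          refine ⟨by rw [hpV, ← hj2, h_V_succ], ?_⟩
          have : u * ω * conj (e j) = (e i * conj (e (i - 1))) * ω := by
            rw [huε, hj3]; push_cast; ring
          rw [this, mul_im]
          have := mul_pos hprev_im hre
          have := mul_nonneg hprev_re (by linarith : 0 ≤ ω.im)
          linarith
        · left
          rw [hpV]
          exact h_V_pos i j hj hj2
    · rcases hs0.2.lt_or_eq with h1 | h1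
      · exact hflat (by linarith [ht.1]) h1 ω him
      · apply germ_P0
        intro j
        have hpV : p = V (i + 1) := by rw [hs, h1, V_succ]
        by_cases hj : j = i
        · right
          rw [hj, hlin]
          exact ⟨hi0, him⟩
        by_cases hj2 : j = i + 1
        · right
          refine ⟨by rw [hpV, hj2, h_V_self], ?_⟩
          have : u * ω * conj (e j) = -((e i * conj (e (i + 1))) * ω) := by
            rw [huε, hj2]; push_cast; ring
          rw [this, neg_im, mul_im, hnext_im, hnext_re]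
          have := mul_pos (turn_im i) hre
          have := mul_nonneg (turn_re i) (by linarith : 0 ≤ -ω.im)
          linarith
        · left
          rw [hpV]
          exact h_V_pos (i + 1) j hj2 fun hh => hj (add_right_cancel hh)
  · rcases hε with rfl | rfl
    · rcases hs0.1.lt_or_eq with h1 | h1
      · exact Or.inr (Or.inr (hflat h1 (by linarith [ht.2])))
      · left
        refine ⟨?_, rfl⟩
        rw [hs, ← h1]; simp
    · rcases hs0.2.lt_or_eq with h1 | h1
      · exact Or.inr (Or.inr (hflat (by linarith [ht.1]) h1))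
      · right; left
        refine ⟨?_, rfl⟩
        rw [hs, h1, V_succ]

end

end Pool.Agent.Lib.MP_270077_co
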