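import Pool.Agent.Lib.MP_270077_co.Local

/-!
The pentagon is the convex hull of its vertices.
-/

namespace Pool.Agent.Lib.MP_270077_co

open Set Complex

theorem tri_mem {K : Set ℂ} (hK : Convex ℝ K) {a b c : ℂ} (ha : a ∈ K) (hb : b ∈ K) (hc : c ∈ K)
    {s t : ℝ} (hs : 0 ≤ s) (ht : 0 ≤ t) (hst : s + t ≤ 1) :
    (1 - s - t) • a + s • b + t • c ∈ K := by
  have := hK.sum_mem (t := (Finset.univ : Finset (Fin 3))) (w := ![1 - s - t, s, t])
    (z := ![a, b, c]) (by
      intro i _
      fin_cases i <;> simp <;> linarith) (by simp [Fin.sum_univ_three]; ring) (by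
      intro i _
      fin_cases i <;> simpa)
  simpa [Fin.sum_univ_three] using this

theorem P0_eq_hull : P0 = convexHull ℝ {V 0, V 1, V 2, V 3, V 4} := by
  apply Subset.antisymm
  · intro z hz
    have h3 := r3_sq
    have hp := r3_pos
    obtain ⟨X, hX⟩ : ∃ X : ℝ, z.re = √3 * X := ⟨z.re / √3, by field_simp⟩
    have a0 := hz 0
    have a1 := hz 1
    have a2 := hz 2
    have a3 := hz 3
    have a4 := hz 4
    simp [h, V, e, hX] at a0 a1 a2 a3 a4
    have b1 : 0 ≤ z.im - 3 * X + 24 := by nlinarith
    have b2 : 0 ≤ 20 - X - z.im := by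
      apply nonneg_of_mul_nonneg_right _ hp
      nlinarith
    have b3 : 0 ≤ X - z.im + 8 := by
      apply nonneg_of_mul_nonneg_right _ hp
      nlinarith
    have b4 : 0 ≤ 3 * X + z.im := by nlinarith
    have hK := convex_convexHull ℝ ({V 0, V 1, V 2, V 3, V 4} : Set ℂ)
    have m : ∀ i, V i ∈ convexHull ℝ ({V 0, V 1, V 2, V 3, V 4} : Set ℂ) := by
      intro i
      apply subset_convexHull
      fin_cases i <;> simp
    rcases le_total (11 * z.im) (9 * X) with c1 | c1
    · convert tri_mem hK (m 0) (m 1) (m 2) (s := (9 * X - 11 * z.im) / 72) (t := z.im / 9)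
        (by linarith) (by linarith) (by linarith) using 1
      apply Complex.ext <;> simp [V, hX] <;> ring
    rcases le_total (6 * z.im) (14 * X) with c2 | c2
    · convert tri_mem hK (m 0) (m 2) (m 3) (s := (14 * X - 6 * z.im) / 100)
        (t := (11 * z.im - 9 * X) / 100) (by linarith) (by linarith) (by linarith) using 1
      apply Complex.ext <;> simp [V, hX] <;> ring
    · convert tri_mem hK (m 0) (m 3) (m 4) (s := (6 * X + 2 * z.im) / 64)
        (t := (6 * z.im - 14 * X) / 64) (by linarith) (by linarith) (by linarith) using 1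
      apply Complex.ext <;> simp [V, hX] <;> ring
  · apply convexHull_min _ convex_P0
    intro z hz
    simp only [mem_insert_iff, mem_singleton_iff] at hz
    rcases hz with rfl | rfl | rfl | rfl | rfl <;> exact h_V_nonneg _

theorem interior_P0_nonempty : (interior P0).Nonempty := by
  refine ⟨⟨4 * √3, 6⟩, mem_interior_P0 fun j => ?_⟩
  have := r3_sq
  have := r3_gt
  have := r3_lt
  fin_cases j <;> simp [h, V, e] <;> nlinarith

end Pool.Agent.Lib.MP_270077_co
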