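import Pool.Agent.Lib.MP_270077_co.Geo

/-!
The neighbour of a tile along a boundary ray.
-/

namespace Pool.Agent.Lib.MP_270077_co

open Set Filter Topology Complex
open scoped ComplexConjugate

noncomputable section

/-- Conjugation or the identity. -/
def cf (f : Bool) (z : ℂ) : ℂ := if f then conj z else z

/-- The copy of the pentagon in which `p` corresponds to `W` and the direction `u` to `u'`. -/
def placeSet (W u' : ℂ) (f : Bool) (p u : ℂ) : Set ℂ := {z | W + u' * cf f ((z - p) * conj u) ∈ P0}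

theorem cf_re (f : Bool) (z : ℂ) : (cf f z).re = z.re := by cases f <;> simp [cf]

theorem cf_smul (f : Bool) (s : ℝ) (z : ℂ) : cf f (s * z) = s * cf f z := by
  cases f <;> simp [cf]

theorem IsCopy.isClosed {Q : Set ℂ} (hQ : IsCopy P0 Q) : IsClosed Q := by
  obtain ⟨g, rfl⟩ := hQ
  exact g.toHomeomorph.isClosedMap _ isClosed_P0

theorem IsCopy.normal {Q : Set ℂ} (hQ : IsCopy P0 Q) (p : ℂ) {u : ℂ} (hu : u * conj u = 1) :
    ∃ (p' u' : ℂ) (f : Bool), u' * conj u' = 1 ∧ Q = placeSet p' u' f p u ∧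
      ∀ z, z ∈ interior Q ↔ p' + u' * cf f ((z - p) * conj u) ∈ interior P0 := by
  obtain ⟨g, rfl⟩ := hQ
  obtain ⟨a, ha⟩ := linear_isometry_complex g.symm.toRealLinearIsometryEquiv
  have haa : (a : ℂ) * conj (a : ℂ) = 1 := by
    rw [Complex.mul_conj, Circle.normSq_coe]; simp
  have key : ∃ (u' : ℂ) (f : Bool), u' * conj u' = 1 ∧
      ∀ z, g.symm z = g.symm p + u' * cf f ((z - p) * conj u) := by
    have hl := g.symm.toRealLinearIsometryEquiv_apply
    rcases ha with ha | ha
    · refine ⟨a * u, false, ?_, fun z => ?_⟩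
      · rw [map_mul]; linear_combination (u * conj u) * haa + hu
      · have h1 := hl z
        have h2 := hl p
        rw [ha, rotation_apply] at h1 h2
        simp only [cf, Bool.false_eq_true, if_false]
        linear_combination -h1 + h2 - (a * (z - p)) * hu
    · refine ⟨a * conj u, true, ?_, fun z => ?_⟩
      · rw [map_mul, conj_conj]; linear_combination (u * conj u) * haa + hu
      · have h1 := hl z
        have h2 := hl p
        rw [ha, LinearIsometryEquiv.trans_apply, rotation_apply, conjLIE_apply] at h1 h2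
        simp only [cf, if_true, map_mul, map_sub, conj_conj]
        linear_combination -h1 + h2 - (a * (conj z - conj p)) * hu
  obtain ⟨u', f, hu', hz⟩ := key
  refine ⟨g.symm p, u', f, hu', ?_, fun z => ?_⟩
  · ext z
    rw [placeSet, mem_ofPred_eq, ← hz, ← IsometryEquiv.preimage_symm]
    rfl
  · rw [← hz, ← IsometryEquiv.preimage_symm]
    have := g.symm.toHomeomorph.preimage_interior P0
    exact (Set.ext_iff.1 this z).symm

theorem isCopy_placeSet {W u' p u : ℂ} (f : Bool) (hu' : u' * conj u' = 1) (hu : u * conj u = 1) :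
    IsCopy P0 (placeSet W u' f p u) := by
  have n1 : ‖u'‖ = 1 := by
    have : ‖u'‖ * ‖u'‖ = 1 := by simpa using congrArg norm hu'
    nlinarith [norm_nonneg u']
  have n2 : ‖u‖ = 1 := by
    have : ‖u‖ * ‖u‖ = 1 := by simpa using congrArg norm hu
    nlinarith [norm_nonneg u]
  let φ : ℂ ≃ᵢ ℂ :=
    { toFun := fun z => W + u' * cf f ((z - p) * conj u)
      invFun := fun y => p + u * cf f ((y - W) * conj u')
      left_inv := fun z => by
        cases f
        · simp only [cf, Bool.false_eq_true, if_false]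
          linear_combination (u * conj u * (z - p)) * hu' + (z - p) * hu
        · simp only [cf, if_true, map_mul, map_sub, map_add, conj_conj]
          linear_combination (u * conj u * (z - p)) * hu' + (z - p) * hu
      right_inv := fun z => by
        cases f
        · simp only [cf, Bool.false_eq_true, if_false]
          linear_combination (u' * conj u' * (z - W)) * hu + (z - W) * hu'
        · simp only [cf, if_true, map_mul, map_sub, map_add, conj_conj]
          linear_combination (u' * conj u' * (z - W)) * hu + (z - W) * hu'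
      isometry_toFun := Isometry.of_dist_eq fun a b => by
        rw [dist_eq_norm, dist_eq_norm]
        have : W + u' * cf f ((a - p) * conj u) - (W + u' * cf f ((b - p) * conj u)) =
            u' * cf f ((a - b) * conj u) := by
          cases f
          · simp only [cf, Bool.false_eq_true, if_false]; ring
          · simp only [cf, if_true, map_mul, map_sub]; ring
        rw [this]
        cases f
        · simp [cf, n1, n2]
        · simp only [cf, if_true, norm_mul, Complex.norm_conj, n1, n2, one_mul, mul_one] }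
  refine ⟨φ.symm, ?_⟩
  rw [← IsometryEquiv.preimage_symm]
  rfl

theorem IsCopy.classify {Q : Set ℂ} (hQ : IsCopy P0 Q) {p u : ℂ} (hu : u * conj u = 1)
    (hg : Germ (Q \ interior Q) p u) :
    ∃ τ : ℝ, (τ = 1 ∨ τ = -1) ∧ (∀ z ∈ Q, 0 ≤ τ * ((z - p) * conj u).im) ∧
      (∀ ω : ℂ, 0 < ω.re → 0 < τ * ω.im → Germ (interior Q) p (u * ω)) ∧
      ((∀ ω : ℂ, 0 < τ * ω.im → Germ (interior Q) p (u * ω)) ∨ τ = 1 ∨
        ∃ i, Q = placeSet (V i) (e i) true p u ∨ Q = placeSet (V (i + 1)) (-e i) false p u) := by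
  obtain ⟨p', u', f, hu', hQe, hint⟩ := hQ.normal p hu
  have hpt : ∀ (s : ℝ) (ω : ℂ), p' + u' * cf f ((p + s * (u * ω) - p) * conj u) =
      p' + s * (u' * cf f ω) := by
    intro s ω
    have : (p + s * (u * ω) - p) * conj u = s * ω := by linear_combination (s * ω) * hu
    rw [this, cf_smul]; ring
  have htr : ∀ ω, Germ (interior P0) p' (u' * cf f ω) → Germ (interior Q) p (u * ω) := by
    intro ω hω
    filter_upwards [hω] with s hs
    rw [hint, hpt]
    exact hs
  have hg0 : Germ (P0 \ interior P0) p' u' := by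
    filter_upwards [hg] with s hs
    have h1 := hpt s 1
    have h2 : cf f 1 = 1 := by cases f <;> simp [cf]
    rw [h2, mul_one, mul_one] at h1
    rw [← h1]
    refine ⟨?_, fun hh => hs.2 ((hint _).2 hh)⟩
    have := hs.1
    rw [hQe] at this
    exact this
  obtain ⟨i, ε, hε, huε, hhalf, hquad, hcase⟩ := classify0 hu' hg0
  have hside : ∀ z ∈ Q, 0 ≤ ε * (cf f ((z - p) * conj u)).im := by
    intro z hz
    rw [hQe] at hz
    have h1 := hhalf _ hz
    have h2 : (p' + u' * cf f ((z - p) * conj u) - p') * conj u' = cf f ((z - p) * conj u) := by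
      linear_combination (cf f ((z - p) * conj u)) * hu'
    rwa [h2] at h1
  cases f
  · refine ⟨ε, hε, hside, fun ω h1 h2 => htr ω (hquad _ h1 h2), ?_⟩
    rcases hcase with ⟨_, h2⟩ | ⟨h1, h2⟩ | h1
    · exact Or.inr (Or.inl h2)
    · refine Or.inr (Or.inr ⟨i, Or.inr ?_⟩)
      rw [hQe, h1, huε, h2]; simp
    · exact Or.inl fun ω hω => htr ω (h1 _ hω)
  · have him : ∀ ω : ℂ, ε * (cf true ω).im = -ε * ω.im := by intro ω; simp [cf]
    refine ⟨-ε, ?_, fun z hz => him _ ▸ hside z hz, fun ω h1 h2 =>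
      htr ω (hquad _ (by rwa [cf_re]) (by rwa [him])), ?_⟩
    · rcases hε with rfl | rfl <;> simp
    rcases hcase with ⟨h1, h2⟩ | ⟨_, h2⟩ | h1
    · refine Or.inr (Or.inr ⟨i, Or.inl ?_⟩)
      rw [hQe, h1, huε, h2]; simp
    · refine Or.inr (Or.inl ?_)
      rw [h2]; simp
    · exact Or.inl fun ω hω => htr ω (h1 _ (by rwa [him]))

theorem convex_P0 : Convex ℝ P0 := by
  intro x hx y hy a b ha hb hab j
  have : h j (a • x + b • y) = a * h j x + b * h j y := by
    have e1 : (a • x + b • y - V j) * conj (e j) =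
        a * ((x - V j) * conj (e j)) + b * ((y - V j) * conj (e j)) := by
      have : (a : ℂ) + b = 1 := by exact_mod_cast hab
      simp only [real_smul]
      linear_combination (V j * conj (e j)) * this
    rw [h, e1, add_im, im_ofReal_mul, im_ofReal_mul]
    rfl
  rw [this]
  exact add_nonneg (mul_nonneg ha (hx j)) (mul_nonneg hb (hy j))

theorem IsCopy.germ_of_frequently {Q : Set ℂ} (hQ : IsCopy P0 Q) {p u : ℂ} (hu : u * conj u = 1)
    (hf : ∃ᶠ s : ℝ in 𝓝[>] 0, p + s * u ∈ Q) : Germ Q p u := by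
  have hp : p ∈ Q := by
    apply hQ.isClosed.mem_of_frequently_of_tendsto hf
    apply Tendsto.mono_left _ nhdsWithin_le_nhds
    have : Continuous fun s : ℝ => p + s * u := by fun_prop
    simpa using this.tendsto 0
  obtain ⟨t, ht, ht0⟩ := (hf.and_eventually self_mem_nhdsWithin).exists
  have ht0 : 0 < t := ht0
  obtain ⟨p', u', f, hu', rfl, -⟩ := hQ.normal p hu
  have hpt : ∀ s : ℝ, p' + u' * cf f ((p + s * u - p) * conj u) = p' + s * u' := by
    intro s
    have : (p + s * u - p) * conj u = s * 1 := by linear_combination s * hu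
    have h2 : cf f 1 = 1 := by cases f <;> simp [cf]
    rw [this, cf_smul, h2]; ring
  have hp' : p' ∈ P0 := by
    have := hpt 0
    simp only [ofReal_zero, zero_mul, add_zero] at this
    rw [← this]
    exact hp
  have ht' : p' + t * u' ∈ P0 := by rw [← hpt]; exact ht
  filter_upwards [Ioo_mem_nhdsGT ht0] with s hs
  change _ ∈ P0
  rw [hpt]
  have := convex_P0 hp' ht' (a := 1 - s / t) (b := s / t)
    (sub_nonneg.2 ((div_le_one ht0).2 hs.2.le)) (div_nonneg hs.1.le ht0.le) (by ring)
  convert this using 1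
  have : (t : ℂ) ≠ 0 := by exact_mod_cast ht0.ne'
  simp only [real_smul]
  push_cast
  field_simp
  ring

/-- A finite family of pairwise nonoverlapping copies. -/
structure Family (F : Set (Set ℂ)) : Prop where
  fin : F.Finite
  copy : ∀ Q ∈ F, IsCopy P0 Q
  disj : ∀ Q ∈ F, ∀ Q' ∈ F, Q ≠ Q' → Disjoint (interior Q) (interior Q')

theorem Family.eq_of_germ {F : Set (Set ℂ)} (hF : Family F) {Q Q' : Set ℂ} (hQ : Q ∈ F)
    (hQ' : Q' ∈ F) {p w : ℂ} (h1 : Germ (interior Q) p w) (h2 : Germ (interior Q') p w) :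
    Q = Q' := by
  by_contra hne
  exact h1.not_disjoint h2 (hF.disj Q hQ Q' hQ' hne)

theorem IsCopy.subset_closure_interior {Q : Set ℂ} (hQ : IsCopy P0 Q) :
    Q ⊆ closure (interior Q) := by
  obtain ⟨g, rfl⟩ := hQ
  have h1 : P0 ⊆ closure (interior P0) := by
    have hne : (interior P0).Nonempty := by
      refine ⟨⟨4 * √3, 6⟩, mem_interior_P0 fun j => ?_⟩
      have := r3_sq
      have := r3_gt
      have := r3_lt
      fin_cases j <;> simp [h, V, e] <;> nlinarith
    rw [convex_P0.closure_interior_eq_closure_of_nonempty_interior hne]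
    exact subset_closure
  have h2 : (g '' P0 : Set ℂ) = g.toHomeomorph '' P0 := rfl
  rw [h2, ← Homeomorph.image_interior, ← Homeomorph.image_closure]
  exact image_mono h1

/-- The neighbour across a boundary ray. -/
theorem Family.neighbour {F : Set (Set ℂ)} (hF : Family F) {p u : ℂ} (hu : u * conj u = 1)
    (hp : p ∈ interior (⋃₀ F)) {T : Set ℂ} (hT : T ∈ F) (hg : Germ (T \ interior T) p u)
    {σ : ℝ} (hσ : σ = 1 ∨ σ = -1) (hq : Germ (interior T) p (u * (1 + σ * I))) :
    ∃ Q ∈ F, Q ≠ T ∧ Germ Q p u ∧ (∀ z ∈ Q, σ * ((z - p) * conj u).im ≤ 0) ∧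
      (∀ ω : ℂ, 0 < ω.re → σ * ω.im < 0 → Germ (interior Q) p (u * ω)) ∧
      ((∀ ω : ℂ, σ * ω.im < 0 → Germ (interior Q) p (u * ω)) ∨ σ = -1 ∨
        ∃ i, Q = placeSet (V i) (e i) true p u ∨ Q = placeSet (V (i + 1)) (-e i) false p u) := by
  have hcl : IsClosed (⋃₀ (F \ {T})) := by
    rw [sUnion_eq_biUnion]
    exact (hF.fin.subset sdiff_subset).isClosed_biUnion fun Q hQ => (hF.copy Q hQ.1).isClosed
  have h1 : ∀ᶠ s : ℝ in 𝓝[>] 0, p + s * u ∈ interior (⋃₀ F) := by
    apply Filter.Eventually.filter_mono nhdsWithin_le_nhds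
    have : Continuous fun s : ℝ => p + s * u := by fun_prop
    apply this.continuousAt.eventually (isOpen_interior.mem_nhds _)
    simpa using hp
  have h2 : ∀ᶠ s : ℝ in 𝓝[>] 0, ∃ Q ∈ F \ {T}, p + s * u ∈ Q := by
    filter_upwards [h1, hg] with s hs1 hs2
    by_contra hcon
    apply hs2.2
    have hno : p + s * u ∈ (⋃₀ (F \ {T}))ᶜ := by
      rintro ⟨Q, hQ, hQs⟩
      exact hcon ⟨Q, hQ, hQs⟩
    apply interior_maximal (t := interior (⋃₀ F) ∩ (⋃₀ (F \ {T}))ᶜ) _
      (isOpen_interior.inter hcl.isOpen_compl) ⟨hs1, hno⟩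
    rintro z ⟨hz1, hz2⟩
    obtain ⟨Q, hQ, hzQ⟩ := interior_subset hz1
    by_cases hQT : Q = T
    · rwa [← hQT]
    · exact absurd ⟨Q, ⟨hQ, hQT⟩, hzQ⟩ hz2
  obtain ⟨Q, hQ, hfr⟩ : ∃ Q ∈ F \ {T}, ∃ᶠ s : ℝ in 𝓝[>] 0, p + s * u ∈ Q := by
    by_contra hcon
    push Not at hcon
    have h3 := (eventually_all_finite (hF.fin.subset (sdiff_subset (t := {T})))).2 hcon
    obtain ⟨s, ⟨Q, hQ, hs⟩, hs'⟩ := (h2.and h3).exists
    exact hs' Q hQ hs
  have hQT : Q ≠ T := hQ.2
  have hQg : Germ Q p u := (hF.copy Q hQ.1).germ_of_frequently hu hfr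
  have hQb : Germ (Q \ interior Q) p u := by
    filter_upwards [hQg, hg] with s hs1 hs2
    refine ⟨hs1, fun hs3 => ?_⟩
    have h4 := (hF.copy T hT).subset_closure_interior hs2.1
    obtain ⟨z, hz1, hz2⟩ := mem_closure_iff.1 h4 _ isOpen_interior hs3
    exact Set.disjoint_left.1 (hF.disj Q hQ.1 T hT hQT) hz1 hz2
  obtain ⟨τ, hτ, hhalf, hquad, hcase⟩ := (hF.copy Q hQ.1).classify hu hQb
  have hτσ : τ = -σ := by
    by_contra hne
    have : τ = σ := by
      rcases hτ with rfl | rfl <;> rcases hσ with rfl | rfl <;> simp_all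
    subst this
    apply hQT (hF.eq_of_germ hQ.1 hT (hquad (1 + τ * I) (by simp) _) hq)
    rcases hτ with rfl | rfl <;> simp
  subst hτσ
  refine ⟨Q, hQ.1, hQT, hQg, fun z hz => by linarith [hhalf z hz],
    fun ω h1 h2 => hquad ω h1 (by linarith), ?_⟩
  rcases hcase with h5 | h5 | h5
  · exact Or.inl fun ω hω => h5 ω (by linarith)
  · exact Or.inr (Or.inl (by linarith))
  · exact Or.inr (Or.inr h5)

end

end Pool.Agent.Lib.MP_270077_co
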