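import Mathlib

/-!
A compact set that is strongly star-shaped is homeomorphic to a closed disk.
-/

namespace Pool.Agent.Lib.MP_270077_co

open Set Metric Filter Topology Bornology
open scoped Pointwise

theorem star_disk_zero {s : Set ℂ} (hc : IsCompact s) (hne : s.Nonempty)
    (hs : ∀ z ∈ s, ∀ t : ℝ, 0 ≤ t → t < 1 → t • z ∈ interior s) :
    Nonempty (s ≃ₜ closedBall (0 : ℂ) 1) := by
  obtain ⟨z0, hz0⟩ := hne
  have h0 : s ∈ 𝓝 (0 : ℂ) := by
    have := hs z0 hz0 0 le_rfl one_pos
    rw [zero_smul] at this
    exact mem_interior_iff_mem_nhds.1 this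
  have ha : Absorbent ℝ s := absorbent_nhds_zero h0
  have hb : IsVonNBounded ℝ s := NormedSpace.isVonNBounded_of_isBounded _ hc.isBounded
  have hlt : ∀ x, gauge s x < 1 → x ∈ interior s := by
    intro x hx
    obtain ⟨b, hb0, hb1, y, hy, rfl⟩ := exists_lt_of_gauge_lt ha hx
    exact hs y hy b hb0.le hb1
  have hle : ∀ x, gauge s x ≤ 1 → x ∈ s := by
    intro x hx
    have : ∀ᶠ r : ℝ in 𝓝[<] 1, r • x ∈ s := by
      filter_upwards [Ico_mem_nhdsLT one_pos] with r ⟨hr₀, hr₁⟩
      apply interior_subset (hlt _ _)
      rw [gauge_smul_of_nonneg hr₀]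
      exact mul_lt_one_of_nonneg_of_lt_one_left hr₀ hr₁ hx
    rw [← hc.isClosed.closure_eq]
    refine mem_closure_of_tendsto ?_ this
    exact Filter.Tendsto.mono_left (Continuous.tendsto' (by fun_prop) _ _ (one_smul _ _))
      inf_le_left
  have hcont : Continuous (gauge s) := by
    rw [continuous_iff_lower_upperSemicontinuous]
    constructor
    · rw [lowerSemicontinuous_iff_isClosed_preimage]
      intro r
      rcases lt_trichotomy r 0 with hr | rfl | hr
      · convert isClosed_empty
        ext x
        simp only [mem_preimage, mem_Iic, mem_empty_iff_false, iff_false, not_le]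
        exact hr.trans_le (gauge_nonneg x)
      · convert isClosed_singleton (x := (0 : ℂ))
        ext x
        simp only [mem_preimage, mem_Iic, mem_singleton_iff]
        rw [← gauge_eq_zero ha hb]
        exact ⟨fun h => le_antisymm h (gauge_nonneg x), fun h => h.le⟩
      · have : gauge s ⁻¹' Iic r = (fun x => r⁻¹ • x) ⁻¹' s := by
          ext x
          simp only [mem_preimage, mem_Iic]
          have h1 : gauge s (r⁻¹ • x) = r⁻¹ * gauge s x :=
            gauge_smul_of_nonneg (inv_pos.2 hr).le x
          constructor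
          · intro h
            apply hle
            rw [h1, inv_mul_le_iff₀ hr, mul_one]
            exact h
          · intro h
            have := gauge_le_one_of_mem h
            rwa [h1, inv_mul_le_iff₀ hr, mul_one] at this
        rw [this]
        exact hc.isClosed.preimage (by fun_prop)
    · rw [upperSemicontinuous_iff_isOpen_preimage]
      intro r
      rcases le_or_gt r 0 with hr | hr
      · convert isOpen_empty
        ext x
        simp only [mem_preimage, mem_Iio, mem_empty_iff_false, iff_false, not_lt]
        exact hr.trans (gauge_nonneg x)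
      · have : gauge s ⁻¹' Iio r = (fun x => r⁻¹ • x) ⁻¹' interior s := by
          ext x
          simp only [mem_preimage, mem_Iio]
          have h1 : gauge s (r⁻¹ • x) = r⁻¹ * gauge s x :=
            gauge_smul_of_nonneg (inv_pos.2 hr).le x
          constructor
          · intro h
            apply hlt
            rw [h1, inv_mul_lt_iff₀ hr, mul_one]
            exact h
          · intro h
            have := interior_subset_gauge_lt_one s h
            rwa [mem_ofPred_eq, h1, inv_mul_lt_iff₀ hr, mul_one] at this
        rw [this]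
        exact isOpen_interior.preimage (by fun_prop)
  set t : Set ℂ := closedBall 0 1 with ht
  have t0 : t ∈ 𝓝 (0 : ℂ) := closedBall_mem_nhds 0 one_pos
  have ta : Absorbent ℝ t := absorbent_nhds_zero t0
  have tb : IsVonNBounded ℝ t := NormedSpace.isVonNBounded_of_isBounded _ isBounded_closedBall
  have tcont : Continuous (gauge t) := continuous_gauge (convex_closedBall 0 1) t0
  have key : ∀ {a b : Set ℂ}, a ∈ 𝓝 (0 : ℂ) → b ∈ 𝓝 (0 : ℂ) → IsVonNBounded ℝ b →
      Continuous (gauge a) → Continuous (gauge b) → Continuous (gaugeRescale a b) := by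
    intro a b a0 b0 bb ca cb
    have hta : Absorbent ℝ b := absorbent_nhds_zero b0
    refine continuous_iff_continuousAt.2 fun x ↦ ?_
    rcases eq_or_ne x 0 with rfl | hx
    · rw [ContinuousAt, gaugeRescale_zero]
      nth_rewrite 2 [← comap_gauge_nhds_zero bb b0]
      simp only [tendsto_comap_iff, Function.comp_def, gauge_gaugeRescale _ hta bb]
      exact tendsto_gauge_nhds_zero a0
    · exact (ca.continuousAt.div cb.continuousAt ((gauge_pos hta bb).2 hx).ne').smul
        continuousAt_id
  let e : ℂ ≃ₜ ℂ :=
    { toEquiv := gaugeRescaleEquiv s t ha hb ta tb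
      continuous_toFun := key h0 t0 tb hcont tcont
      continuous_invFun := key t0 h0 hb tcont hcont }
  refine ⟨e.subtype fun x => ?_⟩
  have h1 : gauge t (e x) = gauge s x := gauge_gaugeRescale s ta tb x
  rw [ht, gauge_closedBall zero_le_one, div_one] at h1
  rw [mem_closedBall_zero_iff, h1]
  exact ⟨gauge_le_one_of_mem, hle x⟩

theorem star_disk {s : Set ℂ} (c : ℂ) (hc : IsCompact s) (hne : s.Nonempty)
    (hs : ∀ z ∈ s, ∀ t : ℝ, 0 ≤ t → t < 1 → c + t • (z - c) ∈ interior s) :
    Nonempty (s ≃ₜ closedBall (0 : ℂ) 1) := by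
  let e : ℂ ≃ₜ ℂ := Homeomorph.addLeft c
  obtain ⟨f⟩ := star_disk_zero (s := e ⁻¹' s) (e.isCompact_preimage.2 hc)
    (hne.preimage e.surjective) (by
      intro z hz t h0 h1
      rw [← e.preimage_interior]
      have := hs _ hz t h0 h1
      simpa [e] using this)
  exact ⟨(e.subtype (p := fun x => x ∈ e ⁻¹' s) (q := fun x => x ∈ s)
    (fun _ => Iff.rfl)).symm.trans f⟩

end Pool.Agent.Lib.MP_270077_co
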