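import Pool.Agent.Lib.MP_270077_co.Upper
import Pool.Agent.Lib.MP_270077_co.Star

/-!
A verified checker for semilinear inclusions, and the star-shaped patches it certifies.
-/

namespace Pool.Agent.Lib.MP_270077_co

open Set Filter Topology Complex
open scoped ComplexConjugate

/-- Covering certificates. -/
inductive Bt
  | contra (i j k : Nat) (l1 l2 l3 : Q3) : Bt
  | pick (m : Nat) (t : Bt) : Bt
  | next (t1 t2 : Bt) : Bt
  | done : Bt

/-- A constraint: a form and whether it is strict. -/
def Holds (c : Form × Bool) (z : ℂ) : Prop := 0 ≤ c.1.ev z ∧ (c.2 = true → 0 < c.1.ev z)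

def comb (l1 l2 l3 a b c : Q3) : Q3 := ((l1.mul a).add (l2.mul b)).add (l3.mul c)

def bchk (R : List (List Form)) : List (Form × Bool) → Option (List Form) → Bt → Bool
  | H, _, .contra i j k l1 l2 l3 =>
    match H[i]?, H[j]?, H[k]? with
    | some a, some b, some c =>
      l1.pos && l2.nonneg && l3.nonneg && (comb l1 l2 l3 a.1.A b.1.A c.1.A).isZero &&
        (comb l1 l2 l3 a.1.B b.1.B c.1.B).isZero &&
        ((comb l1 l2 l3 a.1.C b.1.C c.1.C).neg.pos ||
          (a.2 && (comb l1 l2 l3 a.1.C b.1.C c.1.C).isZero))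
    | _, _, _ => false
  | H, _, .pick m t =>
    match R[m]? with
    | some r => bchk R H (some r) t
    | none => false
  | H, o, .next t1 t2 =>
    match o with
    | some (f :: fs) => bchk R ((f.neg, true) :: H) none t1 && bchk R ((f, false) :: H) (some fs) t2
    | _ => false
  | _, o, .done =>
    match o with
    | some [] => true
    | _ => false

theorem bchk_sound (R : List (List Form)) (z : ℂ) (t : Bt) :
    ∀ (H : List (Form × Bool)) (o : Option (List Form)), bchk R H o t = true →
      (∀ c ∈ H, Holds c z) → (∀ l ∈ o, z ∈ sem l → ∃ r ∈ R, z ∈ sem r) → ∃ r ∈ R, z ∈ sem r := by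
  induction t with
  | contra i j k l1 l2 l3 =>
    intro H o hc hH _
    exfalso
    unfold bchk at hc
    split at hc
    · rename_i a b c ha hb hc'
      simp only [Bool.and_eq_true, Bool.or_eq_true] at hc
      obtain ⟨⟨⟨⟨⟨p1, p2⟩, p3⟩, p4⟩, p5⟩, p6⟩ := hc
      have q1 := Q3.pos_sound p1
      have q2 := Q3.nonneg_sound p2
      have q3 := Q3.nonneg_sound p3
      have q4 := Q3.isZero_sound p4
      have q5 := Q3.isZero_sound p5
      have r1 := hH a (List.mem_of_getElem? ha)
      have r2 := mul_nonneg q2 (hH b (List.mem_of_getElem? hb)).1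
      have r3 := mul_nonneg q3 (hH c (List.mem_of_getElem? hc')).1
      have key : l1.ev * a.1.ev z + l2.ev * b.1.ev z + l3.ev * c.1.ev z =
          (comb l1 l2 l3 a.1.C b.1.C c.1.C).ev := by
        simp only [comb, Q3.ev_add, Q3.ev_mul, Form.ev] at q4 q5 ⊢
        linear_combination z.re * q4 + z.im * q5
      rcases p6 with p6 | ⟨p6, p7⟩
      · have := Q3.pos_sound p6
        rw [Q3.ev_neg] at this
        have := mul_nonneg q1.le r1.1
        linarith
      · have := Q3.isZero_sound p7
        have := mul_pos q1 (r1.2 p6)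
        linarith
    · exact absurd hc (by simp)
  | pick m t ih =>
    intro H o hc hH _
    unfold bchk at hc
    split at hc
    · rename_i r hr
      refine ih H _ hc hH ?_
      intro l hl hz
      simp only [Option.mem_def, Option.some.injEq] at hl
      exact ⟨r, List.mem_of_getElem? hr, hl ▸ hz⟩
    · exact absurd hc (by simp)
  | next t1 t2 ih1 ih2 =>
    intro H o hc hH ho
    unfold bchk at hc
    split at hc
    · rename_i f fs
      simp only [Bool.and_eq_true] at hc
      rcases lt_or_ge (f.ev z) 0 with hf | hf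
      · refine ih1 _ _ hc.1 ?_ (by simp)
        intro c hc'
        rcases List.mem_cons.1 hc' with rfl | hc'
        · exact ⟨by simp; linarith, fun _ => by simp; linarith⟩
        · exact hH c hc'
      · refine ih2 _ _ hc.2 ?_ ?_
        · intro c hc'
          rcases List.mem_cons.1 hc' with rfl | hc'
          · exact ⟨hf, by simp⟩
          · exact hH c hc'
        · intro l hl hz
          simp only [Option.mem_def, Option.some.injEq] at hl
          apply ho _ rfl
          intro g hg
          rcases List.mem_cons.1 hg with rfl | hg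
          · exact hf
          · exact hz g (hl ▸ hg)
    · exact absurd hc (by simp)
  | done =>
    intro H o hc _ ho
    unfold bchk at hc
    split at hc
    · exact ho _ rfl (by simp [sem])
    · exact absurd hc (by simp)

theorem bchk_cover {R : List (List Form)} {H : List (Form × Bool)} {t : Bt}
    (h : bchk R H none t = true) {z : ℂ} (hH : ∀ c ∈ H, Holds c z) : ∃ r ∈ R, z ∈ sem r :=
  bchk_sound R z t H none h hH (by simp)

theorem bchk_false {H : List (Form × Bool)} {t : Bt}
    (h : bchk [] H none t = true) {z : ℂ} (hH : ∀ c ∈ H, Holds c z) : False := by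
  obtain ⟨r, hr, -⟩ := bchk_cover h hH
  simp at hr

/-- Check a predicate along a list with a list of certificates. -/
def all2 {α β : Type} (f : α → β → Bool) : List α → List β → Bool
  | [], _ => true
  | _ :: _, [] => false
  | a :: l, b :: m => f a b && all2 f l m

theorem all2_sound {α β : Type} {f : α → β → Bool} :
    ∀ {l : List α} {m : List β}, all2 f l m = true → ∀ a ∈ l, ∃ b, f a b = true
  | [], _, _ => by simp
  | _ :: _, [], h => by simp [all2] at h
  | a :: l, b :: m, h => by
    simp only [all2, Bool.and_eq_true] at h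
    intro x hx
    rcases List.mem_cons.1 hx with rfl | hx
    · exact ⟨b, h.1⟩
    · exact all2_sound h.2 x hx

def tag (s : Bool) (T : List Form) : List (Form × Bool) := T.map fun f => (f, s)

def nzB (T : List Form) : Bool := T.all fun f => ((f.A.mul f.A).add (f.B.mul f.B)).pos

theorem holds_of_interior {T : List Form} (hT : nzB T = true) {z : ℂ}
    (hz : z ∈ interior (sem T)) : ∀ c ∈ tag true T, Holds c z := by
  intro c hc
  obtain ⟨f, hf, rfl⟩ := List.mem_map.1 hc
  have h0 : 0 ≤ f.ev z := interior_subset hz f hf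
  refine ⟨h0, fun _ => lt_of_le_of_ne h0 fun he => ?_⟩
  have h1 := Q3.pos_sound (List.all_eq_true.1 hT f hf)
  simp only [Q3.ev_add, Q3.ev_mul] at h1
  refine not_germ hf (Or.inr ⟨he.symm, ?_⟩) (germ_of_mem_interior hz ⟨-f.A.ev, -f.B.ev⟩)
  simp only [Form.evl]
  linarith

theorem holds_of_mem {T : List Form} {z : ℂ} (hz : z ∈ sem T) : ∀ c ∈ tag false T, Holds c z := by
  intro c hc
  obtain ⟨f, hf, rfl⟩ := List.mem_map.1 hc
  exact ⟨hz f hf, by simp⟩

def pairChk : List (List Form) → List (List Bt) → Bool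
  | [], _ => true
  | _ :: _, [] => false
  | T :: L, c :: cs =>
    nzB T && all2 (fun T' t => nzB T' && bchk [] (tag true T ++ tag true T') none t) L c &&
      pairChk L cs

theorem pairChk_sound : ∀ {L : List (List Form)} {cs : List (List Bt)}, pairChk L cs = true →
    L.Pairwise fun T T' => Disjoint (interior (sem T)) (interior (sem T'))
  | [], _, _ => List.Pairwise.nil
  | _ :: _, [], h => by simp [pairChk] at h
  | T :: L, c :: cs, h => by
    simp only [pairChk, Bool.and_eq_true] at h
    refine List.Pairwise.cons (fun T' hT' => ?_) (pairChk_sound h.2)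
    obtain ⟨t, ht⟩ := all2_sound h.1.2 T' hT'
    simp only [Bool.and_eq_true] at ht
    rw [Set.disjoint_left]
    intro z h1 h2
    apply bchk_false ht.2 (z := z)
    intro c hc
    rcases List.mem_append.1 hc with hc | hc
    · exact holds_of_interior h.1.1 h1 c hc
    · exact holds_of_interior ht.1 h2 c hc

/-- The union of the regions of a list. -/
def uni (L : List (List Form)) : Set ℂ := {z | ∃ T ∈ L, z ∈ sem T}

def touchChk (lower L : List (List Form)) (cs : List (Pt × Nat)) : Bool :=
  all2 (fun T c => memB T c.1 &&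
    match lower[c.2]? with
    | some T' => memB T' c.1
    | none => false) L cs

theorem touchChk_sound {lower L : List (List Form)} {cs : List (Pt × Nat)}
    (h : touchChk lower L cs = true) : ∀ T ∈ L, (sem T ∩ uni lower).Nonempty := by
  intro T hT
  obtain ⟨c, hc⟩ := all2_sound h T hT
  simp only [Bool.and_eq_true] at hc
  obtain ⟨h1, h2⟩ := hc
  split at h2
  · rename_i T' hT'
    exact ⟨c.1.ev, memB_sound h1, T', List.mem_of_getElem? hT', memB_sound h2⟩
  · exact absurd h2 (by simp)

/-- A cone at the centre with the boundary line inside it. -/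
structure Cone where
  g1 : Form
  g2 : Form
  m : Form

def insideChk (s : Bool) (Cs : List Cone) (L : List (List Form)) (cs : List (List Bt)) : Bool :=
  all2 (fun T c => all2 (fun (C : Cone) t =>
    bchk [] ((C.g1, false) :: (C.g2, false) :: (C.m.neg, s) :: tag false T) none t) Cs c) L cs

theorem insideChk_sound {s : Bool} {Cs : List Cone} {L : List (List Form)} {cs : List (List Bt)}
    (h : insideChk s Cs L cs = true) {z : ℂ} (hz : z ∈ uni L) {C : Cone} (hC : C ∈ Cs)
    (h1 : 0 ≤ C.g1.ev z) (h2 : 0 ≤ C.g2.ev z) : ¬ Holds (C.m.neg, s) z := by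
  obtain ⟨T, hT, hz⟩ := hz
  obtain ⟨c, hc⟩ := all2_sound h T hT
  obtain ⟨t, ht⟩ := all2_sound hc C hC
  intro h3
  apply bchk_false ht (z := z)
  intro d hd
  simp only [List.mem_cons] at hd
  rcases hd with rfl | rfl | rfl | hd
  · exact ⟨h1, by simp⟩
  · exact ⟨h2, by simp⟩
  · exact h3
  · exact holds_of_mem hz d hd

def starChk (c : Pt) (Cs : List Cone) (inner outer : List (List Form)) (c1 c2 : List (List Bt))
    (cover : Bt) (c3 : List Bt) : Bool :=
  (Cs.all fun C => (C.g1.val c).isZero && (C.g2.val c).isZero && (C.m.val c).pos) &&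
  insideChk false Cs inner c1 && insideChk true Cs outer c2 &&
  bchk (Cs.map fun C => [C.g1, C.g2]) [] none cover &&
  all2 (fun (C : Cone) t =>
    bchk (inner ++ outer) [(C.g1, false), (C.g2, false), (C.m, false)] none t) Cs c3

theorem starChk_sound {c : Pt} {Cs : List Cone} {inner outer : List (List Form)}
    {c1 c2 : List (List Bt)} {cover : Bt} {c3 : List Bt}
    (h : starChk c Cs inner outer c1 c2 cover c3 = true) (hc : IsCompact (uni (inner ++ outer)))
    (hne : (uni (inner ++ outer)).Nonempty) :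
    Nonempty (uni (inner ++ outer) ≃ₜ Metric.closedBall (0 : ℂ) 1) ∧
      uni inner ⊆ interior (uni (inner ++ outer)) := by
  simp only [starChk, Bool.and_eq_true] at h
  obtain ⟨⟨⟨⟨h0, h1⟩, h2⟩, h3⟩, h4⟩ := h
  have hin : ∀ z ∈ uni inner, ∀ C ∈ Cs, 0 ≤ C.g1.ev z → 0 ≤ C.g2.ev z → 0 < C.m.ev z := by
    intro z hz C hC a b
    by_contra hcon
    exact insideChk_sound h1 hz hC a b ⟨by simp; linarith, by simp⟩
  have hall : ∀ z ∈ uni (inner ++ outer), ∀ C ∈ Cs,
      0 ≤ C.g1.ev z → 0 ≤ C.g2.ev z → 0 ≤ C.m.ev z := by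
    rintro z ⟨T, hT, hz⟩ C hC a b
    rcases List.mem_append.1 hT with hT | hT
    · exact (hin z ⟨T, hT, hz⟩ C hC a b).le
    · by_contra hcon
      exact insideChk_sound h2 ⟨T, hT, hz⟩ hC a b ⟨by simp; linarith, fun _ => by simp; linarith⟩
  have hopen : ∀ z, (∀ C ∈ Cs, 0 ≤ C.g1.ev z → 0 ≤ C.g2.ev z → 0 < C.m.ev z) →
      z ∈ interior (uni (inner ++ outer)) := by
    intro z hz
    apply interior_maximal
      (t := {z | ∀ C ∈ Cs, 0 ≤ C.g1.ev z → 0 ≤ C.g2.ev z → 0 < C.m.ev z}) _ _ hz
    · intro w hw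
      obtain ⟨r, hr, hwr⟩ := bchk_cover h3 (z := w) (by simp)
      obtain ⟨C, hC, rfl⟩ := List.mem_map.1 hr
      have a := hwr C.g1 (by simp)
      have b := hwr C.g2 (by simp)
      obtain ⟨t, ht⟩ := all2_sound h4 C hC
      apply bchk_cover ht
      intro d hd
      simp only [List.mem_cons, List.not_mem_nil, or_false] at hd
      rcases hd with rfl | rfl | rfl
      · exact ⟨a, by simp⟩
      · exact ⟨b, by simp⟩
      · exact ⟨(hw C hC a b).le, by simp⟩
    · have : {z | ∀ C ∈ Cs, 0 ≤ C.g1.ev z → 0 ≤ C.g2.ev z → 0 < C.m.ev z} =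
          ⋂ C ∈ {C | C ∈ Cs}, ({z | C.g1.ev z < 0} ∪ {z | C.g2.ev z < 0} ∪ {z | 0 < C.m.ev z}) := by
        ext w
        simp only [mem_ofPred_eq, mem_iInter, mem_union]
        refine forall₂_congr fun C _ => ?_
        rw [← not_le (a := 0), ← not_le (a := 0)]
        tauto
      rw [this]
      exact (List.finite_toSet Cs).isOpen_biInter fun C _ =>
        ((isOpen_lt C.g1.cont continuous_const).union (isOpen_lt C.g2.cont continuous_const)).union
          (isOpen_lt continuous_const C.m.cont)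
  refine ⟨star_disk c.ev hc hne ?_, fun z hz => hopen z (hin z hz)⟩
  intro z hz t t0 t1
  apply hopen
  intro C hC
  have hC0 := List.all_eq_true.1 h0 C hC
  simp only [Bool.and_eq_true] at hC0
  have e1 : C.g1.ev c.ev = 0 := by simpa using Q3.isZero_sound hC0.1.1
  have e2 : C.g2.ev c.ev = 0 := by simpa using Q3.isZero_sound hC0.1.2
  have e3 : 0 < C.m.ev c.ev := by simpa using Q3.pos_sound hC0.2
  have hl : ∀ f : Form, f.ev (c.ev + t • (z - c.ev)) = (1 - t) * f.ev c.ev + t * f.ev z := by
    intro f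
    simp [Form.ev]; ring
  rw [hl, hl, hl, e1, e2]
  intro a b
  have h5 := mul_pos (sub_pos.2 t1) e3
  rcases t0.lt_or_eq with t0' | t0'
  · have a' : 0 ≤ C.g1.ev z := nonneg_of_mul_nonneg_right (by linarith) t0'
    have b' : 0 ≤ C.g2.ev z := nonneg_of_mul_nonneg_right (by linarith) t0'
    have := mul_nonneg t0 (hall z hz C hC a' b')
    linarith
  · rw [← t0'] at h5 ⊢
    linarith

/-- Placement data. -/
structure Place where
  p : Pt
  U : Pt
  i : Fin 5
  b : Bool

def Place.tile (d : Place) : List Form := cand d.p d.U d.i d.b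

theorem isCopy_of_places {D : List Place} (h : (D.all fun d => d.U.isTwo) = true) :
    ∀ T ∈ D.map Place.tile, IsCopy P0 (sem T) := by
  intro T hT
  obtain ⟨d, hd, rfl⟩ := List.mem_map.1 hT
  exact isCopy_cand _ (List.all_eq_true.1 h d hd) _ _

theorem surroundable_two (hP : IsCompact P0) {L1 L2 : List (List Form)}
    (c1 : ∀ T ∈ L1, IsCopy P0 (sem T)) (c2 : ∀ T ∈ L2, IsCopy P0 (sem T))
    (hpair : (([tP] ++ L1) ++ L2).Pairwise
      fun T T' => Disjoint (interior (sem T)) (interior (sem T')))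
    (t1 : ∀ T ∈ L1, (sem T ∩ uni [tP]).Nonempty) (t2 : ∀ T ∈ L2, (sem T ∩ uni ([tP] ++ L1)).Nonempty)
    (s1 : IsCompact (uni ([tP] ++ L1)) → (uni ([tP] ++ L1)).Nonempty →
      Nonempty (uni ([tP] ++ L1) ≃ₜ Metric.closedBall (0 : ℂ) 1) ∧
        uni [tP] ⊆ interior (uni ([tP] ++ L1)))
    (s2 : IsCompact (uni (([tP] ++ L1) ++ L2)) → (uni (([tP] ++ L1) ++ L2)).Nonempty →
      Nonempty (uni (([tP] ++ L1) ++ L2) ≃ₜ Metric.closedBall (0 : ℂ) 1) ∧
        uni ([tP] ++ L1) ⊆ interior (uni (([tP] ++ L1) ++ L2))) :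
    Surroundable P0 2 := by
  have hcomp : ∀ L : List (List Form), (∀ T ∈ L, IsCopy P0 (sem T)) → IsCompact (uni L) := by
    intro L hL
    have : uni L = ⋃ T ∈ {T | T ∈ L}, sem T := by ext; simp [uni]
    rw [this]
    refine (List.finite_toSet L).isCompact_biUnion fun T hT => ?_
    obtain ⟨g, hg⟩ := hL T hT
    rw [hg]
    exact hP.image g.continuous
  have c0 : IsCopy P0 (sem tP) := isCopy_cand _ (by decide) _ _
  have k1 : ∀ T ∈ [tP] ++ L1, IsCopy P0 (sem T) := by
    intro T hT
    rcases List.mem_append.1 hT with hT | hT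
    · rw [List.mem_singleton.1 hT]; exact c0
    · exact c1 T hT
  have k2 : ∀ T ∈ ([tP] ++ L1) ++ L2, IsCopy P0 (sem T) := by
    intro T hT
    rcases List.mem_append.1 hT with hT | hT
    · exact k1 T hT
    · exact c2 T hT
  have hV : V 0 ∈ sem tP := by rw [sem_tP]; exact h_V_nonneg 0
  obtain ⟨d1, i1⟩ := s1 (hcomp _ k1) ⟨V 0, tP, by simp, hV⟩
  obtain ⟨d2, i2⟩ := s2 (hcomp _ k2) ⟨V 0, tP, by simp, hV⟩
  let LL : ℕ → List (List Form) := fun k => match k with
    | 0 => [tP]
    | 1 => L1
    | _ => L2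
  let Z : ℕ → Set (Set ℂ) := fun k => sem '' {T | T ∈ LL k}
  have p0 : patch Z 0 = uni [tP] := by
    ext z; simp [patch, Z, LL, uni]
  have hstep : ∀ k L, patch Z k = uni L → patch Z (k + 1) = uni (L ++ LL (k + 1)) := by
    intro k L hL
    have : patch Z (k + 1) = patch Z k ∪ ⋃₀ Z (k + 1) := by
      ext z
      simp only [patch, mem_iUnion, mem_union]
      constructor
      · rintro ⟨j, hj, hz⟩
        rcases Nat.lt_or_eq_of_le hj with hj | rfl
        · exact Or.inl ⟨j, by omega, hz⟩
        · exact Or.inr hz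
      · rintro (⟨j, hj, hz⟩ | hz)
        · exact ⟨j, by omega, hz⟩
        · exact ⟨k + 1, le_rfl, hz⟩
    rw [this, hL]
    ext z
    simp [uni, Z, or_and_right, exists_or]
  have p1 : patch Z 1 = uni ([tP] ++ L1) := hstep 0 _ p0
  have p2 : patch Z 2 = uni (([tP] ++ L1) ++ L2) := hstep 1 _ p1
  have hsymm : Std.Symm fun T T' : List Form =>
      Disjoint (interior (sem T)) (interior (sem T')) := ⟨fun _ _ h => h.symm⟩
  obtain ⟨q1, q2, q3⟩ := List.pairwise_append.1 hpair
  obtain ⟨-, q4, q5⟩ := List.pairwise_append.1 q1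
  refine ⟨Z, ?_, fun k hk => ?_⟩
  · simp [Z, LL, sem_tP]
  interval_cases k
  · refine ⟨(List.finite_toSet _).image _, ?_, ?_, ?_, ?_, ?_, ?_⟩
    · rintro _ ⟨T, hT, rfl⟩; exact c1 T hT
    · rintro _ ⟨T, hT, rfl⟩ _ ⟨T', hT', rfl⟩ hne
      exact q4.forall hT hT' fun he => hne (by rw [he])
    · rintro _ ⟨T, hT, rfl⟩ j hj _ ⟨T', hT', rfl⟩
      obtain rfl : j = 0 := by omega
      exact (q5 T' hT' T hT).symm
    · rintro _ ⟨T, hT, rfl⟩
      rw [p0]; exact t1 T hT
    · rw [p1]; exact d1
    · rw [p0, p1]; exact i1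
  · refine ⟨(List.finite_toSet _).image _, ?_, ?_, ?_, ?_, ?_, ?_⟩
    · rintro _ ⟨T, hT, rfl⟩; exact c2 T hT
    · rintro _ ⟨T, hT, rfl⟩ _ ⟨T', hT', rfl⟩ hne
      exact q2.forall hT hT' fun he => hne (by rw [he])
    · rintro _ ⟨T, hT, rfl⟩ j hj _ ⟨T', hT', rfl⟩
      refine (q3 T' ?_ T hT).symm
      interval_cases j
      · exact List.mem_append_left _ hT'
      · exact List.mem_append_right _ hT'
    · rintro _ ⟨T, hT, rfl⟩
      rw [p1]; exact t2 T hT
    · rw [p2]; exact d2
    · rw [p1, p2]; exact i2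

end Pool.Agent.Lib.MP_270077_co
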