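import Pool.Agent.Lib.MP_270077_co.Lower

/-!
An explicit surrounding of the pentagon by two zones, with certificates.
-/

namespace Pool.Agent.Lib.MP_270077_co.LowerData

open Pool.Agent.Lib.MP_270077_co

def P (a b c d : Int) : Pt := ⟨⟨a, b⟩, ⟨c, d⟩⟩
def F (a b c d e f : Int) : Form := ⟨⟨a, b⟩, ⟨c, d⟩, ⟨e, f⟩⟩
def X (i j k : Nat) (a b c d e f : Int) : Bt := .contra i j k ⟨a, b⟩ ⟨c, d⟩ ⟨e, f⟩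

def D1 : List Place :=
  [⟨P 0 0 0 0, P 2 0 0 0, 4, false⟩,
  ⟨P 0 4 0 0, P 2 0 0 0, 4, true⟩,
  ⟨P 0 0 0 0, P (-1) 0 0 (-1), 4, false⟩,
  ⟨P 0 (-2) 6 0, P (-1) 0 0 1, 4, true⟩,
  ⟨P 0 16 (-12) 0, P (-2) 0 0 0, 4, true⟩,
  ⟨P 0 6 30 0, P 2 0 0 0, 4, true⟩,
  ⟨P 0 22 18 0, P 1 0 0 (-1), 4, false⟩]

def L1 : List (List Form) := D1.map Place.tile

def D2 : List Place :=
  [⟨P 0 (-2) (-6) 0, P (-1) 0 0 (-1), 4, true⟩,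
  ⟨P 0 (-4) 36 0, P 1 0 0 1, 4, false⟩,
  ⟨P 0 10 30 0, P (-2) 0 0 0, 4, false⟩,
  ⟨P 0 (-2) 30 0, P 1 0 0 (-1), 4, true⟩,
  ⟨P 0 (-14) 18 0, P 2 0 0 0, 4, false⟩,
  ⟨P 0 (-14) (-18) 0, P 1 0 0 1, 4, true⟩,
  ⟨P 0 (-2) (-30) 0, P (-1) 0 0 1, 4, false⟩,
  ⟨P 0 12 (-12) 0, P 2 0 0 0, 4, false⟩,
  ⟨P 0 24 12 0, P 1 0 0 (-1), 4, true⟩,
  ⟨P 0 26 (-18) 0, P (-1) 0 0 (-1), 4, false⟩,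
  ⟨P 0 14 18 0, P (-1) 0 0 1, 4, false⟩,
  ⟨P 0 12 24 0, P (-1) 0 0 1, 4, true⟩,
  ⟨P 0 30 6 0, P (-2) 0 0 0, 4, true⟩]

def L2 : List (List Form) := D2.map Place.tile

def pc_0 : List Bt :=
  [(X 0 9 0 1 0 1 0 0 0), (X 0 9 0 1 0 1 0 0 0), (X 4 5 0 1 0 1 0 0 0), (X 3 8 0 1 0 1 0 0 0), (X 1 6 0 1 0 1 0 0 0), (X 2 7 0 1 0 1 0 0 0), (X 1 6 0 1 0 1 0 0 0), (X 0 3 8 0 1 1 0 1 0), (X 1 3 6 1 0 0 1 1 0), (X 1 3 9 1 0 0 1 1 0), (X 0 3 5 1 0 0 1 1 0), (X 3 7 0 1 0 1 0 0 0), (X 0 5 0 1 0 1 0 0 0), (X 0 1 8 1 0 1 0 0 1), (X 0 9 0 1 0 1 0 0 0), (X 0 1 8 1 0 1 0 0 1), (X 0 6 0 1 0 1 0 0 0), (X 0 2 9 1 0 0 1 1 0), (X 3 8 0 1 0 1 0 0 0), (X 1 6 0 1 0 1 0 0 0)]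

def pc_1 : List Bt :=
  [(X 3 8 0 1 0 1 0 0 0), (X 0 9 0 1 0 1 0 0 0), (X 0 3 8 0 1 1 0 1 0), (X 0 3 5 1 0 0 1 1 0), (X 3 8 0 1 0 1 0 0 0), (X 0 3 7 0 1 2 0 1 0), (X 0 9 0 1 0 1 0 0 0), (X 4 6 0 1 0 1 0 0 0), (X 0 5 0 1 0 1 0 0 0), (X 0 5 0 1 0 1 0 0 0), (X 0 1 8 1 0 1 0 0 1), (X 1 6 0 1 0 1 0 0 0), (X 2 8 0 1 0 1 0 0 0), (X 1 3 5 1 0 0 1 1 0), (X 3 7 0 1 0 1 0 0 0), (X 3 7 0 1 0 1 0 0 0), (X 4 5 0 1 0 1 0 0 0), (X 0 3 8 0 1 1 0 1 0), (X 4 9 0 1 0 1 0 0 0)]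

def pc_2 : List Bt :=
  [(X 0 3 9 1 0 0 1 1 0), (X 0 3 8 0 1 2 0 1 0), (X 0 5 0 1 0 1 0 0 0), (X 0 3 7 0 1 1 0 1 0), (X 0 3 7 0 1 1 0 1 0), (X 0 3 9 1 0 0 1 1 0), (X 0 5 0 1 0 1 0 0 0), (X 4 9 0 1 0 1 0 0 0), (X 4 6 0 1 0 1 0 0 0), (X 3 8 0 1 0 1 0 0 0), (X 1 3 6 1 0 0 1 1 0), (X 2 7 0 1 0 1 0 0 0), (X 1 5 0 1 0 1 0 0 0), (X 0 1 7 1 0 1 0 0 1), (X 0 1 7 1 0 1 0 0 1), (X 0 9 0 1 0 1 0 0 0), (X 0 9 0 1 0 1 0 0 0), (X 0 5 0 1 0 1 0 0 0)]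

def pc_3 : List Bt :=
  [(X 0 9 0 1 0 1 0 0 0), (X 0 5 0 1 0 1 0 0 0), (X 0 1 7 1 0 1 0 0 1), (X 4 6 0 1 0 1 0 0 0), (X 3 8 0 1 0 1 0 0 0), (X 0 5 0 1 0 1 0 0 0), (X 1 9 0 1 0 1 0 0 0), (X 1 6 0 1 0 1 0 0 0), (X 2 8 0 1 0 1 0 0 0), (X 0 3 5 1 0 0 1 1 0), (X 3 7 0 1 0 1 0 0 0), (X 0 6 0 1 0 1 0 0 0), (X 0 3 7 0 1 1 0 1 0), (X 0 3 7 0 1 1 0 1 0), (X 0 9 0 1 0 1 0 0 0), (X 0 9 0 1 0 1 0 0 0), (X 0 5 0 1 0 1 0 0 0)]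

def pc_4 : List Bt :=
  [(X 1 3 6 1 0 0 1 1 0), (X 2 8 0 1 0 1 0 0 0), (X 1 3 6 1 0 0 1 1 0), (X 0 3 8 0 1 2 0 1 0), (X 1 6 0 1 0 1 0 0 0), (X 1 9 0 1 0 1 0 0 0), (X 0 5 0 1 0 1 0 0 0), (X 0 3 8 0 1 1 0 1 0), (X 4 6 0 1 0 1 0 0 0), (X 3 8 0 1 0 1 0 0 0), (X 0 3 9 1 0 0 1 1 0), (X 2 7 0 1 0 1 0 0 0), (X 2 7 0 1 0 1 0 0 0), (X 0 2 9 1 0 0 1 1 0), (X 0 2 9 1 0 0 1 1 0), (X 0 2 5 1 0 0 1 1 0)]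

def pc_5 : List Bt :=
  [(X 1 6 0 1 0 1 0 0 0), (X 2 7 0 1 0 1 0 0 0), (X 1 9 0 1 0 1 0 0 0), (X 0 1 7 1 0 1 0 0 1), (X 1 5 0 1 0 1 0 0 0), (X 0 9 0 1 0 1 0 0 0), (X 0 1 8 1 0 1 0 0 1), (X 0 6 0 1 0 1 0 0 0), (X 0 3 7 0 1 1 0 1 0), (X 4 9 0 1 0 1 0 0 0), (X 3 7 0 1 0 1 0 0 0), (X 3 7 0 1 0 1 0 0 0), (X 0 2 5 1 0 0 1 1 0), (X 1 2 8 0 1 1 0 2 0), (X 1 3 5 1 0 0 1 1 0)]

def pc_6 : List Bt :=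
  [(X 1 6 0 1 0 1 0 0 0), (X 2 8 0 1 0 1 0 0 0), (X 3 7 0 1 0 1 0 0 0), (X 4 9 0 1 0 1 0 0 0), (X 0 3 5 1 0 0 1 1 0), (X 3 8 0 1 0 1 0 0 0), (X 0 2 5 1 0 0 1 1 0), (X 2 7 0 1 0 1 0 0 0), (X 1 5 0 1 0 1 0 0 0), (X 0 1 7 1 0 1 0 0 1), (X 0 1 7 1 0 1 0 0 1), (X 0 9 0 1 0 1 0 0 0), (X 0 9 0 1 0 1 0 0 0), (X 0 5 0 1 0 1 0 0 0)]

def pc_7 : List Bt :=
  [(X 1 9 0 1 0 1 0 0 0), (X 0 6 0 1 0 1 0 0 0), (X 0 9 0 1 0 1 0 0 0), (X 1 5 0 1 0 1 0 0 0), (X 0 1 7 1 0 1 0 0 1), (X 0 2 6 1 0 0 1 1 0), (X 2 7 0 1 0 1 0 0 0), (X 1 3 9 1 0 0 1 1 0), (X 3 8 0 1 0 1 0 0 0), (X 1 3 6 1 0 0 1 1 0), (X 0 5 0 1 0 1 0 0 0), (X 0 1 8 1 0 1 0 0 1), (X 4 5 0 1 0 1 0 0 0)]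

def pc_8 : List Bt :=
  [(X 0 3 5 1 0 0 1 1 0), (X 0 3 8 0 1 2 0 1 0), (X 1 3 6 1 0 0 1 1 0), (X 2 7 0 1 0 1 0 0 0), (X 0 5 0 1 0 1 0 0 0), (X 0 3 8 0 1 1 0 1 0), (X 0 9 0 1 0 1 0 0 0), (X 0 3 7 0 1 2 0 1 0), (X 3 8 0 1 0 1 0 0 0), (X 0 3 9 1 0 0 1 1 0), (X 2 8 0 1 0 1 0 0 0), (X 4 6 0 1 0 1 0 0 0)]

def pc_9 : List Bt :=
  [(X 2 8 0 1 0 1 0 0 0), (X 0 9 0 1 0 1 0 0 0), (X 1 9 0 1 0 1 0 0 0), (X 0 6 0 1 0 1 0 0 0), (X 0 1 7 1 0 1 0 0 1), (X 1 9 0 1 0 1 0 0 0), (X 2 7 0 1 0 1 0 0 0), (X 1 6 0 1 0 1 0 0 0), (X 1 2 8 0 1 1 0 2 0), (X 1 2 5 1 0 0 1 2 0), (X 0 2 6 1 0 0 1 1 0)]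

def pc_10 : List Bt :=
  [(X 0 3 9 1 0 0 1 1 0), (X 3 8 0 1 0 1 0 0 0), (X 4 5 0 1 0 1 0 0 0), (X 0 3 7 0 1 2 0 1 0), (X 0 5 0 1 0 1 0 0 0), (X 0 1 7 1 0 1 0 0 1), (X 4 6 0 1 0 1 0 0 0), (X 0 3 8 0 1 1 0 1 0), (X 0 5 0 1 0 1 0 0 0), (X 0 6 0 1 0 1 0 0 0)]

def pc_11 : List Bt :=
  [(X 2 8 0 1 0 1 0 0 0), (X 0 9 0 1 0 1 0 0 0), (X 0 1 8 1 0 1 0 0 1), (X 0 5 0 1 0 1 0 0 0), (X 0 1 8 1 0 1 0 0 1), (X 1 6 0 1 0 1 0 0 0), (X 4 9 0 1 0 1 0 0 0), (X 0 5 0 1 0 1 0 0 0), (X 0 6 0 1 0 1 0 0 0)]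

def pc_12 : List Bt :=
  [(X 0 2 5 1 0 0 1 1 0), (X 2 8 0 1 0 1 0 0 0), (X 0 2 9 1 0 0 1 1 0), (X 2 8 0 1 0 1 0 0 0), (X 3 7 0 1 0 1 0 0 0), (X 2 8 0 1 0 1 0 0 0), (X 0 3 9 1 0 0 1 1 0), (X 0 3 5 1 0 0 1 1 0)]

def pc_13 : List Bt :=
  [(X 2 8 0 1 0 1 0 0 0), (X 1 6 0 1 0 1 0 0 0), (X 0 6 0 1 0 1 0 0 0), (X 0 1 8 1 0 1 0 0 1), (X 0 5 0 1 0 1 0 0 0), (X 1 9 0 1 0 1 0 0 0), (X 0 9 0 1 0 1 0 0 0)]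

def pc_14 : List Bt :=
  [(X 1 5 0 1 0 1 0 0 0), (X 1 2 7 0 1 1 0 2 0), (X 2 8 0 1 0 1 0 0 0), (X 0 2 9 1 0 0 1 1 0), (X 3 8 0 1 0 1 0 0 0), (X 1 6 0 1 0 1 0 0 0)]

def pc_15 : List Bt :=
  [(X 3 7 0 1 0 1 0 0 0), (X 3 7 0 1 0 1 0 0 0), (X 0 6 0 1 0 1 0 0 0), (X 0 3 8 0 1 1 0 1 0), (X 4 9 0 1 0 1 0 0 0)]

def pc_16 : List Bt :=
  [(X 1 6 0 1 0 1 0 0 0), (X 0 3 5 1 0 0 1 1 0), (X 3 8 0 1 0 1 0 0 0), (X 4 5 0 1 0 1 0 0 0)]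

def pc_17 : List Bt :=
  [(X 0 9 0 1 0 1 0 0 0), (X 0 9 0 1 0 1 0 0 0), (X 0 5 0 1 0 1 0 0 0)]

def pc_18 : List Bt :=
  [(X 3 8 0 1 0 1 0 0 0), (X 1 6 0 1 0 1 0 0 0)]

def pc_19 : List Bt :=
  [(X 1 3 6 1 0 0 1 1 0)]

def pc_20 : List Bt :=
  []

def pc : List (List Bt) :=
  [pc_0, pc_1, pc_2, pc_3, pc_4, pc_5, pc_6, pc_7, pc_8, pc_9, pc_10, pc_11, pc_12, pc_13, pc_14, pc_15, pc_16, pc_17, pc_18, pc_19, pc_20]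

def tc1 : List (Pt × Nat) :=
  [(P 0 0 0 0, 0),
  (P 0 4 0 0, 0),
  (P 0 0 0 0, 0),
  (P 0 (-2) 6 0, 0),
  (P 0 11 9 0, 0),
  (P 0 6 14 0, 0),
  (P 0 11 9 0, 0)]

def tc2 : List (Pt × Nat) :=
  [(P 0 (-2) (-6) 0, 1),
  (P 0 0 24 0, 4),
  (P 0 10 30 0, 6),
  (P 0 (-10) 12 0, 3),
  (P 0 (-10) 2 0, 3),
  (P 0 (-1) (-21) 0, 1),
  (P 0 9 (-21) 0, 2),
  (P 0 12 (-12) 0, 2),
  (P 0 24 12 0, 7),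
  (P 0 16 (-6) 0, 5),
  (P 0 14 18 0, 6),
  (P 0 12 24 0, 6),
  (P 0 22 18 0, 7)]

def Cs1 : List Cone :=
  [⟨F 15 0 0 (-10) 0 (-30), F (-21) 0 0 12 0 60, F 6 0 0 (-2) 0 0⟩,
  ⟨F 21 0 0 (-12) 0 (-60), F (-30) 0 0 9 0 159, F 9 0 0 3 0 72⟩,
  ⟨F 30 0 0 (-9) 0 (-159), F (-25) 0 0 4 0 164, F (-5) 0 0 5 0 100⟩,
  ⟨F 25 0 0 (-4) 0 (-164), F (-30) 0 0 (-1) 0 249, F 5 0 0 5 0 60⟩,
  ⟨F 30 0 0 1 0 (-249), F (-21) 0 0 (-4) 0 204, F (-9) 0 0 3 0 144⟩,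
  ⟨F 21 0 0 4 0 (-204), F (-21) 0 0 (-8) 0 240, F 0 0 0 4 0 48⟩,
  ⟨F 21 0 0 8 0 (-240), F (-5) 0 0 (-8) 0 112, F (-16) 0 0 0 0 256⟩,
  ⟨F 5 0 0 8 0 (-112), F 3 0 0 (-16) 0 120, F (-8) 0 0 8 0 96⟩,
  ⟨F (-3) 0 0 16 0 (-120), F 9 0 0 (-14) 0 54, F (-6) 0 0 (-2) 0 168⟩,
  ⟨F (-9) 0 0 14 0 (-54), F 9 0 0 (-6) 0 (-18), F 0 0 0 (-8) 0 144⟩,
  ⟨F (-9) 0 0 6 0 18, F 21 0 0 (-2) 0 (-150), F (-12) 0 0 (-4) 0 240⟩,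
  ⟨F (-21) 0 0 2 0 150, F 21 0 0 2 0 (-186), F 0 0 0 (-4) 0 120⟩,
  ⟨F (-21) 0 0 (-2) 0 186, F 15 0 0 2 0 (-138), F 6 0 0 0 0 (-36)⟩,
  ⟨F (-15) 0 0 (-2) 0 138, F 15 0 0 8 0 (-192), F 0 0 0 (-6) 0 144⟩,
  ⟨F (-15) 0 0 (-8) 0 192, F 3 0 0 12 0 (-132), F 12 0 0 (-4) 0 96⟩,
  ⟨F (-3) 0 0 (-12) 0 132, F 3 0 0 18 0 (-186), F 0 0 0 (-6) 0 72⟩,
  ⟨F (-3) 0 0 (-18) 0 186, F (-7) 0 0 18 0 (-106), F 10 0 0 0 0 100⟩,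
  ⟨F 7 0 0 (-18) 0 106, F (-15) 0 0 10 0 30, F 8 0 0 8 0 64⟩]

def in1_0 : List Bt :=
  [(X 0 2 3 8 0 20 0 0 5), (X 2 7 0 0 4 9 0 0 0), (X 1 2 3 8 0 40 0 0 21), (X 0 2 3 8 0 40 0 0 29), (X 2 4 0 0 4 9 0 0 0), (X 2 3 0 2 0 0 1 0 0), (X 1 2 4 16 0 29 0 0 32), (X 0 2 4 16 0 29 0 0 26), (X 0 2 5 8 0 38 0 51 0), (X 1 2 5 8 0 15 0 18 0), (X 0 2 5 8 0 15 0 27 0), (X 0 2 6 4 0 19 0 21 0), (X 1 2 5 6 0 13 0 3 0), (X 0 2 6 12 0 34 0 45 0), (X 1 2 6 8 0 15 0 39 0), (X 0 2 6 4 0 10 0 3 0), (X 0 2 7 10 0 51 0 0 45), (X 1 2 7 16 0 45 0 0 50)]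

def in1 : List (List Bt) :=
  [in1_0]

def out1_0 : List Bt :=
  [(X 2 3 0 0 2 3 0 0 0), (X 2 4 0 0 4 9 0 0 0), (X 2 5 0 4 0 5 0 0 0), (X 2 0 5 84 0 40 0 145 0), (X 0 1 6 32 0 8 0 99 0), (X 0 1 6 16 0 8 0 21 0), (X 2 6 0 1 0 2 0 0 0), (X 0 1 6 16 0 8 0 13 0), (X 0 1 6 56 0 64 0 51 0), (X 2 7 0 1 0 0 1 0 0), (X 0 1 6 4 0 12 0 27 0), (X 2 7 0 2 0 0 1 0 0), (X 0 1 7 10 0 14 0 0 1), (X 2 7 0 4 0 0 3 0 0), (X 2 3 0 0 1 3 0 0 0), (X 2 7 0 4 0 0 3 0 0), (X 1 2 3 10 0 47 0 0 45), (X 2 1 3 15 0 32 0 0 50)]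

def out1_1 : List Bt :=
  [(X 0 2 6 8 0 40 0 15 0), (X 0 2 5 8 0 44 0 57 0), (X 2 1 5 116 0 40 0 105 0), (X 2 5 0 4 0 5 0 0 0), (X 2 4 0 0 4 9 0 0 0), (X 2 0 4 11 0 4 0 0 7), (X 0 1 3 19 0 3 0 0 32), (X 0 1 3 51 0 19 0 0 26), (X 2 3 0 0 2 3 0 0 0), (X 2 7 0 1 0 0 1 0 0), (X 2 3 0 0 1 3 0 0 0), (X 2 7 0 2 0 0 1 0 0), (X 0 1 3 3 0 5 0 0 1), (X 2 7 0 4 0 0 3 0 0), (X 0 1 7 2 0 10 0 0 13), (X 2 7 0 4 0 0 3 0 0), (X 2 6 0 4 0 5 0 0 0), (X 1 2 6 8 0 10 0 25 0)]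

def out1_2 : List Bt :=
  [(X 2 0 6 50 0 16 0 15 0), (X 0 2 6 8 0 44 0 57 0), (X 0 1 7 52 0 12 0 0 105), (X 2 6 0 4 0 5 0 0 0), (X 2 7 0 0 4 9 0 0 0), (X 0 1 7 15 0 11 0 0 7), (X 0 1 3 19 0 3 0 0 32), (X 0 1 3 51 0 19 0 0 26), (X 2 3 0 0 2 3 0 0 0), (X 2 4 0 1 0 0 1 0 0), (X 2 3 0 0 1 3 0 0 0), (X 2 4 0 2 0 0 1 0 0), (X 0 1 3 3 0 5 0 0 1), (X 2 4 0 4 0 0 3 0 0), (X 2 1 4 2 0 8 0 0 13), (X 2 4 0 4 0 0 3 0 0), (X 2 5 0 4 0 5 0 0 0), (X 2 6 0 1 0 2 0 0 0)]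

def out1_3 : List Bt :=
  [(X 0 1 6 18 0 10 0 15 0), (X 2 7 0 0 4 9 0 0 0), (X 2 6 0 4 0 5 0 0 0), (X 0 1 6 124 0 84 0 145 0), (X 0 1 5 32 0 8 0 99 0), (X 0 1 5 16 0 8 0 21 0), (X 2 5 0 1 0 2 0 0 0), (X 2 6 0 1 0 2 0 0 0), (X 0 1 5 56 0 64 0 51 0), (X 0 1 5 6 0 14 0 9 0), (X 0 1 5 4 0 12 0 27 0), (X 2 4 0 2 0 0 1 0 0), (X 2 1 4 10 0 4 0 0 1), (X 2 4 0 4 0 0 3 0 0), (X 2 3 0 0 1 3 0 0 0), (X 2 0 3 26 0 12 0 0 3), (X 0 2 7 10 0 51 0 0 45), (X 0 6 7 16 0 61 0 0 11)]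

def out1_4 : List Bt :=
  [(X 2 4 0 0 2 3 0 0 0), (X 2 3 0 0 4 9 0 0 0), (X 1 2 3 80 0 148 0 0 105), (X 0 2 7 8 0 40 0 0 29), (X 2 1 3 4 0 8 0 0 11), (X 2 7 0 2 0 0 1 0 0), (X 2 6 0 1 0 2 0 0 0), (X 2 0 5 3 0 16 0 26 0), (X 0 2 5 8 0 38 0 51 0), (X 0 4 5 16 0 0 23 33 0), (X 0 2 5 8 0 15 0 27 0), (X 0 1 4 9 0 5 0 0 7), (X 0 1 4 7 0 9 0 0 1), (X 0 1 4 26 0 14 0 0 15), (X 2 4 0 0 1 3 0 0 0), (X 0 1 4 38 0 26 0 0 3), (X 0 1 4 47 0 57 0 0 45), (X 0 1 4 15 0 47 0 0 50)]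

def out1_5 : List Bt :=
  [(X 0 1 5 66 0 50 0 15 0), (X 0 1 5 52 0 44 0 57 0), (X 0 1 5 116 0 156 0 105 0), (X 2 5 0 4 0 5 0 0 0), (X 2 4 0 0 4 9 0 0 0), (X 0 1 5 13 0 17 0 21 0), (X 1 2 4 16 0 29 0 0 32), (X 0 2 4 16 0 29 0 0 26), (X 2 3 0 0 2 3 0 0 0), (X 2 1 3 9 0 8 0 0 6), (X 2 3 0 0 1 3 0 0 0), (X 2 7 0 2 0 0 1 0 0), (X 2 6 0 4 0 3 0 0 0), (X 2 0 6 8 0 24 0 45 0), (X 0 2 6 8 0 16 0 39 0), (X 0 1 5 10 0 6 0 3 0), (X 2 6 0 4 0 5 0 0 0), (X 2 5 0 1 0 2 0 0 0)]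

def out1_6 : List Bt :=
  [(X 2 4 0 0 2 3 0 0 0), (X 0 1 5 52 0 44 0 57 0), (X 2 6 0 4 0 5 0 0 0), (X 2 5 0 4 0 5 0 0 0), (X 0 1 5 68 0 116 0 99 0), (X 0 1 5 13 0 17 0 21 0), (X 2 1 6 13 0 16 0 32 0), (X 2 6 0 1 0 2 0 0 0), (X 2 7 0 0 2 3 0 0 0), (X 2 3 0 1 0 0 1 0 0), (X 2 0 3 6 0 8 0 0 9), (X 2 3 0 2 0 0 1 0 0), (X 0 1 4 7 0 9 0 0 1), (X 2 3 0 4 0 0 3 0 0), (X 2 4 0 0 1 3 0 0 0), (X 0 1 4 38 0 26 0 0 3), (X 0 1 4 47 0 57 0 0 45), (X 2 5 0 1 0 2 0 0 0)]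

def out1 : List (List Bt) :=
  [out1_0, out1_1, out1_2, out1_3, out1_4, out1_5, out1_6]

def cov1 : Bt :=
  (.pick 6 (.next (.pick 14 (.next (.pick 13 (.next (X 0 1 2 8 0 13 0 15 0) (.next (X 0 2 0 1 0 1 0 0 0) .done))) (.next (.pick 17 (.next (.pick 16 (.next (.pick 15 (.next (X 0 3 0 1 0 1 0 0 0) (.next (X 0 2 0 1 0 1 0 0 0) .done))) (.next (X 0 2 0 1 0 1 0 0 0) .done))) (.next (.pick 1 (.next (.pick 0 (.next (X 0 2 0 1 0 1 0 0 0) (.next (X 0 2 0 1 0 1 0 0 0) .done))) (.next (.pick 3 (.next (.pick 2 (.next (X 0 2 0 1 0 1 0 0 0) (.next (X 0 2 0 1 0 1 0 0 0) .done))) (.next (.pick 5 (.next (.pick 4 (.next (X 0 2 0 1 0 1 0 0 0) (.next (X 0 2 0 1 0 1 0 0 0) .done))) (.next (X 0 10 0 1 0 1 0 0 0) .done))) .done))) .done))) .done))) .done))) (.next (.pick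 10 (.next (.pick 9 (.next (.pick 7 (.next (X 0 3 0 1 0 1 0 0 0) (.next (.pick 8 (.next (X 0 1 0 1 0 1 0 0 0) (.next (X 0 4 0 1 0 1 0 0 0) .done))) .done))) (.next (X 0 2 0 1 0 1 0 0 0) .done))) (.next (.pick 13 (.next (.pick 11 (.next (X 0 2 0 1 0 1 0 0 0) (.next (.pick 12 (.next (X 0 1 0 1 0 1 0 0 0) (.next (X 0 4 0 1 0 1 0 0 0) .done))) .done))) (.next (X 0 1 5 13 0 8 0 15 0) .done))) .done))) .done)))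

def fill1_0 : Bt :=
  (.pick 1 (.next (X 0 3 0 3 0 0 2 0 0) (.next (X 0 1 3 15 0 57 0 0 8) (.next (X 0 1 4 57 0 0 9 16 0) (.next (.pick 0 (.next (X 0 1 6 0 12 21 0 8 0) (.next (X 0 6 7 0 1 2 0 2 0) (.next (X 0 7 8 15 0 66 0 50 0) (.next (X 0 1 8 25 0 5 0 8 0) (.next (X 0 3 5 1 0 1 0 0 1) .done)))))) (.next (.pick 0 (.next (X 0 1 0 1 0 1 0 0 0) (.next (X 0 1 3 2 0 1 0 0 1) (.next (X 0 4 7 1 0 2 0 0 1) (.next (X 0 1 9 25 0 5 0 8 0) (.next (X 0 4 9 1 0 1 0 1 0) .done)))))) .done))))))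

def fill1_1 : Bt :=
  (.pick 1 (.next (X 0 1 3 0 57 24 0 20 0) (.next (X 0 4 0 9 0 0 4 0 0) (.next (X 0 1 4 57 0 0 21 16 0) (.next (.pick 0 (.next (.pick 2 (.next (X 0 1 7 60 0 57 0 0 8) (.next (X 0 1 4 2 0 1 0 0 1) (.next (X 0 4 5 1 0 1 0 1 0) (.next (X 0 5 0 1 0 1 0 0 0) (.next (X 0 5 0 1 0 1 0 0 0) .done)))))) (.next (X 0 1 7 60 0 3 0 0 8) (.next (X 0 7 8 57 0 52 0 44 0) (.next (X 0 1 8 33 0 9 0 8 0) (.next (X 0 3 5 1 0 1 0 0 1) .done)))))) (.next (.pick 0 (.next (X 0 1 0 1 0 1 0 0 0) (.next (X 0 1 3 2 0 1 0 0 1) (.next (X 0 4 7 1 0 2 0 0 1) (.next (X 0 1 9 33 0 9 0 8 0) (.next (X 0 4 9 1 0 1 0 1 0) .done)))))) .done))))))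

def fill1_2 : Bt :=
  (.pick 1 (.next (X 0 1 2 0 105 52 0 12 0) (.next (X 0 2 4 0 105 80 0 228 0) (.next (X 0 5 0 5 0 4 0 0 0) (.next (.pick 2 (.next (.pick 0 (.next (X 0 1 7 37 0 50 0 0 8) (.next (X 0 1 8 50 0 13 0 0 8) (.next (X 0 8 9 105 0 116 0 156 0) (.next (X 0 1 9 39 0 21 0 8 0) (.next (X 0 5 0 1 0 1 0 0 0) .done)))))) (.next (X 0 1 3 2 0 1 0 0 1) (.next (X 0 3 4 1 0 1 0 1 0) (.next (X 0 4 0 1 0 1 0 0 0) (.next (.pick 0 (.next (X 0 1 0 1 0 1 0 0 0) (.next (X 0 1 6 1 0 1 0 1 0) (.next (X 0 4 7 1 0 1 0 0 1) (.next (X 0 1 13 39 0 21 0 8 0) (.next (X 0 3 6 1 0 1 0 0 1) .done)))))) .done)))))) (.next (X 0 1 5 0 9 30 0 8 0) .done))))))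

def fill1_3 : Bt :=
  (.pick 2 (.next (.pick 0 (.next (.pick 5 (.next (X 0 2 0 1 0 1 0 0 0) (.next (X 0 1 2 1 0 1 0 1 0) (.next (X 0 1 6 33 0 0 29 16 0) (.next (X 0 3 7 27 0 0 2 8 0) (.next (X 0 4 8 27 0 60 0 0 8) .done)))))) (.next (.pick 5 (.next (X 0 3 0 1 0 1 0 0 0) (.next (X 0 2 0 1 0 1 0 0 0) (.next (X 0 1 7 33 0 0 29 16 0) (.next (X 0 3 8 27 0 0 2 8 0) (.next (X 0 6 0 1 0 1 0 0 0) .done)))))) (.next (X 0 4 5 5 0 4 0 4 0) (.next (X 0 1 5 29 0 21 0 8 0) (.next (X 0 5 0 1 0 1 0 0 0) .done)))))) (.next (X 0 3 4 0 145 80 0 132 0) (.next (X 0 5 0 5 0 4 0 0 0) (.next (X 0 1 4 29 0 8 0 8 0) (.next (.pick 0 (.next (X 0 1 0 1 0 1 0 0 0) (.next (X 0 1 6 1 0 1 0 1 0) (.next (X 0 4 7 1 0 1 0 0 1) (.next (X 0 1 9 29 0 21 0 8 0) (.next (X 0 3 6 1 0 1 0 0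 1) .done)))))) .done))))))

def fill1_4 : Bt :=
  (.pick 2 (.next (.pick 5 (.next (X 0 1 0 1 0 1 0 0 0) (.next (.pick 0 (.next (X 0 1 2 1 0 1 0 1 0) (.next (X 0 2 0 1 0 1 0 0 0) (.next (X 0 6 7 99 0 68 0 116 0) (.next (X 0 1 7 29 0 31 0 8 0) (.next (X 0 6 0 1 0 1 0 0 0) .done)))))) (.next (X 0 1 5 33 0 0 17 16 0) (.next (X 0 3 6 9 0 0 8 8 0) (.next (X 0 4 7 9 0 42 0 0 8) .done)))))) (.next (X 0 4 0 9 0 0 4 0 0) (.next (X 0 1 3 33 0 0 29 16 0) (.next (X 0 3 4 27 0 0 2 8 0) (.next (X 0 4 5 27 0 60 0 0 8) .done))))))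

def fill1_5 : Bt :=
  (.pick 5 (.next (X 0 1 3 0 7 4 0 3 0) (.next (.pick 0 (.next (X 0 1 2 1 0 1 0 1 0) (.next (X 0 2 0 1 0 1 0 0 0) (.next (X 0 5 6 21 0 13 0 17 0) (.next (X 0 1 6 17 0 25 0 8 0) (.next (X 0 6 0 1 0 1 0 0 0) .done)))))) (.next (X 0 1 4 45 0 0 13 16 0) (.next (X 0 5 6 21 0 8 0 16 0) (.next (X 0 7 0 0 1 2 0 0 0) .done))))))

def fill1_6 : Bt :=
  (.pick 5 (.next (X 0 1 2 0 32 19 0 3 0) (.next (.pick 0 (.next (X 0 1 2 1 0 1 0 1 0) (.next (X 0 2 0 1 0 1 0 0 0) (.next (X 0 1 6 29 0 0 3 16 0) (.next (X 0 1 6 13 0 29 0 8 0) (.next (X 0 6 0 1 0 1 0 0 0) .done)))))) (.next (X 0 4 5 32 0 16 0 3 0) (.next (X 0 6 0 2 0 1 0 0 0) (.next (X 0 1 5 0 8 21 0 8 0) .done))))))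

def fill1_7 : Bt :=
  (.pick 7 (.next (X 0 2 3 0 13 8 0 3 0) (.next (.pick 0 (.next (X 0 1 3 29 0 10 0 0 8) (.next (X 0 2 0 1 0 1 0 0 0) (.next (.pick 6 (.next (X 0 2 5 1 0 1 0 1 0) (.next (X 0 3 0 1 0 1 0 0 0) (.next (X 0 3 0 1 0 1 0 0 0) (.next (X 0 1 10 19 0 32 0 8 0) (.next (X 0 9 0 1 0 1 0 0 0) .done)))))) (.next (X 0 6 7 2 0 1 0 1 0) (.next (X 0 1 7 0 13 19 0 16 0) .done)))))) (.next (.pick 5 (.next (X 0 2 4 29 0 19 0 0 8) (.next (X 0 3 0 1 0 1 0 0 0) (.next (X 0 3 0 1 0 1 0 0 0) (.next (X 0 1 7 3 0 16 0 8 0) (.next (X 0 1 8 0 8 5 0 8 0) .done)))))) (.next (X 0 6 0 2 0 1 0 0 0) (.next (X 0 1 6 0 13 51 0 16 0) .done))))))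

def fill1_8 : Bt :=
  (.pick 7 (.next (X 0 2 3 0 17 8 0 12 0) (.next (.pick 6 (.next (X 0 1 2 1 0 1 0 1 0) (.next (X 0 2 0 1 0 1 0 0 0) (.next (.pick 0 (.next (X 0 6 7 0 17 12 0 4 0) (.next (X 0 3 0 1 0 1 0 0 0) (.next (X 0 3 0 1 0 1 0 0 0) (.next (X 0 3 10 18 0 0 5 8 0) (.next (X 0 1 10 0 13 51 0 16 0) .done)))))) (.next (X 0 1 7 23 0 28 0 8 0) (.next (X 0 6 0 1 0 1 0 0 0) .done)))))) (.next (X 0 1 3 45 0 0 19 16 0) (.next (X 0 4 6 51 0 16 0 26 0) (.next (X 0 7 0 3 0 0 2 0 0) .done))))))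

def fill1_9 : Bt :=
  (.pick 7 (.next (X 0 3 0 0 1 1 0 0 0) (.next (.pick 6 (.next (X 0 1 2 1 0 1 0 1 0) (.next (X 0 2 0 1 0 1 0 0 0) (.next (.pick 0 (.next (X 0 6 7 0 1 1 0 1 0) (.next (X 0 3 0 1 0 1 0 0 0) (.next (X 0 3 0 1 0 1 0 0 0) (.next (X 0 1 10 15 0 3 0 8 0) (.next (X 0 4 11 18 0 27 0 0 8) .done)))))) (.next (X 0 1 7 15 0 12 0 8 0) (.next (X 0 6 0 1 0 1 0 0 0) .done)))))) (.next (X 0 1 3 33 0 0 23 16 0) (.next (X 0 3 4 18 0 0 5 8 0) (.next (X 0 4 5 18 0 51 0 0 8) .done))))))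

def fill1_10 : Bt :=
  (.pick 6 (.next (X 0 3 0 3 0 0 1 0 0) (.next (X 0 1 2 27 0 9 0 0 8) (.next (.pick 0 (.next (X 0 4 5 0 9 14 0 6 0) (.next (X 0 3 0 1 0 1 0 0 0) (.next (X 0 3 0 1 0 1 0 0 0) (.next (X 0 1 8 23 0 19 0 8 0) (.next (X 0 3 9 15 0 27 0 0 8) .done)))))) (.next (X 0 1 5 23 0 4 0 8 0) (.next (X 0 4 6 27 0 42 0 0 8) .done))))))

def fill1_11 : Bt :=
  (.pick 6 (.next (X 0 1 3 0 7 4 0 9 0) (.next (X 0 2 3 0 7 9 0 5 0) (.next (.pick 0 (.next (X 0 2 5 27 0 42 0 0 8) (.next (X 0 3 0 1 0 1 0 0 0) (.next (X 0 3 0 1 0 1 0 0 0) (.next (X 0 1 8 19 0 23 0 8 0) (.next (X 0 3 9 27 0 15 0 0 8) .done)))))) (.next (X 0 5 6 21 0 8 0 4 0) (.next (X 0 7 0 0 1 2 0 0 0) .done))))))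

def fill1_12 : Bt :=
  (.pick 6 (.next (X 0 1 3 0 1 2 0 5 0) (.next (X 0 2 3 0 1 7 0 9 0) (.next (.pick 0 (.next (X 0 2 5 21 0 30 0 0 8) (.next (X 0 3 0 1 0 1 0 0 0) (.next (X 0 3 0 1 0 1 0 0 0) (.next (X 0 1 8 13 0 17 0 8 0) (.next (X 0 3 9 21 0 9 0 0 8) .done)))))) (.next (X 0 6 0 3 0 4 0 0 0) (.next (X 0 1 5 0 2 21 0 8 0) .done))))))

def fill1_13 : Bt :=
  (.pick 4 (.next (X 0 2 3 0 15 12 0 26 0) (.next (X 0 4 0 0 3 4 0 0 0) (.next (.pick 6 (.next (X 0 1 4 0 4 9 0 8 0) (.next (X 0 5 6 0 15 26 0 14 0) (.next (.pick 0 (.next (X 0 2 8 39 0 30 0 0 8) (.next (X 0 3 0 1 0 1 0 0 0) (.next (X 0 3 0 1 0 1 0 0 0) (.next (X 0 1 7 1 0 1 0 1 0) (.next (X 0 1 12 0 23 9 0 16 0) .done)))))) (.next (X 0 4 0 1 0 1 0 0 0) (.next (X 0 6 0 1 0 1 0 0 0) .done))))))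 (.next (.pick 0 (.next (X 0 2 6 0 8 15 0 8 0) (.next (X 0 1 3 2 0 1 0 0 1) (.next (X 0 3 4 1 0 1 0 1 0) (.next (X 0 4 0 1 0 1 0 0 0) (.next (X 0 1 10 0 23 9 0 16 0) .done)))))) (.next (X 0 3 6 30 0 9 0 0 8) .done))))))

def fill1_14 : Bt :=
  (.pick 4 (.next (X 0 3 0 3 0 0 1 0 0) (.next (X 0 1 2 39 0 30 0 0 8) (.next (.pick 0 (.next (X 0 4 5 0 13 2 0 10 0) (.next (X 0 5 6 0 1 1 0 1 0) (.next (X 0 3 6 16 0 7 0 8 0) (.next (X 0 1 4 1 0 1 0 1 0) (.next (X 0 1 9 0 15 33 0 16 0) .done)))))) (.next (.pick 0 (.next (X 0 2 6 0 12 3 0 8 0) (.next (X 0 1 3 2 0 1 0 0 1) (.next (X 0 3 4 1 0 1 0 1 0) (.next (X 0 4 0 1 0 1 0 0 0) (.next (X 0 1 10 0 15 33 0 16 0) .done)))))) (.next (X 0 4 6 39 0 33 0 0 8) .done))))))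

def fill1_15 : Bt :=
  (.pick 4 (.next (.pick 3 (.next (X 0 1 2 39 0 33 0 0 8) (.next (X 0 5 0 0 3 4 0 0 0) (.next (X 0 1 5 3 0 0 18 8 0) (.next (X 0 1 6 36 0 15 0 8 0) (.next (X 0 5 0 1 0 1 0 0 0) .done)))))) (.next (X 0 4 0 0 3 4 0 0 0) (.next (.pick 0 (.next (X 0 4 5 0 3 4 0 4 0) (.next (X 0 5 6 0 3 38 0 26 0) (.next (X 0 1 6 39 0 0 9 16 0) (.next (X 0 1 4 1 0 1 0 1 0) (.next (X 0 1 9 0 21 51 0 16 0) .done)))))) (.next (.pick 0 (.next (X 0 2 6 0 18 3 0 8 0) (.next (X 0 1 3 2 0 1 0 0 1) (.next (X 0 1 7 39 0 0 9 16 0) (.next (X 0 4 0 1 0 1 0 0 0) (.next (X 0 1 10 0 21 51 0 16 0) .done)))))) (.next (.pick 3 (.next (X 0 1 0 1 0 1 0 0 0) (.next (X 0 9 0 0 3 4 0 0 0) (.next (X 0 1 9 3 0 0 18 8 0) (.next (X 0 1 10 36 0 15 0 8 0) (.next (X 0 3 6 1 0 1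 0 0 1) .done)))))) .done))))))

def fill1_16 : Bt :=
  (.pick 3 (.next (.pick 0 (.next (X 0 1 3 61 0 14 0 0 8) (.next (X 0 3 4 0 45 47 0 57 0) (.next (X 0 1 4 57 0 0 15 16 0) (.next (.pick 4 (.next (X 0 5 6 51 0 57 0 0 8) (.next (X 0 1 3 2 0 1 0 0 1) (.next (X 0 3 4 1 0 1 0 1 0) (.next (X 0 4 0 1 0 1 0 0 0) (.next (X 0 9 0 1 0 1 0 0 0) .done)))))) (.next (X 0 5 0 1 0 1 0 0 0) .done)))))) (.next (X 0 2 4 0 45 20 0 6 0) (.next (X 0 5 0 5 0 4 0 0 0) (.next (X 0 1 5 36 0 25 0 8 0) (.next (X 0 4 6 61 0 47 0 0 8) .done))))))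

def fill1_17 : Bt :=
  (.pick 3 (.next (.pick 0 (.next (.pick 1 (.next (X 0 1 2 1 0 1 0 1 0) (.next (X 0 3 0 1 0 1 0 0 0) (.next (X 0 1 6 45 0 0 5 16 0) (.next (X 0 4 7 15 0 0 10 8 0) (.next (X 0 5 0 1 0 1 0 0 0) .done)))))) (.next (X 0 3 4 0 50 15 0 47 0) (.next (X 0 4 5 2 0 1 0 1 0) (.next (X 0 4 5 61 0 0 11 16 0) (.next (X 0 5 0 1 0 1 0 0 0) .done)))))) (.next (X 0 1 2 61 0 14 0 0 8) (.next (X 0 3 5 25 0 8 0 18 0) (.next (X 0 6 0 2 0 1 0 0 0) (.next (.pick 1 (.next (X 0 1 0 1 0 1 0 0 0) (.next (X 0 1 3 2 0 1 0 0 1) (.next (X 0 1 9 45 0 0 5 16 0) (.next (X 0 5 8 1 0 1 0 0 1) (.next (X 0 4 9 1 0 1 0 1 0) .done)))))) .done))))))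

def fill1 : List Bt :=
  [fill1_0, fill1_1, fill1_2, fill1_3, fill1_4, fill1_5, fill1_6, fill1_7, fill1_8, fill1_9, fill1_10, fill1_11, fill1_12, fill1_13, fill1_14, fill1_15, fill1_16, fill1_17]

def Cs2 : List Cone :=
  [⟨F (-21) 0 0 (-10) 0 258, F 13 0 0 18 0 (-266), F 8 0 0 (-8) 0 256⟩,
  ⟨F (-13) 0 0 (-18) 0 266, F 9 0 0 18 0 (-234), F 4 0 0 0 0 40⟩,
  ⟨F (-9) 0 0 (-18) 0 234, F 9 0 0 22 0 (-270), F 0 0 0 (-4) 0 72⟩,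
  ⟨F (-9) 0 0 (-22) 0 270, F (-3) 0 0 26 0 (-210), F 12 0 0 (-4) 0 240⟩,
  ⟨F 3 0 0 (-26) 0 210, F (-21) 0 0 20 0 (-12), F 18 0 0 6 0 288⟩,
  ⟨F 21 0 0 (-20) 0 12, F (-27) 0 0 22 0 18, F 6 0 0 (-2) 0 48⟩,
  ⟨F 27 0 0 (-22) 0 (-18), F (-35) 0 0 14 0 154, F 8 0 0 8 0 256⟩,
  ⟨F 35 0 0 (-14) 0 (-154), F (-33) 0 0 12 0 156, F (-2) 0 0 2 0 40⟩,
  ⟨F 33 0 0 (-12) 0 (-156), F (-39) 0 0 10 0 222, F 6 0 0 2 0 72⟩,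
  ⟨F 39 0 0 (-10) 0 (-222), F (-39) 0 0 2 0 294, F 0 0 0 8 0 240⟩,
  ⟨F 39 0 0 (-2) 0 (-294), F (-33) 0 0 0 0 264, F (-6) 0 0 2 0 96⟩,
  ⟨F 33 0 0 0 0 (-264), F (-42) 0 0 (-3) 0 363, F 9 0 0 3 0 0⟩,
  ⟨F 42 0 0 3 0 (-363), F (-37) 0 0 (-8) 0 368, F (-5) 0 0 5 0 220⟩,
  ⟨F 37 0 0 8 0 (-368), F (-25) 0 0 (-8) 0 272, F (-12) 0 0 0 0 192⟩,
  ⟨F 25 0 0 8 0 (-272), F (-33) 0 0 (-16) 0 408, F 8 0 0 8 0 0⟩,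
  ⟨F 33 0 0 16 0 (-408), F (-27) 0 0 (-18) 0 378, F (-6) 0 0 2 0 192⟩,
  ⟨F 27 0 0 18 0 (-378), F (-15) 0 0 (-14) 0 246, F (-12) 0 0 (-4) 0 240⟩,
  ⟨F 15 0 0 14 0 (-246), F (-3) 0 0 (-18) 0 186, F (-12) 0 0 4 0 288⟩,
  ⟨F 3 0 0 18 0 (-186), F (-3) 0 0 (-22) 0 222, F 0 0 0 4 0 (-24)⟩,
  ⟨F 3 0 0 22 0 (-222), F 13 0 0 (-22) 0 94, F (-16) 0 0 0 0 480⟩,
  ⟨F (-13) 0 0 22 0 (-94), F 23 0 0 (-12) 0 (-76), F (-10) 0 0 (-10) 0 520⟩,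
  ⟨F (-23) 0 0 12 0 76, F 33 0 0 (-12) 0 (-156), F (-10) 0 0 0 0 200⟩,
  ⟨F (-33) 0 0 12 0 156, F 33 0 0 (-6) 0 (-210), F 0 0 0 (-6) 0 252⟩,
  ⟨F (-33) 0 0 6 0 210, F 42 0 0 (-3) 0 (-309), F (-9) 0 0 (-3) 0 252⟩,
  ⟨F (-42) 0 0 3 0 309, F 37 0 0 2 0 (-314), F 5 0 0 (-5) 0 200⟩,
  ⟨F (-37) 0 0 (-2) 0 314, F 25 0 0 2 0 (-218), F 12 0 0 0 0 (-72)⟩,
  ⟨F (-25) 0 0 (-2) 0 218, F 33 0 0 10 0 (-354), F (-8) 0 0 (-8) 0 320⟩,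
  ⟨F (-33) 0 0 (-10) 0 354, F 27 0 0 12 0 (-324), F 6 0 0 (-2) 0 96⟩,
  ⟨F (-27) 0 0 (-12) 0 324, F 21 0 0 10 0 (-258), F 6 0 0 2 0 (-48)⟩]

def in2_0 : List Bt :=
  [(X 2 6 0 1 0 2 0 0 0), (X 0 2 7 4 0 41 0 0 18), (X 0 2 6 4 0 27 0 9 0), (X 0 2 7 8 0 19 0 0 25), (X 2 7 0 0 2 9 0 0 0), (X 0 2 3 8 0 28 0 0 13), (X 0 2 3 8 0 27 0 0 49), (X 1 2 3 8 0 132 0 0 21), (X 2 7 0 0 2 3 0 0 0), (X 2 3 0 1 0 0 1 0 0), (X 2 4 0 0 2 3 0 0 0), (X 0 2 3 24 0 88 0 0 33), (X 0 2 4 40 0 204 0 0 225), (X 1 2 3 12 0 25 0 0 12), (X 0 2 3 8 0 25 0 0 17), (X 2 4 0 0 2 3 0 0 0), (X 1 2 3 8 0 10 0 0 9), (X 2 4 0 0 1 3 0 0 0), (X 0 2 4 4 0 19 0 0 1), (X 0 2 5 16 0 19 0 88 0), (X 2 5 0 2 0 5 0 0 0), (X 0 2 5 2 0 7 0 6 0), (X 0 2 6 4 0 14 0 33 0), (X 0 2 5 8 0 52 0 51 0), (X 2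 6 0 4 0 5 0 0 0), (X 1 2 5 12 0 23 0 6 0), (X 2 5 0 1 0 2 0 0 0), (X 1 2 5 16 0 30 0 63 0), (X 1 2 5 8 0 22 0 9 0)]

def in2_1 : List Bt :=
  [(X 0 1 7 13 0 21 0 0 31), (X 0 1 7 9 0 13 0 0 9), (X 2 7 0 2 0 0 1 0 0), (X 2 3 0 0 1 3 0 0 0), (X 2 4 0 0 2 9 0 0 0), (X 2 3 0 0 2 3 0 0 0), (X 1 2 4 16 0 77 0 0 98), (X 1 2 4 16 0 138 0 0 21), (X 2 4 0 0 2 3 0 0 0), (X 0 2 5 8 0 29 0 78 0), (X 0 4 6 8 0 0 4 45 0), (X 0 6 0 8 0 33 0 0 0), (X 2 5 0 4 0 5 0 0 0), (X 2 6 0 2 0 3 0 0 0), (X 0 1 6 16 0 8 0 17 0), (X 0 1 6 72 0 64 0 81 0), (X 0 1 6 28 0 36 0 27 0), (X 0 1 6 36 0 28 0 57 0), (X 0 1 6 44 0 36 0 3 0), (X 2 6 0 1 0 2 0 0 0), (X 0 1 6 48 0 88 0 175 0), (X 2 6 0 4 0 5 0 0 0), (X 2 7 0 4 0 0 3 0 0), (X 0 1 6 8 0 16 0 51 0), (X 0 1 7 296 0 336 0 0 195),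 (X 0 1 7 25 0 37 0 0 3), (X 0 1 7 33 0 25 0 0 23), (X 2 3 0 0 2 3 0 0 0), (X 0 1 7 28 0 36 0 0 3)]

def in2_2 : List Bt :=
  [(X 0 1 7 13 0 21 0 0 31), (X 2 6 0 2 0 1 0 0 0), (X 2 7 0 2 0 0 1 0 0), (X 0 2 6 8 0 44 0 75 0), (X 1 2 6 24 0 80 0 243 0), (X 0 2 5 16 0 82 0 39 0), (X 2 5 0 1 0 2 0 0 0), (X 1 2 5 8 0 90 0 21 0), (X 0 2 5 8 0 90 0 69 0), (X 1 2 5 8 0 41 0 78 0), (X 1 2 5 16 0 66 0 33 0), (X 0 2 5 8 0 44 0 33 0), (X 0 2 4 40 0 204 0 0 225), (X 0 3 4 0 8 61 0 13 0), (X 0 2 4 32 0 49 0 0 34), (X 2 4 0 0 2 3 0 0 0), (X 2 3 0 0 1 3 0 0 0), (X 2 4 0 0 1 3 0 0 0), (X 0 1 3 21 0 17 0 0 1), (X 0 1 3 79 0 63 0 0 88), (X 0 1 3 118 0 158 0 0 175), (X 0 1 3 69 0 59 0 0 30), (X 2 7 0 4 0 0 3 0 0), (X 2 3 0 0 4 9 0 0 0), (X 0 1 3 124 0 204 0 0 195), (X 0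 1 3 19 0 31 0 0 6), (X 0 1 3 3 0 19 0 0 46), (X 0 1 7 36 0 44 0 0 21), (X 0 1 7 28 0 36 0 0 3)]

def in2_3 : List Bt :=
  [(X 1 2 4 8 0 13 0 0 31), (X 1 2 4 4 0 9 0 0 9), (X 2 4 0 2 0 0 1 0 0), (X 0 2 5 8 0 44 0 75 0), (X 0 2 6 24 0 58 0 243 0), (X 0 2 5 8 0 80 0 39 0), (X 2 6 0 1 0 2 0 0 0), (X 0 5 7 8 0 7 0 0 28), (X 0 2 6 8 0 90 0 69 0), (X 0 1 7 11 0 3 0 0 26), (X 2 7 0 0 2 3 0 0 0), (X 0 1 7 68 0 44 0 0 33), (X 0 1 7 244 0 204 0 0 225), (X 0 1 7 49 0 61 0 0 24), (X 0 1 7 81 0 49 0 0 34), (X 2 7 0 0 2 3 0 0 0), (X 2 3 0 0 1 3 0 0 0), (X 2 7 0 0 1 3 0 0 0), (X 0 1 3 21 0 17 0 0 1), (X 0 1 3 79 0 63 0 0 88), (X 0 1 3 118 0 158 0 0 175), (X 0 1 3 69 0 59 0 0 30), (X 2 4 0 4 0 0 3 0 0), (X 2 3 0 0 4 9 0 0 0), (X 0 1 3 124 0 204 0 0 195), (X 0 1 3 19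 0 31 0 0 6), (X 0 1 3 3 0 19 0 0 46), (X 1 2 4 8 0 36 0 0 21), (X 1 2 4 8 0 28 0 0 3)]

def in2_4 : List Bt :=
  [(X 0 2 3 16 0 51 0 0 62), (X 0 2 7 4 0 41 0 0 18), (X 0 2 3 4 0 21 0 0 3), (X 2 3 0 0 1 3 0 0 0), (X 2 7 0 0 2 9 0 0 0), (X 0 1 6 10 0 2 0 39 0), (X 0 1 6 21 0 5 0 98 0), (X 2 6 0 2 0 1 0 0 0), (X 2 7 0 0 2 3 0 0 0), (X 0 1 6 37 0 29 0 78 0), (X 0 1 6 66 0 74 0 33 0), (X 0 5 0 8 0 33 0 0 0), (X 2 6 0 4 0 5 0 0 0), (X 2 5 0 2 0 3 0 0 0), (X 0 1 5 16 0 8 0 17 0), (X 0 1 5 72 0 64 0 81 0), (X 0 1 5 28 0 36 0 27 0), (X 0 1 5 36 0 28 0 57 0), (X 0 1 5 44 0 36 0 3 0), (X 2 5 0 1 0 2 0 0 0), (X 0 1 5 48 0 88 0 175 0), (X 2 5 0 4 0 5 0 0 0), (X 2 4 0 4 0 0 3 0 0), (X 0 1 5 8 0 16 0 51 0), (X 1 2 4 40 0 296 0 0 195), (X 1 2 4 12 0 25 0 0 3), (X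 0 2 4 8 0 25 0 0 23), (X 2 3 0 0 2 3 0 0 0), (X 1 2 3 8 0 34 0 0 3)]

def in2_5 : List Bt :=
  [(X 0 1 4 67 0 51 0 0 62), (X 0 1 4 63 0 67 0 0 18), (X 0 1 4 25 0 21 0 0 3), (X 2 4 0 0 1 3 0 0 0), (X 2 3 0 0 2 9 0 0 0), (X 2 4 0 0 2 3 0 0 0), (X 0 1 4 7 0 39 0 0 98), (X 0 1 4 6 0 14 0 0 21), (X 2 3 0 0 2 3 0 0 0), (X 2 7 0 1 0 0 1 0 0), (X 1 2 3 8 0 22 0 0 11), (X 2 3 0 0 4 9 0 0 0), (X 1 2 3 80 0 52 0 0 225), (X 1 2 7 12 0 25 0 0 12), (X 0 2 7 8 0 25 0 0 17), (X 0 2 6 8 0 64 0 81 0), (X 1 2 6 8 0 28 0 27 0), (X 0 2 6 8 0 28 0 57 0), (X 0 2 5 4 0 15 0 3 0), (X 2 6 0 1 0 2 0 0 0), (X 2 5 0 2 0 5 0 0 0), (X 2 6 0 4 0 5 0 0 0), (X 0 4 5 16 0 0 45 3 0), (X 0 1 4 44 0 20 0 0 51), (X 0 1 4 172 0 132 0 0 195), (X 0 1 4 31 0 43 0 0 6), (X 2 5 0 1 0 2 0 0 0),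 (X 2 4 0 0 2 3 0 0 0), (X 0 1 4 34 0 42 0 0 3)]

def in2_6 : List Bt :=
  [(X 0 2 6 8 0 10 0 31 0), (X 2 6 0 2 0 1 0 0 0), (X 0 1 5 13 0 9 0 9 0), (X 0 1 5 29 0 13 0 75 0), (X 0 1 5 82 0 58 0 243 0), (X 0 1 5 98 0 82 0 39 0), (X 2 5 0 1 0 2 0 0 0), (X 0 1 5 90 0 98 0 21 0), (X 0 1 5 98 0 90 0 69 0), (X 0 1 5 41 0 49 0 78 0), (X 2 4 0 0 2 3 0 0 0), (X 0 1 5 52 0 44 0 33 0), (X 0 1 5 116 0 156 0 225 0), (X 0 1 5 17 0 29 0 24 0), (X 2 5 0 1 0 2 0 0 0), (X 2 4 0 0 2 3 0 0 0), (X 0 1 5 1 0 9 0 27 0), (X 2 4 0 0 1 3 0 0 0), (X 0 2 3 4 0 17 0 0 1), (X 0 2 3 16 0 63 0 0 88), (X 1 2 3 40 0 118 0 0 175), (X 0 2 3 10 0 59 0 0 30), (X 2 7 0 4 0 0 3 0 0), (X 2 3 0 0 4 9 0 0 0), (X 1 2 3 80 0 124 0 0 195), (X 1 2 7 12 0 25 0 0 3), (X 0 2 7 8 0 25 0 0 23), (X 0 2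 6 8 0 40 0 63 0), (X 0 5 6 8 0 24 0 15 0)]

def in2_7 : List Bt :=
  [(X 0 1 4 67 0 51 0 0 62), (X 0 1 4 63 0 67 0 0 18), (X 0 1 4 25 0 21 0 0 3), (X 2 4 0 0 1 3 0 0 0), (X 0 1 4 26 0 50 0 0 81), (X 2 4 0 0 2 3 0 0 0), (X 2 5 0 1 0 2 0 0 0), (X 2 6 0 2 0 1 0 0 0), (X 0 1 5 98 0 90 0 69 0), (X 0 1 5 41 0 49 0 78 0), (X 0 1 5 66 0 82 0 33 0), (X 0 1 5 52 0 44 0 33 0), (X 2 6 0 4 0 5 0 0 0), (X 0 1 5 17 0 29 0 24 0), (X 2 5 0 1 0 2 0 0 0), (X 0 1 5 18 0 34 0 81 0), (X 0 1 5 1 0 9 0 27 0), (X 1 2 6 8 0 21 0 57 0), (X 0 2 6 4 0 21 0 3 0), (X 0 2 7 16 0 63 0 0 88), (X 0 2 3 40 0 52 0 0 175), (X 0 2 3 10 0 23 0 0 15), (X 2 3 0 4 0 0 3 0 0), (X 0 1 4 44 0 20 0 0 51), (X 0 1 4 172 0 132 0 0 195), (X 0 1 4 31 0 43 0 0 6), (X 0 1 4 63 0 31 0 0 46), (X 2 4 0 0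 2 3 0 0 0), (X 0 1 4 34 0 42 0 0 3)]

def in2 : List (List Bt) :=
  [in2_0, in2_1, in2_2, in2_3, in2_4, in2_5, in2_6, in2_7]

def out2_0 : List Bt :=
  [(X 2 5 0 1 0 2 0 0 0), (X 1 2 5 4 0 27 0 18 0), (X 0 2 5 4 0 27 0 9 0), (X 1 2 5 8 0 23 0 75 0), (X 2 4 0 0 2 9 0 0 0), (X 2 0 3 28 0 8 0 0 13), (X 0 2 3 8 0 27 0 0 49), (X 0 3 7 0 8 7 0 70 0), (X 0 2 3 8 0 44 0 0 23), (X 2 3 0 1 0 0 1 0 0), (X 2 7 0 0 2 3 0 0 0), (X 0 1 7 68 0 44 0 0 33), (X 0 1 7 244 0 204 0 0 225), (X 0 1 7 49 0 61 0 0 24), (X 0 1 7 81 0 49 0 0 34), (X 2 7 0 0 2 3 0 0 0), (X 0 1 7 19 0 27 0 0 9), (X 2 7 0 0 1 3 0 0 0), (X 0 1 6 19 0 15 0 3 0), (X 0 1 6 35 0 19 0 88 0), (X 2 6 0 2 0 5 0 0 0), (X 0 1 6 9 0 7 0 6 0), (X 0 1 6 26 0 30 0 33 0), (X 0 1 6 60 0 52 0 51 0), (X 2 5 0 4 0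 5 0 0 0), (X 0 1 6 23 0 35 0 6 0), (X 2 6 0 1 0 2 0 0 0), (X 0 1 6 30 0 46 0 63 0), (X 0 1 6 22 0 30 0 9 0)]

def out2_1 : List Bt :=
  [(X 2 0 3 9 0 32 0 0 62), (X 0 2 3 4 0 41 0 0 18), (X 0 2 3 4 0 15 0 0 3), (X 2 7 0 0 1 3 0 0 0), (X 2 3 0 0 2 9 0 0 0), (X 0 1 4 36 0 28 0 0 13), (X 0 1 4 35 0 27 0 0 49), (X 0 1 4 132 0 140 0 0 21), (X 2 3 0 0 2 3 0 0 0), (X 2 4 0 1 0 0 1 0 0), (X 0 1 4 44 0 52 0 0 11), (X 0 5 0 8 0 33 0 0 0), (X 0 1 4 296 0 336 0 0 225), (X 2 5 0 2 0 3 0 0 0), (X 0 1 4 33 0 25 0 0 17), (X 0 1 4 36 0 44 0 0 27), (X 0 1 4 10 0 18 0 0 9), (X 0 1 4 2 0 10 0 0 19), (X 2 4 0 2 0 0 1 0 0), (X 2 5 0 1 0 2 0 0 0), (X 2 6 0 2 0 5 0 0 0), (X 2 5 0 4 0 5 0 0 0), (X 0 1 5 8 0 16 0 33 0), (X 0 1 5 8 0 16 0 51 0), (X 1 2 6 8 0 28 0 39 0), (X 2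 1 6 23 0 12 0 6 0), (X 2 6 0 1 0 2 0 0 0), (X 2 7 0 0 2 3 0 0 0), (X 2 3 0 0 2 3 0 0 0)]

def out2_2 : List Bt :=
  [(X 0 2 6 8 0 10 0 31 0), (X 2 6 0 2 0 1 0 0 0), (X 0 2 6 8 0 36 0 9 0), (X 0 2 6 8 0 44 0 75 0), (X 0 1 7 28 0 4 0 0 81), (X 0 1 7 36 0 28 0 0 13), (X 0 1 7 35 0 27 0 0 49), (X 0 1 7 132 0 140 0 0 21), (X 0 1 7 52 0 44 0 0 23), (X 2 7 0 1 0 0 1 0 0), (X 2 3 0 0 2 3 0 0 0), (X 0 1 3 68 0 44 0 0 33), (X 0 1 3 244 0 204 0 0 225), (X 0 1 3 49 0 61 0 0 24), (X 0 1 3 81 0 49 0 0 34), (X 2 3 0 0 2 3 0 0 0), (X 0 1 3 19 0 27 0 0 9), (X 2 3 0 0 1 3 0 0 0), (X 2 7 0 2 0 0 1 0 0), (X 0 1 3 53 0 69 0 0 88), (X 0 1 3 26 0 106 0 0 175), (X 0 1 3 3 0 13 0 0 30), (X 2 1 4 34 0 12 0 0 33), (X 2 4 0 0 4 9 0 0 0), (X 2 5 0 4 0 5 0 0 0), (X 2 6 0 2 0 3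 0 0 0), (X 2 0 6 2 0 8 0 23 0), (X 0 2 6 8 0 40 0 63 0), (X 0 3 6 8 0 0 24 63 0)]

def out2_3 : List Bt :=
  [(X 2 6 0 1 0 2 0 0 0), (X 2 5 0 2 0 1 0 0 0), (X 2 0 5 36 0 8 0 9 0), (X 0 2 5 8 0 44 0 75 0), (X 0 1 4 28 0 4 0 0 81), (X 0 1 4 36 0 28 0 0 13), (X 0 1 4 35 0 27 0 0 49), (X 0 1 4 132 0 140 0 0 21), (X 0 1 4 52 0 44 0 0 23), (X 2 4 0 1 0 0 1 0 0), (X 2 3 0 0 2 3 0 0 0), (X 0 1 3 68 0 44 0 0 33), (X 0 1 3 244 0 204 0 0 225), (X 0 1 3 49 0 61 0 0 24), (X 0 1 3 81 0 49 0 0 34), (X 2 3 0 0 2 3 0 0 0), (X 2 7 0 0 1 3 0 0 0), (X 2 3 0 0 1 3 0 0 0), (X 2 4 0 2 0 0 1 0 0), (X 0 1 3 53 0 69 0 0 88), (X 0 1 3 26 0 106 0 0 175), (X 0 1 3 3 0 13 0 0 30), (X 0 1 7 34 0 46 0 0 33), (X 2 7 0 0 4 9 0 0 0), (X 2 6 0 4 0 5 0 0 0), (X 0 1 7 19 0 31 0 0 6), (X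 0 1 7 3 0 19 0 0 46), (X 1 2 6 8 0 78 0 63 0), (X 2 1 6 62 0 16 0 9 0)]

def out2_4 : List Bt :=
  [(X 1 2 7 8 0 13 0 0 31), (X 2 1 7 9 0 4 0 0 9), (X 2 7 0 2 0 0 1 0 0), (X 2 3 0 0 1 3 0 0 0), (X 2 4 0 0 2 9 0 0 0), (X 0 1 5 10 0 2 0 39 0), (X 0 1 5 21 0 5 0 98 0), (X 2 5 0 2 0 1 0 0 0), (X 0 1 5 58 0 42 0 69 0), (X 0 1 5 37 0 29 0 78 0), (X 0 1 5 66 0 74 0 33 0), (X 0 6 0 8 0 33 0 0 0), (X 2 5 0 4 0 5 0 0 0), (X 2 6 0 2 0 3 0 0 0), (X 0 1 5 49 0 33 0 34 0), (X 0 1 5 90 0 98 0 81 0), (X 0 1 5 29 0 45 0 27 0), (X 0 1 5 21 0 29 0 57 0), (X 0 1 5 25 0 21 0 3 0), (X 2 6 0 1 0 2 0 0 0), (X 0 1 6 48 0 88 0 175 0), (X 2 6 0 4 0 5 0 0 0), (X 2 7 0 4 0 0 3 0 0), (X 0 1 6 8 0 16 0 51 0), (X 1 2 7 40 0 296 0 0 195), (X 1 2 7 12 0 25 0 0 3), (X 0 2 7 8 0 25 0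 0 23), (X 1 2 7 8 0 36 0 0 21), (X 1 2 7 8 0 28 0 0 3)]

def out2_5 : List Bt :=
  [(X 0 1 3 13 0 21 0 0 31), (X 0 1 3 9 0 13 0 0 9), (X 2 3 0 2 0 0 1 0 0), (X 2 7 0 0 1 3 0 0 0), (X 2 1 7 26 0 24 0 0 81), (X 2 7 0 0 2 3 0 0 0), (X 2 6 0 1 0 2 0 0 0), (X 2 5 0 2 0 1 0 0 0), (X 2 0 5 42 0 16 0 69 0), (X 0 2 5 8 0 29 0 78 0), (X 0 4 5 16 0 0 37 45 0), (X 0 2 5 16 0 44 0 33 0), (X 2 5 0 4 0 5 0 0 0), (X 0 3 5 8 0 0 45 74 0), (X 0 2 5 16 0 33 0 34 0), (X 0 1 4 18 0 10 0 0 27), (X 2 4 0 0 1 3 0 0 0), (X 0 1 4 17 0 9 0 0 19), (X 0 1 4 21 0 17 0 0 1), (X 0 1 4 79 0 63 0 0 88), (X 0 1 3 92 0 52 0 0 175), (X 0 1 3 33 0 23 0 0 15), (X 2 3 0 4 0 0 3 0 0), (X 2 4 0 0 4 9 0 0 0), (X 0 1 3 296 0 336 0 0 195), (X 0 1 3 25 0 37 0 0 3), (X 0 1 3 33 0 25 0 0 23), (X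 2 7 0 0 2 3 0 0 0), (X 0 1 3 28 0 36 0 0 3)]

def out2_6 : List Bt :=
  [(X 2 6 0 1 0 2 0 0 0), (X 0 1 6 27 0 31 0 18 0), (X 0 1 6 31 0 27 0 9 0), (X 0 1 6 23 0 31 0 75 0), (X 2 7 0 0 2 9 0 0 0), (X 0 2 7 8 0 54 0 0 13), (X 1 2 7 16 0 77 0 0 98), (X 2 1 7 138 0 16 0 0 21), (X 2 7 0 0 2 3 0 0 0), (X 2 3 0 1 0 0 1 0 0), (X 2 4 0 0 2 3 0 0 0), (X 2 0 4 44 0 24 0 0 33), (X 0 2 4 40 0 204 0 0 225), (X 0 4 5 16 0 0 29 61 0), (X 0 2 4 32 0 49 0 0 34), (X 2 4 0 0 2 3 0 0 0), (X 0 3 5 8 0 0 9 54 0), (X 2 4 0 0 1 3 0 0 0), (X 0 1 5 19 0 15 0 3 0), (X 0 1 5 35 0 19 0 88 0), (X 2 5 0 2 0 5 0 0 0), (X 0 1 5 9 0 7 0 6 0), (X 0 1 5 26 0 30 0 33 0), (X 0 1 5 60 0 52 0 51 0), (X 2 6 0 4 0 5 0 0 0), (X 0 1 5 23 0 35 0 6 0), (X 2 5 0 1 0 2 0 0 0), (X 0 1 5 30 0 46 0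 63 0), (X 0 1 5 22 0 30 0 9 0)]

def out2_7 : List Bt :=
  [(X 0 1 3 67 0 51 0 0 62), (X 0 1 3 63 0 67 0 0 18), (X 2 7 0 2 0 0 1 0 0), (X 2 3 0 0 1 3 0 0 0), (X 2 4 0 0 2 9 0 0 0), (X 2 3 0 0 2 3 0 0 0), (X 0 1 3 7 0 39 0 0 98), (X 0 1 3 6 0 14 0 0 21), (X 2 4 0 0 2 3 0 0 0), (X 1 2 4 8 0 15 0 0 26), (X 2 1 4 22 0 8 0 0 11), (X 2 4 0 0 4 9 0 0 0), (X 2 5 0 4 0 5 0 0 0), (X 2 6 0 2 0 3 0 0 0), (X 2 0 6 8 0 8 0 17 0), (X 0 2 6 8 0 64 0 81 0), (X 0 6 7 8 0 27 0 0 18), (X 0 2 6 8 0 28 0 57 0), (X 0 2 6 8 0 36 0 3 0), (X 2 6 0 1 0 2 0 0 0), (X 0 1 7 92 0 52 0 0 175), (X 2 6 0 4 0 5 0 0 0), (X 2 7 0 4 0 0 3 0 0), (X 0 1 3 44 0 20 0 0 51), (X 0 1 3 172 0 132 0 0 195), (X 0 1 3 31 0 43 0 0 6), (X 0 1 3 63 0 31 0 0 46), (X 2 3 0 0 2 3 0 0 0), (X 0 1 3 34 0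 42 0 0 3)]

def out2_8 : List Bt :=
  [(X 2 6 0 1 0 2 0 0 0), (X 2 5 0 2 0 1 0 0 0), (X 0 1 5 44 0 36 0 9 0), (X 0 1 5 52 0 44 0 75 0), (X 0 1 5 80 0 104 0 243 0), (X 0 1 5 88 0 80 0 39 0), (X 0 1 5 14 0 22 0 49 0), (X 0 1 5 48 0 56 0 21 0), (X 0 1 5 40 0 48 0 69 0), (X 2 4 0 1 0 0 1 0 0), (X 1 5 0 8 0 33 0 0 0), (X 0 2 4 24 0 88 0 0 33), (X 1 2 4 40 0 296 0 0 225), (X 1 2 4 12 0 25 0 0 12), (X 0 2 4 8 0 25 0 0 17), (X 2 3 0 0 2 3 0 0 0), (X 2 1 3 19 0 8 0 0 9), (X 2 3 0 0 1 3 0 0 0), (X 2 0 3 19 0 4 0 0 1), (X 0 2 7 16 0 63 0 0 88), (X 0 3 6 8 0 0 9 53 0), (X 0 1 6 21 0 11 0 30 0), (X 0 1 6 18 0 14 0 33 0), (X 2 7 0 0 4 9 0 0 0), (X 2 6 0 4 0 5 0 0 0), (X 2 5 0 2 0 3 0 0 0), (X 0 1 5 10 0 2 0 23 0), (X 0 1 5 48 0 40 0 63 0), (X 0 1 5 40 0 48 0 9 0)]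

def out2_9 : List Bt :=
  [(X 0 1 4 13 0 21 0 0 31), (X 2 5 0 2 0 1 0 0 0), (X 2 4 0 2 0 0 1 0 0), (X 0 1 5 52 0 44 0 75 0), (X 0 1 5 80 0 104 0 243 0), (X 0 1 5 88 0 80 0 39 0), (X 2 6 0 1 0 2 0 0 0), (X 0 1 5 48 0 56 0 21 0), (X 0 1 5 40 0 48 0 69 0), (X 0 1 5 2 0 10 0 39 0), (X 1 5 0 8 0 33 0 0 0), (X 0 2 6 8 0 44 0 33 0), (X 1 2 6 40 0 116 0 225 0), (X 2 1 6 17 0 12 0 24 0), (X 2 6 0 1 0 2 0 0 0), (X 2 7 0 0 2 3 0 0 0), (X 2 3 0 0 1 3 0 0 0), (X 2 0 3 9 0 8 0 0 19), (X 0 2 3 4 0 17 0 0 1), (X 0 2 3 16 0 63 0 0 88), (X 0 1 4 92 0 52 0 0 175), (X 0 1 4 33 0 23 0 0 15), (X 2 4 0 4 0 0 3 0 0), (X 2 3 0 0 4 9 0 0 0), (X 0 1 4 296 0 336 0 0 195), (X 2 5 0 2 0 3 0 0 0), (X 0 1 4 33 0 25 0 0 23), (X 0 1 4 36 0 44 0 0 21), (X 0 1 4 28 0 36 0 0 3)]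

def out2_10 : List Bt :=
  [(X 2 6 0 1 0 2 0 0 0), (X 0 1 7 45 0 41 0 0 18), (X 0 1 7 19 0 15 0 0 3), (X 0 1 7 27 0 19 0 0 25), (X 2 7 0 0 2 9 0 0 0), (X 0 1 3 36 0 28 0 0 13), (X 0 1 3 35 0 27 0 0 49), (X 0 1 3 132 0 140 0 0 21), (X 2 7 0 0 2 3 0 0 0), (X 2 3 0 1 0 0 1 0 0), (X 2 4 0 0 2 3 0 0 0), (X 2 7 0 0 4 9 0 0 0), (X 0 1 3 296 0 336 0 0 225), (X 0 1 3 25 0 37 0 0 12), (X 0 1 3 33 0 25 0 0 17), (X 2 4 0 0 2 3 0 0 0), (X 0 1 3 10 0 18 0 0 9), (X 2 4 0 0 1 3 0 0 0), (X 2 3 0 2 0 0 1 0 0), (X 1 2 4 16 0 53 0 0 88), (X 2 5 0 2 0 5 0 0 0), (X 2 0 5 7 0 2 0 6 0), (X 0 2 6 4 0 14 0 33 0), (X 0 2 5 8 0 52 0 51 0), (X 2 6 0 4 0 5 0 0 0), (X 0 6 7 16 0 31 0 0 39), (X 0 2 6 16 0 27 0 46 0), (X 0 3 6 8 0 0 43 66 0), (X 2 7 0 0 2 3 0 0 0)]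

def out2_11 : List Bt :=
  [(X 0 1 7 41 0 9 0 0 62), (X 0 1 7 45 0 41 0 0 18), (X 0 1 7 19 0 15 0 0 3), (X 2 3 0 0 1 3 0 0 0), (X 2 7 0 0 2 9 0 0 0), (X 2 3 0 0 2 3 0 0 0), (X 0 1 6 21 0 5 0 98 0), (X 2 6 0 2 0 1 0 0 0), (X 2 7 0 0 2 3 0 0 0), (X 0 1 6 37 0 29 0 78 0), (X 0 1 6 66 0 74 0 33 0), (X 2 7 0 0 4 9 0 0 0), (X 2 6 0 4 0 5 0 0 0), (X 0 1 6 11 0 15 0 8 0), (X 0 1 6 49 0 33 0 34 0), (X 0 1 6 90 0 98 0 81 0), (X 0 1 6 29 0 45 0 27 0), (X 0 1 6 21 0 29 0 57 0), (X 0 1 6 25 0 21 0 3 0), (X 2 5 0 1 0 2 0 0 0), (X 2 1 5 48 0 40 0 175 0), (X 2 5 0 4 0 5 0 0 0), (X 2 4 0 4 0 0 3 0 0), (X 2 0 3 20 0 24 0 0 51), (X 0 2 3 40 0 132 0 0 195), (X 0 3 7 0 8 31 0 43 0), (X 0 2 3 32 0 31 0 0 46), (X 2 3 0 0 2 3 0 0 0), (X 2 7 0 0 2 3 0 0 0)]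

def out2_12 : List Bt :=
  [(X 0 1 3 41 0 9 0 0 62), (X 0 1 3 45 0 41 0 0 18), (X 0 1 3 19 0 15 0 0 3), (X 2 4 0 0 1 3 0 0 0), (X 2 3 0 0 2 9 0 0 0), (X 2 4 0 0 2 3 0 0 0), (X 0 1 3 77 0 93 0 0 98), (X 0 1 3 138 0 154 0 0 21), (X 2 3 0 0 2 3 0 0 0), (X 2 7 0 1 0 0 1 0 0), (X 0 1 3 22 0 30 0 0 11), (X 2 3 0 0 4 9 0 0 0), (X 0 1 3 52 0 132 0 0 225), (X 0 1 3 1 0 13 0 0 24), (X 0 2 7 8 0 25 0 0 17), (X 1 2 7 8 0 36 0 0 27), (X 1 2 7 8 0 10 0 0 9), (X 2 1 7 2 0 8 0 0 19), (X 2 7 0 2 0 0 1 0 0), (X 2 6 0 1 0 2 0 0 0), (X 2 5 0 2 0 5 0 0 0), (X 2 0 5 7 0 2 0 6 0), (X 0 4 5 16 0 0 45 3 0), (X 0 1 4 44 0 20 0 0 51), (X 0 1 4 172 0 132 0 0 195), (X 0 1 4 31 0 43 0 0 6), (X 0 1 4 63 0 31 0 0 46), (X 2 4 0 0 2 3 0 0 0), (X 2 3 0 0 2 3 0 0 0)]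

def out2 : List (List Bt) :=
  [out2_0, out2_1, out2_2, out2_3, out2_4, out2_5, out2_6, out2_7, out2_8, out2_9, out2_10, out2_11, out2_12]

def cov2 : Bt :=
  (.pick 0 (.next (.pick 20 (.next (.pick 17 (.next (.pick 15 (.next (.pick 14 (.next (X 0 1 4 3 0 41 0 68 0) (.next (X 0 2 0 1 0 1 0 0 0) .done))) (.next (.pick 16 (.next (X 0 1 0 1 0 1 0 0 0) (.next (X 0 4 0 1 0 1 0 0 0) .done))) .done))) (.next (.pick 19 (.next (.pick 18 (.next (X 0 2 0 1 0 1 0 0 0) (.next (X 0 2 0 1 0 1 0 0 0) .done))) (.next (X 0 4 0 1 0 1 0 0 0) .done))) .done))) (.next (.pick 26 (.next (.pick 22 (.next (.pick 21 (.next (X 0 3 0 1 0 1 0 0 0) (.next (X 0 2 0 1 0 1 0 0 0) .done))) (.next (.pick 24 (.next (.pick 23 (.next (X 0 2 0 1 0 1 0 0 0) (.next (X 0 2 0 1 0 1 0 0 0) .done)))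 (.next (.pick 25 (.next (X 0 1 0 1 0 1 0 0 0) (.next (X 0 6 0 1 0 1 0 0 0) .done))) .done))) .done))) (.next (.pick 27 (.next (X 0 1 0 1 0 1 0 0 0) (.next (.pick 28 (.next (X 0 1 0 1 0 1 0 0 0) (.next (X 0 8 0 1 0 1 0 0 0) .done))) .done))) .done))) .done))) (.next (.pick 6 (.next (.pick 4 (.next (.pick 3 (.next (.pick 1 (.next (X 0 4 0 1 0 1 0 0 0) (.next (.pick 2 (.next (X 0 1 0 1 0 1 0 0 0) (.next (X 0 4 0 1 0 1 0 0 0) .done))) .done))) (.next (X 0 2 0 1 0 1 0 0 0) .done))) (.next (.pick 5 (.next (X 0 1 0 1 0 1 0 0 0) (.next (X 0 4 0 1 0 1 0 0 0) .done))) .done))) (.next (.pick 9 (.next (.pick 8 (.next (.pick 7 (.next (X 0 3 0 1 0 1 0 0 0) (.next (X 0 2 0 1 0 1 0 0 0) .done))) (.next (X 0 2 0 1 0 1 0 0 0) .done))) (.next (.pick 14 (.next (.pick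 12 (.next (.pick 11 (.next (.pick 10 (.next (X 0 4 0 1 0 1 0 0 0) (.next (X 0 2 0 1 0 1 0 0 0) .done))) (.next (X 0 2 0 1 0 1 0 0 0) .done))) (.next (.pick 13 (.next (X 0 1 0 1 0 1 0 0 0) (.next (X 0 4 0 1 0 1 0 0 0) .done))) .done))) (.next (X 0 1 7 41 0 3 0 68 0) .done))) .done))) .done))) .done)))

def fill2_0 : Bt :=
  (.pick 11 (.next (.pick 4 (.next (X 0 1 0 1 0 1 0 0 0) (.next (.pick 9 (.next (X 0 1 2 1 0 1 0 1 0) (.next (X 0 2 0 1 0 1 0 0 0) (.next (X 0 1 6 21 0 0 10 8 0) (.next (X 0 3 7 9 0 0 11 8 0) (.next (X 0 6 0 1 0 1 0 0 0) .done)))))) (.next (.pick 0 (.next (X 0 5 6 0 31 13 0 21 0) (.next (X 0 6 7 0 62 67 0 51 0) (.next (X 0 3 7 20 0 11 0 8 0) (.next (X 0 1 4 1 0 1 0 1 0) (.next (X 0 1 10 0 31 41 0 16 0) .done)))))) (.next (.pick 0 (.next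 (X 0 2 7 0 18 13 0 8 0) (.next (X 0 1 3 2 0 1 0 0 1) (.next (X 0 3 4 1 0 1 0 1 0) (.next (X 0 4 0 1 0 1 0 0 0) (.next (X 0 1 11 0 31 41 0 16 0) .done)))))) (.next (X 0 4 7 67 0 41 0 0 8) .done)))))) (.next (X 0 1 3 67 0 26 0 0 8) (.next (X 0 4 5 31 0 8 0 18 0) (.next (X 0 6 0 2 0 1 0 0 0) (.next (.pick 9 (.next (X 0 1 0 1 0 1 0 0 0) (.next (X 0 1 6 1 0 1 0 1 0) (.next (X 0 1 8 21 0 0 10 8 0) (.next (X 0 3 9 9 0 0 11 8 0) (.next (X 0 3 6 1 0 1 0 0 1) .done)))))) .done))))))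

def fill2_1 : Bt :=
  (.pick 11 (.next (.pick 4 (.next (X 0 1 0 1 0 1 0 0 0) (.next (X 0 1 3 67 0 26 0 0 8) (.next (.pick 0 (.next (X 0 5 6 0 9 9 0 13 0) (.next (X 0 6 7 0 18 63 0 67 0) (.next (X 0 1 7 67 0 0 5 16 0) (.next (X 0 1 4 1 0 1 0 1 0) (.next (X 0 1 10 0 27 45 0 16 0) .done)))))) (.next (.pick 0 (.next (X 0 2 7 0 18 9 0 8 0) (.next (X 0 1 3 2 0 1 0 0 1) (.next (X 0 1 8 67 0 0 5 16 0) (.next (X 0 4 0 1 0 1 0 0 0) (.next (X 0 1 11 0 27 45 0 16 0) .done)))))) (.next (X 0 4 7 63 0 45 0 0 8) .done)))))) (.next (X 0 1 3 63 0 18 0 0 8) (.next (X 0 5 0 1 0 2 0 0 0) (.next (X 0 1 4 36 0 31 0 8 0) (.next (X 0 3 5 26 0 41 0 0 8) .done))))))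

def fill2_2 : Bt :=
  (.pick 11 (.next (.pick 4 (.next (X 0 1 0 1 0 1 0 0 0) (.next (X 0 5 0 0 1 2 0 0 0) (.next (.pick 0 (.next (X 0 5 6 0 1 2 0 2 0) (.next (X 0 6 7 0 3 25 0 21 0) (.next (X 0 1 7 63 0 0 9 16 0) (.next (X 0 1 4 1 0 1 0 1 0) (.next (X 0 1 10 0 31 57 0 16 0) .done)))))) (.next (.pick 0 (.next (X 0 2 7 0 22 9 0 8 0) (.next (X 0 1 3 2 0 1 0 0 1) (.next (X 0 1 8 63 0 0 9 16 0) (.next (X 0 4 0 1 0 1 0 0 0) (.next (X 0 1 11 0 31 57 0 16 0) .done)))))) (.next (X 0 4 7 75 0 57 0 0 8) .done)))))) (.next (X 0 1 3 75 0 18 0 0 8) (.next (.pick 12 (.next (X 0 5 6 0 3 4 0 25 0) (.next (X 0 1 3 1 0 1 0 1 0) (.next (X 0 3 4 2 0 1 0 0 1) (.next (X 0 4 0 1 0 1 0 0 0) (.next (X 0 10 0 0 1 2 0 0 0) .done)))))) (.next (X 0 1 4 36 0 27 0 8 0) (.next (X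 0 3 5 18 0 45 0 0 8) .done))))))

def fill2_3 : Bt :=
  (.pick 12 (.next (X 0 3 0 3 0 0 1 0 0) (.next (X 0 1 3 75 0 81 0 0 8) (.next (.pick 4 (.next (X 0 1 5 0 23 75 0 8 0) (.next (X 0 1 5 75 0 18 0 0 8) (.next (.pick 0 (.next (X 0 1 8 0 26 3 0 8 0) (.next (X 0 8 9 0 1 1 0 1 0) (.next (X 0 1 9 75 0 0 13 16 0) (.next (X 0 1 4 1 0 1 0 1 0) (.next (X 0 1 12 0 23 81 0 16 0) .done)))))) (.next (.pick 0 (.next (X 0 1 9 0 23 6 0 8 0) (.next (X 0 1 3 2 0 1 0 0 1) (.next (X 0 1 10 75 0 0 13 16 0) (.next (X 0 4 0 1 0 1 0 0 0) (.next (X 0 1 13 0 23 81 0 16 0) .done)))))) (.next (.pick 3 (.next (X 0 1 0 1 0 1 0 0 0) (.next (X 0 1 6 1 0 1 0 1 0) (.next (X 0 4 7 1 0 1 0 0 1) (.next (X 0 1 13 52 0 29 0 8 0) (.next (X 0 3 6 1 0 1 0 0 1) .done)))))) .done)))))) (.next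 (.pick 3 (.next (.pick 4 (.next (.pick 11 (.next (X 0 1 0 1 0 1 0 0 0) (.next (X 0 1 3 1 0 1 0 1 0) (.next (X 0 5 0 1 0 1 0 0 0) (.next (X 0 1 10 44 0 31 0 8 0) (.next (X 0 3 11 18 0 57 0 0 8) .done)))))) (.next (X 0 1 7 75 0 18 0 0 8) (.next (X 0 5 8 31 0 44 0 8 0) (.next (X 0 6 0 1 0 1 0 0 0) (.next (X 0 5 0 1 0 1 0 0 0) .done)))))) (.next (.pick 11 (.next (X 0 1 2 1 0 1 0 1 0) (.next (X 0 2 0 1 0 1 0 0 0) (.next (X 0 5 0 1 0 1 0 0 0) (.next (X 0 1 10 44 0 31 0 8 0) (.next (X 0 6 0 1 0 1 0 0 0) .done)))))) (.next (X 0 3 0 1 0 1 0 0 0) (.next (X 0 1 5 1 0 1 0 1 0) (.next (X 0 3 6 1 0 1 0 0 1) .done)))))) (.next (X 0 4 5 75 0 18 0 0 8) .done))))))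

def fill2_4 : Bt :=
  (.pick 3 (.next (.pick 0 (.next (X 0 1 3 81 0 42 0 0 8) (.next (X 0 3 4 0 81 26 0 50 0) (.next (X 0 4 5 243 0 82 0 58 0) (.next (.pick 4 (.next (X 0 5 6 81 0 75 0 0 8) (.next (X 0 1 3 2 0 1 0 0 1) (.next (X 0 3 4 1 0 1 0 1 0) (.next (X 0 4 0 1 0 1 0 0 0) (.next (X 0 9 0 1 0 1 0 0 0) .done)))))) (.next (X 0 5 0 1 0 1 0 0 0) .done)))))) (.next (X 0 1 2 81 0 6 0 0 8) (.next (.pick 12 (.next (X 0 4 6 0 81 24 0 50 0) (.next (X 0 7 0 9 0 0 2 0 0) (.next (.pick 8 (.next (X 0 2 8 81 0 42 0 0 8) (.next (X 0 3 0 1 0 1 0 0 0) (.next (X 0 3 0 1 0 1 0 0 0) (.next (X 0 1 7 1 0 1 0 1 0) (.next (X 0 1 12 0 41 39 0 16 0) .done)))))) (.next (X 0 4 0 1 0 1 0 0 0) (.next (X 0 6 0 1 0 1 0 0 0) .done)))))) (.next (.pick 8 (.next (X 0 2 6 0 20 21 0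 8 0) (.next (X 0 8 0 9 0 0 2 0 0) (.next (X 0 3 4 1 0 1 0 1 0) (.next (X 0 4 0 1 0 1 0 0 0) (.next (X 0 1 10 0 41 39 0 16 0) .done)))))) (.next (X 0 4 6 81 0 39 0 0 8) .done))))))

def fill2_5 : Bt :=
  (.pick 8 (.next (.pick 13 (.next (X 0 1 0 1 0 1 0 0 0) (.next (X 0 1 4 54 0 93 0 0 8) (.next (X 0 5 6 39 0 8 0 10 0) (.next (X 0 6 7 39 0 16 0 98 0) (.next (X 0 8 0 3 0 0 2 0 0) .done)))))) (.next (X 0 1 2 42 0 81 0 0 8) (.next (X 0 3 4 39 0 10 0 2 0) (.next (.pick 3 (.next (.pick 0 (.next (.pick 1 (.next (X 0 1 2 1 0 1 0 1 0) (.next (X 0 3 0 1 0 1 0 0 0) (.next (X 0 1 10 93 0 0 5 16 0) (.next (X 0 4 11 27 0 0 22 8 0) (.next (X 0 5 0 1 0 1 0 0 0) .done)))))) (.next (X 0 7 8 0 1 2 0 2 0) (.next (X 0 8 9 39 0 98 0 82 0) (.next (X 0 1 9 41 0 1 0 8 0) (.next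 (X 0 5 0 1 0 1 0 0 0) .done)))))) (.next (X 0 1 3 2 0 1 0 0 1) (.next (X 0 3 4 1 0 1 0 1 0) (.next (X 0 4 0 1 0 1 0 0 0) (.next (.pick 1 (.next (X 0 1 0 1 0 1 0 0 0) (.next (X 0 1 3 2 0 1 0 0 1) (.next (X 0 1 13 93 0 0 5 16 0) (.next (X 0 5 8 1 0 1 0 0 1) (.next (X 0 4 9 1 0 1 0 1 0) .done)))))) .done)))))) (.next (X 0 1 6 0 49 39 0 16 0) .done))))))

def fill2_6 : Bt :=
  (.pick 13 (.next (.pick 1 (.next (.pick 8 (.next (X 0 2 0 1 0 1 0 0 0) (.next (X 0 1 4 54 0 93 0 0 8) (.next (X 0 3 5 39 0 0 5 8 0) (.next (.pick 3 (.next (X 0 5 7 39 0 93 0 0 8) (.next (X 0 1 3 2 0 1 0 0 1) (.next (X 0 3 4 1 0 1 0 1 0) (.next (X 0 4 0 1 0 1 0 0 0) (.next (X 0 9 0 1 0 1 0 0 0) .done)))))) (.next (X 0 5 0 1 0 1 0 0 0) .done)))))) (.next (X 0 1 2 1 0 1 0 1 0) (.next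 (X 0 1 5 77 0 0 21 16 0) (.next (.pick 0 (.next (.pick 2 (.next (X 0 1 8 70 0 77 0 0 8) (.next (X 0 1 4 2 0 1 0 0 1) (.next (X 0 4 5 1 0 1 0 1 0) (.next (X 0 5 0 1 0 1 0 0 0) (.next (X 0 5 0 1 0 1 0 0 0) .done)))))) (.next (X 0 7 8 0 98 7 0 39 0) (.next (X 0 8 9 2 0 1 0 1 0) (.next (X 0 1 9 49 0 5 0 8 0) (.next (X 0 3 5 1 0 1 0 0 1) .done)))))) (.next (.pick 0 (.next (X 0 1 0 1 0 1 0 0 0) (.next (X 0 1 3 2 0 1 0 0 1) (.next (X 0 4 7 1 0 2 0 0 1) (.next (X 0 1 10 49 0 5 0 8 0) (.next (X 0 4 9 1 0 1 0 1 0) .done)))))) .done)))))) (.next (.pick 1 (.next (X 0 1 2 1 0 1 0 1 0) (.next (X 0 2 0 1 0 1 0 0 0) (.next (X 0 1 6 77 0 0 21 16 0) (.next (X 0 5 7 35 0 0 14 8 0) (.next (X 0 6 0 1 0 1 0 0 0) .done)))))) (.next (X 0 4 5 98 0 16 0 21 0) (.next (X 0 6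 0 2 0 1 0 0 0) (.next (X 0 1 5 0 49 39 0 16 0) .done))))))

def fill2_7 : Bt :=
  (.pick 1 (.next (X 0 1 3 0 21 8 0 14 0) (.next (.pick 13 (.next (X 0 1 2 1 0 1 0 1 0) (.next (X 0 2 0 1 0 1 0 0 0) (.next (X 0 7 0 1 0 2 0 0 0) (.next (X 0 1 6 21 0 49 0 8 0) (.next (X 0 6 0 1 0 1 0 0 0) .done)))))) (.next (X 0 5 0 1 0 2 0 0 0) (.next (.pick 0 (.next (.pick 2 (.next (X 0 1 7 66 0 69 0 0 8) (.next (X 0 1 4 2 0 1 0 0 1) (.next (X 0 4 5 1 0 1 0 1 0) (.next (X 0 5 0 1 0 1 0 0 0) (.next (X 0 5 0 1 0 1 0 0 0) .done)))))) (.next (X 0 6 7 0 21 6 0 14 0) (.next (X 0 7 8 21 0 90 0 98 0) (.next (X 0 1 8 49 0 21 0 8 0) (.next (X 0 3 5 1 0 1 0 0 1) .done)))))) (.next (X 0 1 5 0 14 35 0 8 0) .done))))))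

def fill2_8 : Bt :=
  (.pick 1 (.next (X 0 1 3 0 23 8 0 2 0) (.next (.pick 14 (.next (X 0 4 5 0 23 8 0 52 0) (.next (X 0 1 2 1 0 1 0 1 0) (.next (X 0 3 4 0 1 2 0 1 0) (.next (.pick 13 (.next (X 0 2 7 0 45 66 0 8 0) (.next (X 0 6 0 1 0 1 0 0 0) (.next (X 0 3 0 1 0 1 0 0 0) (.next (X 0 1 10 21 0 45 0 8 0) (.next (X 0 10 0 1 0 1 0 0 0) .done)))))) (.next (X 0 9 0 3 0 0 2 0 0) .done)))))) (.next (.pick 14 (.next (X 0 2 5 69 0 78 0 0 8) (.next (X 0 1 6 78 0 9 0 0 8) (.next (X 0 3 7 29 0 49 0 8 0) (.next (X 0 4 0 1 0 1 0 0 0) (.next (X 0 6 0 1 0 1 0 0 0) .done)))))) (.next (.pick 2 (.next (.pick 0 (.next (X 0 1 7 69 0 78 0 0 8) (.next (X 0 1 8 78 0 9 0 0 8) (.next (X 0 8 9 69 0 98 0 90 0) (.next (X 0 1 9 45 0 21 0 8 0) (.next (X 0 5 0 1 0 1 0 0 0) .done))))))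 (.next (X 0 1 3 2 0 1 0 0 1) (.next (X 0 3 4 1 0 1 0 1 0) (.next (X 0 4 0 1 0 1 0 0 0) (.next (.pick 0 (.next (X 0 1 0 1 0 1 0 0 0) (.next (X 0 1 6 1 0 1 0 1 0) (.next (X 0 4 7 1 0 1 0 0 1) (.next (X 0 1 13 45 0 21 0 8 0) (.next (X 0 3 6 1 0 1 0 0 1) .done)))))) .done)))))) (.next (X 0 1 5 0 12 33 0 8 0) .done))))))

def fill2_9 : Bt :=
  (.pick 14 (.next (X 0 3 0 0 1 1 0 0 0) (.next (X 0 1 3 78 0 33 0 0 8) (.next (.pick 2 (.next (.pick 0 (.next (X 0 1 6 45 0 78 0 0 8) (.next (X 0 1 7 78 0 33 0 0 8) (.next (X 0 7 8 78 0 41 0 49 0) (.next (X 0 1 8 49 0 29 0 8 0) (.next (X 0 5 0 1 0 1 0 0 0) .done)))))) (.next (X 0 3 0 1 0 1 0 0 0) (.next (X 0 3 0 1 0 1 0 0 0) (.next (.pick 1 (.next (X 0 1 8 0 20 9 0 8 0) (.next (X 0 1 3 2 0 1 0 0 1) (.next (X 0 3 4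 1 0 1 0 1 0) (.next (X 0 4 0 1 0 1 0 0 0) (.next (X 0 1 12 0 10 39 0 8 0) .done)))))) (.next (.pick 0 (.next (X 0 1 0 1 0 1 0 0 0) (.next (X 0 1 6 1 0 1 0 1 0) (.next (X 0 4 7 1 0 1 0 0 1) (.next (X 0 1 12 49 0 29 0 8 0) (.next (X 0 3 6 1 0 1 0 0 1) .done)))))) .done)))))) (.next (.pick 1 (.next (X 0 2 5 0 49 9 0 16 0) (.next (X 0 2 6 0 29 69 0 16 0) (.next (X 0 3 0 1 0 1 0 0 0) (.next (X 0 1 5 1 0 1 0 1 0) (.next (X 0 1 9 0 10 39 0 8 0) .done)))))) (.next (X 0 4 5 78 0 69 0 0 8) .done))))))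

def fill2_10 : Bt :=
  (.pick 2 (.next (.pick 0 (.next (X 0 1 3 33 0 66 0 0 8) (.next (X 0 1 4 66 0 33 0 0 8) (.next (X 0 4 5 33 0 66 0 82 0) (.next (X 0 1 5 41 0 37 0 8 0) (.next (X 0 5 0 1 0 1 0 0 0) .done)))))) (.next (X 0 4 0 3 0 0 2 0 0) (.next (.pick 14 (.next (X 0 2 4 33 0 78 0 0 8) (.next (X 0 3 0 1 0 1 0 0 0) (.next (X 0 3 0 1 0 1 0 0 0) (.next (X 0 1 7 41 0 37 0 8 0) (.next (X 0 3 8 33 0 45 0 0 8) .done)))))) (.next (X 0 1 4 41 0 4 0 8 0) (.next (.pick 0 (.next (X 0 1 0 1 0 1 0 0 0) (.next (X 0 1 6 1 0 1 0 1 0) (.next (X 0 4 7 1 0 1 0 0 1) (.next (X 0 1 9 41 0 37 0 8 0) (.next (X 0 3 6 1 0 1 0 0 1) .done)))))) .done))))))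

def fill2_11 : Bt :=
  (.pick 2 (.next (.pick 0 (.next (.pick 5 (.next (X 0 2 0 1 0 1 0 0 0) (.next (X 0 1 2 1 0 1 0 1 0) (.next (X 0 1 6 51 0 0 39 16 0) (.next (X 0 3 7 33 0 0 6 8 0) (.next (X 0 4 8 33 0 84 0 0 8) .done)))))) (.next (.pick 5 (.next (X 0 3 0 1 0 1 0 0 0) (.next (X 0 2 0 1 0 1 0 0 0) (.next (X 0 1 7 51 0 0 39 16 0) (.next (X 0 3 8 33 0 0 6 8 0) (.next (X 0 6 0 1 0 1 0 0 0) .done)))))) (.next (X 0 4 5 33 0 52 0 44 0) (.next (X 0 1 5 33 0 33 0 8 0) (.next (X 0 5 0 1 0 1 0 0 0) .done)))))) (.next (.pick 15 (.next (X 0 1 0 1 0 1 0 0 0) (.next (X 0 6 0 9 0 0 4 0 0) (.next (X 0 1 6 33 0 0 45 16 0) (.next (X 0 1 7 45 0 6 0 8 0) (.next (X 0 4 6 1 0 1 0 1 0) .done)))))) (.next (.pick 14 (.next (X 0 2 4 33 0 66 0 0 8) (.next (X 0 3 0 1 0 1 0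 0 0) (.next (X 0 3 0 1 0 1 0 0 0) (.next (X 0 1 7 33 0 33 0 8 0) (.next (X 0 10 0 9 0 0 4 0 0) .done)))))) (.next (X 0 4 0 33 0 8 0 0 0) (.next (X 0 4 5 33 0 66 0 0 8) .done))))))

def fill2_12 : Bt :=
  (.pick 15 (.next (.pick 2 (.next (.pick 5 (.next (X 0 1 0 1 0 1 0 0 0) (.next (.pick 0 (.next (X 0 1 2 1 0 1 0 1 0) (.next (X 0 2 0 1 0 1 0 0 0) (.next (X 0 7 8 225 0 116 0 156 0) (.next (X 0 1 8 39 0 45 0 8 0) (.next (X 0 6 0 1 0 1 0 0 0) .done)))))) (.next (X 0 1 6 61 0 0 29 16 0) (.next (X 0 3 7 13 0 0 16 8 0) (.next (X 0 4 6 1 0 1 0 1 0) .done)))))) (.next (X 0 2 0 1 0 1 0 0 0) (.next (X 0 1 4 51 0 0 39 16 0) (.next (X 0 3 5 33 0 0 6 8 0) (.next (X 0 4 6 33 0 84 0 0 8) .done)))))) (.next (X 0 2 4 0 225 80 0 132 0) (.next (X 0 5 0 5 0 4 0 0 0) (.next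 (X 0 1 5 45 0 16 0 8 0) (.next (.pick 5 (.next (X 0 1 5 1 0 1 0 1 0) (.next (X 0 6 0 1 0 1 0 0 0) (.next (X 0 1 9 61 0 0 29 16 0) (.next (X 0 5 0 1 0 1 0 0 0) (.next (X 0 5 0 1 0 1 0 0 0) .done)))))) .done))))))

def fill2_13 : Bt :=
  (.pick 15 (.next (.pick 5 (.next (X 0 1 2 61 0 13 0 0 8) (.next (.pick 0 (.next (X 0 1 2 1 0 1 0 1 0) (.next (X 0 2 0 1 0 1 0 0 0) (.next (X 0 6 7 24 0 17 0 29 0) (.next (X 0 1 7 29 0 45 0 8 0) (.next (X 0 6 0 1 0 1 0 0 0) .done)))))) (.next (X 0 1 5 49 0 0 17 16 0) (.next (X 0 7 0 3 0 2 0 0 0) (.next (X 0 4 5 1 0 1 0 1 0) .done)))))) (.next (X 0 2 4 0 24 12 0 13 0) (.next (X 0 3 5 8 0 4 0 15 0) (.next (X 0 6 0 3 0 2 0 0 0) (.next (.pick 5 (.next (X 0 1 5 1 0 1 0 1 0) (.next (X 0 6 0 1 0 1 0 0 0) (.next (X 0 1 9 49 0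 0 17 16 0) (.next (X 0 5 0 1 0 1 0 0 0) (.next (X 0 5 0 1 0 1 0 0 0) .done)))))) .done))))))

def fill2_14 : Bt :=
  (.pick 17 (.next (X 0 2 3 0 34 16 0 15 0) (.next (.pick 5 (.next (X 0 1 3 50 0 1 0 0 8) (.next (.pick 0 (.next (X 0 1 2 1 0 1 0 1 0) (.next (X 0 2 0 1 0 1 0 0 0) (.next (X 0 7 8 2 0 1 0 1 0) (.next (X 0 1 8 17 0 33 0 8 0) (.next (X 0 6 0 1 0 1 0 0 0) .done)))))) (.next (X 0 1 6 81 0 0 17 16 0) (.next (X 0 4 7 33 0 0 16 8 0) (.next (X 0 5 0 1 0 1 0 0 0) .done)))))) (.next (.pick 5 (.next (X 0 1 4 0 16 1 0 8 0) (.next (X 0 1 3 1 0 1 0 1 0) (.next (X 0 1 7 81 0 0 17 16 0) (.next (X 0 4 0 1 0 1 0 0 0) (.next (.pick 15 (.next (X 0 1 5 1 0 1 0 1 0) (.next (X 0 6 0 1 0 1 0 0 0) (.next (X 0 4 7 1 0 2 0 0 1) (.next (X 0 5 0 1 0 1 0 0 0) (.next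 (X 0 5 0 1 0 1 0 0 0) .done)))))) .done)))))) (.next (X 0 6 0 2 0 1 0 0 0) (.next (X 0 1 6 0 17 81 0 16 0) .done))))))

def fill2_15 : Bt :=
  (.pick 17 (.next (X 0 2 3 0 27 8 0 18 0) (.next (.pick 5 (.next (X 0 3 4 0 27 18 0 10 0) (.next (.pick 0 (.next (X 0 1 2 1 0 1 0 1 0) (.next (X 0 2 0 1 0 1 0 0 0) (.next (X 0 4 8 27 0 0 9 8 0) (.next (X 0 8 9 81 0 90 0 98 0) (.next (X 0 6 0 1 0 1 0 0 0) .done)))))) (.next (X 0 1 6 81 0 0 9 16 0) (.next (.pick 16 (.next (X 0 5 6 1 0 1 0 1 0) (.next (X 0 6 0 1 0 1 0 0 0) (.next (X 0 3 0 1 0 1 0 0 0) (.next (X 0 1 5 1 0 1 0 1 0) (.next (X 0 10 0 1 0 1 0 0 0) .done)))))) (.next (X 0 5 0 1 0 1 0 0 0) .done)))))) (.next (.pick 5 (.next (X 0 2 4 66 0 15 0 0 8) (.next (X 0 1 3 1 0 1 0 1 0) (.next (X 0 1 7 81 0 0 9 16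 0) (.next (X 0 4 0 1 0 1 0 0 0) (.next (X 0 1 8 0 16 33 0 8 0) .done)))))) (.next (X 0 4 6 81 0 16 0 34 0) (.next (X 0 7 0 3 0 0 2 0 0) .done))))))

def fill2_16 : Bt :=
  (.pick 17 (.next (X 0 3 0 3 0 0 1 0 0) (.next (.pick 16 (.next (X 0 1 2 1 0 1 0 1 0) (.next (X 0 2 0 1 0 1 0 0 0) (.next (.pick 5 (.next (X 0 6 7 0 1 1 0 1 0) (.next (.pick 0 (.next (X 0 1 2 1 0 1 0 1 0) (.next (X 0 2 0 1 0 1 0 0 0) (.next (X 0 4 11 27 0 0 1 8 0) (.next (X 0 11 12 27 0 29 0 45 0) (.next (X 0 6 0 1 0 1 0 0 0) .done)))))) (.next (X 0 1 9 57 0 0 1 16 0) (.next (X 0 4 0 1 0 1 0 0 0) (.next (X 0 6 0 1 0 1 0 0 0) .done)))))) (.next (X 0 1 7 28 0 29 0 8 0) (.next (X 0 6 0 1 0 1 0 0 0) .done)))))) (.next (X 0 1 3 27 0 0 18 8 0) (.next (X 0 3 4 27 0 0 9 8 0) (.next (X 0 4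 5 27 0 81 0 0 8) .done))))))

def fill2_17 : Bt :=
  (.pick 16 (.next (X 0 3 0 3 0 0 1 0 0) (.next (X 0 1 2 57 0 30 0 0 8) (.next (.pick 5 (.next (X 0 4 5 0 19 17 0 9 0) (.next (.pick 0 (.next (X 0 1 2 1 0 1 0 1 0) (.next (X 0 2 0 1 0 1 0 0 0) (.next (X 0 1 9 57 0 0 15 16 0) (.next (X 0 5 10 51 0 0 21 16 0) (.next (X 0 6 0 1 0 1 0 0 0) .done)))))) (.next (.pick 7 (.next (X 0 1 8 0 15 6 0 8 0) (.next (X 0 3 0 1 0 1 0 0 0) (.next (X 0 3 0 1 0 1 0 0 0) (.next (X 0 1 7 1 0 1 0 1 0) (.next (X 0 1 12 0 21 51 0 16 0) .done)))))) (.next (X 0 4 0 1 0 1 0 0 0) (.next (X 0 6 0 1 0 1 0 0 0) .done)))))) (.next (.pick 7 (.next (X 0 2 6 0 18 3 0 8 0) (.next (X 0 1 3 2 0 1 0 0 1) (.next (X 0 3 4 1 0 1 0 1 0) (.next (X 0 4 0 1 0 1 0 0 0) (.next (X 0 1 10 0 21 51 0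 16 0) .done)))))) (.next (X 0 4 6 57 0 51 0 0 8) .done))))))

def fill2_18 : Bt :=
  (.pick 16 (.next (.pick 20 (.next (X 0 1 2 57 0 51 0 0 8) (.next (X 0 2 0 1 0 1 0 0 0) (.next (X 0 5 6 3 0 4 0 19 0) (.next (X 0 6 7 3 0 8 0 44 0) (.next (X 0 8 0 0 1 2 0 0 0) .done)))))) (.next (X 0 4 0 0 1 2 0 0 0) (.next (.pick 7 (.next (X 0 4 5 0 1 2 0 2 0) (.next (.pick 0 (.next (X 0 8 0 0 1 2 0 0 0) (.next (X 0 2 0 1 0 1 0 0 0) (.next (X 0 1 9 69 0 0 19 16 0) (.next (X 0 9 10 3 0 25 0 21 0) (.next (X 0 1 10 0 21 51 0 16 0) .done)))))) (.next (.pick 5 (.next (X 0 2 7 57 0 51 0 0 8) (.next (X 0 3 0 1 0 1 0 0 0) (.next (X 0 3 0 1 0 1 0 0 0) (.next (X 0 7 0 1 0 1 0 0 0) (.next (X 0 9 0 1 0 1 0 0 0) .done)))))) (.next (X 0 1 4 1 0 1 0 1 0) (.next (X 0 1 9 0 25 63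 0 16 0) .done)))))) (.next (.pick 7 (.next (X 0 2 6 0 22 3 0 8 0) (.next (X 0 1 3 2 0 1 0 0 1) (.next (X 0 3 4 1 0 1 0 1 0) (.next (X 0 4 0 1 0 1 0 0 0) (.next (X 0 1 10 0 25 63 0 16 0) .done)))))) (.next (.pick 20 (.next (X 0 1 0 1 0 1 0 0 0) (.next (X 0 1 3 2 0 1 0 0 1) (.next (X 0 4 7 1 0 2 0 0 1) (.next (X 0 5 8 1 0 1 0 0 1) (.next (X 0 12 0 0 1 2 0 0 0) .done)))))) .done))))))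

def fill2_19 : Bt :=
  (.pick 20 (.next (.pick 7 (.next (X 0 1 3 79 0 26 0 0 8) (.next (.pick 0 (.next (X 0 1 4 69 0 6 0 0 8) (.next (X 0 2 0 1 0 1 0 0 0) (.next (.pick 6 (.next (X 0 2 5 1 0 1 0 1 0) (.next (X 0 3 0 1 0 1 0 0 0) (.next (X 0 3 0 1 0 1 0 0 0) (.next (X 0 1 11 35 0 44 0 8 0) (.next (X 0 9 0 1 0 1 0 0 0) .done)))))) (.next (X 0 3 8 26 0 0 9 8 0) (.next (X 0 1 8 0 25 63 0 16 0) .done)))))) (.next (.pick 5 (.next (X 0 2 5 69 0 63 0 0 8) (.next (X 0 3 0 1 0 1 0 0 0) (.next (X 0 3 0 1 0 1 0 0 0) (.next (X 0 1 8 19 0 44 0 8 0) (.next (X 0 1 9 0 22 3 0 8 0) .done)))))) (.next (.pick 16 (.next (X 0 5 6 63 0 69 0 0 8) (.next (X 0 1 3 2 0 1 0 0 1) (.next (X 0 3 4 1 0 1 0 1 0) (.next (X 0 4 0 1 0 1 0 0 0) (.next (X 0 9 0 1 0 1 0 0 0) .done))))))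 (.next (X 0 5 0 1 0 1 0 0 0) .done)))))) (.next (X 0 1 3 79 0 53 0 0 8) (.next (X 0 4 5 88 0 16 0 35 0) (.next (X 0 6 0 2 0 1 0 0 0) (.next (X 0 1 5 0 22 3 0 8 0) .done))))))

def fill2_20 : Bt :=
  (.pick 18 (.next (.pick 7 (.next (X 0 1 0 1 0 1 0 0 0) (.next (.pick 6 (.next (X 0 1 2 1 0 1 0 1 0) (.next (X 0 2 0 1 0 1 0 0 0) (.next (.pick 0 (.next (X 0 7 8 0 175 92 0 52 0) (.next (X 0 3 0 1 0 1 0 0 0) (.next (X 0 3 0 1 0 1 0 0 0) (.next (X 0 1 11 35 0 11 0 8 0) (.next (X 0 4 12 46 0 59 0 0 8) .done)))))) (.next (X 0 1 8 35 0 24 0 8 0) (.next (X 0 6 0 1 0 1 0 0 0) .done)))))) (.next (X 0 1 4 53 0 0 35 16 0) (.next (X 0 3 5 26 0 0 9 8 0) (.next (.pick 20 (.next (X 0 1 0 1 0 1 0 0 0) (.next (X 0 1 6 1 0 1 0 1 0) (.next (X 0 11 0 5 0 2 0 0 0) (.next (X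 0 1 10 35 0 44 0 8 0) (.next (X 0 3 6 1 0 1 0 0 1) .done)))))) .done)))))) (.next (.pick 20 (.next (X 0 1 2 1 0 1 0 1 0) (.next (X 0 2 0 1 0 1 0 0 0) (.next (X 0 7 0 5 0 2 0 0 0) (.next (X 0 1 6 35 0 44 0 8 0) (.next (X 0 6 0 1 0 1 0 0 0) .done)))))) (.next (X 0 5 0 5 0 2 0 0 0) (.next (X 0 1 5 35 0 11 0 8 0) (.next (.pick 6 (.next (X 0 1 0 1 0 1 0 0 0) (.next (X 0 1 6 1 0 1 0 1 0) (.next (X 0 4 7 1 0 1 0 0 1) (.next (X 0 1 10 35 0 24 0 8 0) (.next (X 0 3 6 1 0 1 0 0 1) .done)))))) .done))))))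

def fill2_21 : Bt :=
  (.pick 19 (.next (X 0 1 2 0 30 3 0 13 0) (.next (X 0 3 4 0 15 10 0 33 0) (.next (X 0 5 0 5 0 4 0 0 0) (.next (.pick 18 (.next (.pick 6 (.next (X 0 1 6 46 0 59 0 0 8) (.next (X 0 1 7 59 0 13 0 0 8) (.next (.pick 0 (.next (X 0 9 10 0 15 33 0 23 0) (.next (X 0 3 0 1 0 1 0 0 0) (.next (X 0 3 0 1 0 1 0 0 0) (.next (X 0 1 13 45 0 21 0 8 0) (.next (X 0 4 12 1 0 1 0 1 0) .done)))))) (.next (X 0 1 10 45 0 24 0 8 0) (.next (X 0 5 0 1 0 1 0 0 0) .done)))))) (.next (X 0 1 3 2 0 1 0 0 1) (.next (X 0 3 4 1 0 1 0 1 0) (.next (X 0 4 0 1 0 1 0 0 0) (.next (.pick 6 (.next (X 0 1 0 1 0 1 0 0 0) (.next (X 0 1 6 1 0 1 0 1 0) (.next (X 0 4 7 1 0 1 0 0 1) (.next (X 0 1 14 45 0 24 0 8 0) (.next (X 0 3 6 1 0 1 0 0 1) .done)))))) .done)))))) (.next (X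 0 1 6 0 21 69 0 16 0) .done))))))

def fill2_22 : Bt :=
  (.pick 19 (.next (X 0 2 3 0 33 12 0 10 0) (.next (X 0 4 0 0 3 4 0 0 0) (.next (X 0 1 3 33 0 0 12 8 0) (.next (.pick 6 (.next (.pick 18 (.next (X 0 1 6 69 0 66 0 0 8) (.next (X 0 1 4 2 0 1 0 0 1) (.next (X 0 4 5 1 0 1 0 1 0) (.next (X 0 5 0 1 0 1 0 0 0) (.next (X 0 5 0 1 0 1 0 0 0) .done)))))) (.next (X 0 1 6 69 0 3 0 0 8) (.next (.pick 0 (.next (X 0 8 9 0 3 4 0 4 0) (.next (X 0 3 0 1 0 1 0 0 0) (.next (X 0 3 0 1 0 1 0 0 0) (.next (X 0 1 12 39 0 27 0 8 0) (.next (X 0 3 13 15 0 51 0 0 8) .done)))))) (.next (X 0 1 9 39 0 12 0 8 0) (.next (X 0 3 5 1 0 1 0 0 1) .done)))))) (.next (.pick 6 (.next (X 0 1 0 1 0 1 0 0 0) (.next (X 0 1 3 2 0 1 0 0 1) (.next (X 0 4 7 1 0 2 0 0 1) (.next (X 0 1 10 39 0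 12 0 8 0) (.next (X 0 4 9 1 0 1 0 1 0) .done)))))) .done))))))

def fill2_23 : Bt :=
  (.pick 10 (.next (.pick 6 (.next (.pick 19 (.next (X 0 2 0 1 0 1 0 0 0) (.next (X 0 1 4 15 0 66 0 0 8) (.next (X 0 1 5 33 0 0 6 8 0) (.next (X 0 4 6 51 0 0 27 16 0) (.next (X 0 5 0 1 0 1 0 0 0) .done)))))) (.next (X 0 3 4 0 51 44 0 20 0) (.next (.pick 0 (.next (X 0 5 6 0 51 112 0 88 0) (.next (X 0 3 0 1 0 1 0 0 0) (.next (X 0 3 0 1 0 1 0 0 0) (.next (X 0 1 9 45 0 39 0 8 0) (.next (X 0 3 10 33 0 51 0 0 8) .done)))))) (.next (X 0 1 6 45 0 6 0 8 0) (.next (X 0 4 5 1 0 1 0 1 0) .done)))))) (.next (X 0 4 0 9 0 0 4 0 0) (.next (X 0 1 4 51 0 0 39 16 0) (.next (X 0 3 5 33 0 0 6 8 0) (.next (.pick 6 (.next (X 0 1 5 1 0 1 0 1 0) (.next (X 0 6 0 1 0 1 0 0 0) (.next (X 0 4 7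 1 0 2 0 0 1) (.next (X 0 5 0 1 0 1 0 0 0) (.next (X 0 5 0 1 0 1 0 0 0) .done)))))) .done))))))

def fill2_24 : Bt :=
  (.pick 10 (.next (.pick 6 (.next (X 0 1 2 33 0 51 0 0 8) (.next (X 0 3 4 0 195 172 0 132 0) (.next (.pick 0 (.next (X 0 2 6 43 0 74 0 0 8) (.next (X 0 3 0 1 0 1 0 0 0) (.next (X 0 3 0 1 0 1 0 0 0) (.next (X 0 1 9 35 0 39 0 8 0) (.next (X 0 3 10 43 0 31 0 0 8) .done)))))) (.next (X 0 3 6 31 0 0 4 8 0) (.next (X 0 4 5 1 0 1 0 1 0) .done)))))) (.next (X 0 2 4 0 195 80 0 204 0) (.next (X 0 5 0 5 0 4 0 0 0) (.next (X 0 1 5 39 0 4 0 8 0) (.next (.pick 6 (.next (X 0 1 5 1 0 1 0 1 0) (.next (X 0 6 0 1 0 1 0 0 0) (.next (X 0 4 7 1 0 2 0 0 1) (.next (X 0 5 0 1 0 1 0 0 0) (.next (X 0 5 0 1 0 1 0 0 0) .done)))))) .done))))))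

def fill2_25 : Bt :=
  (.pick 10 (.next (.pick 6 (.next (X 0 1 2 43 0 31 0 0 8) (.next (X 0 3 4 0 6 31 0 43 0) (.next (.pick 0 (.next (X 0 2 6 31 0 50 0 0 8) (.next (X 0 3 0 1 0 1 0 0 0) (.next (X 0 3 0 1 0 1 0 0 0) (.next (X 0 1 9 23 0 27 0 8 0) (.next (X 0 3 10 31 0 19 0 0 8) .done)))))) (.next (X 0 7 0 3 0 2 0 0 0) (.next (X 0 4 5 1 0 1 0 1 0) .done)))))) (.next (X 0 2 4 0 6 12 0 31 0) (.next (X 0 3 5 2 0 4 0 13 0) (.next (X 0 6 0 3 0 2 0 0 0) (.next (.pick 6 (.next (X 0 1 5 1 0 1 0 1 0) (.next (X 0 6 0 1 0 1 0 0 0) (.next (X 0 4 7 1 0 2 0 0 1) (.next (X 0 5 0 1 0 1 0 0 0) (.next (X 0 5 0 1 0 1 0 0 0) .done)))))) .done))))))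

def fill2_26 : Bt :=
  (.pick 9 (.next (X 0 1 2 0 46 3 0 19 0) (.next (.pick 6 (.next (X 0 1 3 50 0 19 0 0 8) (.next (X 0 4 5 0 46 63 0 31 0) (.next (.pick 0 (.next (X 0 2 5 1 0 1 0 1 0) (.next (X 0 3 0 1 0 1 0 0 0) (.next (X 0 3 0 1 0 1 0 0 0) (.next (X 0 1 10 23 0 43 0 8 0) (.next (X 0 9 0 1 0 1 0 0 0) .done)))))) (.next (.pick 4 (.next (X 0 5 6 1 0 1 0 1 0) (.next (X 0 6 0 1 0 1 0 0 0) (.next (X 0 3 0 1 0 1 0 0 0) (.next (X 0 1 5 1 0 1 0 1 0) (.next (X 0 10 0 1 0 1 0 0 0) .done)))))) (.next (X 0 5 0 1 0 1 0 0 0) .done)))))) (.next (.pick 6 (.next (X 0 1 4 0 4 19 0 8 0) (.next (X 0 1 3 1 0 1 0 1 0) (.next (X 0 3 4 2 0 1 0 0 1) (.next (X 0 4 0 1 0 1 0 0 0) (.next (.pick 10 (.next (X 0 1 5 1 0 1 0 1 0) (.next (X 0 6 0 1 0 1 0 0 0) (.next (X 0 4 7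 1 0 2 0 0 1) (.next (X 0 5 0 1 0 1 0 0 0) (.next (X 0 5 0 1 0 1 0 0 0) .done)))))) .done)))))) (.next (X 0 6 0 2 0 1 0 0 0) (.next (X 0 1 6 0 23 63 0 16 0) .done))))))

def fill2_27 : Bt :=
  (.pick 9 (.next (X 0 2 3 0 21 8 0 6 0) (.next (.pick 4 (.next (X 0 1 2 1 0 1 0 1 0) (.next (X 0 2 0 1 0 1 0 0 0) (.next (.pick 0 (.next (X 0 6 7 0 21 36 0 44 0) (.next (X 0 7 8 0 1 2 0 2 0) (.next (.pick 6 (.next (X 0 4 9 0 20 3 0 8 0) (.next (X 0 3 0 1 0 1 0 0 0) (.next (X 0 3 0 1 0 1 0 0 0) (.next (X 0 7 0 1 0 1 0 0 0) (.next (X 0 9 0 1 0 1 0 0 0) .done)))))) (.next (X 0 1 4 1 0 1 0 1 0) (.next (X 0 9 0 1 0 1 0 0 0) .done)))))) (.next (.pick 0 (.next (X 0 2 6 1 0 0 1 2 0) (.next (X 0 1 3 2 0 1 0 0 1) (.next (X 0 3 4 1 0 1 0 1 0) (.next (X 0 4 0 1 0 1 0 0 0)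 (.next (X 0 10 0 1 0 1 0 0 0) .done)))))) (.next (X 0 6 0 1 0 1 0 0 0) .done)))))) (.next (X 0 1 3 33 0 0 10 8 0) (.next (X 0 4 6 63 0 16 0 46 0) (.next (X 0 7 0 3 0 0 2 0 0) .done))))))

def fill2_28 : Bt :=
  (.pick 9 (.next (X 0 3 0 3 0 0 2 0 0) (.next (.pick 4 (.next (X 0 1 2 1 0 1 0 1 0) (.next (X 0 2 0 1 0 1 0 0 0) (.next (.pick 0 (.next (X 0 6 7 0 3 28 0 36 0) (.next (X 0 7 8 0 3 34 0 42 0) (.next (X 0 3 8 24 0 15 0 8 0) (.next (X 0 1 4 1 0 1 0 1 0) (.next (X 0 9 0 1 0 1 0 0 0) .done)))))) (.next (.pick 0 (.next (X 0 2 6 1 0 0 1 2 0) (.next (X 0 1 3 2 0 1 0 0 1) (.next (X 0 3 4 1 0 1 0 1 0) (.next (X 0 4 0 1 0 1 0 0 0) (.next (X 0 10 0 1 0 1 0 0 0) .done)))))) (.next (X 0 6 0 1 0 1 0 0 0) .done)))))) (.next (X 0 1 3 27 0 0 12 8 0) (.next (X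 0 3 4 9 0 0 15 8 0) (.next (X 0 4 5 9 0 63 0 0 8) .done))))))

def fill2 : List Bt :=
  [fill2_0, fill2_1, fill2_2, fill2_3, fill2_4, fill2_5, fill2_6, fill2_7, fill2_8, fill2_9, fill2_10, fill2_11, fill2_12, fill2_13, fill2_14, fill2_15, fill2_16, fill2_17, fill2_18, fill2_19, fill2_20, fill2_21, fill2_22, fill2_23, fill2_24, fill2_25, fill2_26, fill2_27, fill2_28]

theorem k1 : (D1.all fun d => d.U.isTwo) = true := by decide +kernel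
theorem k2 : (D2.all fun d => d.U.isTwo) = true := by decide +kernel
theorem k3 : pairChk (([tP] ++ L1) ++ L2) pc = true := by decide +kernel
theorem k4 : touchChk [tP] L1 tc1 = true := by decide +kernel
theorem k5 : touchChk ([tP] ++ L1) L2 tc2 = true := by decide +kernel
theorem k6 : starChk (P 0 8 9 0) Cs1 [tP] L1 in1 out1 cov1 fill1 = true := by decide +kernel
theorem k7 : starChk (P 0 8 9 0) Cs2 ([tP] ++ L1) L2 in2 out2 cov2 fill2 = true := by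
  decide +kernel

theorem two (hP : IsCompact P0) : Surroundable P0 2 :=
  surroundable_two hP (isCopy_of_places k1) (isCopy_of_places k2) (pairChk_sound k3)
    (touchChk_sound k4) (touchChk_sound k5) (starChk_sound k6) (starChk_sound k7)

end Pool.Agent.Lib.MP_270077_co.LowerData
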