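import Pool.Agent.Lib.MP_270077_co.Forms

/-!
A verified branching search for surroundings of the pentagon.
-/

namespace Pool.Agent.Lib.MP_270077_co

open Set Filter Topology Complex
open scoped ComplexConjugate

/-- Refutation trees. -/
inductive Tr
  | dead (i : Nat) (x y : Int) (d : Nat) : Tr
  | node (p U : Pt) (iT i0 : Nat) (r2 : Bool) (iB : Nat) (W w : Pt)
      (c0 c1 c2 c3 c4 c5 c6 c7 c8 c9 : Tr) : Tr

def strictAt (T : List Form) (x y : Int) (d : Nat) : Bool :=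
  T.all fun f => (((Q3.smul x f.A).add (Q3.smul y f.B)).add (Q3.smul (Int.ofNat d) f.C)).pos

theorem strictAt_sound {T : List Form} {x y : Int} {d : Nat} (hd : 0 < d)
    (h : strictAt T x y d = true) : (⟨x / d, y / d⟩ : ℂ) ∈ interior (sem T) := by
  apply mem_interior_sem
  intro f hf
  have h1 := Q3.pos_sound (List.all_eq_true.1 h f hf)
  simp only [Q3.ev_add, Q3.ev_smul, Int.ofNat_eq_natCast, Int.cast_natCast] at h1
  have hd' : (0 : ℝ) < d := by exact_mod_cast hd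
  have : f.ev ⟨x / d, y / d⟩ = (x * f.A.ev + y * f.B.ev + d * f.C.ev) / d := by
    simp only [Form.ev]; field_simp
  rw [this]
  positivity

def ruleOK (K : List (Nat × List Form)) (T : List Form) (p U : Pt) (r2 : Bool) (iB : Nat)
    (W w : Pt) : Bool :=
  (w.mul U.cj).y.neg.pos &&
  bif r2 then
    W.isTwo && bgerm T p W (W.mul ⟨⟨0, 0⟩, ⟨1, 0⟩⟩) && sgerm T p (W.mul ⟨⟨1, 0⟩, ⟨-1, 0⟩⟩) &&
      (w.mul W.cj).x.pos && (w.mul W.cj).y.pos && (W.mul U.cj).y.pos
  else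
    match K[iB]? with
    | some B => sgerm B.2 p w && ngerm B.2 p U
    | none => false

def chk : List (Nat × List Form) → Pt → Pt → Tr → Bool
  | K, p, U, .dead i x y d =>
    match K, K[i]? with
    | Q :: _, some B => Nat.blt 0 d && strictAt Q.2 x y d && strictAt B.2 x y d && ngerm B.2 p U
    | _, _ => false
  | K, _, _, .node p U iT i0 r2 iB W w c0 c1 c2 c3 c4 c5 c6 c7 c8 c9 =>
    match K[iT]?, K[i0]? with
    | some T, some T0 =>
      Nat.blt T0.1 3 && Nat.ble T.1 (T0.1 + 1) && U.isTwo && memB T0.2 p &&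
      bgerm T.2 p U (U.mul ⟨⟨0, 0⟩, ⟨-1, 0⟩⟩) && sgerm T.2 p (U.mul ⟨⟨1, 0⟩, ⟨1, 0⟩⟩) &&
      ruleOK K T.2 p U r2 iB W w &&
      chk ((T0.1 + 1, cand p U 0 true) :: K) p U c0 &&
      chk ((T0.1 + 1, cand p U 0 false) :: K) p U c1 &&
      chk ((T0.1 + 1, cand p U 1 true) :: K) p U c2 &&
      chk ((T0.1 + 1, cand p U 1 false) :: K) p U c3 &&
      chk ((T0.1 + 1, cand p U 2 true) :: K) p U c4 &&
      chk ((T0.1 + 1, cand p U 2 false) :: K) p U c5 &&
      chk ((T0.1 + 1, cand p U 3 true) :: K) p U c6 &&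
      chk ((T0.1 + 1, cand p U 3 false) :: K) p U c7 &&
      chk ((T0.1 + 1, cand p U 4 true) :: K) p U c8 &&
      chk ((T0.1 + 1, cand p U 4 false) :: K) p U c9
    | _, _ => false

/-- Three nested families, each covering a neighbourhood of the previous one. -/
structure Nest (F : ℕ → Set (Set ℂ)) : Prop where
  mono : ∀ j k, j ≤ k → F j ⊆ F k
  fam : ∀ k, k ≤ 3 → Family (F k)
  sur : ∀ k, k < 3 → ⋃₀ F k ⊆ interior (⋃₀ F (k + 1))

/-- The known tiles belong to the families. -/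
def Known (F : ℕ → Set (Set ℂ)) (K : List (Nat × List Form)) : Prop :=
  ∀ x ∈ K, x.1 ≤ 3 ∧ sem x.2 ∈ F x.1

theorem Germ.half {S : Set ℂ} {p w : ℂ} (hg : Germ S p w) : Germ S p (w / 2) := by
  have := hg.smul (c := 1 / 2) (by norm_num)
  convert this using 1
  push_cast; ring

theorem Germ.double {S : Set ℂ} {p w : ℂ} (hg : Germ S p (w / 2)) : Germ S p w := by
  have := hg.smul (c := 2) (by norm_num)
  convert this using 1
  push_cast; ring

theorem im_conj_half (a b : ℂ) : (a * conj (b / 2)).im = (a * conj b).im / 2 := by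
  simp [map_ofNat]; ring

theorem re_conj_half (a b : ℂ) : (a * conj (b / 2)).re = (a * conj b).re / 2 := by
  simp [map_ofNat]; ring

theorem node_sound {F : ℕ → Set (Set ℂ)} (hF : Nest F) {K : List (Nat × List Form)}
    (hK : Known F K) {T T0 : Nat × List Form} (hT : T ∈ K) (hT0 : T0 ∈ K) {p U : Pt} {r2 : Bool}
    {iB : Nat} {W w : Pt} (h1 : T0.1 < 3) (h2 : T.1 ≤ T0.1 + 1) (h3 : U.isTwo = true)
    (h4 : memB T0.2 p = true) (h5 : bgerm T.2 p U (U.mul ⟨⟨0, 0⟩, ⟨-1, 0⟩⟩) = true)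
    (h6 : sgerm T.2 p (U.mul ⟨⟨1, 0⟩, ⟨1, 0⟩⟩) = true)
    (h7 : ruleOK K T.2 p U r2 iB W w = true) :
    ∃ i b, sem (cand p U i b) ∈ F (T0.1 + 1) ∧ Germ (sem (cand p U i b)) p.ev U.ev := by
  have hu := Pt.isTwo_sound h3
  have hfam := hF.fam (T0.1 + 1) h1
  have hp : p.ev ∈ interior (⋃₀ F (T0.1 + 1)) :=
    hF.sur _ h1 ⟨_, (hK T0 hT0).2, memB_sound h4⟩
  have hTF : sem T.2 ∈ F (T0.1 + 1) := hF.mono _ _ h2 (hK T hT).2
  have hq : Germ (interior (sem T.2)) p.ev (U.ev / 2 * (1 + (1 : ℝ) * I)) := by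
    have := (sgerm_sound h6).half
    convert this using 1
    have e1 : (Pt.mk ⟨1, 0⟩ ⟨1, 0⟩).ev = 1 + I := by apply Complex.ext <;> simp [Q3.ev]
    rw [Pt.ev_mul, e1]; push_cast; ring
  obtain ⟨Q, hQ, -, hQg, hhalf, -, hcase⟩ :=
    hfam.neighbour hu hp hTF (bgerm_sound h5).half (Or.inl rfl) hq
  rcases hcase with hflat | hcon | ⟨i, hi | hi⟩
  · exfalso
    simp only [ruleOK, Bool.and_eq_true] at h7
    have hw : (w.ev * conj (U.ev / 2)).im < 0 := by
      have := Q3.pos_sound h7.1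
      rw [Q3.ev_neg, ← Pt.ev_im, Pt.ev_mul, Pt.ev_cj] at this
      rw [im_conj_half]; linarith
    have hQw : Germ (interior Q) p.ev w.ev := by
      have := hflat (w.ev * conj (U.ev / 2)) (by linarith)
      convert this using 1
      linear_combination (-w.ev) * hu
    cases r2
    · have h8 := h7.2
      simp only [cond_false] at h8
      split at h8
      · rename_i B hB
        simp only [Bool.and_eq_true] at h8
        have hBK := hK B (List.mem_of_getElem? hB)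
        have : Q = sem B.2 := (hF.fam 3 le_rfl).eq_of_germ (hF.mono _ _ h1 hQ)
          (hF.mono _ _ hBK.1 hBK.2) hQw (sgerm_sound h8.1)
        exact ngerm_sound h8.2 (this ▸ hQg.double)
      · exact absurd h8 (by simp)
    · have h8 := h7.2
      simp only [cond_true, Bool.and_eq_true] at h8
      obtain ⟨⟨⟨⟨⟨a1, a2⟩, a3⟩, a4⟩, a5⟩, a6⟩ := h8
      have hv := Pt.isTwo_sound a1
      have hq' : Germ (interior (sem T.2)) p.ev (W.ev / 2 * (1 + (-1 : ℝ) * I)) := by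
        have := (sgerm_sound a3).half
        convert this using 1
        have e1 : (Pt.mk ⟨1, 0⟩ ⟨-1, 0⟩).ev = 1 - I := by apply Complex.ext <;> simp [Q3.ev]
        rw [Pt.ev_mul, e1]; push_cast; ring
      obtain ⟨Q', hQ', -, hQg', -, hquad, -⟩ :=
        hfam.neighbour hv hp hTF (bgerm_sound a2).half (Or.inr rfl) hq'
      have b4 := Q3.pos_sound a4
      have b5 := Q3.pos_sound a5
      have b6 := Q3.pos_sound a6
      rw [← Pt.ev_re, Pt.ev_mul, Pt.ev_cj] at b4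
      rw [← Pt.ev_im, Pt.ev_mul, Pt.ev_cj] at b5 b6
      have hQw' : Germ (interior Q') p.ev w.ev := by
        have := hquad (w.ev * conj (W.ev / 2)) (by rw [re_conj_half]; linarith)
          (by rw [im_conj_half]; linarith)
        convert this using 1
        linear_combination (-w.ev) * hv
      have hQQ : Q = Q' := hfam.eq_of_germ hQ hQ' hQw hQw'
      obtain ⟨s, hs1, hs2⟩ := (hQg'.double.and self_mem_nhdsWithin).exists
      have hs2 : 0 < s := hs2
      have := hhalf _ (hQQ ▸ hs1)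
      rw [add_sub_cancel_left, mul_assoc, im_ofReal_mul, im_conj_half] at this
      have := mul_pos hs2 b6
      linarith
  · norm_num at hcon
  · refine ⟨i, true, ?_, ?_⟩
    · rw [sem_cand_true, ← hi]; exact hQ
    · rw [sem_cand_true, ← hi]; exact hQg.double
  · refine ⟨i, false, ?_, ?_⟩
    · rw [sem_cand_false, ← hi]; exact hQ
    · rw [sem_cand_false, ← hi]; exact hQg.double

theorem chk_sound {F : ℕ → Set (Set ℂ)} (hF : Nest F) (t : Tr) :
    ∀ (K : List (Nat × List Form)) (p U : Pt), chk K p U t = true → Known F K →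
      (∀ Q ∈ K.head?, Germ (sem Q.2) p.ev U.ev) → False := by
  induction t with
  | dead i x y d =>
    intro K p U hc hK hg
    unfold chk at hc
    split at hc
    · rename_i Q K' B hB
      simp only [Bool.and_eq_true] at hc
      obtain ⟨⟨⟨a1, a2⟩, a3⟩, a4⟩ := hc
      have hd : 0 < d := by simpa [Nat.blt_eq] using a1
      have hQ := hK Q List.mem_cons_self
      have hBK := hK B (List.mem_of_getElem? hB)
      have hne : sem Q.2 ≠ sem B.2 := fun he => ngerm_sound a4 (he ▸ hg Q rfl)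
      exact Set.disjoint_left.1 ((hF.fam 3 le_rfl).disj _ (hF.mono _ _ hQ.1 hQ.2) _
        (hF.mono _ _ hBK.1 hBK.2) hne) (strictAt_sound hd a2) (strictAt_sound hd a3)
    · exact absurd hc (by simp)
  | node p U iT i0 r2 iB W w c0 c1 c2 c3 c4 c5 c6 c7 c8 c9 i0' i1 i2 i3 i4 i5 i6 i7 i8 i9 =>
    intro K p' U' hc hK _
    unfold chk at hc
    split at hc
    · rename_i T T0 hT hT0
      simp only [Bool.and_eq_true] at hc
      obtain ⟨⟨⟨⟨⟨⟨⟨⟨⟨⟨⟨⟨⟨⟨⟨⟨a1, a2⟩, a3⟩, a4⟩, a5⟩, a6⟩, a7⟩, b0⟩, b1⟩, b2⟩, b3⟩, b4⟩, b5⟩, b6⟩,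
        b7⟩, b8⟩, b9⟩ := hc
      have a1' : T0.1 < 3 := by simpa [Nat.blt_eq] using a1
      obtain ⟨i, b, hm, hg⟩ := node_sound hF hK (List.mem_of_getElem? hT)
        (List.mem_of_getElem? hT0) a1' (Nat.le_of_ble_eq_true a2) a3 a4 a5 a6 a7
      have hK' : Known F ((T0.1 + 1, cand p U i b) :: K) := by
        intro x hx
        rcases List.mem_cons.1 hx with rfl | hx
        · exact ⟨a1', hm⟩
        · exact hK x hx
      have hg' : ∀ Q ∈ ((T0.1 + 1, cand p U i b) :: K).head?, Germ (sem Q.2) p.ev U.ev := by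
        intro Q hQ
        simp only [List.head?_cons, Option.mem_def, Option.some.injEq] at hQ
        rw [← hQ]
        exact hg
      fin_cases i <;> cases b
      · exact i1 _ _ _ b1 hK' hg'
      · exact i0' _ _ _ b0 hK' hg'
      · exact i3 _ _ _ b3 hK' hg'
      · exact i2 _ _ _ b2 hK' hg'
      · exact i5 _ _ _ b5 hK' hg'
      · exact i4 _ _ _ b4 hK' hg'
      · exact i7 _ _ _ b7 hK' hg'
      · exact i6 _ _ _ b6 hK' hg'
      · exact i9 _ _ _ b9 hK' hg'
      · exact i8 _ _ _ b8 hK' hg'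
    · exact absurd hc (by simp)

/-- All copies used up to zone `k`. -/
def upTo (Z : ℕ → Set (Set ℂ)) (k : ℕ) : Set (Set ℂ) := {Q | ∃ j ≤ k, Q ∈ Z j}

theorem patch_eq (Z : ℕ → Set (Set ℂ)) (k : ℕ) : patch Z k = ⋃₀ upTo Z k := by
  ext z
  simp only [patch, upTo, mem_iUnion, mem_sUnion, mem_ofPred_eq]
  constructor
  · rintro ⟨j, hj, Q, hQ, hz⟩
    exact ⟨Q, ⟨j, hj, hQ⟩, hz⟩
  · rintro ⟨Q, ⟨j, hj, hQ⟩, hz⟩
    exact ⟨j, hj, Q, hQ, hz⟩

theorem nest_of_surroundable (hs : Surroundable P0 3) : ∃ F, Nest F ∧ P0 ∈ F 0 := by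
  obtain ⟨Z, h0, hZ⟩ := hs
  refine ⟨upTo Z, ⟨?_, ?_, ?_⟩, 0, le_rfl, by rw [h0]; rfl⟩
  · rintro j k hjk Q ⟨m, hm, hQ⟩
    exact ⟨m, hm.trans hjk, hQ⟩
  · intro k hk
    refine ⟨?_, ?_, ?_⟩
    · have : upTo Z k = ⋃ j ∈ Iic k, Z j := by ext; simp [upTo]
      rw [this]
      refine (finite_Iic k).biUnion fun j hj => ?_
      rcases j with _ | j
      · rw [h0]; exact finite_singleton _
      · exact (hZ j (by have : j + 1 ≤ k := hj; omega)).1
    · rintro Q ⟨j, hj, hQ⟩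
      rcases j with _ | j
      · rw [h0] at hQ
        rw [hQ]
        exact ⟨IsometryEquiv.refl ℂ, by ext; simp [IsometryEquiv.refl]⟩
      · exact (hZ j (by omega)).2.1 Q hQ
    · rintro Q ⟨j, hj, hQ⟩ Q' ⟨j', hj', hQ'⟩ hne
      rcases lt_trichotomy j j' with hlt | rfl | hlt
      · obtain ⟨m, rfl⟩ : ∃ m, j' = m + 1 := ⟨j' - 1, by omega⟩
        exact ((hZ m (by omega)).2.2.2.1 Q' hQ' j (by omega) Q hQ).symm
      · rcases j with _ | j
        · rw [h0] at hQ hQ'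
          exact absurd (hQ.trans hQ'.symm) hne
        · exact (hZ j (by omega)).2.2.1 Q hQ Q' hQ' hne
      · obtain ⟨m, rfl⟩ : ∃ m, j = m + 1 := ⟨j - 1, by omega⟩
        exact (hZ m (by omega)).2.2.2.1 Q hQ j' (by omega) Q' hQ'
  · intro k hk
    rw [← patch_eq, ← patch_eq]
    exact (hZ k hk).2.2.2.2.2.2

theorem not_surroundable_of_chk (t : Tr)
    (ht : chk [(0, tP)] ⟨⟨0, 0⟩, ⟨0, 0⟩⟩ ⟨⟨0, 0⟩, ⟨0, 0⟩⟩ t = true) : ¬ Surroundable P0 3 := by
  intro hs
  obtain ⟨F, hF, h0⟩ := nest_of_surroundable hs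
  refine chk_sound hF t _ _ _ ht ?_ ?_
  · intro x hx
    rw [List.mem_singleton] at hx
    rw [hx, sem_tP]
    exact ⟨by norm_num, h0⟩
  · intro Q hQ
    simp only [List.head?_cons, Option.mem_def, Option.some.injEq] at hQ
    rw [← hQ, sem_tP]
    have h2 : (Pt.mk ⟨0, 0⟩ ⟨0, 0⟩).ev = V 0 := Vq_ev 0
    have h3 : (V 0 : ℂ) = 0 := rfl
    refine Filter.Eventually.of_forall fun s => ?_
    rw [h2]
    nth_rewrite 2 [h3]
    rw [mul_zero, add_zero]
    exact h_V_nonneg 0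

end Pool.Agent.Lib.MP_270077_co
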