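import Pool.Agent.Lib.MP_270077_co.Upper

/-!
The refutation tree for a third zone.
-/

namespace Pool.Agent.Lib.MP_270077_co.UpperData

open Pool.Agent.Lib.MP_270077_co

def P (a b c d : Int) : Pt := ⟨⟨a, b⟩, ⟨c, d⟩⟩
def D := Tr.dead
def N := Tr.node

def u0 : Tr :=
  (N (P 0 0 0 0) (P (-1) 0 0 (-1)) 4 5 false 5 (P 2 0 0 0) (P 1 0 2 1)
  (N (P 0 (-2) 6 0) (P 0 (-1) (-1) 0) 0 6 false 3 (P 2 0 0 0) (P 1 1 1 1)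
  (D 4 (-5) 10 1) (D 4 (-4) 11 1) (D 4 (-4) 10 1) (N (P (-9) (-2) 6 (-3)) (P 0 (-1) (-1) 0) 1 0 false 0 (P 2 0 0 0) (P 1 1 1 1)
  (D 1 (-15) 4 1) (D 1 (-17) 6 1) (D 1 (-16) 8 1) (D 1 (-18) 6 1) (D 1 (-18) 6 1) (D 1 (-18) 8 1) (D 1 (-18) 6 1) (D 1 (-16) 4 1) (D 1 (-19) 8 1) (D 1 (-17) 8 1)) (N (P 0 (-7) 1 0) (P 0 (-1) (-1) 0) 1 0 false 0 (P 2 0 0 0) (P 1 1 1 1)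
  (D 1 (-16) 6 1) (D 1 (-18) 8 1) (D 1 (-16) 11 1) (D 1 (-20) 7 1) (D 1 (-20) 8 1) (D 1 (-17) 10 1) (D 1 (-18) 8 1) (D 1 (-17) 5 1) (D 1 (-20) 10 1) (D 1 (-18) 11 1)) (D 4 (-4) 10 1) (D 4 (-4) 11 1) (N (P 0 6 (-14) 0) (P 0 1 1 0) 6 6 true 0 (P 0 (-1) 1 0) (P (-1) (-1) (-1) (-1))
  (D 6 24 (-10) 1) (D 6 24 (-10) 1) (D 6 20 (-10) 1) (D 6 21 (-10) 1) (D 6 21 (-11) 1) (N (P 0 14 (-18) 0) (P (-1) 0 0 1) 0 0 true 0 (P (-1) 0 0 (-1)) (P 1 1 (-1) (-1))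
  (D 7 23 (-5) 1) (D 7 23 (-7) 1) (D 7 24 (-9) 1) (D 7 24 (-5) 1) (D 7 25 (-5) 1) (D 7 24 (-9) 1) (D 7 23 (-7) 1) (D 7 23 (-5) 1) (D 7 25 (-8) 1) (D 7 25 (-11) 1)) (D 6 23 (-10) 1) (D 6 24 (-9) 1) (N (P 18 6 (-14) (-2)) (P 0 (-1) 1 0) 0 0 true 0 (P 0 0 (-2) 0) (P 2 1 (-1) 0)
  (D 7 23 (-5) 1) (D 7 22 (-7) 1) (D 7 24 (-8) 1) (D 7 23 (-4) 1) (D 7 24 (-4) 1) (D 7 24 (-8) 1) (D 7 22 (-7) 1) (D 7 22 (-5) 1) (D 7 25 (-5) 1) (D 7 26 (-10) 1)) (N (P 6 6 (-14) 2) (P 0 1 1 0) 7 7 false 0 (P 2 0 0 0) (P (-1) (-1) (-1) (-1))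
  (D 7 24 (-9) 1) (D 7 24 (-9) 1) (D 1 20 (-22) 1) (D 7 24 (-9) 1) (D 7 24 (-9) 1) (D 1 20 (-22) 1) (D 7 24 (-9) 1) (D 7 24 (-9) 1) (D 7 24 (-10) 1) (D 1 20 (-22) 1))) (N (P (-6) (-2) 6 (-2)) (P 0 (-1) (-1) 0) 1 0 false 0 (P 2 0 0 0) (P 1 1 1 1)
  (D 1 (-12) 6 1) (D 1 (-14) 8 1) (D 1 (-12) 11 1) (D 1 (-15) 7 1) (D 1 (-15) 8 1) (D 1 (-14) 11 1) (D 1 (-15) 8 1) (D 1 (-13) 6 1) (D 1 (-16) 9 1) (D 1 (-14) 13 1)) (D 4 (-4) 10 1)) (N (P 0 (-4) 12 0) (P 1 0 0 (-1)) 3 3 true 0 (P 1 0 0 1) (P (-1) (-1) 1 1)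
  (D 1 (-8) 0 1) (D 1 (-7) 1 1) (D 1 (-9) 3 1) (D 1 (-9) 0 1) (D 1 (-9) 0 1) (D 1 (-9) 3 1) (D 1 (-7) 1 1) (D 1 (-7) 0 1) (D 1 (-9) 1 1) (D 1 (-9) 5 1)) (N (P 0 6 (-14) 0) (P 0 1 1 0) 5 5 true 0 (P 0 (-1) 1 0) (P (-1) (-1) (-1) (-1))
  (D 5 24 (-10) 1) (D 5 24 (-10) 1) (D 5 20 (-10) 1) (D 5 21 (-10) 1) (D 5 21 (-11) 1) (N (P 0 14 (-18) 0) (P (-1) 0 0 1) 0 0 true 0 (P (-1) 0 0 (-1)) (P 1 1 (-1) (-1))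
  (D 6 23 (-5) 1) (D 6 23 (-7) 1) (D 6 24 (-9) 1) (D 6 24 (-5) 1) (D 6 25 (-5) 1) (D 6 24 (-9) 1) (D 6 23 (-7) 1) (D 6 23 (-5) 1) (D 6 25 (-8) 1) (D 6 25 (-11) 1)) (D 5 23 (-10) 1) (D 5 24 (-9) 1) (N (P 18 6 (-14) (-2)) (P 0 (-1) 1 0) 0 0 true 0 (P 0 0 (-2) 0) (P 2 1 (-1) 0)
  (D 6 23 (-5) 1) (D 6 22 (-7) 1) (D 6 24 (-8) 1) (D 6 23 (-4) 1) (D 6 24 (-4) 1) (D 6 24 (-8) 1) (D 6 22 (-7) 1) (D 6 22 (-5) 1) (D 6 25 (-5) 1) (D 6 26 (-10) 1)) (N (P 6 6 (-14) 2) (P 0 1 1 0) 6 6 false 0 (P 2 0 0 0) (P (-1) (-1) (-1) (-1))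
  (D 6 24 (-9) 1) (D 6 24 (-9) 1) (D 1 20 (-22) 1) (D 6 24 (-9) 1) (D 6 24 (-9) 1) (D 1 20 (-22) 1) (D 6 24 (-9) 1) (D 6 24 (-9) 1) (D 6 24 (-10) 1) (D 1 20 (-22) 1))) (N (P 0 (-3) (-9) 0) (P 1 0 0 1) 0 0 true 0 (P (-2) 0 0 0) (P (-1) 0 (-2) (-1))
  (D 6 5 (-5) 1) (D 6 3 (-5) 1) (D 6 3 (-6) 1) (D 6 7 (-5) 1) (D 6 8 (-5) 1) (D 6 3 (-6) 1) (D 6 4 (-6) 1) (D 6 5 (-4) 1) (D 6 7 (-7) 1) (D 6 6 (-9) 1)) (N (P (-5) 0 0 (-5)) (P 1 0 0 1) 0 0 true 0 (P (-2) 0 0 0) (P (-1) 0 (-2) (-1))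
  (D 6 5 (-5) 1) (D 6 5 (-6) 1) (D 6 3 (-5) 1) (D 6 7 (-5) 1) (D 6 8 (-5) 1) (D 6 4 (-6) 1) (D 6 5 (-6) 1) (D 6 5 (-4) 1) (D 6 7 (-7) 1) (D 6 6 (-9) 1)) (N (P 0 (-4) 12 0) (P (-1) 0 0 1) 0 0 false 3 (P 2 0 0 0) (P 2 1 1 0)
  (D 4 (-2) 16 1) (D 4 0 18 1) (D 4 3 16 1) (D 4 (-1) 19 1) (D 4 (-1) 19 1) (D 4 3 17 1) (D 4 0 19 1) (D 4 (-3) 17 1) (D 4 2 20 1) (D 4 5 19 1)) (N (P 0 (-4) 12 0) (P 1 0 0 (-1)) 3 3 true 0 (P 1 0 0 1) (P (-1) (-1) 1 1)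
  (D 1 (-8) 0 1) (D 1 (-7) 1 1) (D 1 (-9) 3 1) (D 1 (-9) (-1) 1) (D 1 (-9) (-1) 1) (D 1 (-9) 3 1) (D 1 (-7) 1 1) (D 1 (-7) 0 1) (D 1 (-9) 1 1) (D 1 (-9) 5 1)) (N (P 0 0 0 0) (P 0 (-1) 1 0) 0 6 false 5 (P 2 0 0 0) (P 2 1 (-1) 0)
  (D 4 (-3) 12 1) (D 7 3 6 1) (D 7 7 9 1) (D 4 (-2) 12 1) (D 4 (-2) 12 1) (D 7 5 7 1) (D 7 3 6 1) (D 4 (-3) 11 1) (D 4 0 14 1) (D 7 6 8 1)) (N (P 0 0 0 0) (P 0 (-1) 1 0) 0 6 false 5 (P 2 0 0 0) (P 2 1 (-1) 0)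
  (D 4 (-3) 12 1) (D 7 3 6 1) (D 7 7 9 1) (D 4 (-2) 12 1) (D 4 (-2) 12 1) (D 7 5 7 1) (D 7 3 6 1) (D 4 (-3) 11 1) (D 4 0 14 1) (D 7 6 8 1)) (N (P 0 6 (-14) 0) (P 0 1 1 0) 5 5 true 0 (P 0 (-1) 1 0) (P (-1) (-1) (-1) (-1))
  (D 5 24 (-10) 1) (D 5 24 (-10) 1) (D 5 20 (-10) 1) (D 5 21 (-10) 1) (D 5 21 (-11) 1) (N (P 0 14 (-18) 0) (P (-1) 0 0 1) 0 0 true 0 (P (-1) 0 0 (-1)) (P 1 1 (-1) (-1))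
  (D 6 23 (-5) 1) (D 6 23 (-7) 1) (D 6 24 (-9) 1) (D 6 24 (-5) 1) (D 6 25 (-5) 1) (D 6 24 (-9) 1) (D 6 23 (-7) 1) (D 6 23 (-5) 1) (D 6 25 (-8) 1) (D 6 25 (-11) 1)) (D 5 23 (-10) 1) (D 5 24 (-9) 1) (N (P 18 6 (-14) (-2)) (P 0 (-1) 1 0) 0 0 true 0 (P 0 0 (-2) 0) (P 2 1 (-1) 0)
  (D 6 23 (-5) 1) (D 6 22 (-7) 1) (D 6 24 (-8) 1) (D 6 23 (-4) 1) (D 6 24 (-4) 1) (D 6 24 (-8) 1) (D 6 22 (-7) 1) (D 6 22 (-5) 1) (D 6 25 (-5) 1) (D 6 26 (-10) 1)) (N (P 6 6 (-14) 2) (P 0 1 1 0) 6 6 false 0 (P 2 0 0 0) (P (-1) (-1) (-1) (-1))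
  (D 6 24 (-9) 1) (D 6 24 (-9) 1) (D 1 20 (-22) 1) (D 6 24 (-9) 1) (D 6 24 (-9) 1) (D 1 20 (-22) 1) (D 6 24 (-9) 1) (D 6 24 (-9) 1) (D 6 24 (-10) 1) (D 1 20 (-22) 1))))

def u1 : Tr :=
  (N (P 0 6 14 0) (P 0 0 2 0) 0 3 false 3 (P 2 0 0 0) (P 1 0 (-2) (-1))
  (N (P 0 6 14 8) (P 0 0 (-2) 0) 0 0 true 0 (P 0 1 1 0) (P (-1) 0 2 1)
  (D 2 4 18 1) (D 2 5 19 1) (D 2 4 21 1) (D 2 3 18 1) (D 2 2 18 1) (D 2 4 21 1) (D 2 5 18 1) (D 2 4 17 1) (D 2 3 20 1) (D 2 5 22 1)) (N (P 0 6 14 8) (P 0 0 (-2) 0) 0 0 true 0 (P 0 1 1 0) (P (-1) 0 2 1)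
  (D 2 4 18 1) (D 2 5 19 1) (D 2 4 21 1) (D 2 3 18 1) (D 2 2 18 1) (D 2 4 21 1) (D 2 5 18 1) (D 2 4 17 1) (D 2 3 20 1) (D 2 5 22 1)) (N (P 12 6 14 (-4)) (P 0 1 1 0) 0 0 false 2 (P 2 0 0 0) (P (-1) (-1) (-1) (-1))
  (D 3 25 3 1) (D 3 25 1 1) (D 3 25 (-1) 1) (D 3 26 2 1) (D 3 26 2 1) (D 3 25 (-2) 1) (D 3 25 1 1) (D 3 26 3 1) (D 3 26 3 1) (D 3 25 (-1) 1)) (N (P 0 6 14 6) (P 0 0 (-2) 0) 0 0 true 0 (P 0 1 1 0) (P (-1) 0 2 1)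
  (D 2 4 17 1) (D 2 4 18 1) (D 2 4 19 1) (D 2 1 15 1) (D 2 2 16 1) (D 2 4 19 1) (D 2 4 18 1) (D 2 4 16 1) (D 2 3 18 1) (D 2 4 21 1)) (N (P 0 6 14 0) (P 2 0 0 0) 0 4 false 1 (P 2 0 0 0) (P (-2) (-1) (-1) 0)
  (D 5 13 8 1) (D 5 12 6 1) (D 5 11 4 1) (D 3 22 3 1) (D 3 23 2 1) (D 5 10 5 1) (D 5 12 7 1) (D 3 23 4 1) (D 3 19 1 1) (D 5 11 5 1)) (N (P 0 16 4 0) (P 0 (-1) 1 0) 2 2 true 0 (P 0 0 (-2) 0) (P 2 1 (-1) 0)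
  (D 1 21 14 1) (D 1 22 13 1) (D 1 24 13 1) (D 1 22 16 1) (D 1 22 15 1) (D 1 24 11 1) (D 1 21 13 1) (D 1 20 15 1) (D 1 24 14 1) (D 1 25 10 1)) (N (P 0 11 9 0) (P 1 0 0 1) 0 4 false 2 (P 2 0 0 0) (P (-1) 0 (-2) (-1))
  (D 3 23 6 1) (D 3 25 4 1) (D 3 25 2 1) u0 (N (P 5 11 9 5) (P 1 0 0 1) 1 0 false 0 (P 2 0 0 0) (P (-1) 0 (-2) (-1))
  (D 1 30 16 1) (D 1 32 14 1) (D 1 32 11 1) (D 1 34 16 1) (D 1 34 16 1) (D 1 31 14 1) (D 1 32 15 1) (D 1 30 17 1) (D 1 36 14 1) (D 1 34 12 1)) (D 3 25 1 1) (D 3 25 4 1) (N (P 6 11 9 (-2)) (P 0 1 1 0) 0 0 false 3 (P 2 0 0 0) (P (-1) (-1) (-1) (-1))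
  (D 4 26 2 1) (D 4 26 0 1) (D 4 26 (-2) 1) (D 4 27 3 1) (D 4 27 3 1) (D 4 26 (-3) 1) (D 4 26 0 1) (D 4 27 3 1) (D 4 27 3 1) (D 4 26 (-2) 1)) (N (P 0 13 15 0) (P 1 0 0 1) 1 0 false 0 (P 2 0 0 0) (P (-1) 0 (-2) (-1))
  (D 1 27 14 1) (D 1 29 12 1) (D 1 31 9 1) (D 1 30 14 1) (D 1 30 14 1) (D 1 31 10 1) (D 1 30 13 1) (D 1 27 14 1) (D 1 32 12 1) (D 1 33 10 1)) (D 3 25 2 1)) (N (P 0 6 30 0) (P 0 0 (-2) 0) 0 0 true 0 (P 0 1 1 0) (P (-1) 0 2 1)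
  (D 2 4 19 1) (D 2 5 20 1) (D 2 4 22 1) (D 2 3 19 1) (D 2 2 19 1) (D 2 4 22 1) (D 2 5 20 1) (D 2 4 18 1) (D 2 3 21 1) (D 2 10 47 2)) (N (P 0 6 14 0) (P 2 0 0 0) 0 4 false 1 (P 2 0 0 0) (P (-2) (-1) (-1) 0)
  (D 5 13 8 1) (D 5 12 6 1) (D 5 11 4 1) (D 3 22 3 1) (D 3 23 2 1) (D 5 10 5 1) (D 5 12 7 1) (D 3 23 4 1) (D 3 19 1 1) (D 5 11 5 1)) (N (P 12 6 14 (-4)) (P 0 1 1 0) 0 0 false 2 (P 2 0 0 0) (P (-1) (-1) (-1) (-1))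
  (D 3 25 3 1) (D 3 25 1 1) (D 3 25 (-1) 1) (D 3 26 2 1) (D 3 26 2 1) (D 3 25 (-2) 1) (D 3 25 1 1) (D 3 26 3 1) (D 3 26 3 1) (D 3 25 (-1) 1)))

def u2 : Tr :=
  (N (P 0 6 14 0) (P 0 (-1) (-1) 0) 2 2 true 0 (P 0 1 (-1) 0) (P 1 1 1 1)
  (N (P (-12) 6 14 (-4)) (P 0 (-1) (-1) 0) 3 3 false 0 (P 2 0 0 0) (P 1 1 1 1)
  (D 1 (-5) 11 1) (D 1 (-5) 12 1) (D 1 (-4) 14 1) (D 1 (-6) 12 1) (D 1 (-6) 12 1) (D 1 (-4) 14 1) (D 1 (-5) 12 1) (D 1 (-6) 11 1) (D 1 (-5) 11 1) (D 1 (-4) 14 1)) (N (P (-12) 6 14 (-4)) (P 0 (-1) (-1) 0) 3 3 false 0 (P 2 0 0 0) (P 1 1 1 1)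
  (D 1 (-4) 11 1) (D 1 (-3) 12 1) (D 1 (-3) 11 1) (D 1 (-4) 10 1) (D 1 (-4) 10 1) (D 1 (-3) 11 1) (D 1 (-3) 12 1) (D 1 (-4) 10 1) (D 1 (-4) 10 1) (D 1 (-3) 11 1)) (N (P (-9) 6 14 (-3)) (P 0 (-1) (-1) 0) 3 3 false 0 (P 2 0 0 0) (P 1 1 1 1)
  (D 1 0 13 1) (D 1 (-1) 16 1) (D 1 0 18 1) (N (P (-18) 6 14 (-6)) (P 0 1 1 0) 0 0 true 0 (P 0 (-1) 1 0) (P (-1) (-1) (-1) (-1))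
  (D 5 5 4 1) (D 5 4 5 1) (D 5 2 3 1) (D 5 5 3 1) (D 5 5 3 1) (D 4 2 (-3) 1) (D 5 4 5 1) (D 5 6 5 1) (D 4 3 (-5) 1) (D 4 2 (-5) 1)) (N (P (-9) 1 9 (-3)) (P 0 1 1 0) 0 0 true 0 (P 0 (-1) 1 0) (P (-1) (-1) (-1) (-1))
  (D 5 5 4 1) (D 5 4 5 1) (D 5 2 3 1) (D 5 5 3 1) (D 5 5 3 1) (D 4 2 (-3) 1) (D 5 4 5 1) (D 5 6 5 1) (D 4 4 (-5) 1) (D 4 2 (-5) 1)) (D 1 0 19 1) (D 1 (-1) 16 1) (N (P (-9) 4 20 (-3)) (P (-2) 0 0 0) 0 0 false 1 (P 2 0 0 0) (P 2 1 1 0)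
  (D 2 (-1) 19 1) (D 2 0 20 1) (D 2 1 22 1) (D 2 (-3) 17 1) (D 2 (-3) 17 1) (D 2 1 23 1) (D 2 (-1) 20 1) (D 2 (-3) 17 1) (D 2 (-3) 17 1) (D 2 1 22 1)) (N (P (-15) 6 14 (-5)) (P 0 1 1 0) 0 0 true 0 (P 0 (-1) 1 0) (P (-1) (-1) (-1) (-1))
  (D 5 7 5 1) (D 5 5 5 1) (D 5 4 4 1) (D 5 6 4 1) (D 5 6 4 1) (D 5 4 4 1) (D 5 5 5 1) (D 5 7 6 1) (D 4 6 (-4) 1) (D 4 4 (-4) 1)) (D 1 0 18 1)) (N (P (-9) 6 14 (-3)) (P 0 (-1) (-1) 0) 3 3 false 0 (P 2 0 0 0) (P 1 1 1 1)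
  (D 1 (-2) 12 1) (D 1 (-3) 14 1) (D 1 (-3) 16 1) (D 1 (-4) 14 1) (D 1 (-4) 14 1) (D 1 (-4) 16 1) (D 1 (-4) 14 1) (D 1 (-2) 12 1) (D 1 (-5) 16 1) (D 1 (-3) 16 1)) (N (P 0 1 9 0) (P 0 (-1) (-1) 0) 3 3 false 0 (P 2 0 0 0) (P 1 1 1 1)
  (D 1 (-2) 14 1) (D 1 (-4) 16 1) (D 1 (-2) 19 1) (D 1 (-6) 15 1) (D 1 (-6) 16 1) (D 1 (-3) 18 1) (D 1 (-4) 16 1) (D 1 (-3) 13 1) (D 1 (-6) 18 1) (D 1 (-4) 19 1)) (N (P 0 1 9 0) (P 0 (-1) (-1) 0) 3 3 false 0 (P 2 0 0 0) (P 1 1 1 1)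
  (D 1 0 14 1) (D 1 (-1) 16 1) (D 1 0 18 1) (N (P (-9) 1 9 (-3)) (P 0 1 1 0) 0 0 true 0 (P 0 (-1) 1 0) (P (-1) (-1) (-1) (-1))
  (D 5 5 4 1) (D 5 4 5 1) (D 5 2 3 1) (D 5 5 3 1) (D 5 5 3 1) (D 4 2 (-3) 1) (D 5 4 5 1) (D 5 6 5 1) (D 4 4 (-5) 1) (D 4 2 (-5) 1)) (N (P 0 (-4) 4 0) (P 0 1 1 0) 0 0 true 0 (P 0 (-1) 1 0) (P (-1) (-1) (-1) (-1))
  (D 5 5 5 1) (D 5 4 5 1) (D 5 2 3 1) (D 5 7 3 1) (D 5 5 3 1) (D 4 1 (-4) 1) (D 5 4 5 1) (D 5 6 5 1) (D 4 4 (-5) 1) (D 4 2 (-5) 1)) (D 1 0 19 1) (D 1 (-1) 16 1) (N (P 0 (-1) 15 0) (P (-2) 0 0 0) 0 0 false 1 (P 2 0 0 0) (P 2 1 1 0)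
  (D 2 (-1) 19 1) (D 2 0 21 1) (D 2 1 22 1) (D 2 (-2) 18 1) (D 2 (-2) 18 1) (D 2 2 24 1) (D 2 0 20 1) (D 2 (-2) 18 1) (D 2 (-2) 18 1) (D 2 1 22 1)) (N (P (-6) 1 9 (-2)) (P 0 1 1 0) 0 0 true 0 (P 0 (-1) 1 0) (P (-1) (-1) (-1) (-1))
  (D 5 6 6 1) (D 5 5 6 1) (D 5 3 4 1) (D 5 5 5 1) (D 5 6 4 1) (D 5 4 4 1) (D 5 6 5 1) (D 5 8 6 1) (D 4 6 (-4) 1) (D 4 4 (-4) 1)) (D 1 0 18 1)) u1 (N (P 0 (-2) 6 0) (P 1 0 0 (-1)) 3 3 false 0 (P 2 0 0 0) (P (-1) (-1) 1 1)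
  (D 3 0 (-5) 1) (D 3 0 (-5) 1) (D 3 (-1) (-4) 1) (D 3 (-1) (-4) 1) (D 3 (-1) (-3) 1) (D 3 0 (-2) 1) (D 3 1 (-6) 1) (D 3 1 (-6) 1) (N (P 0 (-2) 6 0) (P 0 (-1) (-1) 0) 0 4 false 1 (P 2 0 0 0) (P 1 1 1 1)
  (D 2 (-7) 10 1) (D 2 (-6) 11 1) (D 2 (-6) 14 1) (D 2 (-8) 10 1) (D 2 (-8) 11 1) (D 2 (-6) 13 1) (D 2 (-6) 11 1) (D 2 (-8) 9 1) (D 2 (-7) 10 1) (D 2 (-6) 14 1)) (N (P 0 (-2) 6 0) (P (-2) 0 0 0) 0 4 false 1 (P 2 0 0 0) (P 1 1 1 1)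
  (D 2 (-6) 10 1) (D 2 (-5) 12 1) (D 2 (-3) 14 1) (D 2 (-6) 12 1) (D 2 (-6) 12 1) (D 2 (-3) 14 1) (D 2 (-5) 11 1) (D 2 (-6) 10 1) (D 2 (-6) 13 1) (D 2 (-4) 13 1))) (N (P (-6) 6 14 (-2)) (P 0 (-1) (-1) 0) 3 3 false 0 (P 2 0 0 0) (P 1 1 1 1)
  (D 1 1 14 1) (D 1 0 16 1) (D 1 (-1) 18 1) (D 1 (-1) 15 1) (D 1 (-1) 16 1) (D 1 0 19 1) (D 1 (-1) 16 1) (D 1 1 14 1) (D 1 (-2) 17 1) (D 1 (-1) 20 1)) (N (P (-6) 6 14 (-2)) (P 0 (-1) (-1) 0) 3 3 false 0 (P 2 0 0 0) (P 1 1 1 1)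
  (D 1 3 15 1) (D 1 2 17 1) (D 1 1 22 1) (N (P (-15) 6 14 (-5)) (P 0 1 1 0) 0 0 true 0 (P 0 (-1) 1 0) (P (-1) (-1) (-1) (-1))
  (D 5 7 5 1) (D 5 5 5 1) (D 5 4 4 1) (D 5 6 4 1) (D 5 6 4 1) (D 5 4 4 1) (D 5 5 5 1) (D 5 7 6 1) (D 4 6 (-4) 1) (D 4 4 (-4) 1)) (N (P (-6) 1 9 (-2)) (P 0 1 1 0) 0 0 true 0 (P 0 (-1) 1 0) (P (-1) (-1) (-1) (-1))
  (D 5 6 6 1) (D 5 5 6 1) (D 5 3 4 1) (D 5 5 5 1) (D 5 6 4 1) (D 5 4 4 1) (D 5 6 5 1) (D 5 8 6 1) (D 4 6 (-4) 1) (D 4 4 (-4) 1)) (D 1 1 22 1) (D 1 2 17 1) (N (P (-6) 4 20 (-2)) (P (-2) 0 0 0) 0 0 false 1 (P 2 0 0 0) (P 2 1 1 0)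
  (D 2 0 22 1) (D 2 1 24 1) (D 2 3 27 1) (D 2 (-1) 24 1) (D 2 (-1) 24 1) (D 2 2 27 1) (D 2 1 24 1) (D 2 (-1) 23 1) (D 2 (-1) 24 1) (D 2 3 26 1)) (N (P (-12) 6 14 (-4)) (P 0 (-1) (-1) 0) 4 4 false 0 (P 2 0 0 0) (P 1 1 1 1)
  (D 1 (-6) 11 1) (D 1 (-6) 13 1) (D 1 (-5) 15 1) (D 1 (-7) 12 1) (D 1 (-7) 12 1) (D 1 (-6) 16 1) (D 1 (-7) 13 1) (D 1 (-5) 10 1) (D 1 (-8) 14 1) (D 1 (-7) 17 1)) (D 1 1 22 1)))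

def u3 : Tr :=
  (N (P 0 0 0 0) (P (-1) 0 0 (-1)) 3 4 false 4 (P 2 0 0 0) (P 1 0 2 1)
  (N (P 0 (-2) 6 0) (P 0 (-1) (-1) 0) 0 5 false 1 (P 2 0 0 0) (P 1 1 1 1)
  (D 2 (-5) 10 1) (D 2 (-4) 11 1) (D 2 (-4) 10 1) (N (P (-9) (-2) 6 (-3)) (P 0 (-1) (-1) 0) 1 0 false 0 (P 2 0 0 0) (P 1 1 1 1)
  (D 1 (-15) 4 1) (D 1 (-17) 6 1) (D 1 (-16) 8 1) (D 1 (-18) 6 1) (D 1 (-18) 6 1) (D 1 (-18) 8 1) (D 1 (-18) 6 1) (D 1 (-16) 4 1) (D 1 (-19) 8 1) (D 1 (-17) 8 1)) (N (P 0 (-7) 1 0) (P 0 (-1) (-1) 0) 1 0 false 0 (P 2 0 0 0) (P 1 1 1 1)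
  (D 1 (-16) 6 1) (D 1 (-18) 8 1) (D 1 (-16) 11 1) (D 1 (-20) 7 1) (D 1 (-20) 8 1) (D 1 (-17) 10 1) (D 1 (-18) 8 1) (D 1 (-17) 5 1) (D 1 (-20) 10 1) (D 1 (-18) 11 1)) (D 2 (-4) 10 1) (D 2 (-4) 11 1) (N (P 14 8 0 6) (P 0 (-1) 1 0) 4 4 true 0 (P 0 0 (-2) 0) (P 2 1 (-1) 0)
  (D 4 19 21 1) (D 4 20 20 1) (D 4 22 17 1) (D 4 21 19 1) (D 4 21 18 1) (D 4 22 17 1) (D 4 20 20 1) (D 4 18 21 1) (D 4 22 17 1) (N (P 16 8 0 16) (P (-1) 0 0 (-1)) 0 0 true 0 (P 2 0 0 0) (P 1 0 2 1)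
  (D 5 18 21 1) (D 5 19 22 1) (D 5 18 26 1) (D 5 15 24 1) (D 5 16 25 1) (D 5 18 26 1) (D 5 19 22 1) (D 5 18 20 1) (D 5 15 26 1) (D 5 16 29 1))) (N (P (-6) (-2) 6 (-2)) (P 0 (-1) (-1) 0) 1 0 false 0 (P 2 0 0 0) (P 1 1 1 1)
  (D 1 (-12) 6 1) (D 1 (-14) 8 1) (D 1 (-12) 11 1) (D 1 (-15) 7 1) (D 1 (-15) 8 1) (D 1 (-14) 11 1) (D 1 (-15) 8 1) (D 1 (-13) 6 1) (D 1 (-16) 9 1) (D 1 (-14) 13 1)) (D 2 (-4) 10 1)) (N (P 0 (-4) 12 0) (P 1 0 0 (-1)) 1 1 true 0 (P 1 0 0 1) (P (-1) (-1) 1 1)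
  (D 1 (-8) 0 1) (D 1 (-7) 1 1) (D 1 (-9) 3 1) (D 1 (-9) 0 1) (D 1 (-9) 0 1) (D 1 (-9) 3 1) (D 1 (-7) 1 1) (D 1 (-7) 0 1) (D 1 (-9) 1 1) (D 1 (-9) 5 1)) (N (P 14 8 0 6) (P 0 (-1) 1 0) 3 3 true 0 (P 0 0 (-2) 0) (P 2 1 (-1) 0)
  (D 3 19 21 1) (D 3 20 20 1) (D 3 22 17 1) (D 3 21 19 1) (D 3 21 18 1) (D 3 22 17 1) (D 3 20 20 1) (D 3 18 21 1) (D 3 22 17 1) (N (P 16 8 0 16) (P (-1) 0 0 (-1)) 0 0 true 0 (P 2 0 0 0) (P 1 0 2 1)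
  (D 4 18 21 1) (D 4 19 22 1) (D 4 18 26 1) (D 4 15 24 1) (D 4 16 25 1) (D 4 18 26 1) (D 4 19 22 1) (D 4 18 20 1) (D 4 15 26 1) (D 4 16 29 1))) (N (P 0 (-3) (-9) 0) (P 1 0 0 1) 0 0 true 0 (P (-2) 0 0 0) (P (-1) 0 (-2) (-1))
  (D 5 5 (-5) 1) (D 5 3 (-5) 1) (D 5 3 (-6) 1) (D 5 7 (-5) 1) (D 5 8 (-5) 1) (D 5 3 (-6) 1) (D 5 4 (-6) 1) (D 5 5 (-4) 1) (D 5 7 (-7) 1) (D 5 6 (-9) 1)) (N (P (-5) 0 0 (-5)) (P 1 0 0 1) 0 0 true 0 (P (-2) 0 0 0) (P (-1) 0 (-2) (-1))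
  (D 5 5 (-5) 1) (D 5 5 (-6) 1) (D 5 3 (-5) 1) (D 5 7 (-5) 1) (D 5 8 (-5) 1) (D 5 4 (-6) 1) (D 5 5 (-6) 1) (D 5 5 (-4) 1) (D 5 7 (-7) 1) (D 5 6 (-9) 1)) (N (P 0 (-4) 12 0) (P (-1) 0 0 1) 0 0 false 1 (P 2 0 0 0) (P 2 1 1 0)
  (D 2 (-2) 16 1) (D 2 0 18 1) (D 2 3 16 1) (D 2 (-1) 19 1) (D 2 (-1) 19 1) (D 2 3 17 1) (D 2 0 19 1) (D 2 (-3) 17 1) (D 2 2 20 1) (D 2 5 19 1)) (N (P 0 (-4) 12 0) (P 1 0 0 (-1)) 1 1 true 0 (P 1 0 0 1) (P (-1) (-1) 1 1)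
  (D 1 (-8) 0 1) (D 1 (-7) 1 1) (D 1 (-9) 3 1) (D 1 (-9) (-1) 1) (D 1 (-9) (-1) 1) (D 1 (-9) 3 1) (D 1 (-7) 1 1) (D 1 (-7) 0 1) (D 1 (-9) 1 1) (D 1 (-9) 5 1)) (N (P 0 0 0 0) (P 0 (-1) 1 0) 0 5 false 4 (P 2 0 0 0) (P 2 1 (-1) 0)
  (D 2 (-3) 12 1) (D 6 3 6 1) (D 6 7 9 1) (D 2 (-2) 12 1) (D 2 (-2) 12 1) (D 6 5 7 1) (D 6 3 6 1) (D 2 (-3) 11 1) (D 2 0 14 1) (D 6 6 8 1)) (N (P 0 0 0 0) (P 0 (-1) 1 0) 0 5 false 4 (P 2 0 0 0) (P 2 1 (-1) 0)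
  (D 2 (-3) 12 1) (D 6 3 6 1) (D 6 7 9 1) (D 2 (-2) 12 1) (D 2 (-2) 12 1) (D 6 5 7 1) (D 6 3 6 1) (D 2 (-3) 11 1) (D 2 0 14 1) (D 6 6 8 1)) (N (P 14 8 0 6) (P 0 (-1) 1 0) 3 3 true 0 (P 0 0 (-2) 0) (P 2 1 (-1) 0)
  (D 3 19 21 1) (D 3 20 20 1) (D 3 22 17 1) (D 3 21 19 1) (D 3 21 18 1) (D 3 22 17 1) (D 3 20 20 1) (D 3 18 21 1) (D 3 22 17 1) (N (P 16 8 0 16) (P (-1) 0 0 (-1)) 0 0 true 0 (P 2 0 0 0) (P 1 0 2 1)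
  (D 4 18 21 1) (D 4 19 22 1) (D 4 18 26 1) (D 4 15 24 1) (D 4 16 25 1) (D 4 18 26 1) (D 4 19 22 1) (D 4 18 20 1) (D 4 15 26 1) (D 4 16 29 1))))

def u4 : Tr :=
  (N (P 0 6 14 0) (P 0 (-1) (-1) 0) 3 3 false 0 (P 2 0 0 0) (P 1 1 1 1)
  (N (P (-12) 6 14 (-4)) (P 0 (-1) (-1) 0) 4 4 false 0 (P 2 0 0 0) (P 1 1 1 1)
  (D 1 (-5) 11 1) (D 1 (-5) 12 1) (D 1 (-4) 14 1) (D 1 (-6) 12 1) (D 1 (-6) 12 1) (D 1 (-4) 14 1) (D 1 (-5) 12 1) (D 1 (-6) 11 1) (D 1 (-5) 11 1) (D 1 (-4) 14 1)) (N (P (-12) 6 14 (-4)) (P 0 (-1) (-1) 0) 4 4 false 0 (P 2 0 0 0) (P 1 1 1 1)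
  (D 1 (-4) 11 1) (D 1 (-3) 12 1) (D 1 (-3) 11 1) (D 1 (-4) 10 1) (D 1 (-4) 10 1) (D 1 (-3) 11 1) (D 1 (-3) 12 1) (D 1 (-4) 10 1) (D 1 (-4) 10 1) (D 1 (-3) 11 1)) (N (P 0 6 14 8) (P 0 (-1) 1 0) 0 0 false 1 (P 2 0 0 0) (P 2 1 1 0)
  (D 2 12 29 1) (D 2 12 29 1) (D 2 12 29 1) (D 2 11 29 1) (D 2 11 29 1) (D 2 12 29 1) (D 2 12 29 1) (D 2 11 29 1) (D 2 11 29 1) (D 2 12 29 1)) (N (P (-9) 6 14 (-3)) (P 0 (-1) (-1) 0) 4 4 false 0 (P 2 0 0 0) (P 1 1 1 1)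
  (D 1 (-2) 12 1) (D 1 (-3) 14 1) (D 1 (-3) 16 1) (D 1 (-4) 14 1) (D 1 (-4) 14 1) (D 1 (-4) 16 1) (D 1 (-4) 14 1) (D 1 (-2) 12 1) (D 1 (-5) 16 1) (D 1 (-3) 16 1)) (N (P 0 1 9 0) (P 0 (-1) (-1) 0) 4 4 false 0 (P 2 0 0 0) (P 1 1 1 1)
  (D 1 (-2) 14 1) (D 1 (-4) 16 1) (D 1 (-2) 19 1) (D 1 (-6) 15 1) (D 1 (-6) 16 1) (D 1 (-3) 18 1) (D 1 (-4) 16 1) (D 1 (-3) 13 1) (D 1 (-6) 18 1) (D 1 (-4) 19 1)) (N (P 0 1 9 0) (P 0 (-1) (-1) 0) 4 4 false 0 (P 2 0 0 0) (P 1 1 1 1)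
  (D 1 0 14 1) (D 1 (-1) 16 1) (D 1 0 18 1) (N (P (-9) 1 9 (-3)) (P 0 1 1 0) 0 0 true 0 (P 0 (-1) 1 0) (P (-1) (-1) (-1) (-1))
  (D 6 5 4 1) (D 6 4 5 1) (D 6 2 3 1) (D 6 5 3 1) (D 6 5 3 1) (D 5 2 (-3) 1) (D 6 4 5 1) (D 6 6 5 1) (D 5 4 (-5) 1) (D 5 2 (-5) 1)) (N (P 0 (-4) 4 0) (P 0 1 1 0) 0 0 true 0 (P 0 (-1) 1 0) (P (-1) (-1) (-1) (-1))
  (D 6 5 5 1) (D 6 4 5 1) (D 6 2 3 1) (D 6 7 3 1) (D 6 5 3 1) (D 5 1 (-4) 1) (D 6 4 5 1) (D 6 6 5 1) (D 5 4 (-5) 1) (D 5 2 (-5) 1)) (D 1 0 19 1) (D 1 (-1) 16 1) (N (P 0 (-1) 15 0) (P (-2) 0 0 0) 0 0 false 1 (P 2 0 0 0) (P 2 1 1 0)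
  (D 2 (-1) 19 1) (D 2 0 21 1) (D 2 1 22 1) (D 2 (-2) 18 1) (D 2 (-2) 18 1) (D 2 2 24 1) (D 2 0 20 1) (D 2 (-2) 18 1) (D 2 (-2) 18 1) (D 2 1 22 1)) (N (P (-6) 1 9 (-2)) (P 0 1 1 0) 0 0 true 0 (P 0 (-1) 1 0) (P (-1) (-1) (-1) (-1))
  (D 6 6 6 1) (D 6 5 6 1) (D 6 3 4 1) (D 6 5 5 1) (D 6 6 4 1) (D 6 4 4 1) (D 6 6 5 1) (D 6 8 6 1) (D 5 6 (-4) 1) (D 5 4 (-4) 1)) (D 1 0 18 1)) u3 (N (P 0 6 14 0) (P (-1) 0 0 1) 0 4 false 1 (P 2 0 0 0) (P 2 1 1 0)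
  (D 2 14 22 1) (D 2 16 20 1) (D 2 17 21 1) (D 2 15 24 1) (D 2 15 24 1) (D 2 17 21 1) (D 2 14 22 1) (D 2 13 23 1) (D 2 15 24 1) (D 2 17 19 1)) (N (P 0 6 14 0) (P (-1) 0 0 1) 0 4 false 1 (P 2 0 0 0) (P 2 1 1 0)
  (D 2 14 22 1) (D 2 16 20 1) (D 2 17 21 1) (D 2 15 24 1) (D 2 15 24 1) (D 2 17 21 1) (D 2 14 22 1) (D 2 13 23 1) (D 2 15 24 1) (D 2 17 19 1)) (N (P 0 6 14 8) (P 0 (-1) 1 0) 0 0 false 1 (P 2 0 0 0) (P 2 1 1 0)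
  (D 2 12 29 1) (D 2 12 29 1) (D 2 12 29 1) (D 2 11 29 1) (D 2 11 29 1) (D 2 12 29 1) (D 2 12 29 1) (D 2 11 29 1) (D 2 11 29 1) (D 2 12 29 1)))

def u5 : Tr :=
  (N (P 0 8 0 0) (P 1 0 0 1) 1 1 false 0 (P 2 0 0 0) (P (-1) 0 (-2) (-1))
  (N (P 0 12 12 0) (P (-1) 0 0 (-1)) 0 0 true 0 (P 2 0 0 0) (P 1 0 2 1)
  (D 3 10 7 1) (D 3 11 7 1) (D 3 12 9 1) (D 3 9 7 1) (D 3 9 8 1) (D 3 12 9 1) (D 3 11 6 1) (D 3 10 6 1) (D 3 10 9 1) (D 3 13 10 1)) (N (P 0 12 12 0) (P (-1) 0 0 (-1)) 0 0 true 0 (P 2 0 0 0) (P 1 0 2 1)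
  (D 3 10 7 1) (D 3 11 7 1) (D 3 12 9 1) (D 3 9 7 1) (D 3 9 8 1) (D 3 12 9 1) (D 3 11 6 1) (D 3 10 6 1) (D 3 10 9 1) (D 3 13 10 1)) u2 (N (P 0 8 0 0) (P 0 1 (-1) 0) 0 2 false 1 (P 2 0 0 0) (P (-2) (-1) (-1) 0)
  (D 2 14 (-5) 1) (D 2 12 (-8) 1) (D 2 10 (-8) 1) (D 2 13 (-6) 1) (D 2 13 (-6) 1) (D 2 11 (-6) 1) (D 2 12 (-6) 1) (D 2 14 (-5) 1) (D 2 13 (-7) 1) (D 2 11 (-7) 1)) (N (P 5 8 0 5) (P 1 0 0 1) 2 2 false 0 (P 2 0 0 0) (P (-1) 0 (-2) (-1))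
  (D 1 23 7 1) (D 1 25 6 1) (D 1 26 3 1) (D 1 29 7 1) (D 1 29 7 1) (D 1 26 5 1) (D 1 25 6 1) (D 1 25 8 1) (D 1 30 5 1) (D 1 27 4 1)) (N (P 5 8 0 5) (P 1 0 0 1) 2 2 false 0 (P 2 0 0 0) (P (-1) 0 (-2) (-1))
  (D 1 21 6 1) (D 1 23 4 1) (D 1 24 3 1) (N (P 5 13 (-5) 5) (P 0 1 1 0) 0 0 false 1 (P 2 0 0 0) (P (-1) (-1) (-1) (-1))
  (D 2 111 1 4) (D 2 111 (-6) 4) (D 2 111 (-13) 4) (D 2 111 14 4) (D 2 111 14 4) (D 2 111 (-14) 4) (D 2 111 (-6) 4) (D 2 111 14 4) (D 2 111 14 4) (D 2 111 (-13) 4)) (N (P 0 11 9 0) (P 0 (-1) 1 0) 3 3 false 0 (P 2 0 0 0) (P 2 1 1 0)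
  (D 1 22 12 1) (D 1 24 14 1) (D 1 26 15 1) (N (P (-9) 11 9 3) (P 0 1 (-1) 0) 0 0 true 0 (P 0 0 2 0) (P (-2) (-1) 1 0)
  (D 5 12 7 1) (D 5 10 6 1) (D 5 7 6 1) (D 5 11 7 1) (D 5 12 7 1) (D 5 8 6 1) (D 5 10 6 1) (D 5 12 7 1) (D 5 10 6 1) (D 5 5 6 1)) (N (P 10 8 0 10) (P 1 0 0 1) 0 0 false 1 (P 2 0 0 0) (P (-1) 0 (-2) (-1))
  (D 2 30 15 1) (D 2 32 14 1) (D 2 32 11 1) (D 2 34 16 1) (D 2 34 16 1) (D 2 33 12 1) (D 2 32 14 1) (D 2 30 16 1) (D 2 35 14 1) (D 2 34 12 1)) (D 1 27 15 1) (D 1 24 14 1) (N (P 0 13 15 0) (P (-1) 0 0 1) 0 0 false 1 (P 2 0 0 0) (P 2 1 1 0)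
  (D 2 26 16 1) (D 2 28 16 1) (D 2 30 16 1) (D 2 24 17 1) (D 2 24 17 1) (D 2 31 16 1) (D 2 28 16 1) (D 2 24 17 1) (D 2 24 17 1) (D 2 30 16 1)) (N (P (-6) 11 9 2) (P 0 (-1) 1 0) 4 4 false 0 (P 2 0 0 0) (P 2 1 1 0)
  (D 1 15 18 1) (D 1 16 21 1) (D 1 19 21 1) (D 1 15 22 1) (D 1 15 22 1) (D 1 19 22 1) (D 1 16 22 1) (D 1 14 18 1) (D 1 17 24 1) (D 1 20 24 1)) (D 1 26 15 1)) (D 1 24 2 1) (D 1 23 5 1) (N (P 11 8 0 3) (P 0 1 1 0) 0 0 false 1 (P 2 0 0 0) (P (-1) (-1) (-1) (-1))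
  (D 2 26 1 1) (D 2 26 0 1) (D 2 26 (-3) 1) (D 2 27 3 1) (D 2 27 3 1) (D 2 27 (-5) 1) (D 2 26 0 1) (D 2 27 3 1) (D 2 27 3 1) (D 2 26 (-3) 1)) (N (P 5 10 6 5) (P (-1) 0 0 (-1)) 0 0 true 0 (P 2 0 0 0) (P 1 0 2 1)
  (D 4 11 8 1) (D 4 12 8 1) (D 4 13 10 1) (D 4 10 9 1) (D 4 10 9 1) (D 4 13 11 1) (D 4 12 8 1) (D 4 10 7 1) (D 4 11 10 1) (D 4 15 11 1)) (D 1 24 3 1)) (N (P 0 11 9 0) (P 0 (-1) 1 0) 2 2 false 0 (P 2 0 0 0) (P 2 1 1 0)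
  (D 1 22 12 1) (D 1 22 12 1) (D 1 22 12 1) (N (P (-9) 11 9 3) (P 0 1 (-1) 0) 0 0 true 0 (P 0 0 2 0) (P (-2) (-1) 1 0)
  (D 4 12 7 1) (D 4 10 6 1) (D 4 7 6 1) (D 4 11 7 1) (D 4 12 7 1) (D 4 8 6 1) (D 4 10 6 1) (D 4 12 7 1) (D 4 10 6 1) (D 4 5 6 1)) u4 (D 1 22 12 1) (D 1 22 12 1) (N (P 0 3 17 0) (P 0 1 (-1) 0) 0 0 true 0 (P 0 0 2 0) (P (-2) (-1) 1 0)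
  (D 4 11 6 1) (D 4 10 7 1) (D 4 6 8 1) (D 4 10 6 1) (D 4 9 7 1) (D 4 6 8 1) (D 4 9 7 1) (D 4 11 6 1) (D 4 5 7 1) (D 4 4 7 1)) (N (P (-6) 11 9 2) (P 0 (-1) 1 0) 3 3 false 0 (P 2 0 0 0) (P 2 1 1 0)
  (D 1 15 18 1) (D 1 16 21 1) (D 1 19 21 1) (D 1 15 22 1) (D 1 15 22 1) (D 1 19 22 1) (D 1 16 22 1) (D 1 14 18 1) (D 1 17 24 1) (D 1 20 24 1)) (D 1 22 12 1)) (N (P 8 8 0 8) (P (-1) 0 0 (-1)) 0 0 true 0 (P 2 0 0 0) (P 1 0 2 1)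
  (D 3 11 7 1) (D 3 12 8 1) (D 3 12 10 1) (D 3 10 8 1) (D 3 10 8 1) (D 3 12 10 1) (D 3 12 8 1) (D 3 10 7 1) (D 3 11 10 1) (D 3 14 11 1)) (N (P 0 8 0 0) (P 0 1 (-1) 0) 0 2 false 1 (P 2 0 0 0) (P (-2) (-1) (-1) 0)
  (D 2 14 (-5) 1) (D 2 12 (-8) 1) (D 2 10 (-8) 1) (D 2 13 (-6) 1) (D 2 13 (-6) 1) (D 2 11 (-6) 1) (D 2 12 (-6) 1) (D 2 14 (-5) 1) (D 2 13 (-7) 1) (D 2 11 (-7) 1)) (N (P 0 10 6 0) (P 1 0 0 1) 2 2 false 0 (P 2 0 0 0) (P (-1) 0 (-2) (-1))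
  (D 1 20 3 1) (D 1 21 2 1) (D 1 24 0 1) (N (P 0 15 1 0) (P 0 1 1 0) 0 0 false 1 (P 2 0 0 0) (P (-1) (-1) (-1) (-1))
  (D 2 29 (-3) 1) (D 2 29 (-5) 1) (D 2 29 (-6) 1) (D 2 30 (-4) 1) (D 2 29 (-3) 1) (D 2 29 (-6) 1) (D 2 29 (-5) 1) (D 2 29 (-3) 1) (D 2 29 (-3) 1) (D 2 29 (-6) 1)) (N (P 5 10 6 5) (P (-1) 0 0 (-1)) 0 0 true 0 (P 2 0 0 0) (P 1 0 2 1)
  (D 4 11 8 1) (D 4 12 8 1) (D 4 13 10 1) (D 4 10 9 1) (D 4 10 9 1) (D 4 13 11 1) (D 4 12 8 1) (D 4 10 7 1) (D 4 11 10 1) (D 4 15 11 1)) (D 1 24 0 1) (D 1 21 2 1) (N (P 6 10 6 (-2)) (P 0 1 1 0) 0 0 false 1 (P 2 0 0 0) (P (-1) (-1) (-1) (-1))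
  (D 2 27 (-2) 1) (D 2 27 (-4) 1) (D 2 27 (-8) 1) (D 2 28 (-3) 1) (D 2 29 (-3) 1) (D 2 28 (-7) 1) (D 2 27 (-4) 1) (D 2 28 (-2) 1) (D 2 29 (-4) 1) (D 2 27 (-7) 1)) (N (P 0 12 12 0) (P (-1) 0 0 (-1)) 0 0 true 0 (P 2 0 0 0) (P 1 0 2 1)
  (D 4 10 7 1) (D 4 11 7 1) (D 4 12 9 1) (D 4 9 7 1) (D 4 9 8 1) (D 4 12 9 1) (D 4 11 6 1) (D 4 10 6 1) (D 4 10 9 1) (D 4 13 10 1)) (D 1 24 0 1)))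

def u6 : Tr :=
  (N (P 0 6 14 0) (P 0 0 2 0) 0 4 false 4 (P 2 0 0 0) (P 1 0 (-2) (-1))
  (N (P 0 6 14 8) (P 0 0 (-2) 0) 0 0 true 0 (P 0 1 1 0) (P (-1) 0 2 1)
  (D 2 4 18 1) (D 2 5 19 1) (D 2 4 21 1) (D 2 3 18 1) (D 2 2 18 1) (D 2 4 21 1) (D 2 5 18 1) (D 2 4 17 1) (D 2 3 20 1) (D 2 5 22 1)) (N (P 0 6 14 8) (P 0 0 (-2) 0) 0 0 true 0 (P 0 1 1 0) (P (-1) 0 2 1)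
  (D 2 4 18 1) (D 2 5 19 1) (D 2 4 21 1) (D 2 3 18 1) (D 2 2 18 1) (D 2 4 21 1) (D 2 5 18 1) (D 2 4 17 1) (D 2 3 20 1) (D 2 5 22 1)) (N (P 12 6 14 (-4)) (P 0 1 1 0) 0 0 false 3 (P 2 0 0 0) (P (-1) (-1) (-1) (-1))
  (D 4 25 3 1) (D 4 25 1 1) (D 4 25 (-1) 1) (D 4 26 2 1) (D 4 26 2 1) (D 4 25 (-2) 1) (D 4 25 1 1) (D 4 26 3 1) (D 4 26 3 1) (D 4 25 (-1) 1)) (N (P 0 6 14 6) (P 0 0 (-2) 0) 0 0 true 0 (P 0 1 1 0) (P (-1) 0 2 1)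
  (D 2 4 17 1) (D 2 4 18 1) (D 2 4 19 1) (D 2 1 15 1) (D 2 2 16 1) (D 2 4 19 1) (D 2 4 18 1) (D 2 4 16 1) (D 2 3 18 1) (D 2 4 21 1)) (N (P 0 6 14 0) (P 2 0 0 0) 0 5 false 1 (P 2 0 0 0) (P (-2) (-1) (-1) 0)
  (D 6 13 8 1) (D 6 12 6 1) (D 6 11 4 1) (D 4 22 3 1) (D 4 23 2 1) (D 6 10 5 1) (D 6 12 7 1) (D 4 23 4 1) (D 4 19 1 1) (D 6 11 5 1)) (N (P 0 16 4 0) (P 0 (-1) 1 0) 3 3 true 0 (P 0 0 (-2) 0) (P 2 1 (-1) 0)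
  (D 1 21 14 1) (D 1 22 13 1) (D 1 24 13 1) (D 1 22 16 1) (D 1 22 15 1) (D 1 24 11 1) (D 1 21 13 1) (D 1 20 15 1) (D 1 24 14 1) (D 1 25 10 1)) (N (P 0 11 9 0) (P 1 0 0 1) 0 5 false 3 (P 2 0 0 0) (P (-1) 0 (-2) (-1))
  (D 4 23 6 1) (D 4 25 4 1) (D 4 25 2 1) (N (P 0 6 24 0) (P (-2) 0 0 0) 2 1 false 1 (P 2 0 0 0) (P 2 1 1 0)
  (D 2 12 28 1) (D 2 12 28 1) (D 2 12 28 1) (N (P 0 10 30 0) (P (-2) 0 0 0) 2 2 true 0 (P 1 0 0 (-1)) (P 2 1 1 0)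
  (D 1 5 35 1) (D 1 6 34 1) (D 1 9 32 1) (D 1 7 33 1) (D 1 8 33 1) (D 1 9 32 1) (D 1 5 34 1) (D 1 4 35 1) (D 1 9 33 1) (N (P 0 6 46 0) (P 0 0 (-2) 0) 0 0 true 0 (P 0 1 1 0) (P (-1) 0 2 1)
  (D 2 4 34 1) (D 2 5 34 1) (D 2 2 38 1) (D 2 (-1) 34 1) (D 2 (-1) 35 1) (D 2 1 38 1) (D 2 5 34 1) (D 2 4 33 1) (D 2 (-2) 36 1) (D 2 (-2) 40 1))) (N (P (-10) 6 24 0) (P (-2) 0 0 0) 3 3 false 0 (P 2 0 0 0) (P 2 1 1 0)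
  (D 1 (-1) 30 1) (D 1 (-1) 33 1) (D 1 2 34 1) (D 1 (-3) 34 1) (D 1 (-3) 34 1) (D 1 0 34 1) (D 1 (-1) 33 1) (D 1 (-2) 30 1) (D 1 (-2) 36 1) (D 1 0 35 1)) (D 2 12 28 1) (D 2 12 28 1) (N (P (-16) 6 24 0) (P 2 0 0 0) 0 0 true 0 (P (-1) 0 0 1) (P (-2) (-1) (-1) 0)
  (D 4 5 18 1) (D 4 3 18 1) (D 4 0 16 1) (D 4 2 16 1) (D 4 1 16 1) (D 4 (-1) 16 1) (D 4 3 18 1) (D 4 4 18 1) (D 4 (-1) 14 1) (D 4 (-2) 15 1)) (N (P 0 2 24 0) (P (-2) 0 0 0) 3 3 false 0 (P 2 0 0 0) (P 2 1 1 0)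
  (D 1 2 30 1) (D 1 2 33 1) (D 1 5 36 1) (D 1 0 33 1) (D 1 0 33 1) (D 1 4 35 1) (D 1 1 33 1) (D 1 1 30 1) (D 1 1 36 1) (D 1 3 37 1)) (D 2 12 28 1)) (N (P 5 11 9 5) (P 1 0 0 1) 1 0 false 0 (P 2 0 0 0) (P (-1) 0 (-2) (-1))
  (D 1 30 16 1) (D 1 32 14 1) (D 1 32 11 1) (D 1 34 16 1) (D 1 34 16 1) (D 1 31 14 1) (D 1 32 15 1) (D 1 30 17 1) (D 1 36 14 1) (D 1 34 12 1)) (D 4 25 1 1) (D 4 25 4 1) (N (P 6 11 9 (-2)) (P 0 1 1 0) 0 0 false 4 (P 2 0 0 0) (P (-1) (-1) (-1) (-1))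
  (D 5 26 2 1) (D 5 26 0 1) (D 5 26 (-2) 1) (D 5 27 3 1) (D 5 27 3 1) (D 5 26 (-3) 1) (D 5 26 0 1) (D 5 27 3 1) (D 5 27 3 1) (D 5 26 (-2) 1)) (N (P 0 13 15 0) (P 1 0 0 1) 1 0 false 0 (P 2 0 0 0) (P (-1) 0 (-2) (-1))
  (D 1 27 14 1) (D 1 29 12 1) (D 1 31 9 1) (D 1 30 14 1) (D 1 30 14 1) (D 1 31 10 1) (D 1 30 13 1) (D 1 27 14 1) (D 1 32 12 1) (D 1 33 10 1)) (D 4 25 2 1)) (N (P 0 6 30 0) (P 0 0 (-2) 0) 0 0 true 0 (P 0 1 1 0) (P (-1) 0 2 1)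
  (D 2 4 19 1) (D 2 5 20 1) (D 2 4 22 1) (D 2 3 19 1) (D 2 2 19 1) (D 2 4 22 1) (D 2 5 20 1) (D 2 4 18 1) (D 2 3 21 1) (D 2 10 47 2)) (N (P 0 6 14 0) (P 2 0 0 0) 0 5 false 1 (P 2 0 0 0) (P (-2) (-1) (-1) 0)
  (D 6 13 8 1) (D 6 12 6 1) (D 6 11 4 1) (D 4 22 3 1) (D 4 23 2 1) (D 6 10 5 1) (D 6 12 7 1) (D 4 23 4 1) (D 4 19 1 1) (D 6 11 5 1)) (N (P 12 6 14 (-4)) (P 0 1 1 0) 0 0 false 3 (P 2 0 0 0) (P (-1) (-1) (-1) (-1))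
  (D 4 25 3 1) (D 4 25 1 1) (D 4 25 (-1) 1) (D 4 26 2 1) (D 4 26 2 1) (D 4 25 (-2) 1) (D 4 25 1 1) (D 4 26 3 1) (D 4 26 3 1) (D 4 25 (-1) 1)))

def u7 : Tr :=
  (N (P 0 6 14 0) (P 0 0 2 0) 0 4 false 4 (P 2 0 0 0) (P 1 0 (-2) (-1))
  (N (P 0 6 14 8) (P 0 0 (-2) 0) 0 0 true 0 (P 0 1 1 0) (P (-1) 0 2 1)
  (D 2 4 18 1) (D 2 5 19 1) (D 2 4 21 1) (D 2 3 18 1) (D 2 2 18 1) (D 2 4 21 1) (D 2 5 18 1) (D 2 4 17 1) (D 2 3 20 1) (D 2 5 22 1)) (N (P 0 6 14 8) (P 0 0 (-2) 0) 0 0 true 0 (P 0 1 1 0) (P (-1) 0 2 1)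
  (D 2 4 18 1) (D 2 5 19 1) (D 2 4 21 1) (D 2 3 18 1) (D 2 2 18 1) (D 2 4 21 1) (D 2 5 18 1) (D 2 4 17 1) (D 2 3 20 1) (D 2 5 22 1)) (N (P 12 6 14 (-4)) (P 0 1 1 0) 0 0 false 3 (P 2 0 0 0) (P (-1) (-1) (-1) (-1))
  (D 4 25 3 1) (D 4 25 1 1) (D 4 25 (-1) 1) (D 4 26 2 1) (D 4 26 2 1) (D 4 25 (-2) 1) (D 4 25 1 1) (D 4 26 3 1) (D 4 26 3 1) (D 4 25 (-1) 1)) (N (P 0 6 14 6) (P 0 0 (-2) 0) 0 0 true 0 (P 0 1 1 0) (P (-1) 0 2 1)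
  (D 2 4 17 1) (D 2 4 18 1) (D 2 4 19 1) (D 2 1 15 1) (D 2 2 16 1) (D 2 4 19 1) (D 2 4 18 1) (D 2 4 16 1) (D 2 3 18 1) (D 2 4 21 1)) (N (P 0 6 14 0) (P 2 0 0 0) 0 5 false 1 (P 2 0 0 0) (P (-2) (-1) (-1) 0)
  (D 6 13 8 1) (D 6 12 6 1) (D 6 11 4 1) (D 4 22 3 1) (D 4 23 2 1) (D 6 10 5 1) (D 6 12 7 1) (D 4 23 4 1) (D 4 19 1 1) (D 6 11 5 1)) (N (P 0 16 4 0) (P 0 (-1) 1 0) 3 3 true 0 (P 0 0 (-2) 0) (P 2 1 (-1) 0)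
  (D 1 21 14 1) (D 1 22 13 1) (D 1 24 13 1) (D 1 22 16 1) (D 1 22 15 1) (D 1 24 11 1) (D 1 21 13 1) (D 1 20 15 1) (D 1 24 14 1) (D 1 25 10 1)) (N (P 0 11 9 0) (P 1 0 0 1) 0 5 false 3 (P 2 0 0 0) (P (-1) 0 (-2) (-1))
  (D 4 23 6 1) (D 4 25 4 1) (D 4 25 2 1) (N (P 0 (-2) (-6) 0) (P (-1) 0 0 (-1)) 5 3 false 3 (P 2 0 0 0) (P 1 0 2 1)
  (D 4 (-6) (-4) 1) (D 4 (-7) (-2) 1) (D 4 (-10) 0 1) (N (P 0 (-7) (-1) 0) (P 0 (-1) (-1) 0) 0 4 false 4 (P 2 0 0 0) (P 1 1 1 1)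
  (D 5 (-15) 3 1) (D 5 (-15) 5 1) (D 5 (-15) 6 1) (D 5 (-16) 4 1) (D 5 (-16) 3 1) (D 5 (-15) 6 1) (D 5 (-15) 5 1) (D 5 (-16) 3 1) (D 5 (-16) 3 1) (D 5 (-15) 6 1)) (N (P (-5) (-2) (-6) (-5)) (P 1 0 0 1) 0 0 true 0 (P (-2) 0 0 0) (P (-1) 0 (-2) (-1))
  (D 7 2 (-8) 1) (D 7 1 (-8) 1) (D 7 0 (-10) 1) (D 7 2 (-9) 1) (D 7 4 (-9) 1) (D 7 1 (-11) 1) (D 7 2 (-8) 1) (D 7 3 (-7) 1) (D 7 2 (-10) 1) (D 7 (-1) (-11) 1)) (D 4 (-11) 0 1) (D 4 (-7) (-2) 1) (N (P (-6) (-2) (-6) 2) (P 0 (-1) (-1) 0) 0 4 false 4 (P 2 0 0 0) (P 1 1 1 1)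
  (D 5 (-13) 2 1) (D 5 (-13) 4 1) (D 5 (-14) 8 1) (D 5 (-15) 3 1) (D 5 (-15) 3 1) (D 5 (-14) 7 1) (D 5 (-13) 4 1) (D 5 (-14) 2 1) (D 5 (-15) 4 1) (D 5 (-13) 7 1)) (N (P 0 (-4) (-12) 0) (P 1 0 0 1) 0 0 true 0 (P (-2) 0 0 0) (P (-1) 0 (-2) (-1))
  (D 7 4 (-7) 1) (D 7 2 (-7) 1) (D 7 2 (-9) 1) (D 7 5 (-7) 1) (D 7 5 (-8) 1) (D 7 2 (-9) 1) (D 7 3 (-6) 1) (D 7 4 (-6) 1) (D 7 3 (-9) 1) (D 7 0 (-10) 1)) (D 4 (-10) 0 1)) (N (P 5 11 9 5) (P 1 0 0 1) 1 0 false 0 (P 2 0 0 0) (P (-1) 0 (-2) (-1))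
  (D 1 30 16 1) (D 1 32 14 1) (D 1 32 11 1) (D 1 34 16 1) (D 1 34 16 1) (D 1 31 14 1) (D 1 32 15 1) (D 1 30 17 1) (D 1 36 14 1) (D 1 34 12 1)) (D 4 25 1 1) (D 4 25 4 1) (N (P 6 11 9 (-2)) (P 0 1 1 0) 0 0 false 4 (P 2 0 0 0) (P (-1) (-1) (-1) (-1))
  (D 5 26 2 1) (D 5 26 0 1) (D 5 26 (-2) 1) (D 5 27 3 1) (D 5 27 3 1) (D 5 26 (-3) 1) (D 5 26 0 1) (D 5 27 3 1) (D 5 27 3 1) (D 5 26 (-2) 1)) (N (P 0 13 15 0) (P 1 0 0 1) 1 0 false 0 (P 2 0 0 0) (P (-1) 0 (-2) (-1))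
  (D 1 27 14 1) (D 1 29 12 1) (D 1 31 9 1) (D 1 30 14 1) (D 1 30 14 1) (D 1 31 10 1) (D 1 30 13 1) (D 1 27 14 1) (D 1 32 12 1) (D 1 33 10 1)) (D 4 25 2 1)) (N (P 0 6 30 0) (P 0 0 (-2) 0) 0 0 true 0 (P 0 1 1 0) (P (-1) 0 2 1)
  (D 2 4 19 1) (D 2 5 20 1) (D 2 4 22 1) (D 2 3 19 1) (D 2 2 19 1) (D 2 4 22 1) (D 2 5 20 1) (D 2 4 18 1) (D 2 3 21 1) (D 2 10 47 2)) (N (P 0 6 14 0) (P 2 0 0 0) 0 5 false 1 (P 2 0 0 0) (P (-2) (-1) (-1) 0)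
  (D 6 13 8 1) (D 6 12 6 1) (D 6 11 4 1) (D 4 22 3 1) (D 4 23 2 1) (D 6 10 5 1) (D 6 12 7 1) (D 4 23 4 1) (D 4 19 1 1) (D 6 11 5 1)) (N (P 12 6 14 (-4)) (P 0 1 1 0) 0 0 false 3 (P 2 0 0 0) (P (-1) (-1) (-1) (-1))
  (D 4 25 3 1) (D 4 25 1 1) (D 4 25 (-1) 1) (D 4 26 2 1) (D 4 26 2 1) (D 4 25 (-2) 1) (D 4 25 1 1) (D 4 26 3 1) (D 4 26 3 1) (D 4 25 (-1) 1)))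

def u8 : Tr :=
  (N (P 0 0 0 0) (P (-1) 0 0 (-1)) 1 2 false 2 (P 2 0 0 0) (P 1 0 2 1)
  (N (P 0 (-4) (-12) 0) (P 1 0 0 1) 0 0 true 0 (P (-2) 0 0 0) (P (-1) 0 (-2) (-1))
  (D 3 4 (-7) 1) (D 3 2 (-7) 1) (D 3 2 (-9) 1) (D 3 5 (-7) 1) (D 3 5 (-8) 1) (D 3 2 (-9) 1) (D 3 3 (-6) 1) (D 3 4 (-6) 1) (D 3 3 (-9) 1) (D 3 0 (-10) 1)) (N (P 0 (-4) (-12) 0) (P 1 0 0 1) 0 0 true 0 (P (-2) 0 0 0) (P (-1) 0 (-2) (-1))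
  (D 3 4 (-7) 1) (D 3 2 (-7) 1) (D 3 2 (-9) 1) (D 3 5 (-7) 1) (D 3 5 (-8) 1) (D 3 2 (-9) 1) (D 3 3 (-6) 1) (D 3 4 (-6) 1) (D 3 3 (-9) 1) (D 3 0 (-10) 1)) (N (P 0 (-2) 6 0) (P (-1) 0 0 1) 0 3 false 3 (P 2 0 0 0) (P 2 1 1 0)
  (D 4 1 7 1) (D 4 3 8 1) (D 4 8 10 1) (N (P 0 (-5) 15 0) (P 1 0 0 (-1)) 0 0 true 0 (P 1 0 0 1) (P (-1) (-1) 1 1)
  (D 2 (-9) 4 1) (D 2 (-8) 5 1) (D 2 (-10) 7 1) (D 2 (-10) 4 1) (D 2 (-10) 4 1) (D 2 (-10) 7 1) (D 2 (-8) 5 1) (D 2 (-8) 3 1) (D 2 (-10) 5 1) (D 2 (-10) 9 1)) (N (P (-5) (-2) 6 5) (P 1 0 0 (-1)) 0 0 true 0 (P 1 0 0 1) (P (-1) (-1) 1 1)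
  (D 2 (-8) 4 1) (D 2 (-8) 5 1) (D 2 (-9) 7 1) (D 2 (-9) 6 1) (D 2 (-10) 5 1) (D 2 (-10) 6 1) (D 2 (-8) 5 1) (D 2 (-9) 4 1) (D 2 (-11) 6 1) (D 2 (-10) 9 1)) (D 4 8 10 1) (D 4 3 8 1) (N (P 6 (-2) 6 2) (P 0 0 2 0) 0 4 false 4 (P 2 0 0 0) (P 2 1 1 0)
  (D 5 7 10 1) (D 5 8 10 1) (D 5 12 8 1) (D 5 8 11 1) (D 5 9 11 1) (D 5 11 9 1) (D 5 8 10 1) (D 5 7 11 1) (D 5 8 11 1) (D 5 11 8 1)) u6 (D 4 8 10 1)) (N (P 0 0 0 0) (P 0 (-1) 1 0) 0 3 false 2 (P 2 0 0 0) (P 2 1 (-1) 0)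
  (D 4 1 5 1) (D 4 3 6 1) (D 4 7 9 1) (D 4 1 6 1) (D 4 2 6 1) (D 4 5 7 1) (D 4 3 6 1) (D 4 0 5 1) (D 4 1 6 1) (D 4 6 8 1)) (N (P (-5) 0 0 (-5)) (P (-1) 0 0 (-1)) 2 0 false 0 (P 2 0 0 0) (P 1 0 2 1)
  (D 1 (-11) (-7) 1) (D 1 (-13) (-5) 1) (D 1 (-13) (-2) 1) (D 1 (-15) (-7) 1) (D 1 (-15) (-7) 1) (D 1 (-14) (-4) 1) (D 1 (-13) (-6) 1) (D 1 (-11) (-8) 1) (D 1 (-16) (-5) 1) (D 1 (-15) (-3) 1)) (N (P 0 (-2) 6 0) (P (-1) 0 0 1) 0 3 false 3 (P 2 0 0 0) (P 2 1 1 0)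
  (D 4 1 7 1) (D 4 3 8 1) (D 4 8 10 1) (N (P 0 (-5) 15 0) (P 1 0 0 (-1)) 0 0 true 0 (P 1 0 0 1) (P (-1) (-1) 1 1)
  (D 2 (-9) 4 1) (D 2 (-9) 5 1) (D 2 (-10) 7 1) (D 2 (-10) 4 1) (D 2 (-10) 4 1) (D 2 (-10) 7 1) (D 2 (-9) 5 1) (D 2 (-8) 3 1) (D 2 (-11) 5 1) (D 2 (-10) 9 1)) (N (P (-5) (-2) 6 5) (P 1 0 0 (-1)) 0 0 true 0 (P 1 0 0 1) (P (-1) (-1) 1 1)
  (D 2 (-8) 4 1) (D 2 (-8) 6 1) (D 2 (-9) 7 1) (D 2 (-9) 5 1) (D 2 (-10) 4 1) (D 2 (-10) 7 1) (D 2 (-9) 5 1) (D 2 (-8) 3 1) (D 2 (-11) 5 1) (D 2 (-10) 9 1)) (D 4 8 10 1) (D 4 3 8 1) (N (P 6 (-2) 6 2) (P 0 0 2 0) 0 4 false 4 (P 2 0 0 0) (P 2 1 1 0)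
  (D 5 7 10 1) (D 5 8 10 1) (D 5 12 8 1) (D 5 8 11 1) (D 5 9 11 1) (D 5 11 9 1) (D 5 8 10 1) (D 5 7 11 1) (D 5 8 11 1) (D 5 11 8 1)) (N (P 0 (-4) 12 0) (P (-1) 0 0 1) 1 0 false 0 (P 2 0 0 0) (P 2 1 1 0)
  (D 1 (-2) 16 1) (D 1 0 18 1) (D 1 3 16 1) (D 1 (-1) 19 1) (D 1 (-1) 19 1) (D 1 3 17 1) (D 1 0 19 1) (D 1 (-3) 17 1) (D 1 2 20 1) (D 1 5 19 1)) (D 4 8 10 1)) (N (P 0 (-2) 6 0) (P (-1) 0 0 1) 0 3 false 3 (P 2 0 0 0) (P 2 1 1 0)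
  (D 4 1 7 1) (D 4 3 8 1) (D 4 8 10 1) (N (P 0 3 11 0) (P 0 0 2 0) 0 4 false 4 (P 2 0 0 0) (P 2 1 1 0)
  (D 5 10 11 1) (D 5 12 10 1) (D 5 13 10 1) (D 5 12 12 1) (D 5 10 12 1) (D 5 13 10 1) (D 5 11 10 1) (D 5 10 12 1) (D 5 10 12 1) (D 5 13 10 1)) (N (P 9 (-2) 6 3) (P 0 0 2 0) 0 4 false 4 (P 2 0 0 0) (P 2 1 1 0)
  (D 5 10 11 1) (D 5 12 10 1) (D 5 13 10 1) (D 5 10 12 1) (D 5 10 12 1) (D 5 13 10 1) (D 5 12 10 1) (D 5 10 12 1) (D 5 10 12 1) (D 5 13 10 1)) (D 4 8 10 1) (D 4 3 8 1) (N (P 6 (-2) 6 2) (P 0 0 2 0) 0 4 false 4 (P 2 0 0 0) (P 2 1 1 0)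
  (D 5 7 10 1) (D 5 8 10 1) (D 5 12 8 1) (D 5 8 11 1) (D 5 9 11 1) (D 5 11 9 1) (D 5 8 10 1) (D 5 7 11 1) (D 5 8 11 1) (D 5 11 8 1)) (N (P 0 (-4) 12 0) (P 1 0 0 (-1)) 0 0 true 0 (P 1 0 0 1) (P (-1) (-1) 1 1)
  (D 2 (-8) 0 1) (D 2 (-7) 1 1) (D 2 (-9) 3 1) (D 2 (-9) (-1) 1) (D 2 (-9) (-1) 1) (D 2 (-9) 3 1) (D 2 (-7) 1 1) (D 2 (-7) 0 1) (D 2 (-9) 1 1) (D 2 (-9) 5 1)) (D 4 8 10 1)) (N (P (-8) 0 0 (-8)) (P 1 0 0 1) 0 0 true 0 (P (-2) 0 0 0) (P (-1) 0 (-2) (-1))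
  (D 3 3 (-7) 1) (D 3 2 (-8) 1) (D 3 1 (-10) 1) (D 3 4 (-8) 1) (D 3 4 (-8) 1) (D 3 1 (-10) 1) (D 3 2 (-8) 1) (D 3 4 (-7) 1) (D 3 3 (-10) 1) (D 3 0 (-11) 1)) (N (P 0 0 0 0) (P 0 (-1) 1 0) 0 3 false 2 (P 2 0 0 0) (P 2 1 (-1) 0)
  (D 4 1 5 1) (D 4 3 6 1) (D 4 7 9 1) (D 4 1 6 1) (D 4 2 6 1) (D 4 5 7 1) (D 4 3 6 1) (D 4 0 5 1) (D 4 1 6 1) (D 4 6 8 1)) (N (P 0 (-2) 6 0) (P (-1) 0 0 1) 0 3 false 3 (P 2 0 0 0) (P 2 1 1 0)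
  (D 4 1 7 1) (D 4 3 8 1) (D 4 8 10 1) (N (P 0 (-5) 15 0) (P 1 0 0 (-1)) 0 0 true 0 (P 1 0 0 1) (P (-1) (-1) 1 1)
  (D 2 (-9) 5 1) (D 2 (-10) 6 1) (D 2 (-11) 7 1) (D 2 (-11) 6 1) (D 2 (-11) 7 1) (D 2 (-12) 7 1) (D 2 (-10) 5 1) (D 2 (-9) 5 1) (D 2 (-12) 7 1) (D 2 (-12) 9 1)) (N (P (-5) (-2) 6 5) (P 1 0 0 (-1)) 0 0 true 0 (P 1 0 0 1) (P (-1) (-1) 1 1)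
  (D 2 (-8) 5 1) (D 2 (-9) 6 1) (D 2 (-10) 7 1) (D 2 (-10) 7 1) (D 2 (-11) 6 1) (D 2 (-11) 7 1) (D 2 (-10) 5 1) (D 2 (-9) 5 1) (D 2 (-12) 7 1) (D 2 (-13) 7 1)) (D 4 8 10 1) (D 4 3 8 1) (N (P 6 (-2) 6 2) (P 0 0 2 0) 0 4 false 4 (P 2 0 0 0) (P 2 1 1 0)
  (D 5 7 10 1) (D 5 8 10 1) (D 5 12 8 1) (D 5 8 11 1) (D 5 9 11 1) (D 5 11 9 1) (D 5 8 10 1) (D 5 7 11 1) (D 5 8 11 1) (D 5 11 8 1)) u7 (D 4 8 10 1)))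

def u9 : Tr :=
  (N (P 0 0 0 0) (P (-1) 0 0 (-1)) 3 4 false 4 (P 2 0 0 0) (P 1 0 2 1)
  (N (P 0 (-4) (-12) 0) (P 1 0 0 1) 0 0 true 0 (P (-2) 0 0 0) (P (-1) 0 (-2) (-1))
  (D 5 4 (-7) 1) (D 5 2 (-7) 1) (D 5 2 (-9) 1) (D 5 5 (-7) 1) (D 5 5 (-8) 1) (D 5 2 (-9) 1) (D 5 3 (-6) 1) (D 5 4 (-6) 1) (D 5 3 (-9) 1) (D 5 0 (-10) 1)) (N (P 0 (-4) (-12) 0) (P 1 0 0 1) 0 0 true 0 (P (-2) 0 0 0) (P (-1) 0 (-2) (-1))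
  (D 5 4 (-7) 1) (D 5 2 (-7) 1) (D 5 2 (-9) 1) (D 5 5 (-7) 1) (D 5 5 (-8) 1) (D 5 2 (-9) 1) (D 5 3 (-6) 1) (D 5 4 (-6) 1) (D 5 3 (-9) 1) (D 5 0 (-10) 1)) (N (P 14 8 0 6) (P 0 (-1) 1 0) 3 3 true 0 (P 0 0 (-2) 0) (P 2 1 (-1) 0)
  (D 3 19 21 1) (D 3 20 20 1) (D 3 22 17 1) (D 3 21 19 1) (D 3 21 18 1) (D 3 22 17 1) (D 3 20 20 1) (D 3 18 21 1) (D 3 22 17 1) (N (P 16 8 0 16) (P (-1) 0 0 (-1)) 0 0 true 0 (P 2 0 0 0) (P 1 0 2 1)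
  (D 4 18 21 1) (D 4 19 22 1) (D 4 18 26 1) (D 4 15 24 1) (D 4 16 25 1) (D 4 18 26 1) (D 4 19 22 1) (D 4 18 20 1) (D 4 15 26 1) (D 4 16 29 1))) (N (P 0 0 0 0) (P 0 (-1) 1 0) 0 5 false 4 (P 2 0 0 0) (P 2 1 (-1) 0)
  (D 2 (-3) 12 1) (D 6 3 6 1) (D 6 7 9 1) (D 2 (-2) 12 1) (D 2 (-2) 12 1) (D 6 5 7 1) (D 6 3 6 1) (D 2 (-3) 11 1) (D 2 0 14 1) (D 6 6 8 1)) (N (P (-5) 0 0 (-5)) (P (-1) 0 0 (-1)) 4 0 false 0 (P 2 0 0 0) (P 1 0 2 1)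
  (D 1 (-11) (-7) 1) (D 1 (-13) (-5) 1) (D 1 (-13) (-2) 1) (D 1 (-15) (-7) 1) (D 1 (-15) (-7) 1) (D 1 (-14) (-4) 1) (D 1 (-13) (-6) 1) (D 1 (-11) (-8) 1) (D 1 (-16) (-5) 1) (D 1 (-15) (-3) 1)) (N (P 0 (-4) 12 0) (P (-1) 0 0 1) 0 0 false 1 (P 2 0 0 0) (P 2 1 1 0)
  (D 2 (-2) 16 1) (D 2 0 18 1) (D 2 3 16 1) (D 2 (-1) 19 1) (D 2 (-1) 19 1) (D 2 3 17 1) (D 2 0 19 1) (D 2 (-3) 17 1) (D 2 2 20 1) (D 2 5 19 1)) (N (P 0 (-4) 12 0) (P 1 0 0 (-1)) 1 1 true 0 (P 1 0 0 1) (P (-1) (-1) 1 1)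
  (D 1 (-8) 0 1) (D 1 (-7) 1 1) (D 1 (-9) 3 1) (D 1 (-9) (-1) 1) (D 1 (-9) (-1) 1) (D 1 (-9) 3 1) (D 1 (-7) 1 1) (D 1 (-7) 0 1) (D 1 (-9) 1 1) (D 1 (-9) 5 1)) (N (P (-8) 0 0 (-8)) (P 1 0 0 1) 0 0 true 0 (P (-2) 0 0 0) (P (-1) 0 (-2) (-1))
  (D 5 3 (-7) 1) (D 5 2 (-8) 1) (D 5 1 (-10) 1) (D 5 4 (-8) 1) (D 5 4 (-8) 1) (D 5 1 (-10) 1) (D 5 2 (-8) 1) (D 5 4 (-7) 1) (D 5 3 (-10) 1) (D 5 0 (-11) 1)) (N (P 0 0 0 0) (P 0 (-1) 1 0) 0 5 false 4 (P 2 0 0 0) (P 2 1 (-1) 0)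
  (D 2 (-3) 12 1) (D 6 3 6 1) (D 6 7 9 1) (D 2 (-2) 12 1) (D 2 (-2) 12 1) (D 6 5 7 1) (D 6 3 6 1) (D 2 (-3) 11 1) (D 2 0 14 1) (D 6 6 8 1)) (N (P 14 8 0 6) (P 0 (-1) 1 0) 3 3 true 0 (P 0 0 (-2) 0) (P 2 1 (-1) 0)
  (D 3 19 21 1) (D 3 20 20 1) (D 3 22 17 1) (D 3 21 19 1) (D 3 21 18 1) (D 3 22 17 1) (D 3 20 20 1) (D 3 18 21 1) (D 3 22 17 1) (N (P 16 8 0 16) (P (-1) 0 0 (-1)) 0 0 true 0 (P 2 0 0 0) (P 1 0 2 1)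
  (D 4 18 21 1) (D 4 19 22 1) (D 4 18 26 1) (D 4 15 24 1) (D 4 16 25 1) (D 4 18 26 1) (D 4 19 22 1) (D 4 18 20 1) (D 4 15 26 1) (D 4 16 29 1))))

def u10 : Tr :=
  (N (P 0 6 14 0) (P 0 (-1) (-1) 0) 3 3 false 0 (P 2 0 0 0) (P 1 1 1 1)
  (N (P (-12) 6 14 (-4)) (P 0 (-1) (-1) 0) 4 4 false 0 (P 2 0 0 0) (P 1 1 1 1)
  (D 1 (-5) 11 1) (D 1 (-5) 12 1) (D 1 (-4) 14 1) (D 1 (-6) 12 1) (D 1 (-6) 12 1) (D 1 (-4) 14 1) (D 1 (-5) 12 1) (D 1 (-6) 11 1) (D 1 (-5) 11 1) (D 1 (-4) 14 1)) (N (P (-12) 6 14 (-4)) (P 0 (-1) (-1) 0) 4 4 false 0 (P 2 0 0 0) (P 1 1 1 1)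
  (D 1 (-4) 11 1) (D 1 (-3) 12 1) (D 1 (-3) 11 1) (D 1 (-4) 10 1) (D 1 (-4) 10 1) (D 1 (-3) 11 1) (D 1 (-3) 12 1) (D 1 (-4) 10 1) (D 1 (-4) 10 1) (D 1 (-3) 11 1)) (N (P 0 6 14 8) (P 0 (-1) 1 0) 0 0 false 1 (P 2 0 0 0) (P 2 1 1 0)
  (D 2 12 29 1) (D 2 12 29 1) (D 2 12 29 1) (D 2 11 29 1) (D 2 11 29 1) (D 2 12 29 1) (D 2 12 29 1) (D 2 11 29 1) (D 2 11 29 1) (D 2 12 29 1)) (N (P (-9) 6 14 (-3)) (P 0 (-1) (-1) 0) 4 4 false 0 (P 2 0 0 0) (P 1 1 1 1)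
  (D 1 (-2) 12 1) (D 1 (-3) 14 1) (D 1 (-3) 16 1) (D 1 (-4) 14 1) (D 1 (-4) 14 1) (D 1 (-4) 16 1) (D 1 (-4) 14 1) (D 1 (-2) 12 1) (D 1 (-5) 16 1) (D 1 (-3) 16 1)) (N (P 0 1 9 0) (P 0 (-1) (-1) 0) 4 4 false 0 (P 2 0 0 0) (P 1 1 1 1)
  (D 1 (-2) 14 1) (D 1 (-4) 16 1) (D 1 (-2) 19 1) (D 1 (-6) 15 1) (D 1 (-6) 16 1) (D 1 (-3) 18 1) (D 1 (-4) 16 1) (D 1 (-3) 13 1) (D 1 (-6) 18 1) (D 1 (-4) 19 1)) (N (P 0 1 9 0) (P 0 (-1) (-1) 0) 4 4 false 0 (P 2 0 0 0) (P 1 1 1 1)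
  (D 1 0 14 1) (D 1 (-1) 16 1) (D 1 0 18 1) (N (P (-9) 1 9 (-3)) (P 0 1 1 0) 0 0 true 0 (P 0 (-1) 1 0) (P (-1) (-1) (-1) (-1))
  (D 6 5 4 1) (D 6 4 5 1) (D 5 0 (-5) 1) (D 6 5 3 1) (D 6 5 3 1) (D 5 2 (-4) 1) (D 6 4 5 1) (D 6 6 5 1) (D 5 5 (-6) 1) (D 5 1 (-6) 1)) (N (P 0 (-4) 4 0) (P 0 1 1 0) 0 0 true 0 (P 0 (-1) 1 0) (P (-1) (-1) (-1) (-1))
  (D 6 5 5 1) (D 6 4 5 1) (D 5 0 (-5) 1) (D 6 7 3 1) (D 6 5 3 1) (D 5 0 (-5) 1) (D 6 4 5 1) (D 6 6 5 1) (D 5 5 (-6) 1) (D 5 2 (-6) 1)) (D 1 0 19 1) (D 1 (-1) 16 1) (N (P 0 (-1) 15 0) (P (-2) 0 0 0) 0 0 false 1 (P 2 0 0 0) (P 2 1 1 0)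
  (D 2 (-1) 19 1) (D 2 0 21 1) (D 2 1 22 1) (D 2 (-2) 18 1) (D 2 (-2) 18 1) (D 2 2 24 1) (D 2 0 20 1) (D 2 (-2) 18 1) (D 2 (-2) 18 1) (D 2 1 22 1)) (N (P (-6) 1 9 (-2)) (P 0 1 1 0) 0 0 true 0 (P 0 (-1) 1 0) (P (-1) (-1) (-1) (-1))
  (D 6 6 6 1) (D 6 5 6 1) (D 6 3 4 1) (D 6 5 5 1) (D 6 6 4 1) (D 5 0 (-6) 1) (D 6 6 5 1) (D 6 8 6 1) (D 5 7 (-4) 1) (D 5 3 (-7) 1)) (D 1 0 18 1)) u9 (N (P 0 6 14 0) (P (-1) 0 0 1) 0 4 false 1 (P 2 0 0 0) (P 2 1 1 0)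
  (D 2 14 22 1) (D 2 16 20 1) (D 2 17 21 1) (D 2 15 24 1) (D 2 15 24 1) (D 2 17 21 1) (D 2 14 22 1) (D 2 13 23 1) (D 2 15 24 1) (D 2 17 19 1)) (N (P 0 6 14 0) (P (-1) 0 0 1) 0 4 false 1 (P 2 0 0 0) (P 2 1 1 0)
  (D 2 14 22 1) (D 2 16 20 1) (D 2 17 21 1) (D 2 15 24 1) (D 2 15 24 1) (D 2 17 21 1) (D 2 14 22 1) (D 2 13 23 1) (D 2 15 24 1) (D 2 17 19 1)) (N (P 0 6 14 8) (P 0 (-1) 1 0) 0 0 false 1 (P 2 0 0 0) (P 2 1 1 0)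
  (D 2 12 29 1) (D 2 12 29 1) (D 2 12 29 1) (D 2 11 29 1) (D 2 11 29 1) (D 2 12 29 1) (D 2 12 29 1) (D 2 11 29 1) (D 2 11 29 1) (D 2 12 29 1)))

def u11 : Tr :=
  (N (P 0 8 0 0) (P 1 0 0 1) 1 1 false 0 (P 2 0 0 0) (P (-1) 0 (-2) (-1))
  (N (P 0 12 12 0) (P (-1) 0 0 (-1)) 0 0 true 0 (P 2 0 0 0) (P 1 0 2 1)
  (D 3 10 7 1) (D 3 11 7 1) (D 3 12 9 1) (D 3 9 7 1) (D 3 9 8 1) (D 3 12 9 1) (D 3 11 6 1) (D 3 10 6 1) (D 3 10 9 1) (D 3 13 10 1)) (N (P 0 12 12 0) (P (-1) 0 0 (-1)) 0 0 true 0 (P 2 0 0 0) (P 1 0 2 1)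
  (D 3 10 7 1) (D 3 11 7 1) (D 3 12 9 1) (D 3 9 7 1) (D 3 9 8 1) (D 3 12 9 1) (D 3 11 6 1) (D 3 10 6 1) (D 3 10 9 1) (D 3 13 10 1)) u8 (N (P 0 8 0 0) (P 0 1 (-1) 0) 0 2 false 1 (P 2 0 0 0) (P (-2) (-1) (-1) 0)
  (D 2 13 (-4) 1) (D 2 12 (-4) 1) (D 2 8 (-8) 1) (D 2 13 (-5) 1) (D 2 13 (-5) 1) (D 2 10 (-6) 1) (D 2 12 (-4) 1) (D 2 14 (-4) 1) (D 2 13 (-4) 1) (D 2 9 (-7) 1)) (N (P 5 8 0 5) (P 1 0 0 1) 2 2 false 0 (P 2 0 0 0) (P (-1) 0 (-2) (-1))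
  (D 1 23 7 1) (D 1 25 6 1) (D 1 26 3 1) (D 1 29 7 1) (D 1 29 7 1) (D 1 26 5 1) (D 1 25 6 1) (D 1 25 8 1) (D 1 30 5 1) (D 1 27 4 1)) (N (P 5 8 0 5) (P 1 0 0 1) 2 2 false 0 (P 2 0 0 0) (P (-1) 0 (-2) (-1))
  (D 1 21 6 1) (D 1 23 4 1) (D 1 24 3 1) (N (P 5 13 (-5) 5) (P 0 1 1 0) 0 0 false 1 (P 2 0 0 0) (P (-1) (-1) (-1) (-1))
  (D 2 111 1 4) (D 2 111 (-6) 4) (D 2 111 (-13) 4) (D 2 111 14 4) (D 2 111 14 4) (D 2 111 (-14) 4) (D 2 111 (-6) 4) (D 2 111 14 4) (D 2 111 14 4) (D 2 111 (-13) 4)) (N (P 0 11 9 0) (P 0 (-1) 1 0) 3 3 false 0 (P 2 0 0 0) (P 2 1 1 0)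
  (D 1 22 12 1) (D 1 24 14 1) (D 1 26 15 1) (N (P (-9) 11 9 3) (P 0 1 (-1) 0) 0 0 true 0 (P 0 0 2 0) (P (-2) (-1) 1 0)
  (D 5 12 7 1) (D 5 10 6 1) (D 5 7 6 1) (D 5 11 7 1) (D 5 12 7 1) (D 5 8 6 1) (D 5 10 6 1) (D 5 12 7 1) (D 5 10 6 1) (D 5 5 6 1)) (N (P 10 8 0 10) (P 1 0 0 1) 0 0 false 1 (P 2 0 0 0) (P (-1) 0 (-2) (-1))
  (D 2 30 15 1) (D 2 32 14 1) (D 2 32 11 1) (D 2 34 16 1) (D 2 34 16 1) (D 2 33 12 1) (D 2 32 14 1) (D 2 30 16 1) (D 2 35 14 1) (D 2 34 12 1)) (D 1 27 15 1) (D 1 24 14 1) (N (P 0 13 15 0) (P (-1) 0 0 1) 0 0 false 1 (P 2 0 0 0) (P 2 1 1 0)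
  (D 2 26 16 1) (D 2 28 16 1) (D 2 30 16 1) (D 2 24 17 1) (D 2 24 17 1) (D 2 31 16 1) (D 2 28 16 1) (D 2 24 17 1) (D 2 24 17 1) (D 2 30 16 1)) (N (P (-6) 11 9 2) (P 0 (-1) 1 0) 4 4 false 0 (P 2 0 0 0) (P 2 1 1 0)
  (D 1 15 18 1) (D 1 16 21 1) (D 1 19 21 1) (D 1 15 22 1) (D 1 15 22 1) (D 1 19 22 1) (D 1 16 22 1) (D 1 14 18 1) (D 1 17 24 1) (D 1 20 24 1)) (D 1 26 15 1)) (D 1 24 2 1) (D 1 23 5 1) (N (P 11 8 0 3) (P 0 1 1 0) 0 0 false 1 (P 2 0 0 0) (P (-1) (-1) (-1) (-1))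
  (D 2 26 1 1) (D 2 26 0 1) (D 2 26 (-3) 1) (D 2 27 3 1) (D 2 27 3 1) (D 2 27 (-5) 1) (D 2 26 0 1) (D 2 27 3 1) (D 2 27 3 1) (D 2 26 (-3) 1)) (N (P 5 10 6 5) (P (-1) 0 0 (-1)) 0 0 true 0 (P 2 0 0 0) (P 1 0 2 1)
  (D 4 11 8 1) (D 4 12 8 1) (D 4 13 10 1) (D 4 10 9 1) (D 4 10 9 1) (D 4 13 11 1) (D 4 12 8 1) (D 4 10 7 1) (D 4 11 10 1) (D 4 15 11 1)) (D 1 24 3 1)) (N (P 0 11 9 0) (P 0 (-1) 1 0) 2 2 false 0 (P 2 0 0 0) (P 2 1 1 0)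
  (D 1 22 12 1) (D 1 22 12 1) (D 1 22 12 1) (N (P (-9) 11 9 3) (P 0 1 (-1) 0) 0 0 true 0 (P 0 0 2 0) (P (-2) (-1) 1 0)
  (D 4 12 7 1) (D 4 10 6 1) (D 4 7 6 1) (D 4 11 7 1) (D 4 12 7 1) (D 4 8 6 1) (D 4 10 6 1) (D 4 12 7 1) (D 4 10 6 1) (D 4 5 6 1)) u10 (D 1 22 12 1) (D 1 22 12 1) (N (P 0 3 17 0) (P 0 1 (-1) 0) 0 0 true 0 (P 0 0 2 0) (P (-2) (-1) 1 0)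
  (D 4 11 6 1) (D 4 10 7 1) (D 4 6 8 1) (D 4 10 6 1) (D 4 9 7 1) (D 4 6 8 1) (D 4 9 7 1) (D 4 11 6 1) (D 4 5 7 1) (D 4 4 7 1)) (N (P (-6) 11 9 2) (P 0 (-1) 1 0) 3 3 false 0 (P 2 0 0 0) (P 2 1 1 0)
  (D 1 15 18 1) (D 1 16 21 1) (D 1 19 21 1) (D 1 15 22 1) (D 1 15 22 1) (D 1 19 22 1) (D 1 16 22 1) (D 1 14 18 1) (D 1 17 24 1) (D 1 20 24 1)) (D 1 22 12 1)) (N (P 8 8 0 8) (P (-1) 0 0 (-1)) 0 0 true 0 (P 2 0 0 0) (P 1 0 2 1)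
  (D 3 11 7 1) (D 3 12 8 1) (D 3 12 10 1) (D 3 10 8 1) (D 3 10 8 1) (D 3 12 10 1) (D 3 12 8 1) (D 3 10 7 1) (D 3 11 10 1) (D 3 14 11 1)) (N (P 0 8 0 0) (P 0 1 (-1) 0) 0 2 false 1 (P 2 0 0 0) (P (-2) (-1) (-1) 0)
  (D 2 13 (-4) 1) (D 2 12 (-4) 1) (D 2 8 (-8) 1) (D 2 13 (-5) 1) (D 2 13 (-5) 1) (D 2 10 (-6) 1) (D 2 12 (-4) 1) (D 2 14 (-4) 1) (D 2 13 (-4) 1) (D 2 9 (-7) 1)) (N (P 0 10 6 0) (P 1 0 0 1) 2 2 false 0 (P 2 0 0 0) (P (-1) 0 (-2) (-1))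
  (D 1 20 3 1) (D 1 21 2 1) (D 1 24 0 1) (N (P 0 15 1 0) (P 0 1 1 0) 0 0 false 1 (P 2 0 0 0) (P (-1) (-1) (-1) (-1))
  (D 2 29 (-3) 1) (D 2 29 (-5) 1) (D 2 29 (-6) 1) (D 2 30 (-4) 1) (D 2 29 (-3) 1) (D 2 29 (-6) 1) (D 2 29 (-5) 1) (D 2 29 (-3) 1) (D 2 29 (-3) 1) (D 2 29 (-6) 1)) (N (P 5 10 6 5) (P (-1) 0 0 (-1)) 0 0 true 0 (P 2 0 0 0) (P 1 0 2 1)
  (D 4 11 8 1) (D 4 12 8 1) (D 4 13 10 1) (D 4 10 9 1) (D 4 10 9 1) (D 4 13 11 1) (D 4 12 8 1) (D 4 10 7 1) (D 4 11 10 1) (D 4 15 11 1)) (D 1 24 0 1) (D 1 21 2 1) (N (P 6 10 6 (-2)) (P 0 1 1 0) 0 0 false 1 (P 2 0 0 0) (P (-1) (-1) (-1) (-1))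
  (D 2 27 (-2) 1) (D 2 27 (-4) 1) (D 2 27 (-8) 1) (D 2 28 (-3) 1) (D 2 29 (-3) 1) (D 2 28 (-7) 1) (D 2 27 (-4) 1) (D 2 28 (-2) 1) (D 2 29 (-4) 1) (D 2 27 (-7) 1)) (N (P 0 12 12 0) (P (-1) 0 0 (-1)) 0 0 true 0 (P 2 0 0 0) (P 1 0 2 1)
  (D 4 10 7 1) (D 4 11 7 1) (D 4 12 9 1) (D 4 9 7 1) (D 4 9 8 1) (D 4 12 9 1) (D 4 11 6 1) (D 4 10 6 1) (D 4 10 9 1) (D 4 13 10 1)) (D 1 24 0 1)))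

def u12 : Tr :=
  (N (P 0 6 14 0) (P 0 0 2 0) 1 6 false 6 (P 2 0 0 0) (P 1 0 (-2) (-1))
  (N (P 0 6 14 8) (P 0 0 (-2) 0) 0 0 true 0 (P 0 1 1 0) (P (-1) 0 2 1)
  (D 3 4 18 1) (D 3 5 19 1) (D 3 4 21 1) (D 3 3 18 1) (D 3 2 18 1) (D 3 4 21 1) (D 3 5 18 1) (D 3 4 17 1) (D 3 3 20 1) (D 3 5 22 1)) (N (P 0 6 14 8) (P 0 0 (-2) 0) 0 0 true 0 (P 0 1 1 0) (P (-1) 0 2 1)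
  (D 3 4 18 1) (D 3 5 19 1) (D 3 4 21 1) (D 3 3 18 1) (D 3 2 18 1) (D 3 4 21 1) (D 3 5 18 1) (D 3 4 17 1) (D 3 3 20 1) (D 3 5 22 1)) (N (P 12 6 14 (-4)) (P 0 1 1 0) 0 0 false 4 (P 2 0 0 0) (P (-1) (-1) (-1) (-1))
  (D 5 25 3 1) (D 5 25 1 1) (D 5 25 (-1) 1) (D 5 26 2 1) (D 5 26 2 1) (D 5 25 (-2) 1) (D 5 25 1 1) (D 5 26 3 1) (D 5 26 3 1) (D 5 25 (-1) 1)) (N (P 0 6 14 6) (P 0 0 (-2) 0) 0 0 true 0 (P 0 1 1 0) (P (-1) 0 2 1)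
  (D 3 4 17 1) (D 3 4 18 1) (D 3 4 19 1) (D 3 1 15 1) (D 3 2 16 1) (D 3 4 19 1) (D 3 4 18 1) (D 3 4 16 1) (D 3 3 18 1) (D 3 4 21 1)) (N (P 0 6 14 0) (P 2 0 0 0) 0 7 false 2 (P 2 0 0 0) (P (-2) (-1) (-1) 0)
  (D 8 13 8 1) (D 8 12 6 1) (D 8 11 4 1) (D 5 22 3 1) (D 5 23 2 1) (D 8 10 5 1) (D 8 12 7 1) (D 5 23 4 1) (D 5 19 1 1) (D 8 11 5 1)) (N (P 0 16 4 0) (P 0 (-1) 1 0) 4 4 true 0 (P 0 0 (-2) 0) (P 2 1 (-1) 0)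
  (D 1 21 14 1) (D 1 22 13 1) (D 1 24 13 1) (D 1 22 16 1) (D 1 22 15 1) (D 1 24 11 1) (D 1 21 13 1) (D 1 20 15 1) (D 1 24 14 1) (D 1 25 10 1)) (N (P 0 11 9 0) (P 1 0 0 1) 0 7 false 4 (P 2 0 0 0) (P (-1) 0 (-2) (-1))
  (D 5 23 6 1) (D 5 25 4 1) (D 5 25 2 1) (N (P 0 6 24 0) (P (-2) 0 0 0) 3 1 false 1 (P 2 0 0 0) (P 2 1 1 0)
  (D 2 12 28 1) (D 2 12 28 1) (D 2 12 28 1) (N (P 0 10 30 0) (P (-2) 0 0 0) 2 2 true 0 (P 1 0 0 (-1)) (P 2 1 1 0)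
  (D 1 5 35 1) (D 1 6 34 1) (D 1 9 32 1) (D 1 7 33 1) (D 1 8 33 1) (D 1 9 32 1) (D 1 5 34 1) (D 1 4 35 1) (D 1 9 33 1) (N (P 0 6 46 0) (P 0 0 (-2) 0) 0 0 true 0 (P 0 1 1 0) (P (-1) 0 2 1)
  (D 2 4 34 1) (D 2 5 34 1) (D 2 2 38 1) (D 2 (-1) 34 1) (D 2 (-1) 35 1) (D 2 1 38 1) (D 2 5 34 1) (D 2 4 33 1) (D 2 (-2) 36 1) (D 2 (-2) 40 1))) (N (P (-10) 6 24 0) (P (-2) 0 0 0) 4 4 false 0 (P 2 0 0 0) (P 2 1 1 0)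
  (D 1 (-1) 30 1) (D 1 (-1) 33 1) (D 1 2 34 1) (D 1 (-3) 34 1) (D 1 (-3) 34 1) (D 1 0 34 1) (D 1 (-1) 33 1) (D 1 (-2) 30 1) (D 1 (-2) 36 1) (D 1 0 35 1)) (D 2 12 28 1) (D 2 12 28 1) (N (P (-16) 6 24 0) (P 2 0 0 0) 0 0 true 0 (P (-1) 0 0 1) (P (-2) (-1) (-1) 0)
  (D 5 5 18 1) (D 5 3 18 1) (D 5 0 16 1) (D 5 2 16 1) (D 5 1 16 1) (D 5 (-1) 16 1) (D 5 3 18 1) (D 5 4 18 1) (D 5 (-1) 14 1) (D 5 (-2) 15 1)) (N (P 0 2 24 0) (P (-2) 0 0 0) 4 4 false 0 (P 2 0 0 0) (P 2 1 1 0)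
  (D 1 2 30 1) (D 1 2 33 1) (D 1 5 36 1) (D 1 0 33 1) (D 1 0 33 1) (D 1 4 35 1) (D 1 1 33 1) (D 1 1 30 1) (D 1 1 36 1) (D 1 3 37 1)) (D 2 12 28 1)) (N (P 5 11 9 5) (P 1 0 0 1) 1 0 false 0 (P 2 0 0 0) (P (-1) 0 (-2) (-1))
  (D 1 30 16 1) (D 1 32 14 1) (D 1 32 11 1) (D 1 34 16 1) (D 1 34 16 1) (D 1 31 14 1) (D 1 32 15 1) (D 1 30 17 1) (D 1 36 14 1) (D 1 34 12 1)) (D 5 25 1 1) (D 5 25 4 1) (N (P 6 11 9 (-2)) (P 0 1 1 0) 0 0 false 5 (P 2 0 0 0) (P (-1) (-1) (-1) (-1))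
  (D 6 26 2 1) (D 6 26 0 1) (D 6 26 (-2) 1) (D 6 27 3 1) (D 6 27 3 1) (D 6 26 (-3) 1) (D 6 26 0 1) (D 6 27 3 1) (D 6 27 3 1) (D 6 26 (-2) 1)) (N (P 0 13 15 0) (P 1 0 0 1) 1 0 false 0 (P 2 0 0 0) (P (-1) 0 (-2) (-1))
  (D 1 27 14 1) (D 1 29 12 1) (D 1 31 9 1) (D 1 30 14 1) (D 1 30 14 1) (D 1 31 10 1) (D 1 30 13 1) (D 1 27 14 1) (D 1 32 12 1) (D 1 33 10 1)) (D 5 25 2 1)) (N (P 0 6 30 0) (P 0 0 (-2) 0) 0 0 true 0 (P 0 1 1 0) (P (-1) 0 2 1)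
  (D 3 4 19 1) (D 3 5 20 1) (D 3 4 22 1) (D 3 3 19 1) (D 3 2 19 1) (D 3 4 22 1) (D 3 5 20 1) (D 3 4 18 1) (D 3 3 21 1) (D 3 10 47 2)) (N (P 0 6 14 0) (P 2 0 0 0) 0 7 false 2 (P 2 0 0 0) (P (-2) (-1) (-1) 0)
  (D 8 13 8 1) (D 8 12 6 1) (D 8 11 4 1) (D 5 22 3 1) (D 5 23 2 1) (D 8 10 5 1) (D 8 12 7 1) (D 5 23 4 1) (D 5 19 1 1) (D 8 11 5 1)) (N (P 12 6 14 (-4)) (P 0 1 1 0) 0 0 false 4 (P 2 0 0 0) (P (-1) (-1) (-1) (-1))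
  (D 5 25 3 1) (D 5 25 1 1) (D 5 25 (-1) 1) (D 5 26 2 1) (D 5 26 2 1) (D 5 25 (-2) 1) (D 5 25 1 1) (D 5 26 3 1) (D 5 26 3 1) (D 5 25 (-1) 1)))

def u13 : Tr :=
  (N (P 0 6 14 0) (P 0 (-1) (-1) 0) 4 4 true 0 (P 0 1 (-1) 0) (P 1 1 1 1)
  (N (P (-12) 6 14 (-4)) (P 0 (-1) (-1) 0) 5 5 false 0 (P 2 0 0 0) (P 1 1 1 1)
  (D 1 (-5) 11 1) (D 1 (-5) 12 1) (D 1 (-4) 14 1) (D 1 (-6) 12 1) (D 1 (-6) 12 1) (D 1 (-4) 14 1) (D 1 (-5) 12 1) (D 1 (-6) 11 1) (D 1 (-5) 11 1) (D 1 (-4) 14 1)) (N (P (-12) 6 14 (-4)) (P 0 (-1) (-1) 0) 5 5 false 0 (P 2 0 0 0) (P 1 1 1 1)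
  (D 1 (-4) 11 1) (D 1 (-3) 12 1) (D 1 (-3) 11 1) (D 1 (-4) 10 1) (D 1 (-4) 10 1) (D 1 (-3) 11 1) (D 1 (-3) 12 1) (D 1 (-4) 10 1) (D 1 (-4) 10 1) (D 1 (-3) 11 1)) (N (P (-9) 6 14 (-3)) (P 0 (-1) (-1) 0) 5 5 false 0 (P 2 0 0 0) (P 1 1 1 1)
  (D 1 0 13 1) (D 1 (-1) 16 1) (D 1 0 18 1) (N (P (-18) 6 14 (-6)) (P 0 (-1) (-1) 0) 2 0 false 0 (P 2 0 0 0) (P 1 1 1 1)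
  (D 1 (-12) 8 1) (D 1 (-12) 9 1) (D 1 (-12) 11 1) (D 1 (-13) 8 1) (D 1 (-13) 9 1) (D 1 (-13) 11 1) (D 1 (-13) 9 1) (D 1 (-11) 7 1) (D 1 (-14) 11 1) (D 1 (-14) 11 1)) (N (P (-9) 1 9 (-3)) (P 0 (-1) (-1) 0) 2 0 false 0 (P 2 0 0 0) (P 1 1 1 1)
  (D 1 (-10) 7 1) (D 1 (-12) 9 1) (D 1 (-11) 12 1) (D 1 (-14) 9 1) (D 1 (-14) 9 1) (D 1 (-11) 11 1) (D 1 (-12) 9 1) (D 1 (-11) 7 1) (D 1 (-14) 11 1) (D 1 (-12) 12 1)) (D 1 0 19 1) (D 1 (-1) 16 1) (N (P (-9) 4 20 (-3)) (P (-2) 0 0 0) 0 0 false 1 (P 2 0 0 0) (P 2 1 1 0)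
  (D 2 (-1) 19 1) (D 2 0 20 1) (D 2 1 22 1) (D 2 (-3) 17 1) (D 2 (-3) 17 1) (D 2 1 23 1) (D 2 (-1) 20 1) (D 2 (-3) 17 1) (D 2 (-3) 17 1) (D 2 1 22 1)) (N (P (-27) 6 14 (-1)) (P 0 1 (-1) 0) 0 0 true 0 (P 0 0 2 0) (P (-2) (-1) 1 0)
  (D 3 (-10) (-2) 1) (D 3 (-9) 1 1) (D 3 (-13) 0 1) (D 3 (-13) (-4) 1) (D 3 (-13) (-4) 1) (D 3 (-14) (-1) 1) (D 3 (-8) 2 1) (D 3 (-7) (-1) 1) (D 3 (-14) (-4) 1) (D 3 (-17) (-2) 1)) (D 1 0 18 1)) (N (P (-21) 6 14 1) (P 0 1 (-1) 0) 0 0 true 0 (P 0 0 2 0) (P (-2) (-1) 1 0)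
  (D 2 (-5) 1 1) (D 6 0 5 1) (D 2 (-7) 3 1) (D 2 (-5) (-1) 1) (D 2 (-5) (-1) 1) (D 2 (-8) 3 1) (D 6 0 5 1) (D 2 (-4) 1 1) (D 2 (-10) (-1) 1) (D 2 (-13) 0 1)) (N (P 0 1 9 0) (P 0 (-1) (-1) 0) 5 5 false 0 (P 2 0 0 0) (P 1 1 1 1)
  (D 1 (-2) 14 1) (D 1 (-4) 16 1) (D 1 (-2) 19 1) (D 1 (-6) 15 1) (D 1 (-6) 16 1) (D 1 (-3) 18 1) (D 1 (-4) 16 1) (D 1 (-3) 13 1) (D 1 (-6) 18 1) (D 1 (-4) 19 1)) (N (P 0 1 9 0) (P 0 (-1) (-1) 0) 5 5 false 0 (P 2 0 0 0) (P 1 1 1 1)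
  (D 1 0 14 1) (D 1 (-1) 16 1) (D 1 0 18 1) (N (P (-9) 1 9 (-3)) (P 0 (-1) (-1) 0) 2 0 false 0 (P 2 0 0 0) (P 1 1 1 1)
  (D 1 (-10) 7 1) (D 1 (-12) 9 1) (D 1 (-11) 11 1) (D 1 (-13) 9 1) (D 1 (-13) 9 1) (D 1 (-13) 11 1) (D 1 (-13) 9 1) (D 1 (-11) 7 1) (D 1 (-14) 11 1) (D 1 (-12) 11 1)) (N (P 0 (-4) 4 0) (P 0 (-1) (-1) 0) 2 0 false 0 (P 2 0 0 0) (P 1 1 1 1)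
  (D 1 (-11) 9 1) (D 1 (-12) 11 1) (D 1 (-11) 14 1) (D 1 (-15) 10 1) (D 1 (-15) 10 1) (D 1 (-12) 13 1) (D 1 (-13) 11 1) (D 1 (-12) 8 1) (D 1 (-15) 13 1) (D 1 (-13) 14 1)) (D 1 0 19 1) (D 1 (-1) 16 1) (N (P 0 (-1) 15 0) (P (-2) 0 0 0) 0 0 false 1 (P 2 0 0 0) (P 2 1 1 0)
  (D 2 (-1) 19 1) (D 2 0 21 1) (D 2 1 22 1) (D 2 (-2) 18 1) (D 2 (-2) 18 1) (D 2 2 24 1) (D 2 0 20 1) (D 2 (-2) 18 1) (D 2 (-2) 18 1) (D 2 1 22 1)) (N (P (-18) 1 9 2) (P 0 1 (-1) 0) 0 0 true 0 (P 0 0 2 0) (P (-2) (-1) 1 0)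
  (D 3 (-10) (-1) 1) (D 3 (-8) 1 1) (D 3 (-13) 0 1) (D 3 (-12) (-4) 1) (D 3 (-13) (-4) 1) (D 3 (-13) 0 1) (D 3 (-6) 2 1) (D 3 (-6) 0 1) (D 3 (-14) (-3) 1) (D 3 (-17) (-2) 1)) (D 1 0 18 1)) (N (P 0 (-2) 6 0) (P 0 (-1) (-1) 0) 1 5 false 0 (P 2 0 0 0) (P 1 1 1 1)
  (D 1 (-5) 10 1) (D 1 (-4) 11 1) (D 1 (-4) 10 1) (N (P (-9) (-2) 6 (-3)) (P 0 (-1) (-1) 0) 2 0 false 0 (P 2 0 0 0) (P 1 1 1 1)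
  (D 1 (-15) 4 1) (D 1 (-17) 6 1) (D 1 (-16) 8 1) (D 1 (-18) 6 1) (D 1 (-18) 6 1) (D 1 (-18) 8 1) (D 1 (-18) 6 1) (D 1 (-16) 4 1) (D 1 (-19) 8 1) (D 1 (-17) 8 1)) (N (P 0 (-7) 1 0) (P 0 (-1) (-1) 0) 2 0 false 0 (P 2 0 0 0) (P 1 1 1 1)
  (D 1 (-16) 6 1) (D 1 (-18) 8 1) (D 1 (-16) 11 1) (D 1 (-20) 7 1) (D 1 (-20) 8 1) (D 1 (-17) 10 1) (D 1 (-18) 8 1) (D 1 (-17) 5 1) (D 1 (-20) 10 1) (D 1 (-18) 11 1)) (D 1 (-4) 10 1) (D 1 (-4) 11 1) u12 (N (P (-6) (-2) 6 (-2)) (P 0 (-1) (-1) 0) 2 0 false 0 (P 2 0 0 0) (P 1 1 1 1)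
  (D 1 (-12) 6 1) (D 1 (-14) 8 1) (D 1 (-12) 11 1) (D 1 (-15) 7 1) (D 1 (-15) 8 1) (D 1 (-14) 11 1) (D 1 (-15) 8 1) (D 1 (-13) 6 1) (D 1 (-16) 9 1) (D 1 (-14) 13 1)) (D 1 (-4) 10 1)) (N (P 0 (-2) 6 0) (P 0 (-1) (-1) 0) 1 5 false 0 (P 2 0 0 0) (P 1 1 1 1)
  (D 1 (-7) 10 1) (D 1 (-6) 11 1) (D 1 (-6) 14 1) (D 1 (-8) 10 1) (D 1 (-8) 11 1) (D 1 (-6) 13 1) (D 1 (-6) 11 1) (D 1 (-8) 9 1) (D 1 (-7) 10 1) (D 1 (-6) 14 1)) (N (P (-18) 6 14 2) (P 0 1 (-1) 0) 0 0 true 0 (P 0 0 2 0) (P (-2) (-1) 1 0)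
  (D 6 1 4 1) (D 6 1 6 1) (D 2 (-4) 5 1) (D 2 (-4) 0 1) (D 2 (-4) 0 1) (D 2 (-5) 5 1) (D 6 2 7 1) (D 6 3 5 1) (D 2 (-6) 1 1) (D 2 (-10) 1 1)) (N (P (-6) 6 14 (-2)) (P 0 (-1) (-1) 0) 5 5 false 0 (P 2 0 0 0) (P 1 1 1 1)
  (D 1 3 15 1) (D 1 2 17 1) (D 1 1 22 1) (N (P (-27) 6 14 (-1)) (P 0 1 (-1) 0) 0 0 true 0 (P 0 0 2 0) (P (-2) (-1) 1 0)
  (D 3 (-10) (-2) 1) (D 3 (-9) 1 1) (D 3 (-13) 0 1) (D 3 (-13) (-4) 1) (D 3 (-13) (-4) 1) (D 3 (-14) (-1) 1) (D 3 (-8) 2 1) (D 3 (-7) (-1) 1) (D 3 (-14) (-4) 1) (D 3 (-17) (-2) 1)) (N (P (-6) 1 9 (-2)) (P 0 (-1) (-1) 0) 2 0 false 0 (P 2 0 0 0) (P 1 1 1 1)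
  (D 1 (-7) 9 1) (D 1 (-9) 11 1) (D 1 (-8) 14 1) (D 1 (-11) 11 1) (D 1 (-11) 11 1) (D 1 (-8) 13 1) (D 1 (-9) 11 1) (D 1 (-8) 9 1) (D 1 (-11) 13 1) (D 1 (-9) 14 1)) (D 1 1 22 1) (D 1 2 17 1) (N (P (-6) 4 20 (-2)) (P (-2) 0 0 0) 0 0 false 1 (P 2 0 0 0) (P 2 1 1 0)
  (D 2 0 22 1) (D 2 1 24 1) (D 2 3 27 1) (D 2 (-1) 24 1) (D 2 (-1) 24 1) (D 2 2 27 1) (D 2 1 24 1) (D 2 (-1) 23 1) (D 2 (-1) 24 1) (D 2 3 26 1)) (N (P (-24) 6 14 0) (P 0 1 (-1) 0) 0 0 true 0 (P 0 0 2 0) (P (-2) (-1) 1 0)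
  (D 3 (-6) 0 1) (D 3 (-5) 2 1) (D 3 (-10) 1 1) (D 3 (-9) (-2) 1) (D 3 (-9) (-2) 1) (D 3 (-11) 1 1) (D 3 (-6) 2 1) (D 3 (-6) 0 1) (D 3 (-13) (-4) 1) (D 3 (-16) (-2) 1)) (D 1 1 22 1)))

def u14 : Tr :=
  (N (P 0 6 14 0) (P 0 0 2 0) 0 5 false 5 (P 2 0 0 0) (P 1 0 (-2) (-1))
  (N (P 0 6 14 8) (P 0 0 (-2) 0) 0 0 true 0 (P 0 1 1 0) (P (-1) 0 2 1)
  (D 2 4 18 1) (D 2 5 19 1) (D 2 4 21 1) (D 2 3 18 1) (D 2 2 18 1) (D 2 4 21 1) (D 2 5 18 1) (D 2 4 17 1) (D 2 3 20 1) (D 2 5 22 1)) (N (P 0 6 14 8) (P 0 0 (-2) 0) 0 0 true 0 (P 0 1 1 0) (P (-1) 0 2 1)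
  (D 2 4 18 1) (D 2 5 19 1) (D 2 4 21 1) (D 2 3 18 1) (D 2 2 18 1) (D 2 4 21 1) (D 2 5 18 1) (D 2 4 17 1) (D 2 3 20 1) (D 2 5 22 1)) (N (P 12 6 14 (-4)) (P 0 1 1 0) 0 0 false 3 (P 2 0 0 0) (P (-1) (-1) (-1) (-1))
  (D 4 25 3 1) (D 4 25 1 1) (D 4 25 (-1) 1) (D 4 26 2 1) (D 4 26 2 1) (D 4 25 (-2) 1) (D 4 25 1 1) (D 4 26 3 1) (D 4 26 3 1) (D 4 25 (-1) 1)) (N (P 0 6 14 6) (P 0 0 (-2) 0) 0 0 true 0 (P 0 1 1 0) (P (-1) 0 2 1)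
  (D 2 4 17 1) (D 2 4 18 1) (D 2 4 19 1) (D 2 1 15 1) (D 2 2 16 1) (D 2 4 19 1) (D 2 4 18 1) (D 2 4 16 1) (D 2 3 18 1) (D 2 4 21 1)) (N (P 0 6 14 0) (P 2 0 0 0) 0 6 false 1 (P 2 0 0 0) (P (-2) (-1) (-1) 0)
  (D 7 13 8 1) (D 7 12 6 1) (D 7 11 4 1) (D 4 22 3 1) (D 4 23 2 1) (D 7 10 5 1) (D 7 12 7 1) (D 4 23 4 1) (D 4 19 1 1) (D 7 11 5 1)) (N (P 0 16 4 0) (P 0 (-1) 1 0) 3 3 true 0 (P 0 0 (-2) 0) (P 2 1 (-1) 0)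
  (D 1 21 14 1) (D 1 22 13 1) (D 1 24 13 1) (D 1 22 16 1) (D 1 22 15 1) (D 1 24 11 1) (D 1 21 13 1) (D 1 20 15 1) (D 1 24 14 1) (D 1 25 10 1)) (N (P 0 11 9 0) (P 1 0 0 1) 0 6 false 3 (P 2 0 0 0) (P (-1) 0 (-2) (-1))
  (D 4 23 6 1) (D 4 25 4 1) (D 4 25 2 1) (N (P 0 (-8) (-4) 0) (P 0 1 (-1) 0) 3 3 true 0 (P 0 0 2 0) (P (-2) (-1) 1 0)
  (D 7 (-4) (-13) 1) (D 7 (-4) (-14) 1) (D 7 (-6) (-11) 1) (D 7 (-5) (-11) 1) (D 7 (-6) (-12) 1) (N (P 0 (-6) (-18) 0) (P 1 0 0 1) 0 0 true 0 (P (-2) 0 0 0) (P (-1) 0 (-2) (-1))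
  (D 8 0 (-12) 1) (D 8 (-1) (-13) 1) (D 8 (-1) (-15) 1) (D 8 0 (-13) 1) (D 8 0 (-14) 1) (D 8 (-1) (-15) 1) (D 8 (-1) (-13) 1) (D 8 0 (-11) 1) (D 8 1 (-15) 1) (D 8 (-2) (-17) 1)) (D 7 (-4) (-13) 1) (D 7 (-3) (-15) 1) (N (P 6 (-8) (-4) (-10)) (P 0 0 2 0) 0 0 true 0 (P 0 (-1) (-1) 0) (P 1 0 (-2) (-1))
  (D 8 0 (-12) 1) (D 8 (-2) (-12) 1) (D 8 (-1) (-14) 1) (D 8 1 (-12) 1) (D 8 1 (-12) 1) (D 8 (-1) (-14) 1) (D 8 (-1) (-12) 1) (D 8 0 (-11) 1) (D 8 2 (-13) 1) (D 8 2 (-16) 1)) (N (P 6 (-8) (-4) (-2)) (P 0 1 (-1) 0) 4 4 false 0 (P 2 0 0 0) (P (-2) (-1) 1 0)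
  (D 8 (-1) (-15) 1) (D 8 (-1) (-15) 1) (D 1 (-16) (-16) 1) (D 8 (-2) (-15) 1) (D 8 (-2) (-15) 1) (D 1 (-16) (-16) 1) (D 8 (-1) (-15) 1) (D 8 0 (-15) 1) (D 8 (-4) (-13) 1) (D 1 (-16) (-16) 1))) (N (P 5 11 9 5) (P 1 0 0 1) 1 0 false 0 (P 2 0 0 0) (P (-1) 0 (-2) (-1))
  (D 1 30 16 1) (D 1 32 14 1) (D 1 32 11 1) (D 1 34 16 1) (D 1 34 16 1) (D 1 31 14 1) (D 1 32 15 1) (D 1 30 17 1) (D 1 36 14 1) (D 1 34 12 1)) (D 4 25 1 1) (D 4 25 4 1) (N (P 6 11 9 (-2)) (P 0 1 1 0) 0 0 false 4 (P 2 0 0 0) (P (-1) (-1) (-1) (-1))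
  (D 5 26 2 1) (D 5 26 0 1) (D 5 26 (-2) 1) (D 5 27 3 1) (D 5 27 3 1) (D 5 26 (-3) 1) (D 5 26 0 1) (D 5 27 3 1) (D 5 27 3 1) (D 5 26 (-2) 1)) (N (P 0 13 15 0) (P 1 0 0 1) 1 0 false 0 (P 2 0 0 0) (P (-1) 0 (-2) (-1))
  (D 1 27 14 1) (D 1 29 12 1) (D 1 31 9 1) (D 1 30 14 1) (D 1 30 14 1) (D 1 31 10 1) (D 1 30 13 1) (D 1 27 14 1) (D 1 32 12 1) (D 1 33 10 1)) (D 4 25 2 1)) (N (P 0 6 30 0) (P 0 0 (-2) 0) 0 0 true 0 (P 0 1 1 0) (P (-1) 0 2 1)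
  (D 2 4 19 1) (D 2 5 20 1) (D 2 4 22 1) (D 2 3 19 1) (D 2 2 19 1) (D 2 4 22 1) (D 2 5 20 1) (D 2 4 18 1) (D 2 3 21 1) (D 2 10 47 2)) (N (P 0 6 14 0) (P 2 0 0 0) 0 6 false 1 (P 2 0 0 0) (P (-2) (-1) (-1) 0)
  (D 7 13 8 1) (D 7 12 6 1) (D 7 11 4 1) (D 4 22 3 1) (D 4 23 2 1) (D 7 10 5 1) (D 7 12 7 1) (D 4 23 4 1) (D 4 19 1 1) (D 7 11 5 1)) (N (P 12 6 14 (-4)) (P 0 1 1 0) 0 0 false 3 (P 2 0 0 0) (P (-1) (-1) (-1) (-1))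
  (D 4 25 3 1) (D 4 25 1 1) (D 4 25 (-1) 1) (D 4 26 2 1) (D 4 26 2 1) (D 4 25 (-2) 1) (D 4 25 1 1) (D 4 26 3 1) (D 4 26 3 1) (D 4 25 (-1) 1)))

def u15 : Tr :=
  (N (P 0 6 14 0) (P 0 0 2 0) 0 5 false 5 (P 2 0 0 0) (P 1 0 (-2) (-1))
  (N (P 0 6 14 8) (P 0 0 (-2) 0) 0 0 true 0 (P 0 1 1 0) (P (-1) 0 2 1)
  (D 2 4 18 1) (D 2 5 19 1) (D 2 4 21 1) (D 2 3 18 1) (D 2 2 18 1) (D 2 4 21 1) (D 2 5 18 1) (D 2 4 17 1) (D 2 3 20 1) (D 2 5 22 1)) (N (P 0 6 14 8) (P 0 0 (-2) 0) 0 0 true 0 (P 0 1 1 0) (P (-1) 0 2 1)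
  (D 2 4 18 1) (D 2 5 19 1) (D 2 4 21 1) (D 2 3 18 1) (D 2 2 18 1) (D 2 4 21 1) (D 2 5 18 1) (D 2 4 17 1) (D 2 3 20 1) (D 2 5 22 1)) (N (P 12 6 14 (-4)) (P 0 1 1 0) 0 0 false 3 (P 2 0 0 0) (P (-1) (-1) (-1) (-1))
  (D 4 25 3 1) (D 4 25 1 1) (D 4 25 (-1) 1) (D 4 26 2 1) (D 4 26 2 1) (D 4 25 (-2) 1) (D 4 25 1 1) (D 4 26 3 1) (D 4 26 3 1) (D 4 25 (-1) 1)) (N (P 0 6 14 6) (P 0 0 (-2) 0) 0 0 true 0 (P 0 1 1 0) (P (-1) 0 2 1)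
  (D 2 4 17 1) (D 2 4 18 1) (D 2 4 19 1) (D 2 1 15 1) (D 2 2 16 1) (D 2 4 19 1) (D 2 4 18 1) (D 2 4 16 1) (D 2 3 18 1) (D 2 4 21 1)) (N (P 0 6 14 0) (P 2 0 0 0) 0 6 false 1 (P 2 0 0 0) (P (-2) (-1) (-1) 0)
  (D 7 13 8 1) (D 7 12 6 1) (D 7 11 4 1) (D 4 22 3 1) (D 4 23 2 1) (D 7 10 5 1) (D 7 12 7 1) (D 4 23 4 1) (D 4 19 1 1) (D 7 11 5 1)) (N (P 0 16 4 0) (P 0 (-1) 1 0) 3 3 true 0 (P 0 0 (-2) 0) (P 2 1 (-1) 0)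
  (D 1 21 14 1) (D 1 22 13 1) (D 1 24 13 1) (D 1 22 16 1) (D 1 22 15 1) (D 1 24 11 1) (D 1 21 13 1) (D 1 20 15 1) (D 1 24 14 1) (D 1 25 10 1)) (N (P 0 11 9 0) (P 1 0 0 1) 0 6 false 3 (P 2 0 0 0) (P (-1) 0 (-2) (-1))
  (D 4 23 6 1) (D 4 25 4 1) (D 4 25 2 1) (N (P 0 6 24 0) (P (-2) 0 0 0) 2 1 false 1 (P 2 0 0 0) (P 2 1 1 0)
  (D 2 12 28 1) (D 2 12 28 1) (D 2 12 28 1) (N (P 0 10 30 0) (P (-2) 0 0 0) 2 2 true 0 (P 1 0 0 (-1)) (P 2 1 1 0)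
  (D 1 5 35 1) (D 1 6 34 1) (D 1 9 32 1) (D 1 7 33 1) (D 1 8 33 1) (D 1 9 32 1) (D 1 5 34 1) (D 1 4 35 1) (D 1 9 33 1) (N (P 0 6 46 0) (P 0 0 (-2) 0) 0 0 true 0 (P 0 1 1 0) (P (-1) 0 2 1)
  (D 2 4 34 1) (D 2 5 34 1) (D 2 2 38 1) (D 2 (-1) 34 1) (D 2 (-1) 35 1) (D 2 1 38 1) (D 2 5 34 1) (D 2 4 33 1) (D 2 (-2) 36 1) (D 2 (-2) 40 1))) (N (P (-10) 6 24 0) (P (-2) 0 0 0) 3 3 false 0 (P 2 0 0 0) (P 2 1 1 0)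
  (D 1 (-1) 30 1) (D 1 (-1) 33 1) (D 1 2 34 1) (D 1 (-3) 34 1) (D 1 (-3) 34 1) (D 1 0 34 1) (D 1 (-1) 33 1) (D 1 (-2) 30 1) (D 1 (-2) 36 1) (D 1 0 35 1)) (D 2 12 28 1) (D 2 12 28 1) (N (P (-16) 6 24 0) (P 2 0 0 0) 0 0 true 0 (P (-1) 0 0 1) (P (-2) (-1) (-1) 0)
  (D 4 5 18 1) (D 4 3 18 1) (D 4 0 16 1) (D 4 2 16 1) (D 4 1 16 1) (D 4 (-1) 16 1) (D 4 3 18 1) (D 4 4 18 1) (D 4 (-1) 14 1) (D 4 (-2) 15 1)) (N (P 0 2 24 0) (P (-2) 0 0 0) 3 3 false 0 (P 2 0 0 0) (P 2 1 1 0)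
  (D 1 2 30 1) (D 1 2 33 1) (D 1 5 36 1) (D 1 0 33 1) (D 1 0 33 1) (D 1 4 35 1) (D 1 1 33 1) (D 1 1 30 1) (D 1 1 36 1) (D 1 3 37 1)) (D 2 12 28 1)) (N (P 5 11 9 5) (P 1 0 0 1) 1 0 false 0 (P 2 0 0 0) (P (-1) 0 (-2) (-1))
  (D 1 30 16 1) (D 1 32 14 1) (D 1 32 11 1) (D 1 34 16 1) (D 1 34 16 1) (D 1 31 14 1) (D 1 32 15 1) (D 1 30 17 1) (D 1 36 14 1) (D 1 34 12 1)) (D 4 25 1 1) (D 4 25 4 1) (N (P 6 11 9 (-2)) (P 0 1 1 0) 0 0 false 4 (P 2 0 0 0) (P (-1) (-1) (-1) (-1))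
  (D 5 26 2 1) (D 5 26 0 1) (D 5 26 (-2) 1) (D 5 27 3 1) (D 5 27 3 1) (D 5 26 (-3) 1) (D 5 26 0 1) (D 5 27 3 1) (D 5 27 3 1) (D 5 26 (-2) 1)) (N (P 0 13 15 0) (P 1 0 0 1) 1 0 false 0 (P 2 0 0 0) (P (-1) 0 (-2) (-1))
  (D 1 27 14 1) (D 1 29 12 1) (D 1 31 9 1) (D 1 30 14 1) (D 1 30 14 1) (D 1 31 10 1) (D 1 30 13 1) (D 1 27 14 1) (D 1 32 12 1) (D 1 33 10 1)) (D 4 25 2 1)) (N (P 0 6 30 0) (P 0 0 (-2) 0) 0 0 true 0 (P 0 1 1 0) (P (-1) 0 2 1)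
  (D 2 4 19 1) (D 2 5 20 1) (D 2 4 22 1) (D 2 3 19 1) (D 2 2 19 1) (D 2 4 22 1) (D 2 5 20 1) (D 2 4 18 1) (D 2 3 21 1) (D 2 10 47 2)) (N (P 0 6 14 0) (P 2 0 0 0) 0 6 false 1 (P 2 0 0 0) (P (-2) (-1) (-1) 0)
  (D 7 13 8 1) (D 7 12 6 1) (D 7 11 4 1) (D 4 22 3 1) (D 4 23 2 1) (D 7 10 5 1) (D 7 12 7 1) (D 4 23 4 1) (D 4 19 1 1) (D 7 11 5 1)) (N (P 12 6 14 (-4)) (P 0 1 1 0) 0 0 false 3 (P 2 0 0 0) (P (-1) (-1) (-1) (-1))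
  (D 4 25 3 1) (D 4 25 1 1) (D 4 25 (-1) 1) (D 4 26 2 1) (D 4 26 2 1) (D 4 25 (-2) 1) (D 4 25 1 1) (D 4 26 3 1) (D 4 26 3 1) (D 4 25 (-1) 1)))

def u16 : Tr :=
  (N (P 0 0 0 0) (P (-1) 0 0 (-1)) 2 3 false 3 (P 2 0 0 0) (P 1 0 2 1)
  u13 (N (P 0 (-2) 6 0) (P (-1) 0 0 1) 0 4 false 4 (P 2 0 0 0) (P 2 1 1 0)
  (D 5 1 7 1) (D 5 3 8 1) (D 5 8 10 1) (N (P 0 3 11 0) (P 0 0 2 0) 0 5 false 5 (P 2 0 0 0) (P 2 1 1 0)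
  (D 6 10 11 1) (D 6 12 10 1) (D 6 13 10 1) (D 6 12 12 1) (D 6 10 12 1) (D 6 13 10 1) (D 6 11 10 1) (D 6 10 12 1) (D 6 10 12 1) (D 6 13 10 1)) (N (P (-5) (-2) 6 5) (P 1 0 0 (-1)) 0 0 true 0 (P 1 0 0 1) (P (-1) (-1) 1 1)
  (D 2 (-8) 2 1) (D 2 (-7) 4 1) (D 2 (-9) 5 1) (D 2 (-9) 2 1) (D 2 (-10) 1 1) (D 2 (-10) 4 1) (D 2 (-8) 3 1) (D 2 (-8) 1 1) (D 2 (-10) 3 1) (D 2 (-19) 13 2)) (D 5 8 10 1) (D 5 3 8 1) (N (P 6 (-2) 6 2) (P 0 0 2 0) 0 5 false 5 (P 2 0 0 0) (P 2 1 1 0)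
  (D 6 7 10 1) (D 6 8 10 1) (D 6 12 8 1) (D 6 8 11 1) (D 6 9 11 1) (D 6 11 9 1) (D 6 8 10 1) (D 6 7 11 1) (D 6 8 11 1) (D 6 11 8 1)) (N (P 0 (-4) 12 0) (P 1 0 0 (-1)) 0 0 true 0 (P 1 0 0 1) (P (-1) (-1) 1 1)
  (D 2 (-8) 0 1) (D 2 (-7) 1 1) (D 2 (-9) 3 1) (D 2 (-9) 0 1) (D 2 (-9) 0 1) (D 2 (-9) 3 1) (D 2 (-7) 1 1) (D 2 (-7) 0 1) (D 2 (-9) 1 1) (D 2 (-9) 5 1)) (D 5 8 10 1)) (N (P 0 (-2) 6 0) (P (-1) 0 0 1) 0 4 false 4 (P 2 0 0 0) (P 2 1 1 0)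
  (D 5 1 7 1) (D 5 3 8 1) (D 5 8 10 1) (N (P 0 (-5) 15 0) (P 1 0 0 (-1)) 0 0 true 0 (P 1 0 0 1) (P (-1) (-1) 1 1)
  (D 2 (-9) 4 1) (D 2 (-8) 5 1) (D 2 (-10) 7 1) (D 2 (-10) 4 1) (D 2 (-10) 4 1) (D 2 (-10) 7 1) (D 2 (-8) 5 1) (D 2 (-8) 3 1) (D 2 (-10) 5 1) (D 2 (-10) 9 1)) (N (P (-5) (-2) 6 5) (P 1 0 0 (-1)) 0 0 true 0 (P 1 0 0 1) (P (-1) (-1) 1 1)
  (D 2 (-8) 4 1) (D 2 (-8) 5 1) (D 2 (-9) 7 1) (D 2 (-9) 6 1) (D 2 (-10) 5 1) (D 2 (-10) 6 1) (D 2 (-8) 5 1) (D 2 (-9) 4 1) (D 2 (-11) 6 1) (D 2 (-10) 9 1)) (D 5 8 10 1) (D 5 3 8 1) (N (P 6 (-2) 6 2) (P 0 0 2 0) 0 5 false 5 (P 2 0 0 0) (P 2 1 1 0)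
  (D 6 7 10 1) (D 6 8 10 1) (D 6 12 8 1) (D 6 8 11 1) (D 6 9 11 1) (D 6 11 9 1) (D 6 8 10 1) (D 6 7 11 1) (D 6 8 11 1) (D 6 11 8 1)) u14 (D 5 8 10 1)) (N (P 0 (-3) (-9) 0) (P (-1) 0 0 (-1)) 3 0 false 0 (P 2 0 0 0) (P 1 0 2 1)
  (D 1 (-11) (-7) 1) (D 1 (-13) (-6) 1) (D 1 (-14) (-4) 1) (D 1 (-15) (-7) 1) (D 1 (-15) (-7) 1) (D 1 (-15) (-5) 1) (D 1 (-15) (-7) 1) (D 1 (-11) (-8) 1) (D 1 (-16) (-6) 1) (D 1 (-16) (-4) 1)) (N (P (-5) 0 0 (-5)) (P (-1) 0 0 (-1)) 3 0 false 0 (P 2 0 0 0) (P 1 0 2 1)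
  (D 1 (-11) (-7) 1) (D 1 (-13) (-5) 1) (D 1 (-13) (-2) 1) (D 1 (-15) (-7) 1) (D 1 (-15) (-7) 1) (D 1 (-14) (-4) 1) (D 1 (-13) (-6) 1) (D 1 (-11) (-8) 1) (D 1 (-16) (-5) 1) (D 1 (-15) (-3) 1)) (N (P 0 (-2) 6 0) (P (-1) 0 0 1) 0 4 false 4 (P 2 0 0 0) (P 2 1 1 0)
  (D 5 1 7 1) (D 5 3 8 1) (D 5 8 10 1) (N (P 0 (-5) 15 0) (P 1 0 0 (-1)) 0 0 true 0 (P 1 0 0 1) (P (-1) (-1) 1 1)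
  (D 2 (-9) 4 1) (D 2 (-9) 5 1) (D 2 (-10) 7 1) (D 2 (-10) 4 1) (D 2 (-10) 4 1) (D 2 (-10) 7 1) (D 2 (-9) 5 1) (D 2 (-8) 3 1) (D 2 (-11) 5 1) (D 2 (-10) 9 1)) (N (P (-5) (-2) 6 5) (P 1 0 0 (-1)) 0 0 true 0 (P 1 0 0 1) (P (-1) (-1) 1 1)
  (D 2 (-8) 4 1) (D 2 (-8) 6 1) (D 2 (-9) 7 1) (D 2 (-9) 5 1) (D 2 (-10) 4 1) (D 2 (-10) 7 1) (D 2 (-9) 5 1) (D 2 (-8) 3 1) (D 2 (-11) 5 1) (D 2 (-10) 9 1)) (D 5 8 10 1) (D 5 3 8 1) (N (P 6 (-2) 6 2) (P 0 0 2 0) 0 5 false 5 (P 2 0 0 0) (P 2 1 1 0)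
  (D 6 7 10 1) (D 6 8 10 1) (D 6 12 8 1) (D 6 8 11 1) (D 6 9 11 1) (D 6 11 9 1) (D 6 8 10 1) (D 6 7 11 1) (D 6 8 11 1) (D 6 11 8 1)) (N (P 0 (-4) 12 0) (P (-1) 0 0 1) 1 0 false 0 (P 2 0 0 0) (P 2 1 1 0)
  (D 1 (-2) 16 1) (D 1 0 18 1) (D 1 3 16 1) (D 1 (-1) 19 1) (D 1 (-1) 19 1) (D 1 3 17 1) (D 1 0 19 1) (D 1 (-3) 17 1) (D 1 2 20 1) (D 1 5 19 1)) (D 5 8 10 1)) (N (P 0 (-4) (-12) 0) (P 1 0 0 (-1)) 3 0 false 0 (P 2 0 0 0) (P (-1) (-1) 1 1)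
  (D 1 (-9) (-13) 1) (D 1 (-9) (-13) 1) (D 1 (-9) (-13) 1) (D 1 (-8) (-13) 1) (D 1 (-8) (-13) 1) (D 1 (-9) (-13) 1) (D 1 (-9) (-13) 1) (D 1 (-8) (-13) 1) (D 1 (-8) (-13) 1) (D 1 (-9) (-13) 1)) (N (P (-8) 0 0 (-8)) (P 1 0 0 1) 0 0 true 0 (P (-2) 0 0 0) (P (-1) 0 (-2) (-1))
  (D 4 1 (-10) 1) (D 4 0 (-11) 1) (D 4 0 (-13) 1) (D 4 0 (-12) 1) (D 4 0 (-12) 1) (D 4 0 (-13) 1) (D 4 1 (-11) 1) (D 4 0 (-10) 1) (D 4 0 (-13) 1) (D 4 0 (-14) 1)) (N (P 0 0 0 0) (P 0 (-1) 1 0) 0 4 false 3 (P 2 0 0 0) (P 2 1 (-1) 0)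
  (D 5 1 5 1) (D 5 3 6 1) (D 5 7 9 1) (D 5 1 6 1) (D 5 2 6 1) (D 5 5 7 1) (D 5 3 6 1) (D 5 0 5 1) (D 5 1 6 1) (D 5 6 8 1)) (N (P 0 (-2) 6 0) (P (-1) 0 0 1) 0 4 false 4 (P 2 0 0 0) (P 2 1 1 0)
  (D 5 1 7 1) (D 5 3 8 1) (D 5 8 10 1) (N (P 0 (-5) 15 0) (P 1 0 0 (-1)) 0 0 true 0 (P 1 0 0 1) (P (-1) (-1) 1 1)
  (D 2 (-9) 5 1) (D 2 (-10) 6 1) (D 2 (-11) 7 1) (D 2 (-11) 6 1) (D 2 (-11) 7 1) (D 2 (-12) 7 1) (D 2 (-10) 5 1) (D 2 (-9) 5 1) (D 2 (-12) 7 1) (D 2 (-12) 9 1)) (N (P (-5) (-2) 6 5) (P 1 0 0 (-1)) 0 0 true 0 (P 1 0 0 1) (P (-1) (-1) 1 1)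
  (D 2 (-8) 5 1) (D 2 (-9) 6 1) (D 2 (-10) 7 1) (D 2 (-10) 7 1) (D 2 (-11) 6 1) (D 2 (-11) 7 1) (D 2 (-10) 5 1) (D 2 (-9) 5 1) (D 2 (-12) 7 1) (D 2 (-13) 7 1)) (D 5 8 10 1) (D 5 3 8 1) (N (P 6 (-2) 6 2) (P 0 0 2 0) 0 5 false 5 (P 2 0 0 0) (P 2 1 1 0)
  (D 6 7 10 1) (D 6 8 10 1) (D 6 12 8 1) (D 6 8 11 1) (D 6 9 11 1) (D 6 11 9 1) (D 6 8 10 1) (D 6 7 11 1) (D 6 8 11 1) (D 6 11 8 1)) u15 (D 5 8 10 1)))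

def u17 : Tr :=
  (N (P 0 8 0 0) (P 1 0 0 1) 2 2 false 0 (P 2 0 0 0) (P (-1) 0 (-2) (-1))
  (N (P 0 12 12 0) (P (-1) 0 0 (-1)) 0 0 true 0 (P 2 0 0 0) (P 1 0 2 1)
  (D 4 10 7 1) (D 4 11 7 1) (D 4 12 9 1) (D 4 9 7 1) (D 4 9 8 1) (D 4 12 9 1) (D 4 11 6 1) (D 4 10 6 1) (D 4 10 9 1) (D 4 13 10 1)) (N (P 0 12 12 0) (P (-1) 0 0 (-1)) 0 0 true 0 (P 2 0 0 0) (P 1 0 2 1)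
  (D 4 10 7 1) (D 4 11 7 1) (D 4 12 9 1) (D 4 9 7 1) (D 4 9 8 1) (D 4 12 9 1) (D 4 11 6 1) (D 4 10 6 1) (D 4 10 9 1) (D 4 13 10 1)) u16 (N (P 0 8 0 0) (P 0 1 (-1) 0) 0 3 false 1 (P 2 0 0 0) (P (-2) (-1) (-1) 0)
  (D 2 15 (-8) 1) (D 2 13 (-7) 1) (D 2 13 (-7) 1) (D 2 15 (-8) 1) (D 2 15 (-8) 1) (D 2 13 (-7) 1) (D 2 13 (-7) 1) (D 2 15 (-7) 1) (D 2 13 (-12) 1) (D 2 11 (-9) 1)) (N (P 5 8 0 5) (P 1 0 0 1) 3 3 false 0 (P 2 0 0 0) (P (-1) 0 (-2) (-1))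
  (D 1 23 7 1) (D 1 25 6 1) (D 1 26 3 1) (D 1 29 7 1) (D 1 29 7 1) (D 1 26 5 1) (D 1 25 6 1) (D 1 25 8 1) (D 1 30 5 1) (D 1 27 4 1)) (N (P 0 12 (-12) 0) (P 1 0 0 (-1)) 0 0 false 1 (P 2 0 0 0) (P (-1) (-1) 1 1)
  (D 2 16 (-16) 1) (D 2 14 (-16) 1) (D 2 13 (-15) 1) (D 2 15 (-17) 1) (D 2 15 (-17) 1) (D 2 13 (-15) 1) (D 2 14 (-16) 1) (D 2 16 (-17) 1) (D 2 16 (-17) 1) (D 2 13 (-15) 1)) (N (P 0 12 (-12) 0) (P (-1) 0 0 1) 1 1 true 0 (P (-1) 0 0 (-1)) (P 1 1 (-1) (-1))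
  (D 1 21 0 1) (D 1 21 (-1) 1) (D 1 23 (-3) 1) (D 1 23 1 1) (D 1 23 1 1) (D 1 23 (-3) 1) (D 1 21 (-1) 1) (D 1 21 0 1) (D 1 23 (-1) 1) (D 1 23 (-5) 1)) (N (P 8 8 0 8) (P (-1) 0 0 (-1)) 0 0 true 0 (P 2 0 0 0) (P 1 0 2 1)
  (D 4 11 7 1) (D 4 12 8 1) (D 4 12 10 1) (D 4 10 8 1) (D 4 10 8 1) (D 4 12 10 1) (D 4 12 8 1) (D 4 10 7 1) (D 4 11 10 1) (D 4 14 11 1)) (N (P 0 8 0 0) (P 0 1 (-1) 0) 0 3 false 1 (P 2 0 0 0) (P (-2) (-1) (-1) 0)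
  (D 2 15 (-8) 1) (D 2 13 (-7) 1) (D 2 13 (-7) 1) (D 2 15 (-8) 1) (D 2 15 (-8) 1) (D 2 13 (-7) 1) (D 2 13 (-7) 1) (D 2 15 (-7) 1) (D 2 13 (-12) 1) (D 2 11 (-9) 1)) (N (P 0 10 6 0) (P 1 0 0 1) 3 3 false 0 (P 2 0 0 0) (P (-1) 0 (-2) (-1))
  (D 1 20 3 1) (D 1 21 2 1) (D 1 24 0 1) (N (P 0 15 1 0) (P 0 1 1 0) 0 0 false 1 (P 2 0 0 0) (P (-1) (-1) (-1) (-1))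
  (D 2 29 (-3) 1) (D 2 29 (-5) 1) (D 2 29 (-6) 1) (D 2 30 (-4) 1) (D 2 29 (-3) 1) (D 2 29 (-6) 1) (D 2 29 (-5) 1) (D 2 29 (-3) 1) (D 2 29 (-3) 1) (D 2 29 (-6) 1)) (N (P 5 10 6 5) (P (-1) 0 0 (-1)) 0 0 true 0 (P 2 0 0 0) (P 1 0 2 1)
  (D 5 11 8 1) (D 5 12 8 1) (D 5 13 10 1) (D 5 10 9 1) (D 5 10 9 1) (D 5 13 11 1) (D 5 12 8 1) (D 5 10 7 1) (D 5 11 10 1) (D 5 15 11 1)) (D 1 24 0 1) (D 1 21 2 1) (N (P 6 10 6 (-2)) (P 0 1 1 0) 0 0 false 1 (P 2 0 0 0) (P (-1) (-1) (-1) (-1))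
  (D 2 27 (-2) 1) (D 2 27 (-4) 1) (D 2 27 (-8) 1) (D 2 28 (-3) 1) (D 2 29 (-3) 1) (D 2 28 (-7) 1) (D 2 27 (-4) 1) (D 2 28 (-2) 1) (D 2 29 (-4) 1) (D 2 27 (-7) 1)) (N (P 0 12 12 0) (P (-1) 0 0 (-1)) 0 0 true 0 (P 2 0 0 0) (P 1 0 2 1)
  (D 5 10 7 1) (D 5 11 7 1) (D 5 12 9 1) (D 5 9 7 1) (D 5 9 8 1) (D 5 12 9 1) (D 5 11 6 1) (D 5 10 6 1) (D 5 10 9 1) (D 5 13 10 1)) (D 1 24 0 1)))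

def u18 : Tr :=
  (N (P 0 0 0 0) (P 2 0 0 0) 0 0 true 0 (P (-1) 0 0 1) (P (-2) (-1) (-1) 0)
  u5 u11 (N (P 0 6 0 0) (P 2 0 0 0) 1 1 false 0 (P 2 0 0 0) (P (-2) (-1) (-1) 0)
  (D 1 9 (-5) 1) (D 1 9 (-8) 1) (D 1 7 (-9) 1) (N (P 0 12 0 0) (P (-2) 0 0 0) 0 0 true 0 (P 1 0 0 (-1)) (P 2 1 1 0)
  (D 3 10 6 1) (D 3 11 5 1) (D 3 14 6 1) (D 3 12 7 1) (D 3 12 7 1) (D 3 14 6 1) (D 3 11 6 1) (D 3 9 6 1) (D 3 13 7 1) (D 3 15 5 1)) (N (P 10 6 0 0) (P (-2) 0 0 0) 0 0 true 0 (P 1 0 0 (-1)) (P 2 1 1 0)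
  (D 3 10 6 1) (D 3 11 5 1) (D 3 13 6 1) (D 3 11 7 1) (D 3 12 7 1) (D 3 13 6 1) (D 3 11 6 1) (D 3 9 6 1) (D 3 13 7 1) (D 3 15 5 1)) (D 1 7 (-10) 1) (D 1 9 (-7) 1) (N (P 0 6 0 (-4)) (P 0 1 (-1) 0) 0 0 false 1 (P 2 0 0 0) (P (-2) (-1) 1 0)
  (D 2 8 (-10) 1) (D 2 6 (-11) 1) (D 2 4 (-12) 1) (D 2 10 (-9) 1) (D 2 10 (-9) 1) (D 2 4 (-12) 1) (D 2 6 (-11) 1) (D 2 10 (-9) 1) (D 2 10 (-9) 1) (D 2 4 (-12) 1)) (N (P 0 10 0 0) (P (-2) 0 0 0) 0 0 true 0 (P 1 0 0 (-1)) (P 2 1 1 0)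
  (D 3 9 6 1) (D 3 10 6 1) (D 3 12 6 1) (D 3 11 6 1) (D 3 11 7 1) (D 3 12 6 1) (D 3 10 6 1) (D 3 9 5 1) (D 3 12 7 1) (D 3 13 6 1)) (D 1 7 (-9) 1)) (N (P 0 6 0 0) (P 2 0 0 0) 1 1 false 0 (P 2 0 0 0) (P (-2) (-1) (-1) 0)
  (D 1 12 (-6) 1) (D 1 12 (-9) 1) (D 1 10 (-10) 1) (D 1 14 (-9) 1) (D 1 14 (-9) 1) (D 1 12 (-10) 1) (D 1 13 (-9) 1) (D 1 12 (-6) 1) (D 1 13 (-12) 1) (D 1 12 (-11) 1)) (N (P 10 0 0 0) (P 2 0 0 0) 1 1 false 0 (P 2 0 0 0) (P (-2) (-1) (-1) 0)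
  (D 1 11 (-6) 1) (D 1 11 (-9) 1) (D 1 9 (-10) 1) (D 1 14 (-10) 1) (D 1 14 (-10) 1) (D 1 10 (-10) 1) (D 1 12 (-9) 1) (D 1 12 (-6) 1) (D 1 13 (-12) 1) (D 1 10 (-11) 1)) (N (P 10 0 0 0) (P 2 0 0 0) 1 1 false 0 (P 2 0 0 0) (P (-2) (-1) (-1) 0)
  (D 1 9 (-5) 1) (D 1 8 (-8) 1) (D 1 7 (-9) 1) (N (P 10 6 0 0) (P (-2) 0 0 0) 0 0 true 0 (P 1 0 0 (-1)) (P 2 1 1 0)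
  (D 3 10 6 1) (D 3 11 5 1) (D 3 13 6 1) (D 3 11 7 1) (D 3 12 7 1) (D 3 13 6 1) (D 3 11 6 1) (D 3 9 6 1) (D 3 13 7 1) (D 3 15 5 1)) (N (P 20 0 0 0) (P (-2) 0 0 0) 0 0 true 0 (P 1 0 0 (-1)) (P 2 1 1 0)
  (D 3 10 6 1) (D 3 11 5 1) (D 3 13 6 1) (D 3 11 7 1) (D 3 11 7 1) (D 3 13 6 1) (D 3 11 6 1) (D 3 9 6 1) (D 3 13 7 1) (D 3 15 5 1)) (D 1 6 (-10) 1) (D 1 8 (-8) 1) (N (P 10 0 0 (-4)) (P 0 1 (-1) 0) 0 0 false 1 (P 2 0 0 0) (P (-2) (-1) 1 0)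
  (D 2 7 (-10) 1) (D 2 6 (-11) 1) (D 2 4 (-12) 1) (D 2 9 (-10) 1) (D 2 9 (-10) 1) (D 2 2 (-13) 1) (D 2 6 (-11) 1) (D 2 9 (-10) 1) (D 2 9 (-10) 1) (D 2 4 (-12) 1)) (N (P 10 4 0 0) (P (-2) 0 0 0) 0 0 true 0 (P 1 0 0 (-1)) (P 2 1 1 0)
  (D 3 8 6 1) (D 3 10 6 1) (D 3 12 6 1) (D 3 11 6 1) (D 3 11 6 1) (D 3 12 7 1) (D 3 9 6 1) (D 3 9 5 1) (D 3 12 7 1) (D 3 13 7 1)) (D 1 7 (-9) 1)) (N (P 0 8 0 0) (P 1 0 0 1) 1 1 false 0 (P 2 0 0 0) (P (-1) 0 (-2) (-1))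
  (D 1 15 (-1) 1) (D 1 15 (-1) 1) (D 1 15 (-1) 1) (D 1 31 (-1) 2) (D 1 31 (-1) 2) (D 1 15 (-1) 1) (D 1 15 (-1) 1) (D 1 31 (-1) 2) (D 1 31 (-1) 2) (D 1 15 (-1) 1)) (N (P 16 0 0 0) (P (-2) 0 0 0) 0 0 true 0 (P 1 0 0 (-1)) (P 2 1 1 0)
  (D 2 8 5 1) (D 2 9 6 1) (D 2 11 6 1) (D 2 10 6 1) (D 2 10 6 1) (D 2 11 7 1) (D 2 9 6 1) (D 2 8 5 1) (D 2 11 6 1) (D 2 12 7 1)) (N (P 0 4 0 0) (P 2 0 0 0) 1 1 false 0 (P 2 0 0 0) (P (-2) (-1) (-1) 0)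
  (D 1 9 (-6) 1) (D 1 8 (-7) 1) (D 1 6 (-8) 1) (D 1 10 (-7) 1) (D 1 9 (-7) 1) (D 1 7 (-10) 1) (D 1 9 (-8) 1) (D 1 8 (-4) 1) (D 1 9 (-9) 1) (D 1 8 (-12) 1)) (N (P 0 4 0 0) (P 2 0 0 0) 1 1 false 0 (P 2 0 0 0) (P (-2) (-1) (-1) 0)
  (D 1 6 (-5) 1) (D 1 5 (-7) 1) (D 1 4 (-12) 1) (N (P 0 10 0 0) (P (-2) 0 0 0) 0 0 true 0 (P 1 0 0 (-1)) (P 2 1 1 0)
  (D 3 9 6 1) (D 3 10 6 1) (D 3 12 6 1) (D 3 11 6 1) (D 3 11 7 1) (D 3 12 6 1) (D 3 10 6 1) (D 3 9 5 1) (D 3 12 7 1) (D 3 13 6 1)) (N (P 10 4 0 0) (P (-2) 0 0 0) 0 0 true 0 (P 1 0 0 (-1)) (P 2 1 1 0)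
  (D 3 8 6 1) (D 3 10 6 1) (D 3 12 6 1) (D 3 11 6 1) (D 3 11 6 1) (D 3 12 7 1) (D 3 9 6 1) (D 3 9 5 1) (D 3 12 7 1) (D 3 13 7 1)) (D 1 4 (-12) 1) (D 1 5 (-7) 1) (N (P 0 4 0 (-4)) (P 0 1 (-1) 0) 0 0 false 1 (P 2 0 0 0) (P (-2) (-1) 1 0)
  (D 2 5 (-13) 1) (D 2 3 (-13) 1) (D 2 0 (-16) 1) (D 2 5 (-14) 1) (D 2 5 (-14) 1) (D 2 1 (-16) 1) (D 2 4 (-13) 1) (D 2 6 (-13) 1) (D 2 4 (-14) 1) (D 2 0 (-15) 1)) u17 (D 1 4 (-11) 1)))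

theorem check : chk [(0, tP)] ⟨⟨0, 0⟩, ⟨0, 0⟩⟩ ⟨⟨0, 0⟩, ⟨0, 0⟩⟩ u18 = true := by decide +kernel

theorem not_three : ¬ Surroundable P0 3 := not_surroundable_of_chk _ check

end Pool.Agent.Lib.MP_270077_co.UpperData
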