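import Pool.Agent.Lib.MP_270077_co.Hull
import Pool.Agent.Lib.MP_270077_co.UpperData

/-!
Three layers are impossible for arbitrary families of nonoverlapping copies.
-/

namespace Pool.Agent.Lib.MP_270077_co

open Set Metric

theorem P0_compact : IsCompact P0 := by
  rw [P0_eq_hull]
  exact (Set.toFinite _).isCompact_convexHull ℝ

theorem copy_dist {D : ℝ} (hD : P0 ⊆ closedBall 0 D) {Q : Set ℂ} (hQ : IsCopy P0 Q) {x y : ℂ}
    (hx : x ∈ Q) (hy : y ∈ Q) : dist x y ≤ 2 * D := by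
  obtain ⟨g, rfl⟩ := hQ
  obtain ⟨a, ha, rfl⟩ := hx
  obtain ⟨b, hb, rfl⟩ := hy
  rw [g.dist_eq]
  have h1 := mem_closedBall.1 (hD ha)
  have h2 := mem_closedBall.1 (hD hb)
  linarith [dist_triangle_right a b 0]

theorem finite_near {T : Set (Set ℂ)} (hc : ∀ Q ∈ T, IsCopy P0 Q)
    (hd : T.PairwiseDisjoint interior) (R : ℝ) : {Q ∈ T | ∃ x ∈ Q, dist x 0 ≤ R}.Finite := by
  obtain ⟨D, hD⟩ := P0_compact.isBounded.subset_closedBall 0
  obtain ⟨c, hc0⟩ := interior_P0_nonempty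
  obtain ⟨ρ, hρ, hb⟩ := Metric.isOpen_iff.1 isOpen_interior c hc0
  have hcen : ∀ Q ∈ T, ∃ z, ball z ρ ⊆ interior Q := by
    intro Q hQ
    obtain ⟨g, rfl⟩ := hc Q hQ
    refine ⟨g c, interior_maximal ?_ isOpen_ball⟩
    rw [← g.image_ball]
    exact image_mono (hb.trans interior_subset)
  choose! z hz using hcen
  obtain ⟨t, -, htf, ht⟩ := finite_cover_balls_of_compact
    (isCompact_closedBall (0 : ℂ) (R + 2 * D)) (half_pos hρ)
  have hin : ∀ Q ∈ {Q ∈ T | ∃ x ∈ Q, dist x 0 ≤ R}, ∃ w ∈ t, z Q ∈ ball w (ρ / 2) := by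
    rintro Q ⟨hQ, x, hx, hxR⟩
    have h1 := copy_dist hD (hc Q hQ) (interior_subset (hz Q hQ (mem_ball_self hρ))) hx
    have h2 : z Q ∈ closedBall (0 : ℂ) (R + 2 * D) :=
      mem_closedBall.2 (by linarith [dist_triangle (z Q) x 0])
    simpa using ht h2
  choose! w hw using hin
  refine Finite.of_injOn (f := w) (fun Q hQ => (hw Q hQ).1) (fun Q hQ Q' hQ' e => ?_) htf
  by_contra hne
  have h1 := mem_ball.1 (hw Q hQ).2
  have h2 := mem_ball.1 (hw Q' hQ').2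
  rw [← e] at h2
  have h3 : z Q ∈ ball (z Q') ρ :=
    mem_ball.2 (by linarith [dist_triangle_right (z Q) (z Q') (w Q)])
  exact Set.disjoint_left.1 (hd hQ.1 hQ'.1 hne) (hz Q hQ.1 (mem_ball_self hρ)) (hz Q' hQ'.1 h3)

theorem nest_of_layers {F : ℕ → Set (Set ℂ)} (h0 : P0 ∈ F 0) (hc : ∀ Q ∈ F 3, IsCopy P0 Q)
    (hd : (F 3).PairwiseDisjoint interior)
    (hs : ∀ k < 3, F k ⊆ F (k + 1) ∧ ⋃₀ F k ⊆ interior (⋃₀ F (k + 1))) :
    ∃ G, Nest G ∧ P0 ∈ G 0 := by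
  obtain ⟨D, hD⟩ := P0_compact.isBounded.subset_closedBall 0
  obtain ⟨c, hc0⟩ := interior_P0_nonempty
  have hcD := mem_closedBall.1 (hD (interior_subset hc0))
  have hD0 : 0 ≤ D := dist_nonneg.trans hcD
  have hm : ∀ j k, j ≤ k → k ≤ 3 → F j ⊆ F k := by
    intro j k hjk hk
    induction hjk with
    | refl => exact Subset.rfl
    | step _ ih => exact (ih (by omega)).trans (hs _ (by omega)).1
  refine ⟨fun k => {Q ∈ F (min k 3) | ∃ x ∈ Q, dist x 0 ≤ k * (2 * D + 1) + D}, ⟨?_, ?_, ?_⟩,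
    h0, c, interior_subset hc0, by simpa using hcD⟩
  · rintro j k hjk Q ⟨hQ, x, hx, hxR⟩
    refine ⟨hm _ _ (by omega) (by omega) hQ, x, hx, hxR.trans ?_⟩
    have : (j : ℝ) ≤ k := by exact_mod_cast hjk
    nlinarith
  · intro k _
    have hsub := hm (min k 3) 3 (by omega) le_rfl
    exact ⟨(finite_near hc hd _).subset fun Q hQ => ⟨hsub hQ.1, hQ.2⟩,
      fun Q hQ => hc Q (hsub hQ.1), fun Q hQ Q' hQ' hne => hd (hsub hQ.1) (hsub hQ'.1) hne⟩
  · rintro k hk y ⟨Q, ⟨hQ, x, hx, hxR⟩, hy⟩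
    rw [min_eq_left hk.le] at hQ
    have h1 := copy_dist hD (hc Q (hm k 3 hk.le le_rfl hQ)) hy hx
    have h2 := (hs k hk).2 ⟨Q, hQ, hy⟩
    refine interior_maximal (s := _) (t := ball y 1 ∩ interior (⋃₀ F (k + 1))) ?_
      (isOpen_ball.inter isOpen_interior) ⟨mem_ball_self one_pos, h2⟩
    rintro u ⟨hu, hu'⟩
    obtain ⟨Q', hQ', huQ⟩ := interior_subset hu'
    refine ⟨Q', ⟨by rwa [min_eq_left (by omega)], u, huQ, ?_⟩, huQ⟩
    have h3 := mem_ball.1 hu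
    push_cast
    linarith [dist_triangle u y 0, dist_triangle y x 0]

theorem not_nest : ¬ ∃ F, Nest F ∧ P0 ∈ F 0 := by
  rintro ⟨F, hF, h0⟩
  refine chk_sound hF _ _ _ _ UpperData.check ?_ ?_
  · intro x hx
    rw [List.mem_singleton] at hx
    rw [hx, sem_tP]
    exact ⟨by norm_num, h0⟩
  · intro Q hQ
    simp only [List.head?_cons, Option.mem_def, Option.some.injEq] at hQ
    rw [← hQ, sem_tP]
    have h2 : (Pt.mk ⟨0, 0⟩ ⟨0, 0⟩).ev = V 0 := Vq_ev 0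
    have h3 : (V 0 : ℂ) = 0 := rfl
    refine Filter.Eventually.of_forall fun s => ?_
    rw [h2]
    nth_rewrite 2 [h3]
    rw [mul_zero, add_zero]
    exact h_V_nonneg 0

end Pool.Agent.Lib.MP_270077_co
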